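import Pool.Agent.QD.D
import Pool.Agent.ADT.T3

/-!
# The criterion: the field of functions of the curve is contained in a tower over `F(t)`
-/

set_option autoImplicit false

namespace Pool.Agent.QD

open Polynomial Pool.Agent.WLD Pool.Agent.ADT Pool.Agent.UQ WeierstrassCurve
  WeierstrassCurve.Affine Pool.Agent.EFF

open scoped Classical

/-- `F(t)` has transcendence degree two -/
theorem cr_trdeg {k M : Type} [Field k] [Field M] [Algebra k M] (F : IntermediateField k M)
    (htF : Algebra.trdeg k F = 1) (t : M) (ht : Transcendental F t)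
    (hal : ∀ y : M, IsAlgebraic (F ⊔ IntermediateField.adjoin k {t} : IntermediateField k M) y) :
    Algebra.trdeg k M = 2 := by
  have h1 : Algebra.trdeg F M = 1 := by
    refine trdeg_one t ht fun b => ?_
    have h2 : (IntermediateField.adjoin F {t}).restrictScalars k =
        F ⊔ IntermediateField.adjoin k {t} := by
      rw [IntermediateField.restrictScalars_adjoin, IntermediateField.adjoin_union,
        IntermediateField.adjoin_self]
    have h3 := hal b
    rw [← h2] at h3
    exact h3
  have h4 := _root_.trdeg_add_eq k F (A := M)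
  rw [← h4, htF, h1]
  norm_num

/-- `M` is algebraic over `K(x)` -/
theorem cr_alg {k K M : Type} [Field k] [Field K] [Field M] [Algebra k K] [Algebra k M]
    [Algebra K M] [IsScalarTower k K M] (htd : Algebra.trdeg k M = 2) (s : K)
    (hs : Transcendental k s) (x : M) (hx : Transcendental K x) (b : M) :
    IsAlgebraic (IntermediateField.adjoin K ({x} : Set M)) b := by
  have h1 : (1 : Cardinal) ≤ Algebra.trdeg k K := by
    have h1 : Algebra.Transcendental k K := ⟨⟨s, hs⟩⟩
    exact Cardinal.one_le_iff_pos.2 (_root_.trdeg_pos k K)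
  have hm : x ∈ IntermediateField.adjoin K ({x} : Set M) :=
    IntermediateField.mem_adjoin_simple_self K x
  have h2 : (1 : Cardinal) ≤ Algebra.trdeg K (IntermediateField.adjoin K ({x} : Set M)) := by
    have h1 : Algebra.Transcendental K (IntermediateField.adjoin K ({x} : Set M)) :=
      ⟨⟨⟨x, hm⟩, fun h => hx (h.algebraMap (A := M))⟩⟩
    exact Cardinal.one_le_iff_pos.2 (_root_.trdeg_pos K _)
  have h3 := _root_.trdeg_add_eq k K (A := M)
  have h4 := _root_.trdeg_add_eq K (IntermediateField.adjoin K ({x} : Set M)) (A := M)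
  rw [htd] at h3
  have h5 : Algebra.trdeg (IntermediateField.adjoin K ({x} : Set M)) M = 0 := by
    by_contra h0
    have h6 : (1 : Cardinal) ≤ Algebra.trdeg (IntermediateField.adjoin K ({x} : Set M)) M :=
      Cardinal.one_le_iff_ne_zero.2 h0
    have h7 : (1 : Cardinal) + (1 + 1) ≤ 2 := by
      rw [← h3, ← h4]
      exact add_le_add h1 (add_le_add h2 h6)
    norm_num at h7
  exact (trdeg_eq_zero_iff.1 h5).isAlgebraic b

/-- **The criterion.** `K` is a finite extension of `k(s)`, the field of functions `K(x, y)` of the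
elliptic curve `W` over `K` is contained in `F(t)(S)`, where `F / k` is finitely generated of
transcendence degree one, `t` is transcendental over `F`, and `φ(z) = f(t)` for `z` in `S`, with an
additive separable polynomial `φ` and a polynomial `f` over `F` whose exponents have digit sum at most
two; `M` is an algebraic closure of `F(t)`. -/
theorem sha_critK {k K Kb : Type} [Field k] [Finite k] [Field K] [Field Kb] [Algebra k K]
    [Algebra k Kb] [Algebra K Kb] [IsScalarTower k K Kb] [IsAlgClosed Kb]
    [Algebra.IsAlgebraic K Kb] (p : ℕ) [Fact p.Prime] [CharP k p] (s : K)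
    (hs : Transcendental k s) (hKs : FiniteDimensional (IntermediateField.adjoin k {s}) K)
    (W : WeierstrassCurve K) (hΔ : W.Δ ≠ 0)
    {M : Type} [Field M] [Algebra k M] [Algebra K M] [IsScalarTower k K M] [IsAlgClosed M]
    (F : IntermediateField k M) (t x y : M) (S : Finset M) (hF : F.FG)
    (htF : Algebra.trdeg k F = 1) (ht : Transcendental F t)
    (hal : ∀ b : M, IsAlgebraic (F ⊔ IntermediateField.adjoin k {t} : IntermediateField k M) b)
    (hx : Transcendental K x) (hy : (W.baseChange M).toAffine.Equation x y)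
    (hS : ∀ z ∈ S, ∃ φ f : F[X], AddPoly φ ∧ derivative φ ≠ 0 ∧ Low2 p f ∧
      aeval z φ = aeval t f)
    (hK : ∀ a : K, algebraMap K M a ∈ F ⊔ IntermediateField.adjoin k {t} ⊔
      IntermediateField.adjoin k (S : Set M))
    (hxS : x ∈ F ⊔ IntermediateField.adjoin k {t} ⊔ IntermediateField.adjoin k (S : Set M))
    (hyS : y ∈ F ⊔ IntermediateField.adjoin k {t} ⊔ IntermediateField.adjoin k (S : Set M))
    (ℓ : ℕ) (hℓ : ℓ.Prime) (hℓk : (ℓ : k) ≠ 0)
    (c : ℕ → (Kb ≃ₐ[K] Kb) → Pts W Kb) (hc : ShaSys W k ℓ c) (n : ℕ) :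
    Principal W (T1B.geo k K Kb) (c n) := by
  have htd : Algebra.trdeg k M = 2 := cr_trdeg F htF t ht hal
  obtain ⟨B, hB⟩ : ∃ B, B = F ⊔ IntermediateField.adjoin k {t} ⊔
    IntermediateField.adjoin k (S : Set M) := ⟨_, rfl⟩
  rw [← hB] at hK hxS hyS
  obtain ⟨L, hL⟩ : ∃ L : IntermediateField K M, L = IntermediateField.adjoin K {x, y} := ⟨_, rfl⟩
  have hLal : ∀ b : M, IsAlgebraic (L.restrictScalars k) b := by
    intro b
    have h1 := cr_alg htd s hs x hx b
    have h2 : IntermediateField.adjoin K ({x} : Set M) ≤ L := by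
      rw [hL, IntermediateField.adjoin_le_iff, Set.singleton_subset_iff]
      exact IntermediateField.subset_adjoin _ _ (by simp)
    exact alg_le h2 h1
  have hle : L.restrictScalars k ≤ B := by
    let B' : IntermediateField K M := B.toSubfield.toIntermediateField hK
    have hLB : L ≤ B' := by
      rw [hL, IntermediateField.adjoin_le_iff]
      rintro b (rfl | hb)
      · exact hxS
      · rw [Set.mem_singleton_iff.1 hb]
        exact hyS
    exact fun b hb => hLB hb
  have hemt : Emt (L.restrictScalars k) :=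
    tower_Q p htd F hF htF t hal S hS (L.restrictScalars k) (hle.trans hB.le) hLal
  have hT1 : T1B.T1 k L ℓ := t1_of_emt (L.restrictScalars k) hLal hemt ℓ hℓ hℓk
  have hxL : x ∈ L := by
    rw [hL]
    exact IntermediateField.subset_adjoin _ _ (by simp)
  have hyL : y ∈ L := by
    rw [hL]
    exact IntermediateField.subset_adjoin _ _ (by simp)
  have hell : W.IsElliptic := by
    rw [WeierstrassCurve.isElliptic_iff, isUnit_iff_ne_zero]
    exact hΔ
  have hxy : (W.baseChange L).toAffine.Equation (⟨x, hxL⟩ : L) ⟨y, hyL⟩ := by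
    have h1 := (equation_iff _ _).1 hy
    refine (equation_iff _ _).2 ?_
    simp only [map_a₁, map_a₂, map_a₃, map_a₄, map_a₆, WeierstrassCurve.baseChange] at h1 ⊢
    apply Subtype.ext
    exact h1
  refine sha_geo (F := L) W hell ⟨x, hxL⟩ ⟨y, hyL⟩ hxy ?_ ?_ s
    (fun a => Algebra.IsAlgebraic.isAlgebraic a) ℓ hℓ hℓk hT1 c hc n
  · intro h
    exact hx (h.algebraMap (A := M))
  · intro f
    have a1 : (IntermediateField.adjoin K ({⟨x, hxL⟩, ⟨y, hyL⟩} : Set L)).map L.val =
        IntermediateField.adjoin K {x, y} := by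
      rw [IntermediateField.adjoin_map, Set.image_pair]
      rfl
    have a2 : (f : M) ∈ (IntermediateField.adjoin K
        ({⟨x, hxL⟩, ⟨y, hyL⟩} : Set L)).map L.val := by
      rw [a1, ← hL]
      exact f.2
    obtain ⟨g, hg, hgf⟩ := a2
    have a3 : g = f := Subtype.ext hgf
    rw [← a3]
    exact hg

end Pool.Agent.QD
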