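import Pool.Agent.WLD.EA4

/-!
# Finite extensions of the field of constants
-/

set_option autoImplicit false

namespace Pool.Agent.QD

open Polynomial Pool.Agent.TUQ Pool.Agent.WLD Pool.Agent.UQ Pool.Agent.T1B

universe u

section base

variable {k k' F Ω : Type u} [Field k] [Field k'] [Field F] [Field Ω] [Algebra k Ω] [Algebra k' Ω]
  [Algebra F Ω] [Algebra k k'] [IsScalarTower k k' Ω] [Algebra.IsAlgebraic k k']

theorem eb_alg (x : Ω) : IsAlgebraic k x ↔ IsAlgebraic k' x :=
  ⟨fun h => h.tower_top k', fun h => h.restrictScalars k⟩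

theorem eb_geo : geo k F Ω = geo k' F Ω := by
  ext σ
  exact ⟨fun h x hx => h x ((eb_alg (k := k) (k' := k') x).2 hx),
    fun h x hx => h x ((eb_alg (k := k) (k' := k') x).1 hx)⟩

theorem eb_val (V : ValuationSubring Ω) :
    (∀ x : k, algebraMap k Ω x ∈ V) ↔ ∀ x : k', algebraMap k' Ω x ∈ V := by
  constructor
  · intro h x
    have h1 : IsIntegral k x := (Algebra.IsAlgebraic.isAlgebraic x).isIntegral
    obtain ⟨P, hP, hx⟩ := h1
    let ι : k →+* V := (algebraMap k Ω).codRestrict V.toSubring h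
    have h2 : IsIntegral V (algebraMap k' Ω x) := by
      refine ⟨P.map ι, hP.map ι, ?_⟩
      rw [eval₂_map]
      have h3 : (algebraMap V Ω).comp ι = (algebraMap k' Ω).comp (algebraMap k k') := by
        ext a
        show algebraMap k Ω a = algebraMap k' Ω (algebraMap k k' a)
        rw [← IsScalarTower.algebraMap_apply]
      rw [h3, ← hom_eval₂, hx, map_zero]
    obtain ⟨y, hy⟩ := IsIntegrallyClosed.isIntegral_iff.1 h2
    rw [← hy]
    exact y.2
  · intro h x
    rw [IsScalarTower.algebraMap_apply k k' Ω]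
    exact h _

theorem eb_sys (ℓ : ℕ) (c : ℕ → (Ω ≃ₐ[F] Ω) → (Ω ≃ₐ[F] Ω) → Ωˣ) : Sys k ℓ c ↔ Sys k' ℓ c := by
  have hg : geo k F Ω = geo k' F Ω := eb_geo
  constructor
  · intro h
    exact { lc := h.lc
            coc := hg ▸ h.coc
            zero := hg ▸ h.zero
            step := hg ▸ h.step
            inv := hg ▸ h.inv
            unr := fun n V hV hV' => hg ▸ h.unr n V ((eb_val V).2 hV) hV' }
  · intro h
    exact { lc := h.lc
            coc := hg ▸ h.coc
            zero := hg ▸ h.zero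
            step := hg ▸ h.step
            inv := hg ▸ h.inv
            unr := fun n V hV hV' => hg ▸ h.unr n V ((eb_val V).1 hV) hV' }

theorem eb_sysG (ℓ : ℕ) : sysG k F Ω ℓ = sysG k' F Ω ℓ := by
  ext c
  exact eb_sys ℓ c

theorem eb_triG : triG k F Ω = triG k' F Ω := by
  ext c
  show (∀ n, Triv (geo k F Ω) (c n)) ↔ ∀ n, Triv (geo k' F Ω) (c n)
  rw [eb_geo (k := k) (k' := k')]

theorem eb_vl (ℓ : ℕ) : Nonempty (Vl k F Ω ℓ ≃* Vl k' F Ω ℓ) := by
  unfold Vl
  rw [eb_sysG (k := k) (k' := k') ℓ, eb_triG (k := k) (k' := k')]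
  exact ⟨MulEquiv.refl _⟩

end base

section

variable {k M : Type u} [Field k] [Field M] [Algebra k M]

/-- restriction of scalars and composita -/
theorem eb_sup {k' : IntermediateField k M} (K₁ K₂ : IntermediateField k' M) :
    (K₁ ⊔ K₂).restrictScalars k = K₁.restrictScalars k ⊔ K₂.restrictScalars k := by
  apply le_antisymm
  · obtain ⟨L, hL⟩ : ∃ L, L = K₁.restrictScalars k ⊔ K₂.restrictScalars k := ⟨_, rfl⟩
    rw [← hL]
    have h1 : ∀ x : k', algebraMap k' M x ∈ L := by
      intro x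
      rw [hL]
      exact (le_sup_left : K₁.restrictScalars k ≤ _) (K₁.algebraMap_mem x)
    let L' : IntermediateField k' M := L.toSubfield.toIntermediateField h1
    have h2 : K₁ ⊔ K₂ ≤ L' := by
      refine sup_le (fun x hx => ?_) (fun x hx => ?_)
      · show x ∈ L
        rw [hL]
        exact (le_sup_left : K₁.restrictScalars k ≤ _) hx
      · show x ∈ L
        rw [hL]
        exact (le_sup_right : K₂.restrictScalars k ≤ _) hx
    exact fun x hx => h2 hx
  · refine sup_le (fun x hx => ?_) (fun x hx => ?_)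
    · exact (le_sup_left : K₁ ≤ K₁ ⊔ K₂) hx
    · exact (le_sup_right : K₂ ≤ K₁ ⊔ K₂) hx

theorem eb_fg {k' : IntermediateField k M} (hk' : k'.FG) (K₁ : IntermediateField k' M)
    (h : K₁.FG) : (K₁.restrictScalars k).FG := by
  obtain ⟨S, hS⟩ := h
  have h1 : K₁.restrictScalars k = k' ⊔ IntermediateField.adjoin k (S : Set M) := by
    rw [← hS, IntermediateField.restrictScalars_adjoin, IntermediateField.adjoin_union,
      IntermediateField.adjoin_self]
  rw [h1]
  exact IntermediateField.fg_sup hk' ⟨S, rfl⟩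

theorem eb_trdeg {k' : IntermediateField k M} [Algebra.IsAlgebraic k k']
    (K₁ : IntermediateField k' M) (h : Algebra.trdeg k' K₁ ≤ 1) :
    Algebra.trdeg k (K₁.restrictScalars k) ≤ 1 := by
  have h1 : Algebra.trdeg k k' = 0 := trdeg_eq_zero_iff.2 inferInstance
  have h2 := trdeg_add_eq k k' (A := K₁)
  rw [h1, zero_add] at h2
  calc Algebra.trdeg k (K₁.restrictScalars k) = Algebra.trdeg k K₁ := rfl
    _ = Algebra.trdeg k' K₁ := h2.symm
    _ ≤ 1 := h

/-- **The field of constants may be enlarged.** -/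
theorem emt_base (k' : IntermediateField k M) [FiniteDimensional k k']
    (F : IntermediateField k' M) (h : Emt F) : Emt (F.restrictScalars k) := by
  obtain ⟨n, L, hL, hV⟩ := h
  have hk' : k'.FG := k'.fg_of_fg_toSubalgebra (Subalgebra.fg_of_fg_toSubmodule
    (Module.Finite.iff_fg.1 (inferInstanceAs (Module.Finite k k'))))
  refine ⟨n, fun j => (L j).restrictScalars k, fun j => ⟨?_, fun x => ?_⟩, fun ℓ hℓ hℓk => ?_⟩
  · obtain ⟨K₁, K₂, f1, f2, d1, d2, e⟩ := (hL j).1
    refine ⟨K₁.restrictScalars k, K₂.restrictScalars k, eb_fg hk' K₁ f1, eb_fg hk' K₂ f2,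
      eb_trdeg K₁ d1, eb_trdeg K₂ d2, ?_⟩
    show (L j).restrictScalars k = _
    rw [e, eb_sup]
  · exact (hL j).2 x
  · have hℓ' : (ℓ : k') ≠ 0 := by
      intro h0
      apply hℓk
      apply (algebraMap k k').injective
      rw [map_zero, map_natCast, h0]
    obtain ⟨f, hf⟩ := hV ℓ hℓ hℓ'
    obtain ⟨e⟩ := eb_vl (k := k) (k' := k') (F := F) (Ω := M) ℓ
    have hj : ∀ j, Nonempty (Vl k (L j) M ℓ ≃* Vl k' (L j) M ℓ) := fun j => eb_vl ℓ
    let g := fun j => (hj j).some
    obtain ⟨E⟩ : Nonempty ((∀ j, Vl k' (L j) M ℓ) ≃* ∀ j, Vl k (L j) M ℓ) :=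
      ⟨MulEquiv.piCongrRight fun j => (g j).symm⟩
    refine ⟨(E.toMonoidHom.comp f).comp e.toMonoidHom, fun x y hxy => ?_⟩
    exact e.injective (hf (E.injective hxy))

end

end Pool.Agent.QD
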