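import Pool.Agent.QD.D
import Pool.Agent.ADT.T3
import Pool.Agent.KTW.E4

/-!
# The Jacobians of the curves `v ^ 2 = B₄(s) u ^ 4 + B₃(s) u ^ 3 + B₂(s) u ^ 2 + B₁(s) u + B₀(s)`,
where the `B_i` are sums of an additive polynomial and a constant
-/

set_option autoImplicit false

namespace Pool.Agent.QD

open Polynomial Pool.Agent.TUQ Pool.Agent.WLD Pool.Agent.ADT Pool.Agent.UQ WeierstrassCurve
  WeierstrassCurve.Affine Pool.Agent.EFF

open scoped Classical

/-- polynomials in an element of a field -/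
theorem h_aeval_mem {k M : Type} [Field k] [Field M] [Algebra k M] (B : IntermediateField k M)
    (s : M) (hs : s ∈ B) (F : k[X]) : aeval s F ∈ B := by
  have h1 : aeval s F ∈ Algebra.adjoin k ({s} : Set M) :=
    Polynomial.aeval_mem_adjoin_singleton k s
  have h2 : Algebra.adjoin k ({s} : Set M) ≤ B.toSubalgebra :=
    Algebra.adjoin_le (by simpa using hs)
  exact h2 h1

/-- additive polynomials -/
theorem h_addPoly {E : Type} [Field E] (p : ℕ) [Fact p.Prime] [CharP E p] (g : E[X])
    (hg : Low1 p g) (h0 : g.coeff 0 = 0) : AddPoly g := by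
  intro L _ _ a b
  have hL : CharP L p := charP_of_injective_algebraMap (algebraMap E L).injective p
  simp only [aeval_def, eval₂_eq_sum, Polynomial.sum]
  rw [← Finset.sum_add_distrib]
  refine Finset.sum_congr rfl fun n hn => ?_
  rcases hg n (mem_support_iff.1 hn) with rfl | ⟨i, rfl⟩
  · exact absurd h0 (mem_support_iff.1 hn)
  · rw [add_pow_char_pow, mul_add]

theorem low1_sum {p : ℕ} {R ι : Type*} [Semiring R] (s : Finset ι) (f : ι → R[X])
    (h : ∀ i ∈ s, Low1 p (f i)) : Low1 p (∑ i ∈ s, f i) := by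
  intro n hn
  rw [finsetSum_coeff] at hn
  obtain ⟨i, hi, h1⟩ := Finset.exists_ne_zero_of_sum_ne_zero hn
  exact h i hi n h1

/-- `k(u)` has transcendence degree one -/
theorem h_trdeg {k M : Type} [Field k] [Field M] [Algebra k M] (u : M) (hu : Transcendental k u) :
    Algebra.trdeg k (IntermediateField.adjoin k ({u} : Set M)) = 1 := by
  have hm : u ∈ IntermediateField.adjoin k ({u} : Set M) :=
    IntermediateField.mem_adjoin_simple_self k u
  refine trdeg_one (⟨u, hm⟩ : IntermediateField.adjoin k ({u} : Set M)) ?_ ?_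
  · intro h
    exact hu (h.algebraMap (A := M))
  · intro b
    refine isAlgebraic_algebraMap (⟨b, ?_⟩ : IntermediateField.adjoin k
      {(⟨u, hm⟩ : IntermediateField.adjoin k ({u} : Set M))})
    have h1 : (IntermediateField.adjoin k {(⟨u, hm⟩ : IntermediateField.adjoin k
        ({u} : Set M))}).map (IntermediateField.adjoin k ({u} : Set M)).val =
        IntermediateField.adjoin k ({u} : Set M) := by
      rw [IntermediateField.adjoin_map, Set.image_singleton]
      rfl
    have h2 : (b : M) ∈ (IntermediateField.adjoin k {(⟨u, hm⟩ : IntermediateField.adjoin k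
        ({u} : Set M))}).map (IntermediateField.adjoin k ({u} : Set M)).val := by
      rw [h1]
      exact b.2
    obtain ⟨c, hc, hcb⟩ := h2
    have h3 : c = b := Subtype.ext hcb
    rw [← h3]
    exact hc

/-- the separable case -/
theorem emt_Hsep {k M : Type} [Field k] [Field M] [Algebra k M] [IsAlgClosed M] (p : ℕ)
    [Fact p.Prime] [CharP k p] (htd : Algebra.trdeg k M = 2) (u v t : M)
    (hu : Transcendental k u) (B : Fin 5 → k[X]) (hB : ∀ i, Low1 p (B i))
    (hsep : ∃ i, (B i).coeff 1 ≠ 0) (hv : v ^ 2 = ∑ i : Fin 5, aeval t (B i) * u ^ (i : ℕ))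
    (hal : ∀ y : M, IsAlgebraic (IntermediateField.adjoin k ({u, v, t} : Set M)) y)
    (F : IntermediateField k M) (hF : F ≤ IntermediateField.adjoin k ({u, v, t} : Set M))
    (hFal : ∀ y : M, IsAlgebraic F y) : Emt F := by
  obtain ⟨E, hE⟩ : ∃ E, E = IntermediateField.adjoin k ({u} : Set M) := ⟨_, rfl⟩
  have huE : u ∈ E := by
    rw [hE]
    exact IntermediateField.mem_adjoin_simple_self k u
  have hCE : CharP E p := charP_of_injective_algebraMap (algebraMap k E).injective p
  obtain ⟨U, hU⟩ : ∃ U : E, U = ⟨u, huE⟩ := ⟨_, rfl⟩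
  have hUu : algebraMap E M U = u := by rw [hU]; rfl
  have hUt : Transcendental k U := by
    intro h
    exact hu (hUu ▸ h.algebraMap (A := M))
  obtain ⟨G, hG⟩ : ∃ G : Fin 5 → k[X], G = fun i => B i - C ((B i).coeff 0) := ⟨_, rfl⟩
  have hG0 : ∀ i, (G i).coeff 0 = 0 := fun i => by
    rw [hG]
    simp
  have hGn : ∀ i n, n ≠ 0 → (G i).coeff n = (B i).coeff n := fun i n hn => by
    rw [hG]
    simp only [coeff_sub, coeff_C, if_neg hn, sub_zero]
  have hGl : ∀ i, Low1 p (G i) := by
    intro i n hn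
    rcases eq_or_ne n 0 with rfl | h0
    · exact Or.inl rfl
    · rw [hGn i n h0] at hn
      exact hB i n hn
  obtain ⟨φ, hφ⟩ : ∃ φ : E[X], φ = ∑ i : Fin 5, C (U ^ (i : ℕ)) * (G i).map (algebraMap k E) :=
    ⟨_, rfl⟩
  have hφl : Low1 p φ := by
    rw [hφ]
    refine low1_sum _ _ fun i _ n hn => ?_
    refine (hGl i).map (algebraMap k E) n fun h => hn ?_
    rw [coeff_C_mul, h, mul_zero]
  have hφ0 : φ.coeff 0 = 0 := by
    rw [hφ, finsetSum_coeff]
    refine Finset.sum_eq_zero fun i _ => ?_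
    rw [coeff_C_mul, coeff_map, hG0, map_zero, mul_zero]
  have hφ1 : φ.coeff 1 ≠ 0 := by
    have h1 : φ.coeff 1 = aeval U (∑ i : Fin 5, C ((B i).coeff 1) * X ^ (i : ℕ)) := by
      rw [hφ, finsetSum_coeff, map_sum]
      refine Finset.sum_congr rfl fun i _ => ?_
      rw [coeff_C_mul, coeff_map, hGn i 1 one_ne_zero, map_mul, map_pow, aeval_X, aeval_C, mul_comm]
    rw [h1]
    intro h2
    have h3 := transcendental_iff_injective.1 hUt (h2.trans (map_zero _).symm)
    obtain ⟨i, hi⟩ := hsep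
    apply hi
    have h4 := congrArg (fun q : k[X] => q.coeff i) h3
    simp only [finsetSum_coeff, coeff_C_mul, coeff_X_pow, coeff_zero] at h4
    rw [Finset.sum_eq_single i] at h4
    · simpa using h4
    · intro j _ hj
      rw [if_neg (fun h => hj (Fin.ext h.symm)), mul_zero]
    · intro h
      exact absurd (Finset.mem_univ i) h
  have hφadd : AddPoly φ := h_addPoly p φ hφl hφ0
  have hφd : derivative φ ≠ 0 := by
    intro h
    apply hφ1
    have h1 := congrArg (fun q : E[X] => q.coeff 0) h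
    simp only [coeff_derivative, coeff_zero] at h1
    simpa using h1
  obtain ⟨f, hf⟩ : ∃ f : E[X], f = X ^ 2 - C (∑ i : Fin 5, U ^ (i : ℕ) *
      algebraMap k E ((B i).coeff 0)) := ⟨_, rfl⟩
  have hfl : Low2 p f := by
    intro n hn
    rw [hf, coeff_sub, coeff_X_pow, coeff_C] at hn
    by_cases h2 : n = 2
    · right; right
      exact ⟨0, 0, by rw [h2, pow_zero]; rfl⟩
    · left
      by_contra h0
      rw [if_neg h2, if_neg h0, sub_zero] at hn
      exact hn rfl
  have hat : ∀ q : k[X], aeval t (q.map (algebraMap k E)) = aeval t q := fun q =>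
    aeval_map_algebraMap E t q
  have heq : aeval t φ = aeval v f := by
    have h1 : aeval t φ = ∑ i : Fin 5, u ^ (i : ℕ) * (aeval t (B i) -
        algebraMap k M ((B i).coeff 0)) := by
      rw [hφ, map_sum]
      refine Finset.sum_congr rfl fun i _ => ?_
      rw [map_mul, aeval_C, map_pow, hUu, hat, hG, map_sub, aeval_C]
    have h2 : aeval v f = v ^ 2 - ∑ i : Fin 5, u ^ (i : ℕ) * algebraMap k M ((B i).coeff 0) := by
      rw [hf, map_sub, map_pow, aeval_X, aeval_C, map_sum]
      congr 1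
      refine Finset.sum_congr rfl fun i _ => ?_
      rw [map_mul, map_pow, hUu, ← IsScalarTower.algebraMap_apply k E M]
    rw [h1, h2, hv, ← Finset.sum_sub_distrib]
    refine Finset.sum_congr rfl fun i _ => ?_
    ring
  obtain ⟨A, hA⟩ : ∃ A : IntermediateField k M, A = E ⊔ IntermediateField.adjoin k {v} := ⟨_, rfl⟩
  have huA : u ∈ A := by
    rw [hA]
    exact (le_sup_left : E ≤ _) huE
  have hvA : v ∈ A := by
    rw [hA]
    exact (le_sup_right : IntermediateField.adjoin k {v} ≤ _)
      (IntermediateField.mem_adjoin_simple_self k v)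
  have hEA : E ≤ A := by
    rw [hA]
    exact le_sup_left
  have htA : IsAlgebraic A t := by
    let ι : E →+* A := (IntermediateField.inclusion hEA : E →ₐ[k] A)
    have hfm : aeval v f ∈ A := by
      rw [hf, map_sub, map_pow, aeval_X, aeval_C]
      exact sub_mem (pow_mem hvA _) (hEA (SetLike.coe_mem _))
    have hφm : aeval t (φ.map ι) = aeval t φ := by
      rw [aeval_def, aeval_def, eval₂_map]
      rfl
    refine ⟨φ.map ι - C (⟨aeval v f, hfm⟩ : A), ?_, ?_⟩
    · intro h
      have h1 := congrArg (fun q : A[X] => q.coeff 1) h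
      simp only [coeff_sub, coeff_map, coeff_C, coeff_zero, if_neg one_ne_zero, sub_zero] at h1
      exact hφ1 ((map_eq_zero_iff ι ι.injective).1 h1)
    · rw [map_sub, hφm, aeval_C, heq]
      exact sub_self _
  have hal' : ∀ y : M, IsAlgebraic A y := by
    intro y
    refine algTrans (K := IntermediateField.adjoin k ({u, v, t} : Set M)) A (fun b => ?_) y (hal y)
    refine alg_adjoin A _ ?_ (b : M) b.2
    rintro _ (rfl | rfl | rfl)
    · exact isAlgebraic_algebraMap (⟨_, huA⟩ : A)
    · exact isAlgebraic_algebraMap (⟨_, hvA⟩ : A)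
    · exact htA
  rw [hA] at hal'
  refine tower_Q p htd E ?_ ?_ v hal' {t} ?_ F ?_ hFal
  · rw [hE]
    exact ⟨{u}, by rw [Finset.coe_singleton]⟩
  · rw [hE]
    exact h_trdeg u hu
  · intro z hz
    rw [Finset.mem_singleton.1 hz]
    exact ⟨φ, f, hφadd, hφd, hfl, heq⟩
  · refine hF.trans ?_
    rw [IntermediateField.adjoin_le_iff]
    rintro _ (rfl | rfl | rfl)
    · exact (le_sup_left.trans le_sup_left : E ≤ _) huE
    · exact (le_sup_right.trans le_sup_left : IntermediateField.adjoin k {_} ≤ _)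
        (IntermediateField.mem_adjoin_simple_self k _)
    · refine (le_sup_right : IntermediateField.adjoin k (({_} : Finset M) : Set M) ≤ _) ?_
      exact IntermediateField.subset_adjoin _ _ (by simp)

/-- the `p`-th root of a polynomial with exponents `0`, `p ^ j`, `j ≥ 1` -/
theorem h_root {k : Type} [Field k] [Finite k] (p : ℕ) [Fact p.Prime] [CharP k p] (B : k[X])
    (hB : Low1 p B) (h1 : B.coeff 1 = 0) : ∃ b : k[X], Low1 p b ∧ b ^ p = B := by
  have hp0 : p ≠ 0 := (Fact.out : p.Prime).ne_zero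
  have hd : derivative B = 0 := by
    ext n
    rw [coeff_derivative, coeff_zero]
    by_cases hc : B.coeff (n + 1) = 0
    · rw [hc, zero_mul]
    · rcases hB _ hc with h | ⟨i, hi⟩
      · omega
      · rcases Nat.eq_zero_or_pos i with rfl | h0
        · rw [pow_zero] at hi
          rw [hi] at hc
          exact absurd h1 hc
        · have h2 : ((n + 1 : ℕ) : k) = 0 := by
            rw [hi, CharP.cast_eq_zero_iff k p]
            exact dvd_pow_self p (by omega)
          have h3 : (n : k) + 1 = 0 := by exact_mod_cast h2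
          rw [h3, mul_zero]
  have hbij : Function.Bijective (frobenius k p) := by
    have h2 := Finite.injective_iff_bijective (f := frobenius k p)
    exact h2.1 (RingHom.injective _)
  let σ : k ≃+* k := RingEquiv.ofBijective (frobenius k p) hbij
  refine ⟨(contract p B).map σ.symm.toRingHom, ?_, ?_⟩
  · intro n hn
    have h2 : B.coeff (n * p) ≠ 0 := by
      intro h
      apply hn
      rw [coeff_map, coeff_contract hp0, h, map_zero]
    rcases hB _ h2 with h3 | ⟨i, hi⟩
    · left
      rcases Nat.mul_eq_zero.1 h3 with h | h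
      · exact h
      · exact absurd h hp0
    · right
      rcases Nat.eq_zero_or_pos i with rfl | h0
      · rw [pow_zero] at hi
        have := Nat.eq_one_of_mul_eq_one_left hi
        exact absurd this (Fact.out : p.Prime).ne_one
      · obtain ⟨j, rfl⟩ : ∃ j, i = j + 1 := ⟨i - 1, by omega⟩
        refine ⟨j, ?_⟩
        rw [pow_succ] at hi
        exact Nat.eq_of_mul_eq_mul_right (Nat.pos_of_ne_zero hp0) hi
  · rw [← map_frobenius_expand, ← map_expand, Polynomial.map_map]
    have h2 : (frobenius k p).comp σ.symm.toRingHom = RingHom.id k := by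
      ext a
      exact σ.apply_symm_apply a
    rw [h2, Polynomial.map_id, expand_contract p hd hp0]

/-- the field of functions of the surface -/
theorem emt_H {k M : Type} [Field k] [Finite k] [Field M] [Algebra k M] [IsAlgClosed M] (p : ℕ)
    [Fact p.Prime] [CharP k p] (htd : Algebra.trdeg k M = 2) (t : M) (i₀ : Fin 5) (N : ℕ) :
    ∀ (u v : M), Transcendental k u → ∀ B : Fin 5 → k[X], (∀ i, Low1 p (B i)) →
      (B i₀).natDegree ≠ 0 → (B i₀).natDegree ≤ N →
      v ^ 2 = ∑ i : Fin 5, aeval t (B i) * u ^ (i : ℕ) →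
      (∀ y : M, IsAlgebraic (IntermediateField.adjoin k ({u, v, t} : Set M)) y) →
      ∀ F : IntermediateField k M, F ≤ IntermediateField.adjoin k ({u, v, t} : Set M) →
      (∀ y : M, IsAlgebraic F y) → Emt F := by
  have hp0 : 0 < p := (Fact.out : p.Prime).pos
  have hCM : CharP M p := charP_of_injective_algebraMap (algebraMap k M).injective p
  induction N with
  | zero =>
    intro u v _ B _ h1 h2
    exact absurd (Nat.le_zero.1 h2) h1
  | succ N ih =>
    intro u v hu B hB h1 h2 hv hal F hF hFal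
    by_cases hsep : ∃ i, (B i).coeff 1 ≠ 0
    · exact emt_Hsep p htd u v t hu B hB hsep hv hal F hF hFal
    · push Not at hsep
      choose b hb hbB using fun i => h_root p (B i) (hB i) (hsep i)
      obtain ⟨u', hu'⟩ := IsAlgClosed.exists_pow_nat_eq u hp0
      obtain ⟨v', hv'⟩ := IsAlgClosed.exists_pow_nat_eq v hp0
      have hut : Transcendental k u' := by
        intro h
        apply hu
        rw [← hu']
        exact h.pow p
      have hle : IntermediateField.adjoin k ({u, v, t} : Set M) ≤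
          IntermediateField.adjoin k ({u', v', t} : Set M) := by
        rw [IntermediateField.adjoin_le_iff]
        rintro _ (rfl | rfl | rfl)
        · rw [← hu']
          exact pow_mem (IntermediateField.subset_adjoin _ _ (by simp)) _
        · rw [← hv']
          exact pow_mem (IntermediateField.subset_adjoin _ _ (by simp)) _
        · exact IntermediateField.subset_adjoin _ _ (by simp)
      have hdeg : p * (b i₀).natDegree = (B i₀).natDegree := by
        rw [← hbB i₀, natDegree_pow]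
      have hp2 : 2 ≤ p := (Fact.out : p.Prime).two_le
      refine ih u' v' hut b hb ?_ ?_ ?_ (fun y => alg_le hle (hal y)) F (hF.trans hle) hFal
      · intro h
        rw [h, mul_zero] at hdeg
        exact h1 hdeg.symm
      · have h3 : (b i₀).natDegree ≠ 0 := by
          intro h
          rw [h, mul_zero] at hdeg
          exact h1 hdeg.symm
        have h4 : 2 * (b i₀).natDegree ≤ p * (b i₀).natDegree := Nat.mul_le_mul_right _ hp2
        omega
      · apply frobenius_inj M p
        rw [map_sum, frobenius_def, ← pow_mul, mul_comm 2 p, pow_mul, hv', hv]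
        refine Finset.sum_congr rfl fun i _ => ?_
        rw [frobenius_def, mul_pow, ← pow_mul, mul_comm (i : ℕ) p, pow_mul, hu', ← map_pow, hbB]

section

variable {M : Type} [Field M]

/-- the quartic -/
def h_g (a b c d e u : M) : M := a * u ^ 4 + b * u ^ 3 + c * u ^ 2 + d * u + e

/-- the quartic covariant -/
def h_G (a b c d e u : M) : M :=
  (b ^ 2 - 4 * a * c) * u ^ 4 - 8 * a * d * u ^ 3 - (16 * a * e + 2 * b * d) * u ^ 2 -
    8 * b * e * u + (d ^ 2 - 4 * c * e)

/-- the sextic covariant -/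
def h_6 (a b c d e u : M) : M :=
  (b ^ 3 + 8 * a ^ 2 * d - 4 * a * b * c) * u ^ 6 +
    2 * (16 * a ^ 2 * e + 2 * a * b * d - 4 * a * c ^ 2 + b ^ 2 * c) * u ^ 5 +
    5 * (8 * a * b * e + b ^ 2 * d - 4 * a * c * d) * u ^ 4 +
    20 * (b ^ 2 * e - a * d ^ 2) * u ^ 3 -
    5 * (8 * a * d * e + b * d ^ 2 - 4 * b * c * e) * u ^ 2 -
    2 * (16 * a * e ^ 2 + 2 * b * d * e - 4 * c ^ 2 * e + c * d ^ 2) * u -
    (d ^ 3 + 8 * b * e ^ 2 - 4 * c * d * e)

/-- the syzygy -/
theorem h_syz (a b c d e u : M) : h_6 a b c d e u ^ 2 = h_G a b c d e u ^ 3 +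
    4 * c * h_g a b c d e u * h_G a b c d e u ^ 2 +
    16 * (b * d - 4 * a * e) * h_g a b c d e u ^ 2 * h_G a b c d e u +
    64 * (b ^ 2 * e + a * d ^ 2 - 4 * a * c * e) * h_g a b c d e u ^ 3 := by
  rw [h_6, h_G, h_g]
  ring

/-- the discriminant -/
def h_D (a2 a4 a6 : M) : M :=
  a2 ^ 2 * a4 ^ 2 - 4 * a4 ^ 3 - 4 * a2 ^ 3 * a6 - 27 * a6 ^ 2 + 18 * a2 * a4 * a6

theorem h_disc (a b c d e u : M) (h0 : h_g a b c d e u = 0) (h1 : h_G a b c d e u = 0) :
    h_D c (b * d - 4 * a * e) (b ^ 2 * e + a * d ^ 2 - 4 * a * c * e) = 0 := by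
  have h2 : (4 * a * u ^ 3 + 3 * b * u ^ 2 + 2 * c * u + d) ^ 2 = 0 := by
    have e1 : (4 * a * u ^ 3 + 3 * b * u ^ 2 + 2 * c * u + d) ^ 2 = h_G a b c d e u +
        4 * h_g a b c d e u * (4 * a * u ^ 2 + 2 * b * u + c) := by
      rw [h_G, h_g]
      ring
    rw [e1, h0, h1]
    ring
  have h3 : 4 * a * u ^ 3 + 3 * b * u ^ 2 + 2 * c * u + d = 0 :=
    pow_eq_zero_iff (n := 2) (by norm_num) |>.1 h2
  have hd : d = -(4 * a * u ^ 3 + 3 * b * u ^ 2 + 2 * c * u) := by linear_combination h3
  have he : e = 3 * a * u ^ 4 + 2 * b * u ^ 3 + c * u ^ 2 := by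
    rw [h_g] at h0
    linear_combination h0 - u * h3
  rw [hd, he, h_D]
  ring

end

section

variable {k M : Type} [Field k] [Field M] [Algebra k M]

theorem h_one (htd : Algebra.trdeg k M = 2) (s : M)
    (h : ∀ b : M, IsAlgebraic (IntermediateField.adjoin k {s} : IntermediateField k M) b) :
    False := by
  have hbot : Algebra.IsAlgebraic k (⊥ : IntermediateField k M) := inferInstance
  have h1 := KTW.indep_plane htd (⊥ : IntermediateField k M) (trdeg_eq_zero_iff.2 hbot) ![s, s]
    (fun b => by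
      refine alg_mono (le_sup_of_le_right ?_) (h b)
      rw [IntermediateField.adjoin_le_iff, Set.singleton_subset_iff]
      exact IntermediateField.subset_adjoin _ _ ⟨0, rfl⟩)
  have h2 : (![s, s] : Fin 2 → M) 0 = ![s, s] 1 := rfl
  exact absurd (h1.injective h2) (by decide)

theorem h_trans (htd : Algebra.trdeg k M = 2) (u v : M)
    (h : ∀ b : M, IsAlgebraic (IntermediateField.adjoin k {u, v} : IntermediateField k M) b) :
    Transcendental k u := by
  have hbot : Algebra.IsAlgebraic k (⊥ : IntermediateField k M) := inferInstance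
  have h1 := KTW.indep_plane htd (⊥ : IntermediateField k M) (trdeg_eq_zero_iff.2 hbot) ![u, v]
    (fun b => by
      refine alg_mono (le_sup_of_le_right ?_) (h b)
      rw [IntermediateField.adjoin_le_iff]
      rintro w (rfl | rfl)
      · exact IntermediateField.subset_adjoin _ _ ⟨0, rfl⟩
      · exact IntermediateField.subset_adjoin _ _ ⟨1, rfl⟩)
  have h2 := h1.transcendental 0
  exact fun h3 => h2 (h3.extendScalars
    (FaithfulSMul.algebraMap_injective k (⊥ : IntermediateField k M)))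

theorem h_mem {F : IntermediateField k M} {s : M} (hs : s ∈ F) (q : k[X]) : aeval s q ∈ F := by
  have h1 : aeval s q ∈ Algebra.adjoin k ({s} : Set M) := aeval_mem_adjoin_singleton k s
  have h2 : Algebra.adjoin k ({s} : Set M) ≤ F.toSubalgebra :=
    Algebra.adjoin_le (by simpa using hs)
  exact h2 h1

/-- the second fibration -/
theorem h_point [IsAlgClosed M] (p : ℕ) [Fact p.Prime] [CharP k p] (hp2 : p ≠ 2)
    (htd : Algebra.trdeg k M = 2) (s : M) (B : Fin 5 → k[X]) (a b c d e x y : M)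
    (ha : a = aeval s (B 4)) (hb : b = aeval s (B 3)) (hc : c = aeval s (B 2))
    (hd : d = aeval s (B 1)) (he : e = aeval s (B 0))
    (hD : h_D c (b * d - 4 * a * e) (b ^ 2 * e + a * d ^ 2 - 4 * a * c * e) ≠ 0)
    (hy : y ^ 2 = x ^ 3 + c * x ^ 2 + (b * d - 4 * a * e) * x +
      (b ^ 2 * e + a * d ^ 2 - 4 * a * c * e))
    (hal : ∀ w : M, IsAlgebraic (IntermediateField.adjoin k {s, x, y}) w) :
    ∃ u v : M, Transcendental k u ∧ v ^ 2 = h_g a b c d e u ∧
      x ∈ IntermediateField.adjoin k ({u, v, s} : Set M) ∧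
      y ∈ IntermediateField.adjoin k ({u, v, s} : Set M) := by
  classical
  have hCM : CharP M p := charP_of_injective_algebraMap (algebraMap k M).injective p
  have h2M : (2 : M) ≠ 0 := by
    have h1 : ((2 : ℕ) : M) ≠ 0 := fun h => by
      have h2 := (CharP.cast_eq_zero_iff M p 2).1 h
      exact hp2 ((Nat.prime_dvd_prime_iff_eq Fact.out Nat.prime_two).1 h2)
    exact_mod_cast h1
  have h4M : (4 : M) ≠ 0 := by
    have : (4 : M) = 2 * 2 := by norm_num
    rw [this]
    exact mul_ne_zero h2M h2M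
  have h8M : (8 : M) ≠ 0 := by
    have : (8 : M) = 2 * 4 := by norm_num
    rw [this]
    exact mul_ne_zero h2M h4M
  -- `x` is transcendental over `k(s)`
  have hyal : ∀ L : IntermediateField k M, s ∈ L → x ∈ L → IsAlgebraic L y := by
    intro L hsL hxL
    have hm : ∀ i, aeval s (B i) ∈ L := fun i => h_mem hsL _
    have h4L : (4 : M) ∈ L := by exact_mod_cast natCast_mem L 4
    have h1 : x ^ 3 + c * x ^ 2 + (b * d - 4 * a * e) * x +
        (b ^ 2 * e + a * d ^ 2 - 4 * a * c * e) ∈ L := by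
      rw [ha, hb, hc, hd, he]
      exact add_mem (add_mem (add_mem (pow_mem hxL 3) (mul_mem (hm 2) (pow_mem hxL 2)))
        (mul_mem (sub_mem (mul_mem (hm 3) (hm 1)) (mul_mem (mul_mem h4L (hm 4)) (hm 0))) hxL))
        (sub_mem (add_mem (mul_mem (pow_mem (hm 3) 2) (hm 0)) (mul_mem (hm 4) (pow_mem (hm 1) 2)))
          (mul_mem (mul_mem (mul_mem h4L (hm 4)) (hm 2)) (hm 0)))
    refine IsAlgebraic.of_pow (n := 2) (by norm_num) ?_
    rw [hy]
    exact isAlgebraic_algebraMap (⟨_, h1⟩ : L)
  have hxs : x ∉ IntermediateField.adjoin k {s} := by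
    intro hx
    refine h_one htd s fun w => ?_
    refine algTrans (K := IntermediateField.adjoin k {s, x, y}) _ (fun w => ?_) w (hal w)
    have hsm : s ∈ IntermediateField.adjoin k {s} := IntermediateField.mem_adjoin_simple_self k s
    refine alg_adjoin _ _ ?_ (w : M) w.2
    rintro _ (rfl | rfl | rfl)
    · exact isAlgebraic_algebraMap (⟨_, hsm⟩ : IntermediateField.adjoin k {_})
    · exact isAlgebraic_algebraMap (⟨_, hx⟩ : IntermediateField.adjoin k {s})
    · exact hyal _ hsm hx
  have hsm : s ∈ IntermediateField.adjoin k {s} := IntermediateField.mem_adjoin_simple_self k s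
  have hx0 : x ≠ 0 := fun h => hxs (by rw [h]; exact zero_mem _)
  -- the point of the quartic
  obtain ⟨u, hu⟩ : ∃ u : M, h_G a b c d e u = 4 * x * h_g a b c d e u := by
    obtain ⟨p4, hp4⟩ : ∃ p4, p4 = b ^ 2 - 4 * a * c - 4 * x * a := ⟨_, rfl⟩
    obtain ⟨p3, hp3⟩ : ∃ p3, p3 = -(8 * a * d) - 4 * x * b := ⟨_, rfl⟩
    obtain ⟨p2, hp2'⟩ : ∃ p2, p2 = -(16 * a * e + 2 * b * d) - 4 * x * c := ⟨_, rfl⟩
    obtain ⟨p1, hp1⟩ : ∃ p1, p1 = -(8 * b * e) - 4 * x * d := ⟨_, rfl⟩
    obtain ⟨p0, hp0⟩ : ∃ p0, p0 = d ^ 2 - 4 * c * e - 4 * x * e := ⟨_, rfl⟩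
    obtain ⟨P, hP⟩ : ∃ P : M[X], P = C p4 * X ^ 4 + C p3 * X ^ 3 + C p2 * X ^ 2 + C p1 * X +
      C p0 := ⟨_, rfl⟩
    have hdeg : P.degree ≠ 0 := by
      intro h0
      have hco : ∀ n, 0 < n → P.coeff n = 0 := fun n hn =>
        coeff_eq_zero_of_degree_lt (by rw [h0]; exact_mod_cast hn)
      have c4 : p4 = 0 := by
        rw [← hco 4 (by norm_num), hP]
        simp [coeff_X, coeff_C]
      have c2 : p2 = 0 := by
        rw [← hco 2 (by norm_num), hP]
        simp [coeff_X, coeff_C]
      have c1 : p1 = 0 := by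
        rw [← hco 1 (by norm_num), hP]
        simp [coeff_X, coeff_C]
      rw [hp4] at c4
      rw [hp2'] at c2
      rw [hp1] at c1
      have ha0 : a = 0 := by
        by_contra ha0
        apply hxs
        have h1 : x = (b ^ 2 - 4 * a * c) / (4 * a) := by
          field_simp
          linear_combination -c4
        have hm : ∀ i, aeval s (B i) ∈ IntermediateField.adjoin k {s} := fun i => h_mem hsm _
        have h4L : (4 : M) ∈ IntermediateField.adjoin k {s} := by
          exact_mod_cast natCast_mem (IntermediateField.adjoin k {s}) 4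
        rw [h1, ha, hb, hc]
        exact div_mem (sub_mem (pow_mem (hm 3) 2) (mul_mem (mul_mem h4L (hm 4)) (hm 2)))
          (mul_mem h4L (hm 4))
      have hb0 : b = 0 := by
        rw [ha0] at c4
        have : b ^ 2 = 0 := by linear_combination c4
        exact pow_eq_zero_iff (n := 2) (by norm_num) |>.1 this
      have hc0 : c = 0 := by
        rw [ha0, hb0] at c2
        have : 4 * x * c = 0 := by linear_combination -c2
        exact (mul_eq_zero.1 this).resolve_left (mul_ne_zero h4M hx0)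
      have hd0 : d = 0 := by
        rw [hb0] at c1
        have : 4 * x * d = 0 := by linear_combination -c1
        exact (mul_eq_zero.1 this).resolve_left (mul_ne_zero h4M hx0)
      apply hD
      rw [ha0, hb0, hc0, hd0, h_D]
      ring
    obtain ⟨u, hu⟩ := IsAlgClosed.exists_root P hdeg
    refine ⟨u, ?_⟩
    rw [IsRoot, hP] at hu
    simp only [eval_add, eval_mul, eval_C, eval_pow, eval_X, hp4, hp3, hp2', hp1, hp0] at hu
    rw [h_G, h_g]
    linear_combination hu
  have hg0 : h_g a b c d e u ≠ 0 := by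
    intro h0
    rw [h0, mul_zero] at hu
    exact hD (h_disc a b c d e u h0 hu)
  obtain ⟨v, hv, hyv⟩ : ∃ v : M, v ^ 2 = h_g a b c d e u ∧ h_6 a b c d e u = 8 * v ^ 3 * y := by
    obtain ⟨v, hv⟩ : ∃ v : M, v ^ 2 = h_g a b c d e u := by
      obtain ⟨v, hv⟩ := IsAlgClosed.exists_pow_nat_eq (h_g a b c d e u) (n := 2) (by norm_num)
      exact ⟨v, hv⟩
    have h1 : h_6 a b c d e u ^ 2 = (8 * v ^ 3 * y) ^ 2 := by
      have h2 : (8 * v ^ 3 * y) ^ 2 = 64 * (v ^ 2) ^ 3 * y ^ 2 := by ring
      rw [h2, hv, h_syz, hu, hy]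
      ring
    rcases sq_eq_sq_iff_eq_or_eq_neg.1 h1 with h2 | h2
    · exact ⟨v, hv, h2⟩
    · refine ⟨-v, by rw [neg_sq, hv], ?_⟩
      rw [h2]
      ring
  have hv0 : v ≠ 0 := by
    rintro rfl
    apply hg0
    rw [← hv]
    norm_num
  have hxy : ∀ A : IntermediateField k M, u ∈ A → v ∈ A → s ∈ A → x ∈ A ∧ y ∈ A := by
    intro A huA hvA hsA
    have hm : ∀ i, aeval s (B i) ∈ A := fun i => h_mem hsA _
    have h4A : (4 : M) ∈ A := by exact_mod_cast natCast_mem A 4
    have h8A : (8 : M) ∈ A := by exact_mod_cast natCast_mem A 8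
    constructor
    · have h1 : h_G a b c d e u ∈ A := by
        rw [ha, hb, hc, hd, he]
        have h2 : h_G (aeval s (B 4)) (aeval s (B 3)) (aeval s (B 2)) (aeval s (B 1))
            (aeval s (B 0)) u = ((h_G ⟨_, hm 4⟩ ⟨_, hm 3⟩ ⟨_, hm 2⟩ ⟨_, hm 1⟩ ⟨_, hm 0⟩
              ⟨u, huA⟩ : A) : M) := by
          simp only [h_G, IntermediateField.coe_add, AddSubgroupClass.coe_sub,
            IntermediateField.coe_mul, IntermediateField.coe_pow]
          rfl
        rw [h2]
        exact SetLike.coe_mem _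
      have h2 : x = h_G a b c d e u / (4 * v ^ 2) := by
        rw [hv, hu]
        field_simp
      rw [h2]
      exact div_mem h1 (mul_mem h4A (pow_mem hvA 2))
    · have h1 : h_6 a b c d e u ∈ A := by
        rw [ha, hb, hc, hd, he]
        have h2 : h_6 (aeval s (B 4)) (aeval s (B 3)) (aeval s (B 2)) (aeval s (B 1))
            (aeval s (B 0)) u = ((h_6 ⟨_, hm 4⟩ ⟨_, hm 3⟩ ⟨_, hm 2⟩ ⟨_, hm 1⟩ ⟨_, hm 0⟩
              ⟨u, huA⟩ : A) : M) := by
          simp only [h_6, IntermediateField.coe_add, AddSubgroupClass.coe_sub,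
            IntermediateField.coe_mul, IntermediateField.coe_pow]
          rfl
        rw [h2]
        exact SetLike.coe_mem _
      have h2 : y = h_6 a b c d e u / (8 * v ^ 3) := by
        rw [hyv]
        field_simp
      rw [h2]
      exact div_mem h1 (mul_mem h8A (pow_mem hvA 3))
  obtain ⟨h5, h6⟩ := hxy (IntermediateField.adjoin k ({u, v, s} : Set M))
    (IntermediateField.subset_adjoin _ _ (by simp)) (IntermediateField.subset_adjoin _ _ (by simp))
    (IntermediateField.subset_adjoin _ _ (by simp))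
  refine ⟨u, v, ?_, hv, h5, h6⟩
  refine h_trans htd u s fun w => ?_
  obtain ⟨L, hL⟩ : ∃ L : IntermediateField k M, L = IntermediateField.adjoin k {u, s} := ⟨_, rfl⟩
  have huL : u ∈ L := by
    rw [hL]
    exact IntermediateField.subset_adjoin _ _ (by simp)
  have hsL : s ∈ L := by
    rw [hL]
    exact IntermediateField.subset_adjoin _ _ (by simp)
  have hm : ∀ i, aeval s (B i) ∈ L := fun i => h_mem hsL _
  have hvL : IsAlgebraic L v := by
    refine IsAlgebraic.of_pow (n := 2) (by norm_num) ?_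
    have h1 : h_g a b c d e u ∈ L := by
      rw [ha, hb, hc, hd, he, h_g]
      exact add_mem (add_mem (add_mem (add_mem (mul_mem (hm 4) (pow_mem huL 4))
        (mul_mem (hm 3) (pow_mem huL 3))) (mul_mem (hm 2) (pow_mem huL 2)))
        (mul_mem (hm 1) huL)) (hm 0)
    rw [hv]
    exact isAlgebraic_algebraMap (⟨_, h1⟩ : L)
  have h7 : ∀ w ∈ IntermediateField.adjoin k ({u, v, s} : Set M), IsAlgebraic L w := by
    intro w hw
    refine alg_adjoin _ _ ?_ w hw
    rintro _ (rfl | rfl | rfl)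
    · exact isAlgebraic_algebraMap (⟨_, huL⟩ : L)
    · exact hvL
    · exact isAlgebraic_algebraMap (⟨_, hsL⟩ : L)
  rw [← hL]
  refine algTrans (K := IntermediateField.adjoin k {s, x, y}) _ (fun w => ?_) w (hal w)
  refine alg_adjoin _ _ ?_ (w : M) w.2
  rintro _ (rfl | rfl | rfl)
  · exact isAlgebraic_algebraMap (⟨_, hsL⟩ : L)
  · exact h7 _ h5
  · exact h7 _ h6

end

/-- the property of a field of functions that is used: `F` is contained in `k(u, v, t)` with
`v ^ 2 = ∑ B_i(t) u ^ i` -/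
def HEmt (k : Type) [Field k] (B : Fin 5 → k[X]) : Prop :=
  ∀ (M : Type) [Field M] [Algebra k M] [IsAlgClosed M], Algebra.trdeg k M = 2 →
    ∀ t u v : M, Transcendental k u → v ^ 2 = ∑ i : Fin 5, aeval t (B i) * u ^ (i : ℕ) →
      (∀ y : M, IsAlgebraic (IntermediateField.adjoin k ({u, v, t} : Set M)) y) →
      ∀ F : IntermediateField k M, F ≤ IntermediateField.adjoin k ({u, v, t} : Set M) →
      (∀ y : M, IsAlgebraic F y) → Emt F

/-- the elliptic part -/
theorem sha_of_emt {k K Kb : Type} [Field k] [Finite k] [Field K] [Field Kb] [Algebra k K]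
    [Algebra k Kb] [Algebra K Kb] [IsScalarTower k K Kb] [IsAlgClosed Kb]
    [Algebra.IsAlgebraic K Kb] (p : ℕ) [Fact p.Prime] [CharP k p] (hp2 : p ≠ 2) (s : K)
    (hs : Transcendental k s) (W : WeierstrassCurve k[X]) (hΔ : W.Δ ≠ 0)
    (B : Fin 5 → k[X]) (hB : HEmt k B) (w1 : W.a₁ = 0)
    (w3 : W.a₃ = 0) (w2 : W.a₂ = B 2) (w4 : W.a₄ = B 3 * B 1 - 4 * B 4 * B 0)
    (w6 : W.a₆ = B 3 ^ 2 * B 0 + B 4 * B 1 ^ 2 - 4 * B 4 * B 2 * B 0)
    (hK : IntermediateField.adjoin k {s} = ⊤)
    (ℓ : ℕ) (hℓ : ℓ.Prime) (hℓk : (ℓ : k) ≠ 0)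
    (c : ℕ → (Kb ≃ₐ[K] Kb) → Pts (Ws W s) Kb) (hc : ShaSys (Ws W s) k ℓ c) (n : ℕ) :
    Principal (Ws W s) (T1B.geo k K Kb) (c n) := by
  have hS : ∀ z ∈ (∅ : Finset Kb), ∃ φ F : k[X], φ.natDegree ≠ 0 ∧
      aeval z φ = aeval (algebraMap K Kb s) F := fun z hz => absurd hz (Finset.notMem_empty z)
  have hK' : ∀ b : K, algebraMap K Kb b ∈ IntermediateField.adjoin k
      (insert (algebraMap K Kb s) ((∅ : Finset Kb) : Set Kb)) := by
    intro b
    let ι : K →ₐ[k] Kb := IsScalarTower.toAlgHom k K Kb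
    have h1 : (IntermediateField.adjoin k {s}).map ι ≤ IntermediateField.adjoin k
        (insert (algebraMap K Kb s) ((∅ : Finset Kb) : Set Kb)) := by
      rw [IntermediateField.adjoin_map, Set.image_singleton, IntermediateField.adjoin_le_iff,
        Set.singleton_subset_iff]
      exact IntermediateField.subset_adjoin _ _ (Or.inl rfl)
    exact h1 ⟨b, by rw [hK]; exact IntermediateField.mem_top, rfl⟩
  obtain ⟨M, _, _, _, _, x, y, t1, t2, t3, hM, htd, hx, hy, hal⟩ := setup s hs ∅ hS hK' W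
  have hsM : Transcendental k (algebraMap K M s) :=
    (transcendental_algebraMap_iff (algebraMap K M).injective).2 hs
  obtain ⟨t, ht⟩ : ∃ t, t = algebraMap K M s := ⟨_, rfl⟩
  rw [← ht] at hsM
  obtain ⟨a, ha⟩ : ∃ a, a = aeval t (B 4) := ⟨_, rfl⟩
  obtain ⟨b, hb⟩ : ∃ b, b = aeval t (B 3) := ⟨_, rfl⟩
  obtain ⟨e2, he2⟩ : ∃ e2, e2 = aeval t (B 2) := ⟨_, rfl⟩
  obtain ⟨d, hd⟩ : ∃ d, d = aeval t (B 1) := ⟨_, rfl⟩
  obtain ⟨e, he⟩ : ∃ e, e = aeval t (B 0) := ⟨_, rfl⟩
  have hD : h_D e2 (b * d - 4 * a * e) (b ^ 2 * e + a * d ^ 2 - 4 * a * e2 * e) ≠ 0 := by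
    have h1 : W.Δ = 16 * (W.a₂ ^ 2 * W.a₄ ^ 2 - 4 * W.a₄ ^ 3 - 4 * W.a₂ ^ 3 * W.a₆ -
        27 * W.a₆ ^ 2 + 18 * W.a₂ * W.a₄ * W.a₆) := by
      rw [WeierstrassCurve.Δ, WeierstrassCurve.b₂, WeierstrassCurve.b₄, WeierstrassCurve.b₆,
        WeierstrassCurve.b₈, w1, w3]
      ring
    intro h2
    apply hΔ
    apply transcendental_iff_injective.1 hsM
    rw [map_zero, h1, w2, w4, w6]
    simp only [map_mul, map_add, map_sub, map_pow, map_ofNat, ← ha, ← hb, ← he2, ← hd, ← he]
    rw [h_D] at h2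
    linear_combination 16 * h2
  have heq : y ^ 2 = x ^ 3 + e2 * x ^ 2 + (b * d - 4 * a * e) * x +
      (b ^ 2 * e + a * d ^ 2 - 4 * a * e2 * e) := by
    have h1 := hy
    rw [aeval_wpoly, w1, w3, w4, w2, w6] at h1
    simp only [Matrix.cons_val_zero, Matrix.cons_val_one, Matrix.cons_val, map_zero,
      map_mul, map_pow, map_sub, map_add, map_ofNat, ← ht, ← ha, ← hb, ← he2, ← hd, ← he] at h1
    linear_combination h1
  have hal0 : ∀ w : M, IsAlgebraic (IntermediateField.adjoin k ({t, x, y} : Set M)) w := by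
    have h1 : IntermediateField.adjoin k (Set.range ![x, y, algebraMap K M s]) ≤
        IntermediateField.adjoin k ({t, x, y} : Set M) := by
      rw [IntermediateField.adjoin_le_iff]
      rintro _ ⟨i, rfl⟩
      fin_cases i
      · exact IntermediateField.subset_adjoin _ _ (by simp)
      · exact IntermediateField.subset_adjoin _ _ (by simp)
      · show algebraMap K M s ∈ _
        rw [← ht]
        exact IntermediateField.subset_adjoin _ _ (by simp)
    exact fun w => alg_le h1 (hal w)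
  obtain ⟨u, v, hut, huv0, hxuv, hyuv⟩ := h_point p hp2 htd t B a b e2 d e x y ha hb he2 hd he hD
    heq hal0
  have huv : v ^ 2 = ∑ i : Fin 5, aeval t (B i) * u ^ (i : ℕ) := by
    rw [huv0, Fin.sum_univ_five, h_g, ha, hb, he2, hd, he]
    show _ = aeval t (B 0) * u ^ 0 + aeval t (B 1) * u ^ 1 + aeval t (B 2) * u ^ 2 +
      aeval t (B 3) * u ^ 3 + aeval t (B 4) * u ^ 4
    ring
  obtain ⟨A, hA⟩ : ∃ A, A = IntermediateField.adjoin k ({u, v, t} : Set M) := ⟨_, rfl⟩
  have htA : t ∈ A := by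
    rw [hA]
    exact IntermediateField.subset_adjoin _ _ (by simp)
  have hxA : x ∈ A := by
    rw [hA]
    exact hxuv
  have hyA : y ∈ A := by
    rw [hA]
    exact hyuv
  have hle3 : IntermediateField.adjoin k (Set.range ![x, y, algebraMap K M s]) ≤ A := by
    rw [IntermediateField.adjoin_le_iff]
    rintro _ ⟨i, rfl⟩
    fin_cases i
    · exact hxA
    · exact hyA
    · show algebraMap K M s ∈ A
      rw [← ht]
      exact htA
  have hal' : ∀ b : M, IsAlgebraic A b := fun b => alg_le hle3 (hal b)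
  obtain ⟨F, hF⟩ : ∃ F : IntermediateField K M, F = IntermediateField.adjoin K {x, y} := ⟨_, rfl⟩
  have hxF : x ∈ F := by
    rw [hF]
    exact IntermediateField.subset_adjoin _ _ (by simp)
  have hyF : y ∈ F := by
    rw [hF]
    exact IntermediateField.subset_adjoin _ _ (by simp)
  have hsub : IntermediateField.adjoin k (Set.range ![x, y, algebraMap K M s]) ≤
      F.restrictScalars k := by
    rw [IntermediateField.adjoin_le_iff]
    rintro _ ⟨i, rfl⟩
    fin_cases i
    · exact hxF
    · exact hyF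
    · exact F.algebraMap_mem s
  have hFal : ∀ b : M, IsAlgebraic (F.restrictScalars k) b := fun b => alg_le hsub (hal b)
  have hKM : ∀ b : K, algebraMap K M b ∈ A := by
    intro b
    let ι : K →ₐ[k] M := IsScalarTower.toAlgHom k K M
    have h1 : (IntermediateField.adjoin k {s}).map ι ≤ A := by
      rw [IntermediateField.adjoin_map, Set.image_singleton, IntermediateField.adjoin_le_iff,
        Set.singleton_subset_iff]
      show algebraMap K M s ∈ A
      rw [← ht]
      exact htA
    exact h1 ⟨b, by rw [hK]; exact IntermediateField.mem_top, rfl⟩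
  have hle : F.restrictScalars k ≤ A := by
    let A' : IntermediateField K M := A.toSubfield.toIntermediateField hKM
    have hFA : F ≤ A' := by
      rw [hF, IntermediateField.adjoin_le_iff]
      rintro b (rfl | hb)
      · exact hxA
      · rw [Set.mem_singleton_iff.1 hb]
        exact hyA
    exact fun b hb => hFA hb
  rw [hA] at hal' hle
  have hemt : Emt (F.restrictScalars k) := hB M htd t u v hut huv hal' _ hle hFal
  have hT1 : T1B.T1 k F ℓ := t1_of_emt (F.restrictScalars k) hFal hemt ℓ hℓ hℓk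
  exact bridge s hs (alg_K' s ∅ hS hK') W hΔ x y hx hy F hF ℓ hℓ hℓk hT1 c hc n

/-- `p` is odd, `K = k(s)`, and `E` is the Jacobian of the curve
`v ^ 2 = B₄ u ^ 4 + B₃ u ^ 3 + B₂ u ^ 2 + B₁ u + B₀`, where the `B_i` are sums of an additive
polynomial in `s` and a constant -/
theorem sha_H {k K Kb : Type} [Field k] [Finite k] [Field K] [Field Kb] [Algebra k K]
    [Algebra k Kb] [Algebra K Kb] [IsScalarTower k K Kb] [IsAlgClosed Kb]
    [Algebra.IsAlgebraic K Kb] (p : ℕ) [Fact p.Prime] [CharP k p] (hp2 : p ≠ 2) (s : K)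
    (hs : Transcendental k s) (W : WeierstrassCurve k[X]) (hΔ : W.Δ ≠ 0)
    (B : Fin 5 → k[X]) (hB : ∀ i, Low1 p (B i)) (hB0 : ∃ i, (B i).natDegree ≠ 0) (w1 : W.a₁ = 0)
    (w3 : W.a₃ = 0) (w2 : W.a₂ = B 2) (w4 : W.a₄ = B 3 * B 1 - 4 * B 4 * B 0)
    (w6 : W.a₆ = B 3 ^ 2 * B 0 + B 4 * B 1 ^ 2 - 4 * B 4 * B 2 * B 0)
    (hK : IntermediateField.adjoin k {s} = ⊤)
    (ℓ : ℕ) (hℓ : ℓ.Prime) (hℓk : (ℓ : k) ≠ 0)
    (c : ℕ → (Kb ≃ₐ[K] Kb) → Pts (Ws W s) Kb) (hc : ShaSys (Ws W s) k ℓ c) (n : ℕ) :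
    Principal (Ws W s) (T1B.geo k K Kb) (c n) := by
  obtain ⟨i₀, hi₀⟩ := hB0
  exact sha_of_emt p hp2 s hs W hΔ B (fun M _ _ _ htd t u v hut huv hal F hF hFal =>
    emt_H p htd t i₀ (B i₀).natDegree u v hut B hB hi₀ le_rfl huv hal F hF hFal) w1 w3 w2 w4 w6 hK
    ℓ hℓ hℓk c hc n

end Pool.Agent.QD
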