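import Pool.Agent.QD.J5
import Pool.Agent.QD.H

/-!
# The surfaces `v ^ 2 = f(s)` over a curve, `f` of the form `a X ^ m + b X ^ n`, or the sum of an
additive polynomial and a constant
-/

set_option autoImplicit false

namespace Pool.Agent.QD

open Polynomial Pool.Agent.TUQ Pool.Agent.WLD Pool.Agent.ADT Pool.Agent.UQ

open scoped Classical

section

variable {k M : Type} [Field k] [Field M] [Algebra k M]

/-- the algebraic extensions have the same transcendence degree -/
theorem j6_trdeg (F₀ E : IntermediateField k M) (hle : F₀ ≤ E) (hEal : ∀ c ∈ E, IsAlgebraic F₀ c) :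
    Algebra.trdeg k E = Algebra.trdeg k F₀ := by
  let alg : Algebra F₀ E := (IntermediateField.inclusion hle).toRingHom.toAlgebra
  have tow1 : IsScalarTower k F₀ E := IsScalarTower.of_algebraMap_eq (fun _ => rfl)
  have tow2 : IsScalarTower F₀ E M := IsScalarTower.of_algebraMap_eq (fun _ => rfl)
  have h1 := _root_.trdeg_add_eq k F₀ (A := E)
  have h2 : Algebra.trdeg F₀ E = 0 := by
    rw [trdeg_eq_zero_iff]
    constructor
    intro b
    have h3 : IsAlgebraic F₀ (algebraMap E M b) := hEal b b.2
    exact (isAlgebraic_algebraMap_iff (FaithfulSMul.algebraMap_injective E M)).1 h3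
  rw [h2, add_zero] at h1
  exact h1.symm

/-- finitely many algebraic elements are adjoined -/
theorem j6_ext (F₀ : IntermediateField k M) (C₀ : Finset M) (hC₀ : ∀ c ∈ C₀, IsAlgebraic F₀ c) :
    ∀ c ∈ (F₀ ⊔ IntermediateField.adjoin k (C₀ : Set M) : IntermediateField k M),
      IsAlgebraic F₀ c := by
  intro c hc
  have h1 : F₀ ⊔ IntermediateField.adjoin k (C₀ : Set M) ≤
      (algebraicClosure F₀ M).restrictScalars k := by
    refine sup_le ?_ ?_
    · exact fun b hb => mem_algebraicClosure_iff.2 (isAlgebraic_algebraMap (⟨b, hb⟩ : F₀))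
    · rw [IntermediateField.adjoin_le_iff]
      exact fun b hb => mem_algebraicClosure_iff.2 (hC₀ b hb)
  exact mem_algebraicClosure_iff.1 (h1 hc)

/-- subfields -/
theorem emt_sub [IsAlgClosed M] (F L : IntermediateField k M) (hFL : F ≤ L) (hL : L.FG)
    (hFal : ∀ y : M, IsAlgebraic F y) (h : Emt L) : Emt F :=
  emt_of_inj (K' := L) (ι := Fin 1) (fun _ hℓ => vl_res F L hFL hL hFal hℓ) (fun _ => L)
    (fun _ _ _ => pi_const_aux (MonoidHom.id _) Function.injective_id) (fun _ => h)

/-- subfields of a composite field -/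
theorem emt_two_sub [IsAlgClosed M] (F K₁ K₂ : IntermediateField k M) (h₁ : K₁.FG) (h₂ : K₂.FG)
    (t₁ : Algebra.trdeg k K₁ ≤ 1) (t₂ : Algebra.trdeg k K₂ ≤ 1) (hF : F ≤ K₁ ⊔ K₂)
    (hFal : ∀ y : M, IsAlgebraic F y) : Emt F :=
  emt_sub F (K₁ ⊔ K₂) hF (IntermediateField.fg_sup h₁ h₂) hFal
    (emt_two ⟨K₁, K₂, h₁, h₂, t₁, t₂, rfl⟩ fun y => alg_le hF (hFal y))

/-- one monomial -/
theorem j6_mono [IsAlgClosed M] (F₀ : IntermediateField k M) (hF₀ : F₀.FG)
    (h₀ : Algebra.trdeg k F₀ = 1) (v s : M) (F : IntermediateField k M)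
    (hF : F ≤ F₀ ⊔ IntermediateField.adjoin k ({v, s} : Set M))
    (hFal : ∀ y : M, IsAlgebraic F y) (n : ℕ) (c : F₀) (h : v ^ 2 = c * s ^ n) : Emt F := by
  obtain ⟨r, hr⟩ := IsAlgClosed.exists_pow_nat_eq s (n := 2) (by norm_num)
  obtain ⟨e, he⟩ := IsAlgClosed.exists_pow_nat_eq (c : M) (n := 2) (by norm_num)
  have heal : ∀ b ∈ ({e} : Finset M), IsAlgebraic F₀ b := by
    intro b hb
    rw [Finset.mem_singleton.1 hb]
    refine IsAlgebraic.of_pow (n := 2) (by norm_num) ?_
    rw [he]
    exact isAlgebraic_algebraMap c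
  have h1 := j6_ext F₀ {e} heal
  refine emt_two_sub F (F₀ ⊔ IntermediateField.adjoin k (({e} : Finset M) : Set M))
    (IntermediateField.adjoin k {r}) (IntermediateField.fg_sup hF₀ ⟨{e}, rfl⟩)
    ⟨{r}, by rw [Finset.coe_singleton]⟩ ?_ (trdeg_adjoin_singleton_le r) (hF.trans ?_) hFal
  · rw [j6_trdeg F₀ _ le_sup_left h1, h₀]
  · refine sup_le (le_sup_left.trans le_sup_left) ?_
    obtain ⟨L, hL⟩ : ∃ L, L = F₀ ⊔ IntermediateField.adjoin k (({e} : Finset M) : Set M) ⊔
      IntermediateField.adjoin k {r} := ⟨_, rfl⟩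
    have heL : e ∈ L := by
      rw [hL]
      exact ((le_sup_right : IntermediateField.adjoin k (({e} : Finset M) : Set M) ≤ _).trans
        le_sup_left) (IntermediateField.subset_adjoin _ _ (by simp))
    have hrL : r ∈ L := by
      rw [hL]
      exact (le_sup_right : IntermediateField.adjoin k {r} ≤ _)
        (IntermediateField.mem_adjoin_simple_self k r)
    rw [← hL, IntermediateField.adjoin_le_iff]
    have h2 : v ^ 2 = (e * r ^ n) ^ 2 := by
      rw [h, ← he, ← hr]
      ring
    rintro _ (rfl | rfl)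
    · rcases sq_eq_sq_iff_eq_or_eq_neg.1 h2 with h3 | h3
      · rw [h3]
        exact mul_mem heL (pow_mem hrL n)
      · rw [h3]
        exact neg_mem (mul_mem heL (pow_mem hrL n))
    · rw [← hr]
      exact pow_mem hrL 2

/-- two monomials, `m ≤ n` -/
theorem j6_mono2 [IsAlgClosed M] (F₀ : IntermediateField k M) (hF₀ : F₀.FG)
    (h₀ : Algebra.trdeg k F₀ = 1) (v s : M) (F : IntermediateField k M)
    (hF : F ≤ F₀ ⊔ IntermediateField.adjoin k ({v, s} : Set M))
    (hFal : ∀ y : M, IsAlgebraic F y) (m N : ℕ) (a b : F₀)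
    (h : v ^ 2 = a * s ^ m + b * s ^ (m + N)) : Emt F := by
  by_cases ha : a = 0
  · refine j6_mono F₀ hF₀ h₀ v s F hF hFal (m + N) b ?_
    rw [h, ha]
    push_cast
    ring
  by_cases hb : b = 0
  · refine j6_mono F₀ hF₀ h₀ v s F hF hFal m a ?_
    rw [h, hb]
    push_cast
    ring
  rcases Nat.eq_zero_or_pos N with rfl | hN
  · refine j6_mono F₀ hF₀ h₀ v s F hF hFal m (a + b) ?_
    rw [h]
    push_cast
    ring
  have haM : (a : M) ≠ 0 := fun h => ha (Subtype.ext h)
  have hbM : (b : M) ≠ 0 := fun h => hb (Subtype.ext h)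
  obtain ⟨τ, hτ⟩ := IsAlgClosed.exists_pow_nat_eq (-(a : M) / b) hN
  obtain ⟨ε, hε⟩ := IsAlgClosed.exists_pow_nat_eq ((a : M) * τ ^ m) (n := 2) (by norm_num)
  have hτ0 : τ ≠ 0 := by
    intro h1
    rw [h1, zero_pow hN.ne'] at hτ
    exact div_ne_zero (neg_ne_zero.2 haM) hbM hτ.symm
  have hε0 : ε ≠ 0 := by
    intro h1
    rw [h1, zero_pow (by norm_num)] at hε
    exact mul_ne_zero haM (pow_ne_zero _ hτ0) hε.symm
  have hbτ : (b : M) * τ ^ N = -a := by
    rw [hτ]
    field_simp
  obtain ⟨s', hs'⟩ : ∃ s', s' = s / τ := ⟨_, rfl⟩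
  obtain ⟨v', hv'⟩ : ∃ v', v' = v / ε := ⟨_, rfl⟩
  have hs : s = τ * s' := by
    rw [hs']
    field_simp
  have hv : v = ε * v' := by
    rw [hv']
    field_simp
  have heq : v' ^ 2 = s' ^ m - s' ^ (m + N) := by
    have h1 : ε ^ 2 * v' ^ 2 = ε ^ 2 * (s' ^ m - s' ^ (m + N)) := by
      have h2 : ε ^ 2 * v' ^ 2 = v ^ 2 := by
        rw [hv]
        ring
      rw [h2, h, hs, hε]
      linear_combination τ ^ m * s' ^ m * s' ^ N * hbτ
    exact mul_left_cancel₀ (pow_ne_zero 2 hε0) h1
  have hC₀ : ∀ c ∈ ({τ, ε} : Finset M), IsAlgebraic F₀ c := by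
    have h1 : IsAlgebraic F₀ τ := by
      refine IsAlgebraic.of_pow hN ?_
      rw [hτ]
      exact isAlgebraic_algebraMap (-a / b : F₀)
    intro c hc
    rw [Finset.mem_insert, Finset.mem_singleton] at hc
    rcases hc with rfl | rfl
    · exact h1
    · refine IsAlgebraic.of_pow (n := 2) (by norm_num) ?_
      rw [hε]
      exact (isAlgebraic_algebraMap a).mul (h1.pow m)
  have h1 := j6_ext F₀ {τ, ε} hC₀
  refine emt_two_sub F (F₀ ⊔ IntermediateField.adjoin k (({τ, ε} : Finset M) : Set M))
    (IntermediateField.adjoin k (({s', v'} : Finset M) : Set M))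
    (IntermediateField.fg_sup hF₀ ⟨{τ, ε}, rfl⟩) ⟨{s', v'}, rfl⟩ ?_ ?_ (hF.trans ?_) hFal
  · rw [j6_trdeg F₀ _ le_sup_left h1, h₀]
  · have h2 : IntermediateField.adjoin k {s'} ≤
        IntermediateField.adjoin k (({s', v'} : Finset M) : Set M) := by
      rw [IntermediateField.adjoin_le_iff, Set.singleton_subset_iff]
      exact IntermediateField.subset_adjoin _ _ (by simp)
    have hsm : s' ∈ IntermediateField.adjoin k ({s'} : Set M) :=
      IntermediateField.mem_adjoin_simple_self k s'
    rw [j6_trdeg (IntermediateField.adjoin k {s'}) _ h2 fun c hc => ?_]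
    · exact trdeg_adjoin_singleton_le s'
    · refine alg_adjoin _ _ ?_ c hc
      intro b hb
      rw [Finset.coe_insert, Finset.coe_singleton] at hb
      rcases hb with rfl | hb
      · exact isAlgebraic_algebraMap (⟨_, hsm⟩ : IntermediateField.adjoin k ({_} : Set M))
      · rw [Set.mem_singleton_iff.1 hb]
        refine IsAlgebraic.of_pow (n := 2) (by norm_num) ?_
        rw [heq]
        exact isAlgebraic_algebraMap (⟨_, sub_mem (pow_mem hsm m) (pow_mem hsm (m + N))⟩ :
          IntermediateField.adjoin k ({s'} : Set M))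
  · refine sup_le (le_sup_left.trans le_sup_left) ?_
    obtain ⟨L, hL⟩ : ∃ L, L = F₀ ⊔ IntermediateField.adjoin k (({τ, ε} : Finset M) : Set M) ⊔
      IntermediateField.adjoin k (({s', v'} : Finset M) : Set M) := ⟨_, rfl⟩
    have h3 : ∀ c ∈ ({τ, ε} : Finset M), c ∈ L := fun c hc => by
      rw [hL]
      exact ((le_sup_right : IntermediateField.adjoin k (({τ, ε} : Finset M) : Set M) ≤ _).trans
        le_sup_left) (IntermediateField.subset_adjoin _ _ hc)
    have h4 : ∀ c ∈ ({s', v'} : Finset M), c ∈ L := fun c hc => by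
      rw [hL]
      exact (le_sup_right : IntermediateField.adjoin k (({s', v'} : Finset M) : Set M) ≤ _)
        (IntermediateField.subset_adjoin _ _ hc)
    rw [← hL, IntermediateField.adjoin_le_iff]
    rintro _ (rfl | rfl)
    · rw [hv]
      exact mul_mem (h3 ε (by simp)) (h4 v' (by simp))
    · rw [hs]
      exact mul_mem (h3 τ (by simp)) (h4 s' (by simp))

/-- **Two monomials.** -/
theorem emt_M5 [IsAlgClosed M] (F₀ : IntermediateField k M) (hF₀ : F₀.FG)
    (h₀ : Algebra.trdeg k F₀ = 1) (v s : M) (F : IntermediateField k M)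
    (hF : F ≤ F₀ ⊔ IntermediateField.adjoin k ({v, s} : Set M))
    (hFal : ∀ y : M, IsAlgebraic F y) (m n : ℕ) (a b : F₀)
    (h : v ^ 2 = a * s ^ m + b * s ^ n) : Emt F := by
  rcases le_total m n with hmn | hmn
  · obtain ⟨N, rfl⟩ := Nat.exists_eq_add_of_le hmn
    exact j6_mono2 F₀ hF₀ h₀ v s F hF hFal m N a b h
  · obtain ⟨N, rfl⟩ := Nat.exists_eq_add_of_le hmn
    exact j6_mono2 F₀ hF₀ h₀ v s F hF hFal n N b a (by rw [h, add_comm])

end

section

variable {k M : Type} [Field k] [Field M] [Algebra k M] [IsAlgClosed M] (p : ℕ)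
    [Fact p.Prime] [CharP k p]

/-- the theorem on the towers over `F₀` -/
theorem j6_apply (htd : Algebra.trdeg k M = 2) (F₀ : IntermediateField k M)
    (hF₀ : F₀.FG) (h₀ : Algebra.trdeg k F₀ = 1) (v s : M)
    (hal : ∀ y : M, IsAlgebraic
      (F₀ ⊔ IntermediateField.adjoin k ({v, s} : Set M) : IntermediateField k M) y)
    (F : IntermediateField k M) (hF : F ≤ F₀ ⊔ IntermediateField.adjoin k ({v, s} : Set M))
    (hFal : ∀ y : M, IsAlgebraic F y)
    (t : M) (S : Finset M) (hS : ∀ z ∈ S, ∃ φ f : F₀[X], AddPoly φ ∧ derivative φ ≠ 0 ∧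
      Low2 p f ∧ aeval z φ = aeval t f)
    (hL : ∀ L : IntermediateField k M, F₀ ≤ L → t ∈ L → (∀ z ∈ S, z ∈ L) → s ∈ L ∧ v ∈ L) :
    Emt F := by
  obtain ⟨A, hA⟩ : ∃ A : IntermediateField k M, A = F₀ ⊔ IntermediateField.adjoin k {t} :=
    ⟨_, rfl⟩
  have hEA : F₀ ≤ A := by
    rw [hA]
    exact le_sup_left
  have htA : t ∈ A := by
    rw [hA]
    exact (le_sup_right : IntermediateField.adjoin k {t} ≤ _)
      (IntermediateField.mem_adjoin_simple_self k t)
  obtain ⟨T, hT⟩ : ∃ T : IntermediateField k M,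
    T = A ⊔ IntermediateField.adjoin k (S : Set M) := ⟨_, rfl⟩
  have hAT : A ≤ T := by
    rw [hT]
    exact le_sup_left
  have hST : ∀ z ∈ S, z ∈ T := fun z hz => by
    rw [hT]
    exact (le_sup_right : IntermediateField.adjoin k (S : Set M) ≤ _)
      (IntermediateField.subset_adjoin _ _ hz)
  obtain ⟨hsT, hvT⟩ := hL T (hEA.trans hAT) (hAT htA) hST
  have hTal : ∀ a ∈ T, IsAlgebraic A a := by
    intro a ha
    have h1 : T ≤ (algebraicClosure A M).restrictScalars k := by
      rw [hT]
      refine sup_le ?_ ?_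
      · exact fun b hb => mem_algebraicClosure_iff.2 (isAlgebraic_algebraMap (⟨b, hb⟩ : A))
      · rw [IntermediateField.adjoin_le_iff]
        intro b hb
        refine mem_algebraicClosure_iff.2 ?_
        obtain ⟨φ, f, -, h2, -, h4⟩ := hS b hb
        rw [hA]
        exact j5_alg F₀ t b φ f h2 h4
    exact mem_algebraicClosure_iff.1 (h1 ha)
  have hle : F₀ ⊔ IntermediateField.adjoin k ({v, s} : Set M) ≤ T := by
    refine sup_le (hEA.trans hAT) ?_
    rw [IntermediateField.adjoin_le_iff]
    rintro _ (rfl | rfl)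
    · exact hvT
    · exact hsT
  have hal' : ∀ y : M, IsAlgebraic A y := fun y =>
    algTrans (K := (F₀ ⊔ IntermediateField.adjoin k ({v, s} : Set M) : IntermediateField k M)) A
      (fun b => hTal _ (hle b.2)) y (hal y)
  rw [hA] at hal'
  refine tower_Q p htd F₀ hF₀ h₀ t hal' S hS F ?_ hFal
  rw [← hA, ← hT]
  exact hF.trans hle

theorem j6_A (htd : Algebra.trdeg k M = 2) (N : ℕ) : ∀ (F₀ : IntermediateField k M),
    F₀.FG → Algebra.trdeg k F₀ = 1 → ∀ (v s : M), (∀ y : M, IsAlgebraic
      (F₀ ⊔ IntermediateField.adjoin k ({v, s} : Set M) : IntermediateField k M) y) →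
    ∀ (F : IntermediateField k M), F ≤ F₀ ⊔ IntermediateField.adjoin k ({v, s} : Set M) →
    (∀ y : M, IsAlgebraic F y) → ∀ (B : F₀[X]), Low1 p B → B.natDegree ≤ N →
    v ^ 2 = aeval s B → Emt F := by
  have hp0 : 0 < p := (Fact.out : p.Prime).pos
  have hp2 : 2 ≤ p := (Fact.out : p.Prime).two_le
  have hCM : CharP M p := charP_of_injective_algebraMap (algebraMap k M).injective p
  induction N with
  | zero =>
    intro F₀ hF₀ h₀ v s hal F hF hFal B hB hN h
    rw [eq_C_of_natDegree_eq_zero (Nat.le_zero.1 hN), aeval_C] at h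
    exact j6_mono F₀ hF₀ h₀ v s F hF hFal 0 (B.coeff 0) (by rw [h, pow_zero, mul_one]; rfl)
  | succ N ih =>
    intro F₀ hF₀ h₀ v s hal F hF hFal B hB hN h
    by_cases hB1 : B.coeff 1 = 0
    · by_cases hdeg : B.natDegree = 0
      · exact ih F₀ hF₀ h₀ v s hal F hF hFal B hB (by omega) h
      · -- the `p`-th root
        have hroot : ∀ a : M, ∃ b : M, b ^ p = a := fun a => IsAlgClosed.exists_pow_nat_eq a hp0
        choose ρ hρ using hroot
        obtain ⟨d, hd⟩ : ∃ d, d = (contract p B).natDegree := ⟨_, rfl⟩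
        obtain ⟨C₀, hC₀⟩ : ∃ C₀ : Finset M, C₀ = (Finset.range (d + 1)).image
          (fun n => ρ ((contract p B).coeff n : M)) := ⟨_, rfl⟩
        have hCal : ∀ c ∈ C₀, IsAlgebraic F₀ c := by
          intro c hc
          rw [hC₀, Finset.mem_image] at hc
          obtain ⟨n, -, rfl⟩ := hc
          refine IsAlgebraic.of_pow hp0 ?_
          rw [hρ]
          exact isAlgebraic_algebraMap ((contract p B).coeff n)
        obtain ⟨F₁, hF₁⟩ : ∃ F₁, F₁ = F₀ ⊔ IntermediateField.adjoin k (C₀ : Set M) := ⟨_, rfl⟩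
        have hle₁ : F₀ ≤ F₁ := by
          rw [hF₁]
          exact le_sup_left
        have hC₁ : ∀ n, n ≤ d → ρ ((contract p B).coeff n : M) ∈ F₁ := by
          intro n hn
          rw [hF₁]
          refine (le_sup_right : IntermediateField.adjoin k (C₀ : Set M) ≤ _)
            (IntermediateField.subset_adjoin _ _ ?_)
          rw [hC₀]
          exact Finset.mem_coe.2 (Finset.mem_image.2 ⟨n, Finset.mem_range.2 (by omega), rfl⟩)
        have hF₁fg : F₁.FG := by
          rw [hF₁]
          exact IntermediateField.fg_sup hF₀ ⟨C₀, rfl⟩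
        have hF₁td : Algebra.trdeg k F₁ = 1 := by
          have h1 := j6_ext F₀ C₀ hCal
          rw [← hF₁] at h1
          rw [j6_trdeg F₀ F₁ hle₁ h1, h₀]
        obtain ⟨v', hv'⟩ : ∃ v', v' ^ p = v := ⟨ρ v, hρ v⟩
        have hle : F₀ ⊔ IntermediateField.adjoin k ({v, s} : Set M) ≤
            F₁ ⊔ IntermediateField.adjoin k ({v', s} : Set M) := by
          refine sup_le (hle₁.trans le_sup_left) ?_
          refine le_trans ?_ (le_sup_right : IntermediateField.adjoin k ({v', s} : Set M) ≤ _)
          rw [IntermediateField.adjoin_le_iff]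
          rintro _ (rfl | rfl)
          · rw [← hv']
            exact pow_mem (IntermediateField.subset_adjoin _ _ (by simp)) p
          · exact IntermediateField.subset_adjoin _ _ (by simp)
        obtain ⟨b, hb⟩ : ∃ b : ℕ → F₁, ∀ n, n ≤ d → (b n : M) = ρ ((contract p B).coeff n : M) :=
          ⟨fun n => if hn : n ≤ d then ⟨_, hC₁ n hn⟩ else 0, fun n hn => by simp [hn]⟩
        obtain ⟨B', hB'⟩ : ∃ B' : F₁[X], B' = ∑ n ∈ Finset.range (d + 1), C (b n) * X ^ n :=
          ⟨_, rfl⟩
        have hB'c : ∀ n, B'.coeff n = if n ≤ d then b n else 0 := by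
          intro n
          rw [hB', finsetSum_coeff]
          simp only [coeff_C_mul, coeff_X_pow]
          by_cases hn : n ≤ d
          · rw [Finset.sum_eq_single n, if_pos rfl, mul_one, if_pos hn]
            · intro j _ hj
              rw [if_neg (fun h => hj h.symm), mul_zero]
            · intro hn'
              exact absurd (Finset.mem_range.2 (by omega)) hn'
          · rw [if_neg hn]
            refine Finset.sum_eq_zero fun j hj => ?_
            rw [if_neg, mul_zero]
            have := Finset.mem_range.1 hj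
            omega
        have hBc : ∀ n, B.coeff n ≠ 0 → n = 0 ∨ ∃ i, n = p * p ^ i := by
          intro n hn
          rcases hB n hn with h1 | ⟨i, hi⟩
          · exact Or.inl h1
          · right
            rcases Nat.eq_zero_or_pos i with rfl | hi0
            · rw [pow_zero] at hi
              rw [hi] at hn
              exact absurd hB1 hn
            · obtain ⟨j, rfl⟩ : ∃ j, i = j + 1 := ⟨i - 1, by omega⟩
              exact ⟨j, by rw [hi, pow_succ, mul_comm]⟩
        have hexp : expand F₀ p (contract p B) = B := by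
          refine Polynomial.ext fun n => ?_
          rw [coeff_expand hp0]
          split_ifs with hn
          · rw [coeff_contract hp0.ne', Nat.div_mul_cancel hn]
          · by_contra hne
            rcases hBc n (fun h => hne h.symm) with h1 | ⟨i, hi⟩
            · exact hn (h1 ▸ dvd_zero p)
            · exact hn ⟨_, hi⟩
        have hB'l : Low1 p B' := by
          intro n hn
          rw [hB'c] at hn
          by_cases hnd : n ≤ d
          · rw [if_pos hnd] at hn
            have h1 : (contract p B).coeff n ≠ 0 := by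
              intro h1
              apply hn
              apply Subtype.ext
              rw [hb n hnd, h1]
              have h2 := hρ ((0 : F₀) : M)
              exact pow_eq_zero_iff hp0.ne' |>.1 (by rw [h2]; rfl)
            rw [coeff_contract hp0.ne'] at h1
            rcases hBc _ h1 with h2 | ⟨i, hi⟩
            · left
              rcases Nat.mul_eq_zero.1 h2 with h3 | h3
              · exact h3
              · exact absurd h3 hp0.ne'
            · right
              refine ⟨i, ?_⟩
              rw [mul_comm] at hi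
              exact Nat.eq_of_mul_eq_mul_left hp0 hi
          · rw [if_neg hnd] at hn
            exact absurd rfl hn
        have hdN : B.natDegree = d * p := by
          have h1 := natDegree_expand p (contract p B)
          rw [hexp] at h1
          rw [h1, hd]
        have hB'N : B'.natDegree ≤ N := by
          have h1 : B'.natDegree ≤ d := by
            rw [natDegree_le_iff_coeff_eq_zero]
            intro n hn
            rw [hB'c, if_neg (by omega)]
          have h2 : d * 2 ≤ d * p := Nat.mul_le_mul_left _ hp2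
          have h3 : d ≠ 0 := by
            rintro rfl
            rw [zero_mul] at hdN
            exact hdeg hdN
          omega
        refine ih F₁ hF₁fg hF₁td v' s (fun y => alg_le hle (hal y)) F (hF.trans hle) hFal B' hB'l
          hB'N ?_
        apply frobenius_inj M p
        have h1 : aeval s B = ∑ n ∈ Finset.range (d + 1), ((contract p B).coeff n : M) *
            (s ^ n) ^ p := by
          conv_lhs => rw [← hexp, expand_aeval, aeval_eq_sum_range, ← hd]
          refine Finset.sum_congr rfl fun n _ => ?_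
          rw [Algebra.smul_def, ← pow_mul, ← pow_mul, mul_comm p n]
          rfl
        have h2 : aeval s B' = ∑ n ∈ Finset.range (d + 1), (b n : M) * s ^ n := by
          rw [hB', map_sum]
          refine Finset.sum_congr rfl fun n _ => ?_
          rw [map_mul, map_pow, aeval_X, aeval_C]
          rfl
        rw [frobenius_def, ← pow_mul, mul_comm 2 p, pow_mul, hv', h, h1, h2, map_sum]
        refine Finset.sum_congr rfl fun n hn => ?_
        rw [frobenius_def, mul_pow, hb n (by have := Finset.mem_range.1 hn; omega), hρ]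
    · -- the separable case
      obtain ⟨φ, hφ⟩ : ∃ φ : F₀[X], φ = B - C (B.coeff 0) := ⟨_, rfl⟩
      have hφc : ∀ n, n ≠ 0 → φ.coeff n = B.coeff n := fun n hn => by
        rw [hφ, coeff_sub, coeff_C, if_neg hn, sub_zero]
      have hφ0 : φ.coeff 0 = 0 := by
        rw [hφ]
        simp
      have hφl : Low1 p φ := by
        intro n hn
        rcases eq_or_ne n 0 with rfl | h0
        · exact Or.inl rfl
        · rw [hφc n h0] at hn
          exact hB n hn
      have hCF : CharP F₀ p := charP_of_injective_algebraMap (algebraMap k F₀).injective p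
      refine j6_apply p htd F₀ hF₀ h₀ v s hal F hF hFal v {s} ?_ ?_
      · intro z hz
        rw [Finset.mem_singleton.1 hz]
        refine ⟨φ, X ^ 2 - C (B.coeff 0), h_addPoly p φ hφl hφ0, ?_, ?_, ?_⟩
        · intro h1
          have h2 := congrArg (fun q : F₀[X] => q.coeff 0) h1
          simp only [coeff_derivative, coeff_zero] at h2
          rw [hφc 1 one_ne_zero] at h2
          apply hB1
          simpa using h2
        · intro n hn
          rw [coeff_sub, coeff_X_pow, coeff_C] at hn
          by_cases h2 : n = 2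
          · right; right
            exact ⟨0, 0, by rw [h2, pow_zero]; norm_num⟩
          · left
            by_contra h0
            rw [if_neg h2, if_neg h0, sub_zero] at hn
            exact hn rfl
        · rw [hφ, map_sub, map_sub, map_pow, aeval_X, aeval_C, aeval_C, h]
      · intro L _ hvL hsL
        exact ⟨hsL s (Finset.mem_singleton_self s), hvL⟩

/-- **Additive polynomials.** `v ^ 2 = B(s)`, where `B` is the sum of an additive polynomial over `F₀`
and a constant. -/
theorem emt_A5 (htd : Algebra.trdeg k M = 2) (F₀ : IntermediateField k M)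
    (hF₀ : F₀.FG) (h₀ : Algebra.trdeg k F₀ = 1) (v s : M)
    (hal : ∀ y : M, IsAlgebraic
      (F₀ ⊔ IntermediateField.adjoin k ({v, s} : Set M) : IntermediateField k M) y)
    (F : IntermediateField k M) (hF : F ≤ F₀ ⊔ IntermediateField.adjoin k ({v, s} : Set M))
    (hFal : ∀ y : M, IsAlgebraic F y) (B : F₀[X]) (hB : Low1 p B) (h : v ^ 2 = aeval s B) :
    Emt F :=
  j6_A p htd B.natDegree F₀ hF₀ h₀ v s hal F hF hFal B hB le_rfl h

end

/-- coefficients in `⟨s ^ m, s ^ n⟩` -/
theorem emt_M0 {k : Type} [Field k] (m n : ℕ) (B : Fin 5 → k[X])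
    (hB : ∀ i, ∃ a b : k, B i = C a * X ^ m + C b * X ^ n) : HEmt k B := by
  intro M _ _ _ htd t u v hu hv hal F hF hFal
  choose a b hB using hB
  obtain ⟨F₀, hF₀⟩ : ∃ F₀, F₀ = IntermediateField.adjoin k ({u} : Set M) := ⟨_, rfl⟩
  have huF : u ∈ F₀ := by
    rw [hF₀]
    exact IntermediateField.mem_adjoin_simple_self k u
  have h₀ : Algebra.trdeg k F₀ = 1 := by
    rw [hF₀]
    exact h_trdeg u hu
  have hfg : F₀.FG := by
    rw [hF₀]
    exact ⟨{u}, by rw [Finset.coe_singleton]⟩
  have hle : IntermediateField.adjoin k ({u, v, t} : Set M) ≤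
      F₀ ⊔ IntermediateField.adjoin k ({v, t} : Set M) := by
    rw [IntermediateField.adjoin_le_iff]
    rintro _ (rfl | rfl | rfl)
    · exact (le_sup_left : F₀ ≤ _) huF
    · exact (le_sup_right : IntermediateField.adjoin k ({_, t} : Set M) ≤ _)
        (IntermediateField.subset_adjoin _ _ (by simp))
    · exact (le_sup_right : IntermediateField.adjoin k ({v, _} : Set M) ≤ _)
        (IntermediateField.subset_adjoin _ _ (by simp))
  refine emt_M5 F₀ hfg h₀ v t F (hF.trans hle) hFal m n
    (∑ i : Fin 5, algebraMap k F₀ (a i) * ⟨u, huF⟩ ^ (i : ℕ))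
    (∑ i : Fin 5, algebraMap k F₀ (b i) * ⟨u, huF⟩ ^ (i : ℕ)) ?_
  have h1 : ∀ e : Fin 5 → k, ((∑ i : Fin 5, algebraMap k F₀ (e i) * ⟨u, huF⟩ ^ (i : ℕ) : F₀) : M) =
      ∑ i : Fin 5, algebraMap k M (e i) * u ^ (i : ℕ) := by
    intro e
    push_cast
    rfl
  rw [h1, h1, hv, Finset.sum_mul, Finset.sum_mul, ← Finset.sum_add_distrib]
  refine Finset.sum_congr rfl fun i _ => ?_
  rw [hB]
  simp only [map_add, map_mul, map_pow, aeval_X, aeval_C]
  ring

end Pool.Agent.QD
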