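import Pool.Agent.QD.D
import Pool.Agent.QD.H
import Pool.Agent.ADT.T3

/-!
# The elliptic part for the pencils of plane cubics
`B₂(s) u ^ 2 + B₁(s) u - B₀(s) = t ^ 3 + b t ^ 2 + (c - a u) t`
-/

set_option autoImplicit false

namespace Pool.Agent.QD

open Polynomial Pool.Agent.TUQ Pool.Agent.WLD Pool.Agent.ADT Pool.Agent.UQ WeierstrassCurve
  WeierstrassCurve.Affine Pool.Agent.EFF

open scoped Classical

/-- `x` is transcendental over `k(s)` if it is over `K` -/
theorem trans_simple {k K M : Type} [Field k] [Field K] [Field M] [Algebra k K] [Algebra k M]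
    [Algebra K M] [IsScalarTower k K M] (s : K) (x : M) (hx : Transcendental K x) :
    Transcendental (IntermediateField.adjoin k {algebraMap K M s}) x := by
  intro h
  apply hx
  let ι : K →ₐ[k] M := IsScalarTower.toAlgHom k K M
  have h1 : IntermediateField.adjoin k {algebraMap K M s} ≤ ι.fieldRange := by
    rw [IntermediateField.adjoin_le_iff, Set.singleton_subset_iff]
    exact ⟨s, rfl⟩
  obtain ⟨P, hP0, hP⟩ := alg_le h1 h
  let e : K ≃ₐ[k] ι.fieldRange := AlgEquiv.ofInjectiveField ι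
  refine ⟨P.map (e.symm : ι.fieldRange →+* K), ?_, ?_⟩
  · exact (Polynomial.map_ne_zero_iff e.symm.injective).2 hP0
  · rw [← Polynomial.eval_map_algebraMap, Polynomial.map_map]
    have h2 : (algebraMap K M).comp (e.symm : ι.fieldRange →+* K) = algebraMap ι.fieldRange M := by
      ext a
      obtain ⟨b, rfl⟩ := e.surjective a
      show algebraMap K M (e.symm (e b)) = _
      rw [AlgEquiv.symm_apply_apply]
      rfl
    rw [h2, Polynomial.eval_map_algebraMap]
    exact hP

/-- the property of the function field of `W` over `k(s)` that is used -/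
def WEmt (k : Type) [Field k] (W : WeierstrassCurve k[X]) : Prop :=
  ∀ (M : Type) [Field M] [Algebra k M] [IsAlgClosed M], Algebra.trdeg k M = 2 →
    ∀ s x y : M, Transcendental k s → MvPolynomial.aeval ![x, y, s] (wpoly W) = 0 →
      Transcendental (IntermediateField.adjoin k {s}) x →
      (∀ w : M, IsAlgebraic (IntermediateField.adjoin k ({x, y, s} : Set M)) w) →
      ∀ F : IntermediateField k M, F ≤ IntermediateField.adjoin k ({x, y, s} : Set M) →
      (∀ w : M, IsAlgebraic F w) → Emt F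

/-- the elliptic part, `K = k(s)` -/
theorem sha_of_wemt {k K Kb : Type} [Field k] [Finite k] [Field K] [Field Kb] [Algebra k K]
    [Algebra k Kb] [Algebra K Kb] [IsScalarTower k K Kb] [IsAlgClosed Kb]
    [Algebra.IsAlgebraic K Kb] (p : ℕ) [Fact p.Prime] [CharP k p] (s : K)
    (hs : Transcendental k s) (W : WeierstrassCurve k[X]) (hΔ : W.Δ ≠ 0) (hW : WEmt k W)
    (hK : IntermediateField.adjoin k {s} = ⊤)
    (ℓ : ℕ) (hℓ : ℓ.Prime) (hℓk : (ℓ : k) ≠ 0)
    (c : ℕ → (Kb ≃ₐ[K] Kb) → Pts (Ws W s) Kb) (hc : ShaSys (Ws W s) k ℓ c) (n : ℕ) :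
    Principal (Ws W s) (T1B.geo k K Kb) (c n) := by
  have hS : ∀ z ∈ (∅ : Finset Kb), ∃ φ F : k[X], φ.natDegree ≠ 0 ∧
      aeval z φ = aeval (algebraMap K Kb s) F := fun z hz => absurd hz (Finset.notMem_empty z)
  have hK' : ∀ b : K, algebraMap K Kb b ∈ IntermediateField.adjoin k
      (insert (algebraMap K Kb s) ((∅ : Finset Kb) : Set Kb)) := by
    intro b
    let ι : K →ₐ[k] Kb := IsScalarTower.toAlgHom k K Kb
    have h1 : (IntermediateField.adjoin k {s}).map ι ≤ IntermediateField.adjoin k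
        (insert (algebraMap K Kb s) ((∅ : Finset Kb) : Set Kb)) := by
      rw [IntermediateField.adjoin_map, Set.image_singleton, IntermediateField.adjoin_le_iff,
        Set.singleton_subset_iff]
      exact IntermediateField.subset_adjoin _ _ (Or.inl rfl)
    exact h1 ⟨b, by rw [hK]; exact IntermediateField.mem_top, rfl⟩
  obtain ⟨M, _, _, _, _, x, y, t1, t2, t3, hM, htd, hx, hy, hal⟩ := setup s hs ∅ hS hK' W
  have hsM : Transcendental k (algebraMap K M s) :=
    (transcendental_algebraMap_iff (algebraMap K M).injective).2 hs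
  obtain ⟨t, ht⟩ : ∃ t, t = algebraMap K M s := ⟨_, rfl⟩
  rw [← ht] at hsM
  have hy' : MvPolynomial.aeval ![x, y, t] (wpoly W) = 0 := by
    rw [ht]
    exact hy
  have hxt : Transcendental (IntermediateField.adjoin k {t}) x := by
    rw [ht]
    exact trans_simple s x hx
  obtain ⟨A, hA⟩ : ∃ A, A = IntermediateField.adjoin k ({x, y, t} : Set M) := ⟨_, rfl⟩
  have htA : t ∈ A := by
    rw [hA]
    exact IntermediateField.subset_adjoin _ _ (by simp)
  have hxA : x ∈ A := by
    rw [hA]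
    exact IntermediateField.subset_adjoin _ _ (by simp)
  have hyA : y ∈ A := by
    rw [hA]
    exact IntermediateField.subset_adjoin _ _ (by simp)
  have hle3 : IntermediateField.adjoin k (Set.range ![x, y, algebraMap K M s]) ≤ A := by
    rw [IntermediateField.adjoin_le_iff]
    rintro _ ⟨i, rfl⟩
    fin_cases i
    · exact hxA
    · exact hyA
    · show algebraMap K M s ∈ A
      rw [← ht]
      exact htA
  have hal' : ∀ b : M, IsAlgebraic A b := fun b => alg_le hle3 (hal b)
  obtain ⟨F, hF⟩ : ∃ F : IntermediateField K M, F = IntermediateField.adjoin K {x, y} := ⟨_, rfl⟩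
  have hxF : x ∈ F := by
    rw [hF]
    exact IntermediateField.subset_adjoin _ _ (by simp)
  have hyF : y ∈ F := by
    rw [hF]
    exact IntermediateField.subset_adjoin _ _ (by simp)
  have hsub : IntermediateField.adjoin k (Set.range ![x, y, algebraMap K M s]) ≤
      F.restrictScalars k := by
    rw [IntermediateField.adjoin_le_iff]
    rintro _ ⟨i, rfl⟩
    fin_cases i
    · exact hxF
    · exact hyF
    · exact F.algebraMap_mem s
  have hFal : ∀ b : M, IsAlgebraic (F.restrictScalars k) b := fun b => alg_le hsub (hal b)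
  have hKM : ∀ b : K, algebraMap K M b ∈ A := by
    intro b
    let ι : K →ₐ[k] M := IsScalarTower.toAlgHom k K M
    have h1 : (IntermediateField.adjoin k {s}).map ι ≤ A := by
      rw [IntermediateField.adjoin_map, Set.image_singleton, IntermediateField.adjoin_le_iff,
        Set.singleton_subset_iff]
      show algebraMap K M s ∈ A
      rw [← ht]
      exact htA
    exact h1 ⟨b, by rw [hK]; exact IntermediateField.mem_top, rfl⟩
  have hle : F.restrictScalars k ≤ A := by
    let A' : IntermediateField K M := A.toSubfield.toIntermediateField hKM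
    have hFA : F ≤ A' := by
      rw [hF, IntermediateField.adjoin_le_iff]
      rintro b (rfl | hb)
      · exact hxA
      · rw [Set.mem_singleton_iff.1 hb]
        exact hyA
    exact fun b hb => hFA hb
  rw [hA] at hal' hle
  have hemt : Emt (F.restrictScalars k) := hW M htd t x y hsM hy' hxt hal' _ hle hFal
  have hT1 : T1B.T1 k F ℓ := t1_of_emt (F.restrictScalars k) hFal hemt ℓ hℓ hℓk
  exact bridge s hs (alg_K' s ∅ hS hK') W hΔ x y hx hy F hF ℓ hℓ hℓk hT1 c hc n

/-- the property of the field of functions that is used: `F` is contained in `k(u, t, s)` with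
`B₂(s) u ^ 2 + B₁(s) u - B₀(s) = t ^ 3 + b t ^ 2 + (c - a u) t` -/
def PEmt (k : Type) [Field k] (a b c : k) (B : Fin 3 → k[X]) : Prop :=
  ∀ (M : Type) [Field M] [Algebra k M] [IsAlgClosed M], Algebra.trdeg k M = 2 →
    ∀ s u t : M, Transcendental k u →
      aeval s (B 2) * u ^ 2 + aeval s (B 1) * u - aeval s (B 0) =
        t ^ 3 + algebraMap k M b * t ^ 2 + (algebraMap k M c - algebraMap k M a * u) * t →
      (∀ w : M, IsAlgebraic (IntermediateField.adjoin k ({u, t, s} : Set M)) w) →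
      ∀ F : IntermediateField k M, F ≤ IntermediateField.adjoin k ({u, t, s} : Set M) →
      (∀ w : M, IsAlgebraic F w) → Emt F

/-- the coordinates `t = x / B₂(s)`, `u = y / B₂(s) ^ 2` -/
theorem wemt_of_pemt {k : Type} [Field k] (W : WeierstrassCurve k[X]) (hΔ : W.Δ ≠ 0) (a b c : k)
    (B : Fin 3 → k[X]) (hB : PEmt k a b c B) (w1 : W.a₁ = C a) (w2 : W.a₂ = C b * B 2)
    (w3 : W.a₃ = B 1 * B 2) (w4 : W.a₄ = C c * B 2 ^ 2) (w6 : W.a₆ = B 0 * B 2 ^ 3) :
    WEmt k W := by
  intro M _ _ _ htd s x y hs hy hx hal F hF hFal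
  obtain ⟨β, hβ⟩ : ∃ β, β = aeval s (B 2) := ⟨_, rfl⟩
  obtain ⟨β₁, hβ₁⟩ : ∃ β₁, β₁ = aeval s (B 1) := ⟨_, rfl⟩
  obtain ⟨β₀, hβ₀⟩ : ∃ β₀, β₀ = aeval s (B 0) := ⟨_, rfl⟩
  obtain ⟨a', ha'⟩ : ∃ a', a' = algebraMap k M a := ⟨_, rfl⟩
  obtain ⟨b', hb'⟩ : ∃ b', b' = algebraMap k M b := ⟨_, rfl⟩
  obtain ⟨c', hc'⟩ : ∃ c', c' = algebraMap k M c := ⟨_, rfl⟩
  have hβ0 : β ≠ 0 := by
    intro h
    rw [hβ] at h
    have h2 : B 2 = 0 := transcendental_iff_injective.1 hs (h.trans (map_zero _).symm)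
    apply hΔ
    rw [WeierstrassCurve.Δ, WeierstrassCurve.b₂, WeierstrassCurve.b₄, WeierstrassCurve.b₆,
      WeierstrassCurve.b₈, w2, w3, w4, w6, h2]
    ring
  obtain ⟨t, ht⟩ : ∃ t, t = x / β := ⟨_, rfl⟩
  obtain ⟨u, hu⟩ : ∃ u, u = y / β ^ 2 := ⟨_, rfl⟩
  have hxt : x = t * β := by
    rw [ht, div_mul_cancel₀ _ hβ0]
  have hyu : y = u * β ^ 2 := by
    rw [hu, div_mul_cancel₀ _ (pow_ne_zero 2 hβ0)]
  have heq : β * u ^ 2 + β₁ * u - β₀ = t ^ 3 + b' * t ^ 2 + (c' - a' * u) * t := by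
    rw [aeval_wpoly, w1, w2, w3, w4, w6] at hy
    simp only [Matrix.cons_val_zero, Matrix.cons_val_one, Matrix.cons_val, map_mul, map_pow,
      aeval_C, ← hβ, ← hβ₁, ← hβ₀, ← ha', ← hb', ← hc', hxt, hyu] at hy
    apply mul_left_cancel₀ (pow_ne_zero 3 hβ0)
    linear_combination hy
  have hsS : ∀ L : IntermediateField k M, s ∈ L → β ∈ L ∧ β₁ ∈ L ∧ β₀ ∈ L := fun L hL => by
    rw [hβ, hβ₁, hβ₀]
    exact ⟨h_aeval_mem L s hL _, h_aeval_mem L s hL _, h_aeval_mem L s hL _⟩
  have hut : Transcendental k u := by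
    intro hual
    apply hx
    obtain ⟨A, hA⟩ : ∃ A, A = IntermediateField.adjoin k ({s} : Set M) := ⟨_, rfl⟩
    obtain ⟨L, hL⟩ : ∃ L, L = IntermediateField.adjoin k ({s, u} : Set M) := ⟨_, rfl⟩
    have hsA : s ∈ A := by
      rw [hA]
      exact IntermediateField.mem_adjoin_simple_self k s
    have hsL : s ∈ L := by
      rw [hL]
      exact IntermediateField.subset_adjoin _ _ (by simp)
    have huL : u ∈ L := by
      rw [hL]
      exact IntermediateField.subset_adjoin _ _ (by simp)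
    obtain ⟨hL2, hL1, hL0⟩ := hsS L hsL
    have htL : IsAlgebraic L t := by
      have haL : a' ∈ L := by
        rw [ha']
        exact L.algebraMap_mem a
      have hbL : b' ∈ L := by
        rw [hb']
        exact L.algebraMap_mem b
      have hcL : c' ∈ L := by
        rw [hc']
        exact L.algebraMap_mem c
      have h1 : c' - a' * u ∈ L := sub_mem hcL (mul_mem haL huL)
      have h0 : β * u ^ 2 + β₁ * u - β₀ ∈ L :=
        sub_mem (add_mem (mul_mem hL2 (pow_mem huL 2)) (mul_mem hL1 huL)) hL0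
      refine ⟨X ^ 3 + C (⟨b', hbL⟩ : L) * X ^ 2 + C (⟨_, h1⟩ : L) * X - C (⟨_, h0⟩ : L), ?_, ?_⟩
      · have h3 : (X ^ 3 + C (⟨b', hbL⟩ : L) * X ^ 2 + C (⟨_, h1⟩ : L) * X -
            C (⟨_, h0⟩ : L)).natDegree = 3 := by
          compute_degree!
        intro h4
        rw [h4, natDegree_zero] at h3
        omega
      · simp only [map_sub, map_add, map_mul, map_pow, aeval_X, aeval_C]
        show t ^ 3 + b' * t ^ 2 + (c' - a' * u) * t - (β * u ^ 2 + β₁ * u - β₀) = 0
        rw [heq]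
        ring
    have htA : IsAlgebraic A t := by
      refine algTrans (K := L) A (fun w => ?_) t htL
      refine alg_adjoin A _ ?_ (w : M) (hL.le w.2)
      rintro _ (rfl | rfl)
      · exact isAlgebraic_algebraMap (⟨_, hsA⟩ : A)
      · exact hual.tower_top A
    rw [← hA, hxt]
    exact htA.mul (isAlgebraic_algebraMap (⟨β, (hsS A hsA).1⟩ : A))
  have hle1 : IntermediateField.adjoin k ({x, y, s} : Set M) ≤
      IntermediateField.adjoin k ({u, t, s} : Set M) := by
    have h1 : s ∈ IntermediateField.adjoin k ({u, t, s} : Set M) :=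
      IntermediateField.subset_adjoin _ _ (by simp)
    have h2 : u ∈ IntermediateField.adjoin k ({u, t, s} : Set M) :=
      IntermediateField.subset_adjoin _ _ (by simp)
    have h3 : t ∈ IntermediateField.adjoin k ({u, t, s} : Set M) :=
      IntermediateField.subset_adjoin _ _ (by simp)
    rw [IntermediateField.adjoin_le_iff]
    rintro _ (rfl | rfl | rfl)
    · rw [hxt]
      exact mul_mem h3 (hsS _ h1).1
    · rw [hyu]
      exact mul_mem h2 (pow_mem (hsS _ h1).1 2)
    · exact h1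
  exact hB M htd s u t hut (by rw [← hβ, ← hβ₁, ← hβ₀, ← ha', ← hb', ← hc']; exact heq)
    (fun w => alg_le hle1 (hal w)) F (hF.trans hle1) hFal

/-- the elliptic part for the pencils of plane cubics -/
theorem sha_of_pemt {k K Kb : Type} [Field k] [Finite k] [Field K] [Field Kb] [Algebra k K]
    [Algebra k Kb] [Algebra K Kb] [IsScalarTower k K Kb] [IsAlgClosed Kb]
    [Algebra.IsAlgebraic K Kb] (p : ℕ) [Fact p.Prime] [CharP k p] (s : K)
    (hs : Transcendental k s) (W : WeierstrassCurve k[X]) (hΔ : W.Δ ≠ 0) (α β γ : k)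
    (B : Fin 3 → k[X]) (hB : PEmt k α β γ B) (w1 : W.a₁ = C α) (w2 : W.a₂ = C β * B 2)
    (w3 : W.a₃ = B 1 * B 2) (w4 : W.a₄ = C γ * B 2 ^ 2) (w6 : W.a₆ = B 0 * B 2 ^ 3)
    (hK : IntermediateField.adjoin k {s} = ⊤)
    (ℓ : ℕ) (hℓ : ℓ.Prime) (hℓk : (ℓ : k) ≠ 0)
    (c : ℕ → (Kb ≃ₐ[K] Kb) → Pts (Ws W s) Kb) (hc : ShaSys (Ws W s) k ℓ c) (n : ℕ) :
    Principal (Ws W s) (T1B.geo k K Kb) (c n) :=
  sha_of_wemt p s hs W hΔ (wemt_of_pemt W hΔ α β γ B hB w1 w2 w3 w4 w6) hK ℓ hℓ hℓk c hc n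

end Pool.Agent.QD
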