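import Pool.Agent.ADH.V7
import Pool.Agent.QD.J6
import Pool.Agent.QD.K5

/-!
# Elliptic curves over `k(s)`, `p = 5`, such that the Hasse invariant is a fifth power
-/

set_option autoImplicit false

namespace Pool.Agent.QD

open Polynomial Pool.Agent.TUQ Pool.Agent.WLD Pool.Agent.ADT Pool.Agent.UQ WeierstrassCurve
  WeierstrassCurve.Affine Pool.Agent.EFF

open scoped Classical

/-- the curves `y ^ 2 = x ^ 3 + b(s)` -/
theorem wemt_hw5 {k : Type} [Field k] (W : WeierstrassCurve k[X]) (w1 : W.a₁ = 0)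
    (w2 : W.a₂ = 0) (w3 : W.a₃ = 0) (w4 : W.a₄ = 0) : WEmt k W := by
  intro M _ _ _ htd s x y hs hy hx hal F hF hFal
  obtain ⟨F₀, hF₀⟩ : ∃ F₀, F₀ = IntermediateField.adjoin k ({s} : Set M) := ⟨_, rfl⟩
  have hsF : s ∈ F₀ := by
    rw [hF₀]
    exact IntermediateField.mem_adjoin_simple_self k s
  have hFG : F₀.FG := by
    rw [hF₀]
    exact ⟨{s}, by rw [Finset.coe_singleton]⟩
  have h₀ : Algebra.trdeg k F₀ = 1 := by
    rw [hF₀]
    exact h_trdeg s hs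
  obtain ⟨b, hb⟩ : ∃ b : F₀, (b : M) = aeval s W.a₆ := ⟨⟨_, h_aeval_mem F₀ s hsF _⟩, rfl⟩
  refine emt_M5 F₀ hFG h₀ y x F (hF.trans ?_) hFal 3 0 1 b ?_
  · rw [IntermediateField.adjoin_le_iff]
    have h1 : IntermediateField.adjoin k ({y, x} : Set M) ≤
        F₀ ⊔ IntermediateField.adjoin k ({y, x} : Set M) := le_sup_right
    rintro _ (rfl | rfl | rfl)
    · exact h1 (IntermediateField.subset_adjoin _ _ (by simp))
    · exact h1 (IntermediateField.subset_adjoin _ _ (by simp))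
    · exact (le_sup_left : F₀ ≤ _) hsF
  · rw [aeval_wpoly, w1, w2, w3, w4] at hy
    simp only [Matrix.cons_val_zero, Matrix.cons_val_one, Matrix.cons_val, map_zero] at hy
    rw [hb]
    push_cast
    linear_combination hy

/-- `p = 3`, the curves `y ^ 2 = x ^ 3 + a(s) x + b(s)` -/
theorem wemt_hw3 {k : Type} [Field k] [CharP k 3] (W : WeierstrassCurve k[X]) (w1 : W.a₁ = 0)
    (w2 : W.a₂ = 0) (w3 : W.a₃ = 0) : WEmt k W := by
  intro M _ _ _ htd s x y hs hy hx hal F hF hFal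
  have h3 : Fact (Nat.Prime 3) := ⟨by norm_num⟩
  obtain ⟨F₀, hF₀⟩ : ∃ F₀, F₀ = IntermediateField.adjoin k ({s} : Set M) := ⟨_, rfl⟩
  have hsF : s ∈ F₀ := by
    rw [hF₀]
    exact IntermediateField.mem_adjoin_simple_self k s
  have hFG : F₀.FG := by
    rw [hF₀]
    exact ⟨{s}, by rw [Finset.coe_singleton]⟩
  have h₀ : Algebra.trdeg k F₀ = 1 := by
    rw [hF₀]
    exact h_trdeg s hs
  obtain ⟨a, ha⟩ : ∃ a : F₀, (a : M) = aeval s W.a₄ := ⟨⟨_, h_aeval_mem F₀ s hsF _⟩, rfl⟩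
  obtain ⟨b, hb⟩ : ∃ b : F₀, (b : M) = aeval s W.a₆ := ⟨⟨_, h_aeval_mem F₀ s hsF _⟩, rfl⟩
  have hle : IntermediateField.adjoin k ({x, y, s} : Set M) ≤
      F₀ ⊔ IntermediateField.adjoin k ({y, x} : Set M) := by
    rw [IntermediateField.adjoin_le_iff]
    have h1 : IntermediateField.adjoin k ({y, x} : Set M) ≤
        F₀ ⊔ IntermediateField.adjoin k ({y, x} : Set M) := le_sup_right
    rintro _ (rfl | rfl | rfl)
    · exact h1 (IntermediateField.subset_adjoin _ _ (by simp))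
    · exact h1 (IntermediateField.subset_adjoin _ _ (by simp))
    · exact (le_sup_left : F₀ ≤ _) hsF
  refine emt_A5 3 htd F₀ hFG h₀ y x (fun w => alg_le hle (hal w)) F (hF.trans hle) hFal
    (X ^ 3 + C a * X + C b) ?_ ?_
  · intro n hn
    by_contra h4
    push Not at h4
    have h5 : n ≠ 3 := fun h => h4.2 1 (by rw [h, pow_one])
    have h6 : (1 : ℕ) ≠ n := fun h => h4.2 0 (by rw [← h, pow_zero])
    apply hn
    rw [coeff_add, coeff_add, coeff_X_pow, coeff_C_mul, coeff_X, coeff_C, if_neg h5, if_neg h6,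
      if_neg h4.1]
    ring
  · rw [aeval_wpoly, w1, w2, w3] at hy
    simp only [Matrix.cons_val_zero, Matrix.cons_val_one, Matrix.cons_val, map_zero] at hy
    simp only [map_add, map_mul, map_pow, aeval_X, aeval_C]
    change y ^ 2 = x ^ 3 + (a : M) * x + (b : M)
    rw [ha, hb]
    linear_combination hy

/-- `p = 5`, `y ^ 2 = x ^ 3 + g(s) ^ 5 x + b(s)`, `deg g ≤ 4`, `deg b ≤ 30` -/
theorem sha_HW5 {k K Kb : Type} [Field k] [Finite k] [Field K] [Field Kb] [Algebra k K]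
    [Algebra k Kb] [Algebra K Kb] [IsScalarTower k K Kb] [IsAlgClosed Kb]
    [Algebra.IsAlgebraic K Kb] [CharP k 5] (s : K)
    (hs : Transcendental k s) (W : WeierstrassCurve k[X]) (hΔ : W.Δ ≠ 0)
    (w1 : W.a₁ = 0) (w2 : W.a₂ = 0) (w3 : W.a₃ = 0) (g : k[X]) (w4 : W.a₄ = g ^ 5)
    (hg : g.natDegree ≤ 4) (d6 : W.a₆.natDegree ≤ 30)
    (hK : IntermediateField.adjoin k {s} = ⊤)
    (ℓ : ℕ) (hℓ : ℓ.Prime) (hℓk : (ℓ : k) ≠ 0)
    (c : ℕ → (Kb ≃ₐ[K] Kb) → Pts (Ws W s) Kb) (hc : ShaSys (Ws W s) k ℓ c) (n : ℕ) :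
    Principal (Ws W s) (T1B.geo k K Kb) (c n) := by
  have h5 : Fact (Nat.Prime 5) := ⟨by norm_num⟩
  by_cases h0 : g = 0
  · refine sha_of_wemt 5 s hs W hΔ (wemt_hw5 W w1 w2 w3 ?_) hK ℓ hℓ hℓk c hc n
    rw [w4, h0]
    exact zero_pow (by norm_num)
  · refine ADH.sha_V5 s hs W hΔ w1 w2 w3 g 1 h0 one_ne_zero (by rw [w4, mul_one]) ?_ ?_ hK ℓ hℓ
      hℓk c hc n
    · rw [natDegree_one]
      omega
    · rw [natDegree_one]
      omega

end Pool.Agent.QD
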