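import Pool.Agent.FRT.P4
import Pool.Agent.QD.EB
import Pool.Agent.QD.HW5

/-!
# Elliptic curves over `k(s)`, `p = 3`, `5`, such that the Hasse invariant is a `p`-th power
-/

set_option autoImplicit false

namespace Pool.Agent.QD

open Polynomial Pool.Agent.TUQ Pool.Agent.WLD Pool.Agent.ADT Pool.Agent.UQ WeierstrassCurve
  WeierstrassCurve.Affine Pool.Agent.EFF

open scoped Classical

section

variable {k M : Type} [Field k] [Field M] [Algebra k M] [IsAlgClosed M]

/-- `y ^ 2 = x ^ 3 + h ^ 3 x ^ 2 + f x + b`, `h` of degree at most one -/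
theorem hw_core [CharP k 3] (htd : Algebra.trdeg k M = 2) (s x y : M) (h f b : k[X])
    (hh : aeval s h ≠ 0) (dh : h.natDegree ≤ 1) (df : f.natDegree ≤ 12) (db : b.natDegree ≤ 18)
    (heq : y ^ 2 = x ^ 3 + aeval s h ^ 3 * x ^ 2 + aeval s f * x + aeval s b)
    (hal : ∀ w : M, IsAlgebraic (IntermediateField.adjoin k ({x, y, s} : Set M)) w)
    (F : IntermediateField k M) (hF : F ≤ IntermediateField.adjoin k ({x, y, s} : Set M))
    (hFal : ∀ w : M, IsAlgebraic F w) : Emt F := by
  obtain ⟨X₀, hX₀⟩ : ∃ X₀, X₀ = aeval s h ^ 3 * x := ⟨_, rfl⟩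
  have hx : x = X₀ / aeval s h ^ 3 := by
    rw [hX₀]
    field_simp
  obtain ⟨A, hA⟩ : ∃ A, A = IntermediateField.adjoin k (Set.range ![X₀, s, 0]) := ⟨_, rfl⟩
  have hXA : X₀ ∈ A := by
    rw [hA]
    exact IntermediateField.subset_adjoin _ _ ⟨0, rfl⟩
  have hsA : s ∈ A := by
    rw [hA]
    exact IntermediateField.subset_adjoin _ _ ⟨1, rfl⟩
  have hpA : ∀ q : k[X], aeval s q ∈ A := fun q => h_aeval_mem A s hsA q
  have hxA : x ∈ A := by
    rw [hx]
    exact div_mem hXA (pow_mem (hpA h) 3)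
  have hyA : IsAlgebraic A y := by
    refine IsAlgebraic.of_pow (n := 2) (by norm_num) ?_
    have h1 : y ^ 2 ∈ A := by
      rw [heq]
      exact add_mem (add_mem (add_mem (pow_mem hxA 3) (mul_mem (pow_mem (hpA h) 3) (pow_mem hxA 2)))
        (mul_mem (hpA f) hxA)) (hpA b)
    exact isAlgebraic_algebraMap (⟨_, h1⟩ : A)
  have hal' : ∀ w : M, IsAlgebraic A w := by
    intro w
    refine algTrans (K := IntermediateField.adjoin k ({x, y, s} : Set M)) A (fun w => ?_) w (hal w)
    refine alg_adjoin A _ ?_ (w : M) w.2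
    rintro _ (rfl | rfl | rfl)
    · exact isAlgebraic_algebraMap (⟨_, hxA⟩ : A)
    · exact hyA
    · exact isAlgebraic_algebraMap (⟨_, hsA⟩ : A)
  rw [hA] at hal'
  refine FRT.emt_T3 htd X₀ s y hal' h 1 f (h ^ 3 * b) hh ?_ 12 3 8 24 (by norm_num) ?_ ?_ ?_
    (by norm_num) ?_ ?_ (by norm_num) (by norm_num) ∅ (fun z hz => absurd hz (Finset.notMem_empty z))
    F (hF.trans ?_) hFal
  · rw [heq, hX₀, map_one, map_mul, map_pow]
    ring
  · rw [natDegree_one]
  · omega
  · refine natDegree_mul_le.trans ?_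
    have := natDegree_pow_le (p := h) (n := 3)
    omega
  · omega
  · omega
  · rw [IntermediateField.adjoin_le_iff]
    have hle : A ≤ IntermediateField.adjoin k (Set.range ![X₀, s, 0] ∪
        insert y ((∅ : Finset M) : Set M)) := by
      rw [hA]
      exact IntermediateField.adjoin.mono _ _ _ Set.subset_union_left
    rintro _ (rfl | rfl | rfl)
    · exact hle hxA
    · exact IntermediateField.subset_adjoin _ _ (Or.inr (Or.inl rfl))
    · exact hle hsA

omit [IsAlgClosed M] in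
/-- the polynomial `X ^ N A(θ + 1 / X)` -/
theorem hw_rev {A : k[X]} {N : ℕ} (hN : A.natDegree ≤ N) (θ : k) (s s' : M)
    (hs : s * s' = algebraMap k M θ * s' + 1) :
    ∃ A' : k[X], A'.natDegree ≤ N ∧ aeval s' A' = aeval s A * s' ^ N := by
  refine ⟨∑ i ∈ Finset.range (N + 1), C (A.coeff i) *
    ((C θ * X + 1) ^ i * X ^ (N - i)), ?_, ?_⟩
  · refine natDegree_sum_le_of_forall_le _ _ fun i hi => ?_
    have hi' : i ≤ N := by
      have := Finset.mem_range.1 hi
      omega
    refine (natDegree_C_mul_le _ _).trans (natDegree_mul_le.trans ?_)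
    have h1 : ((C θ * X + 1 : k[X]) ^ i).natDegree ≤ i * 1 := by
      refine natDegree_pow_le_of_le i ?_
      refine (natDegree_add_le _ _).trans ?_
      rw [natDegree_one, max_le_iff]
      exact ⟨(natDegree_C_mul_le _ _).trans natDegree_X_le, by norm_num⟩
    have h2 : (X ^ (N - i) : k[X]).natDegree ≤ N - i := natDegree_X_pow_le _
    omega
  · rw [map_sum, aeval_eq_sum_range' (n := N + 1) (by omega), Finset.sum_mul]
    refine Finset.sum_congr rfl fun i hi => ?_
    have hi' : i ≤ N := by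
      have := Finset.mem_range.1 hi
      omega
    simp only [map_mul, map_add, map_pow, aeval_C, aeval_X, map_one]
    rw [Algebra.smul_def, ← hs, mul_pow]
    have h3 : s' ^ N = s' ^ i * s' ^ (N - i) := by
      rw [← pow_add, Nat.add_sub_cancel' hi']
    rw [h3]
    ring

end

/-- the field of functions of the surface -/
theorem hw_wemt {k : Type} [Field k] [CharP k 3] (W : WeierstrassCurve k[X])
    (w1 : W.a₁ = 0) (w3 : W.a₃ = 0) (g : k[X]) (w2 : W.a₂ = g ^ 3)
    (hg : g.natDegree ≤ 2) (d4 : W.a₄.natDegree ≤ 12) (d6 : W.a₆.natDegree ≤ 18) : WEmt k W := by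
  intro M _ _ _ htd s x y hs hxy hx hal F hF hFal
  have hp3 : Fact (Nat.Prime 3) := ⟨Nat.prime_three⟩
  have hne : ∀ q : k[X], q ≠ 0 → aeval s q ≠ 0 := fun q hq h0 => hs ⟨q, hq, h0⟩
  have heq : y ^ 2 = x ^ 3 + aeval s g ^ 3 * x ^ 2 + aeval s W.a₄ * x + aeval s W.a₆ := by
    have h1 := hxy
    rw [aeval_wpoly, w1, w3, w2] at h1
    simp only [Matrix.cons_val_zero, Matrix.cons_val_one, Matrix.cons_val, map_zero, map_pow] at h1
    linear_combination h1
  by_cases hg0 : g = 0
  · refine wemt_hw3 W w1 ?_ w3 M htd s x y hs hxy hx hal F hF hFal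
    rw [w2, hg0]
    exact zero_pow (by norm_num)
  by_cases hg1 : g.natDegree ≤ 1
  · exact hw_core htd s x y g W.a₄ W.a₆ (hne g hg0) hg1 d4 d6 heq hal F hF hFal
  · -- a root of the quadratic polynomial is moved to infinity
    obtain ⟨θ, hθ⟩ : ∃ θ : M, aeval θ g = 0 := by
      have h1 : (g.map (algebraMap k M)).degree ≠ 0 := by
        intro h
        have h2 : (g.map (algebraMap k M)).natDegree = 0 := natDegree_eq_of_degree_eq_some h
        rw [natDegree_map] at h2
        omega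
      obtain ⟨θ, h3⟩ := IsAlgClosed.exists_root _ h1
      refine ⟨θ, ?_⟩
      rwa [IsRoot, eval_map_algebraMap] at h3
    have hθal : IsAlgebraic k θ := ⟨g, hg0, hθ⟩
    obtain ⟨k₁, hk₁⟩ : ∃ k₁, k₁ = IntermediateField.adjoin k ({θ} : Set M) := ⟨_, rfl⟩
    have hfin : FiniteDimensional k k₁ := by
      rw [hk₁]
      exact IntermediateField.adjoin.finiteDimensional hθal.isIntegral
    have hk₁fg : k₁.FG := by
      rw [hk₁]
      exact ⟨{θ}, by rw [Finset.coe_singleton]⟩
    have hθk : θ ∈ k₁ := by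
      rw [hk₁]
      exact IntermediateField.mem_adjoin_simple_self k θ
    have hC₁ : CharP k₁ 3 := charP_of_injective_algebraMap (algebraMap k k₁).injective 3
    have htd₁ : Algebra.trdeg k₁ M = 2 := by
      have h1 := _root_.trdeg_add_eq k k₁ (A := M)
      have h2 : Algebra.IsAlgebraic k k₁ := inferInstance
      rw [trdeg_eq_zero_iff.2 h2, zero_add, htd] at h1
      exact h1
    obtain ⟨ϑ, hϑ⟩ : ∃ ϑ : k₁, ϑ = ⟨θ, hθk⟩ := ⟨_, rfl⟩
    have hϑM : algebraMap k₁ M ϑ = θ := by rw [hϑ]; rfl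
    have hroot : (g.map (algebraMap k k₁)).IsRoot ϑ := by
      rw [IsRoot, eval_map_algebraMap]
      apply (algebraMap k₁ M).injective
      rw [map_zero, ← Polynomial.aeval_algebraMap_apply, hϑM, hθ]
    obtain ⟨q, hq⟩ := dvd_iff_isRoot.2 hroot
    have hgm0 : g.map (algebraMap k k₁) ≠ 0 :=
      (Polynomial.map_ne_zero_iff (algebraMap k k₁).injective).2 hg0
    have hq0 : q ≠ 0 := by
      rintro rfl
      rw [mul_zero] at hq
      exact hgm0 hq
    have hqd : q.natDegree ≤ 1 := by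
      have h1 := congrArg natDegree hq
      rw [natDegree_map, natDegree_mul (X_sub_C_ne_zero ϑ) hq0, natDegree_X_sub_C] at h1
      omega
    have hsθ : s - θ ≠ 0 := by
      intro h0
      exact hs (by rw [sub_eq_zero.1 h0]; exact hθal)
    obtain ⟨s', hs'⟩ : ∃ s', s' = 1 / (s - θ) := ⟨_, rfl⟩
    have hs'0 : s' ≠ 0 := by
      rw [hs']
      exact one_div_ne_zero hsθ
    have hss : s * s' = algebraMap k₁ M ϑ * s' + 1 := by
      rw [hϑM, hs']
      field_simp
      ring
    have hss2 : (s - θ) * s' = 1 := by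
      rw [hs']
      field_simp
    obtain ⟨h, dh, eh⟩ := hw_rev hqd ϑ s s' hss
    obtain ⟨f, df, ef⟩ := hw_rev (A := W.a₄.map (algebraMap k k₁)) (N := 12)
      (by rw [natDegree_map]; exact d4) ϑ s s' hss
    obtain ⟨b, db, eb⟩ := hw_rev (A := W.a₆.map (algebraMap k k₁)) (N := 18)
      (by rw [natDegree_map]; exact d6) ϑ s s' hss
    rw [aeval_map_algebraMap] at ef eb
    have hgq : aeval s g = (s - θ) * aeval s q := by
      have h1 : aeval s g = aeval s (g.map (algebraMap k k₁)) := (aeval_map_algebraMap k₁ s g).symm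
      rw [h1, hq, map_mul, map_sub, aeval_X, aeval_C, hϑM]
    have eh' : aeval s' h = aeval s g * s' ^ 2 := by
      rw [eh, hgq]
      linear_combination (-(aeval s q * s')) * hss2
    have hh0 : aeval s' h ≠ 0 := by
      rw [eh']
      exact mul_ne_zero (hne g hg0) (pow_ne_zero 2 hs'0)
    obtain ⟨x', hx'⟩ : ∃ x', x' = x * s' ^ 6 := ⟨_, rfl⟩
    obtain ⟨y', hy'⟩ : ∃ y', y' = y * s' ^ 9 := ⟨_, rfl⟩
    have heq' : y' ^ 2 = x' ^ 3 + aeval s' h ^ 3 * x' ^ 2 + aeval s' f * x' + aeval s' b := by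
      rw [hx', hy', eh', ef, eb, mul_pow, heq]
      ring
    obtain ⟨F₁, hF₁⟩ : ∃ F₁, F₁ = IntermediateField.adjoin k₁ ({x', y', s'} : Set M) := ⟨_, rfl⟩
    have hx'F : x' ∈ F₁ := by
      rw [hF₁]
      exact IntermediateField.subset_adjoin _ _ (by simp)
    have hy'F : y' ∈ F₁ := by
      rw [hF₁]
      exact IntermediateField.subset_adjoin _ _ (by simp)
    have hs'F : s' ∈ F₁ := by
      rw [hF₁]
      exact IntermediateField.subset_adjoin _ _ (by simp)
    have hθF : θ ∈ F₁ := by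
      rw [← hϑM]
      exact F₁.algebraMap_mem ϑ
    have hle₁ : IntermediateField.adjoin k ({x, y, s} : Set M) ≤ F₁.restrictScalars k := by
      rw [IntermediateField.adjoin_le_iff]
      rintro w (hw | hw | hw)
      · show w ∈ F₁
        have h1 : w = x' / s' ^ 6 := by
          rw [hx', hw]
          field_simp
        rw [h1]
        exact div_mem hx'F (pow_mem hs'F 6)
      · show w ∈ F₁
        have h1 : w = y' / s' ^ 9 := by
          rw [hy', hw]
          field_simp
        rw [h1]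
        exact div_mem hy'F (pow_mem hs'F 9)
      · show w ∈ F₁
        have h1 : w = θ + 1 / s' := by
          rw [hs', one_div_one_div, hw]
          ring
        rw [h1]
        exact add_mem hθF (div_mem (one_mem _) hs'F)
    have hal₁ : ∀ w : M, IsAlgebraic (IntermediateField.adjoin k₁ ({x', y', s'} : Set M)) w := by
      intro w
      have h1 := alg_le hle₁ (hal w)
      rw [← hF₁]
      exact h1
    have hemt : Emt F₁ := hw_core htd₁ s' x' y' h f b hh0 dh df db heq' hal₁ F₁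
      (by rw [hF₁]) (by rw [hF₁]; exact hal₁)
    have hfg₁ : (F₁.restrictScalars k).FG := by
      have h2 : F₁.restrictScalars k = k₁ ⊔ IntermediateField.adjoin k ({x', y', s'} : Set M) := by
        rw [hF₁, IntermediateField.restrictScalars_adjoin, IntermediateField.adjoin_union,
          IntermediateField.adjoin_self]
      rw [h2]
      exact IntermediateField.fg_sup hk₁fg ⟨{x', y', s'}, by simp⟩
    exact emt_sub F (F₁.restrictScalars k) (hF.trans hle₁) hfg₁ hFal (emt_base k₁ F₁ hemt)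

/-- the curves `y ^ 2 = x ^ 3 + g ^ 3 x ^ 2 + a x + b` of characteristic three over `k(s)`, of
degrees at most `6`, `12`, `18` -/
theorem sha_HW {k K Kb : Type} [Field k] [Finite k] [Field K] [Field Kb] [Algebra k K]
    [Algebra k Kb] [Algebra K Kb] [IsScalarTower k K Kb] [IsAlgClosed Kb]
    [Algebra.IsAlgebraic K Kb] [CharP k 3] (s : K)
    (hs : Transcendental k s) (W : WeierstrassCurve k[X]) (hΔ : W.Δ ≠ 0)
    (w1 : W.a₁ = 0) (w3 : W.a₃ = 0) (g : k[X]) (w2 : W.a₂ = g ^ 3)
    (hg : g.natDegree ≤ 2) (d4 : W.a₄.natDegree ≤ 12) (d6 : W.a₆.natDegree ≤ 18)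
    (hK : IntermediateField.adjoin k {s} = ⊤)
    (ℓ : ℕ) (hℓ : ℓ.Prime) (hℓk : (ℓ : k) ≠ 0)
    (c : ℕ → (Kb ≃ₐ[K] Kb) → Pts (Ws W s) Kb) (hc : ShaSys (Ws W s) k ℓ c) (n : ℕ) :
    Principal (Ws W s) (T1B.geo k K Kb) (c n) := by
  have h3 : Fact (Nat.Prime 3) := ⟨by norm_num⟩
  exact sha_of_wemt 3 s hs W hΔ (hw_wemt W w1 w3 g w2 hg d4 d6) hK ℓ hℓ hℓk c hc n

end Pool.Agent.QD
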