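import Pool.Agent.QD.T3
import Pool.Agent.QD.J
import Pool.Agent.QD.J6

/-!
# The spaces of polynomials
-/

set_option autoImplicit false

namespace Pool.Agent.QD

open Polynomial Pool.Agent.TUQ Pool.Agent.WLD Pool.Agent.ADT Pool.Agent.UQ Pool.Agent.EFF
  WeierstrassCurve

open scoped Classical

/-- the span of `1`, `s`, `s ^ q`, `s ^ (q + 1)`, `q = p ^ j` -/
theorem temt_J {k : Type} [Field k] (p : ℕ) [Fact p.Prime] [CharP k p] (hp2 : p ≠ 2) (j : ℕ)
    (hj : j ≠ 0) (g h : k[X])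
    (hg : ∃ a b c d : k, g = C a * X ^ (p ^ j + 1) + C b * X ^ p ^ j + C c * X + C d)
    (hh : ∃ a b c d : k, h = C a * X ^ (p ^ j + 1) + C b * X ^ p ^ j + C c * X + C d) :
    TEmt k g h := by
  intro M _ _ _ htd F₀ v s hF₀ htF₀ hal F hF hFal a b hv
  obtain ⟨a₁, b₁, c₁, d₁, rfl⟩ := hg
  obtain ⟨a₂, b₂, c₂, d₂, rfl⟩ := hh
  refine emt_J5 p hp2 j hj htd F₀ hF₀ htF₀ v s hal F hF hFal
    (a * algebraMap k F₀ a₁ + b * algebraMap k F₀ a₂)
    (a * algebraMap k F₀ b₁ + b * algebraMap k F₀ b₂)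
    (a * algebraMap k F₀ c₁ + b * algebraMap k F₀ c₂)
    (a * algebraMap k F₀ d₁ + b * algebraMap k F₀ d₂) ?_
  have hc : ∀ e : k, ((algebraMap k F₀ e : F₀) : M) = algebraMap k M e := fun e => rfl
  rw [hv]
  push_cast
  simp only [map_add, map_mul, map_pow, aeval_C, aeval_X, hc]
  ring

/-- the span of `s ^ m`, `s ^ n` -/
theorem temt_M {k : Type} [Field k] (m n : ℕ) (g h : k[X])
    (hg : ∃ a b : k, g = C a * X ^ m + C b * X ^ n)
    (hh : ∃ a b : k, h = C a * X ^ m + C b * X ^ n) : TEmt k g h := by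
  intro M _ _ _ htd F₀ v s hF₀ htF₀ hal F hF hFal a b hv
  obtain ⟨a₁, b₁, rfl⟩ := hg
  obtain ⟨a₂, b₂, rfl⟩ := hh
  refine emt_M5 F₀ hF₀ htF₀ v s F hF hFal m n
    (a * algebraMap k F₀ a₁ + b * algebraMap k F₀ a₂)
    (a * algebraMap k F₀ b₁ + b * algebraMap k F₀ b₂) ?_
  have hc : ∀ e : k, ((algebraMap k F₀ e : F₀) : M) = algebraMap k M e := fun e => rfl
  rw [hv]
  push_cast
  simp only [map_add, map_mul, map_pow, aeval_C, aeval_X, hc]
  ring

/-- the sums of an additive polynomial and a constant -/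
theorem temt_A {k : Type} [Field k] (p : ℕ) [Fact p.Prime] [CharP k p] (g h : k[X])
    (hg : Low1 p g) (hh : Low1 p h) : TEmt k g h := by
  intro M _ _ _ htd F₀ v s hF₀ htF₀ hal F hF hFal a b hv
  refine emt_A5 p htd F₀ hF₀ htF₀ v s hal F hF hFal
    (C a * g.map (algebraMap k F₀) + C b * h.map (algebraMap k F₀)) ?_ ?_
  · intro n hn
    rw [coeff_add, coeff_C_mul, coeff_C_mul] at hn
    by_cases h0 : (g.map (algebraMap k F₀)).coeff n = 0
    · rw [h0, mul_zero, zero_add] at hn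
      exact hh.map (algebraMap k F₀) n (right_ne_zero_of_mul hn)
    · exact hg.map (algebraMap k F₀) n h0
  · rw [hv, map_add, map_mul, map_mul, aeval_C, aeval_C, aeval_map_algebraMap,
      aeval_map_algebraMap]
    rfl

/-- the three spaces -/
theorem temt_V {k : Type} [Field k] (p : ℕ) [Fact p.Prime] [CharP k p] (hp2 : p ≠ 2)
    (B : Fin 2 → k[X])
    (hB : (∀ i, Low1 p (B i)) ∨
      (∃ j, j ≠ 0 ∧ ∀ i, ∃ a b c d : k,
        B i = C a * X ^ (p ^ j + 1) + C b * X ^ p ^ j + C c * X + C d) ∨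
      ∃ m n, ∀ i, ∃ a b : k, B i = C a * X ^ m + C b * X ^ n) : TEmt k (B 0) (B 1) := by
  rcases hB with h | ⟨j, hj, h⟩ | ⟨m, n, h⟩
  · exact temt_A p _ _ (h 0) (h 1)
  · exact temt_J p hp2 j hj _ _ (h 0) (h 1)
  · exact temt_M m n _ _ (h 0) (h 1)

end Pool.Agent.QD
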