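import Mathlib

/-!
# Polynomials of the form `w ^ p - w`
-/

set_option autoImplicit false

namespace Pool.Agent.QD

open Polynomial

universe u

variable {K : Type u} [CommRing K] (p : ℕ) [Fact p.Prime] [CharP K p]

/-- the polynomials `w ^ p - w`, `w(0) = 0` -/
def Pol : AddSubgroup K[X] where
  carrier := {g | ∃ w : K[X], w.coeff 0 = 0 ∧ w ^ p - w = g}
  zero_mem' := ⟨0, coeff_zero 0, by
    rw [zero_pow (Fact.out : p.Prime).ne_zero, sub_zero]⟩
  add_mem' := by
    rintro _ _ ⟨w, h0, rfl⟩ ⟨w', h0', rfl⟩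
    refine ⟨w + w', by rw [coeff_add, h0, h0', add_zero], ?_⟩
    rw [add_pow_char]
    ring
  neg_mem' := by
    rintro _ ⟨w, h0, rfl⟩
    refine ⟨0 - w, by rw [coeff_sub, coeff_zero, h0, sub_zero], ?_⟩
    rw [sub_pow_char, zero_pow (Fact.out : p.Prime).ne_zero]
    ring

variable {p}

theorem mem_Pol {g : K[X]} : g ∈ Pol p ↔ ∃ w : K[X], w.coeff 0 = 0 ∧ w ^ p - w = g := Iff.rfl

theorem step_one (c : K) (m : ℕ) (hm : 0 < m) :
    C c * X ^ m - C (c ^ p) * X ^ (m * p) ∈ Pol (K := K) p := by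
  refine ⟨0 - C c * X ^ m, ?_, ?_⟩
  · rw [coeff_sub, coeff_zero, coeff_C_mul, coeff_X_pow, if_neg hm.ne, mul_zero, sub_zero]
  · rw [sub_pow_char, zero_pow (Fact.out : p.Prime).ne_zero, mul_pow, ← C_pow, ← pow_mul]
    ring

theorem step (c : K) (m : ℕ) (hm : 0 < m) (j : ℕ) :
    C c * X ^ m - C (c ^ p ^ j) * X ^ (m * p ^ j) ∈ Pol (K := K) p := by
  induction j with
  | zero =>
    rw [pow_zero, pow_one, mul_one, sub_self]
    exact zero_mem _
  | succ j ih =>
    have h := step_one (p := p) (c ^ p ^ j) (m * p ^ j) (Nat.mul_pos hm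
      (pow_pos (Fact.out : p.Prime).pos j))
    have h2 := add_mem ih h
    rw [← pow_mul, mul_assoc, ← pow_succ] at h2
    have e : C c * X ^ m - C (c ^ p ^ j) * X ^ (m * p ^ j) +
        (C (c ^ p ^ j) * X ^ (m * p ^ j) - C (c ^ p ^ (j + 1)) * X ^ (m * p ^ (j + 1))) =
        C c * X ^ m - C (c ^ p ^ (j + 1)) * X ^ (m * p ^ (j + 1)) := by ring
    rwa [e] at h2

/-- **Artin-Schreier equations for polynomials.** -/
theorem as_solve (g : K[X]) (g0 : g.coeff 0 = 0) (L : ℕ) (hL : g.natDegree < p ^ (L + 1))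
    (h : ∀ n, ¬ p ∣ n → ∑ i ∈ Finset.range (L + 1), (g.coeff (n * p ^ i)) ^ p ^ (L - i) = 0) :
    g ∈ Pol (K := K) p := by
  classical
  have hp := (Fact.out : p.Prime)
  -- the prime to `p` part and the valuation
  have hv : ∀ m ∈ g.support, m / p ^ padicValNat p m * p ^ padicValNat p m = m ∧
      ¬ p ∣ m / p ^ padicValNat p m ∧ padicValNat p m ≤ L := by
    intro m hm
    have hm0 : m ≠ 0 := by
      rintro rfl
      exact (mem_support_iff.1 hm) g0
    refine ⟨Nat.div_mul_cancel pow_padicValNat_dvd, ?_, ?_⟩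
    · intro hdvd
      have h1 : p ^ (padicValNat p m + 1) ∣ m := by
        obtain ⟨c, hc⟩ := hdvd
        refine ⟨c, ?_⟩
        have h2 : m / p ^ padicValNat p m * p ^ padicValNat p m = m :=
          Nat.div_mul_cancel pow_padicValNat_dvd
        rw [hc] at h2
        rw [pow_succ]
        linarith [h2]
      exact pow_succ_padicValNat_not_dvd hm0 h1
    · by_contra hlt
      push Not at hlt
      have h1 : p ^ (L + 1) ≤ m := by
        refine le_trans (Nat.pow_le_pow_right hp.pos hlt) ?_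
        exact Nat.le_of_dvd (Nat.pos_of_ne_zero hm0) pow_padicValNat_dvd
      have h2 := le_natDegree_of_mem_supp m hm
      omega
  obtain ⟨ν, hν⟩ : ∃ ν : ℕ → ℕ, ν = fun m => m / p ^ padicValNat p m := ⟨_, rfl⟩
  have hdiff : g - ∑ m ∈ g.support, C ((g.coeff m) ^ p ^ (L - padicValNat p m)) *
      X ^ (ν m * p ^ L) ∈ Pol (K := K) p := by
    have e : g - ∑ m ∈ g.support, C ((g.coeff m) ^ p ^ (L - padicValNat p m)) *
        X ^ (ν m * p ^ L) = ∑ m ∈ g.support, (C (g.coeff m) * X ^ m -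
          C ((g.coeff m) ^ p ^ (L - padicValNat p m)) * X ^ (m * p ^ (L - padicValNat p m))) := by
      rw [Finset.sum_sub_distrib]
      congr 1
      · exact g.as_sum_support_C_mul_X_pow
      · refine Finset.sum_congr rfl fun m hm => ?_
        obtain ⟨h1, -, h3⟩ := hv m hm
        congr 2
        rw [hν]
        show m / p ^ padicValNat p m * p ^ L = m * p ^ (L - padicValNat p m)
        have h4 : p ^ L = p ^ padicValNat p m * p ^ (L - padicValNat p m) := by
          rw [← pow_add, Nat.add_sub_cancel' h3]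
        rw [h4, ← mul_assoc, h1]
    rw [e]
    refine sum_mem fun m hm => step _ m ?_ _
    refine Nat.pos_of_ne_zero ?_
    rintro rfl
    exact (mem_support_iff.1 hm) g0
  have hzero : ∑ m ∈ g.support, C ((g.coeff m) ^ p ^ (L - padicValNat p m)) *
      X ^ (ν m * p ^ L) = (0 : K[X]) := by
    rw [← Finset.sum_fiberwise_of_maps_to (t := g.support.image ν)
      (fun m hm => Finset.mem_image_of_mem ν hm)]
    refine Finset.sum_eq_zero fun n hn => ?_
    obtain ⟨m₀, hm₀, rfl⟩ := Finset.mem_image.1 hn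
    have e1 : ∑ m ∈ g.support with ν m = ν m₀, C ((g.coeff m) ^ p ^ (L - padicValNat p m)) *
        X ^ (ν m * p ^ L) = C (∑ m ∈ g.support with ν m = ν m₀,
          (g.coeff m) ^ p ^ (L - padicValNat p m)) * X ^ (ν m₀ * p ^ L) := by
      rw [map_sum, Finset.sum_mul]
      refine Finset.sum_congr rfl fun m hm => ?_
      rw [(Finset.mem_filter.1 hm).2]
    rw [e1]
    have hnd : ¬ p ∣ ν m₀ := by
      rw [hν]
      exact (hv m₀ hm₀).2.1
    have hn0 : 0 < ν m₀ := Nat.pos_of_ne_zero fun h => hnd (h ▸ dvd_zero p)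
    have hval : ∀ i, padicValNat p (ν m₀ * p ^ i) = i := by
      intro i
      rw [padicValNat.mul hn0.ne' (pow_ne_zero _ hp.ne_zero), padicValNat.prime_pow,
        padicValNat.eq_zero_of_not_dvd hnd, zero_add]
    have hνi : ∀ i, ν (ν m₀ * p ^ i) = ν m₀ := by
      intro i
      have : ν (ν m₀ * p ^ i) = ν m₀ * p ^ i / p ^ padicValNat p (ν m₀ * p ^ i) :=
        congrFun hν _
      rw [this, hval, Nat.mul_div_cancel _ (pow_pos hp.pos i)]
    have e2 : ∑ m ∈ g.support with ν m = ν m₀, (g.coeff m) ^ p ^ (L - padicValNat p m) =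
        ∑ i ∈ Finset.range (L + 1), (g.coeff (ν m₀ * p ^ i)) ^ p ^ (L - i) := by
      rw [← Finset.sum_filter_of_ne (s := Finset.range (L + 1))
        (p := fun i => g.coeff (ν m₀ * p ^ i) ≠ 0) (by
          intro i _ h0 h1
          apply h0
          rw [h1, zero_pow (pow_ne_zero _ hp.ne_zero)])]
      symm
      refine Finset.sum_bij (fun i _ => ν m₀ * p ^ i) ?_ ?_ ?_ ?_
      · intro i hi
        obtain ⟨-, h1⟩ := Finset.mem_filter.1 hi
        exact Finset.mem_filter.2 ⟨mem_support_iff.2 h1, hνi i⟩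
      · intro i _ j _ hij
        have := congrArg (padicValNat p) hij
        rwa [hval, hval] at this
      · intro m hm
        obtain ⟨h1, h2⟩ := Finset.mem_filter.1 hm
        obtain ⟨h3, -, h5⟩ := hv m h1
        have h6 : ν m * p ^ padicValNat p m = m := by
          rw [hν]
          exact h3
        refine ⟨padicValNat p m, Finset.mem_filter.2 ⟨Finset.mem_range.2 (by omega), ?_⟩, ?_⟩
        · rw [← h2, h6]
          exact mem_support_iff.1 h1
        · rw [← h2, h6]
      · intro i hi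
        rw [hval]
    rw [e2, h _ hnd, C_0, zero_mul]
  rw [hzero, sub_zero] at hdiff
  exact hdiff

end Pool.Agent.QD
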