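import Mathlib
import Pool.Agent.QD.AS
import Pool.Agent.UQ.Krull

/-!
# Additive arcs on `w ^ p - w + a ^ e = f(t)`, `f` of `p`-digit sum at most two
-/

set_option autoImplicit false

namespace Pool.Agent.QD

open Polynomial

universe u v

/-- the exponents of `p`-adic digit sum at most two -/
def Dig (p n : ℕ) : Prop := n = 0 ∨ (∃ i, n = p ^ i) ∨ ∃ i j, n = p ^ i + p ^ j

/-- the exponents `0`, `p ^ i` -/
def Dig1 (p n : ℕ) : Prop := n = 0 ∨ ∃ i, n = p ^ i

section supp

/-- the polynomials with exponents in `P` -/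
def Sup (K : Type u) [CommRing K] (P : ℕ → Prop) : AddSubgroup K[X] where
  carrier := {g | ∀ n, g.coeff n ≠ 0 → P n}
  zero_mem' := fun n h => absurd (coeff_zero n) h
  add_mem' := by
    intro g g' h h' n hn
    by_cases h1 : g.coeff n = 0
    · exact h' n (fun h2 => hn (by rw [coeff_add, h1, h2, add_zero]))
    · exact h n h1
  neg_mem' := by
    intro g h n hn
    exact h n (fun h1 => hn (by rw [coeff_neg, h1, neg_zero]))

variable {K : Type u} [CommRing K]

theorem mem_Sup {P : ℕ → Prop} {g : K[X]} : g ∈ Sup K P ↔ ∀ n, g.coeff n ≠ 0 → P n := Iff.rfl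

theorem mono_mem {P : ℕ → Prop} {n : ℕ} (hn : P n) (c : K) : C c * X ^ n ∈ Sup K P := by
  rw [mem_Sup]
  intro m hm
  rw [coeff_C_mul, coeff_X_pow] at hm
  by_cases h : m = n
  · rw [h]
    exact hn
  · rw [if_neg h, mul_zero] at hm
    exact absurd rfl hm

theorem C_mem {P : ℕ → Prop} (h0 : P 0) (c : K) : C c ∈ Sup K P := by
  have := mono_mem (K := K) h0 c
  rwa [pow_zero, mul_one] at this

theorem smul_mem {P : ℕ → Prop} {g : K[X]} (hg : g ∈ Sup K P) (c : K) : C c * g ∈ Sup K P := by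
  rw [mem_Sup]
  intro m hm
  rw [coeff_C_mul] at hm
  exact hg m (fun h => hm (by rw [h, mul_zero]))

theorem one_two (p : ℕ) {g : K[X]} (hg : g ∈ Sup K (Dig1 p)) : g ∈ Sup K (Dig p) := by
  rw [mem_Sup] at hg ⊢
  intro n hn
  rcases hg n hn with h | h
  · exact Or.inl h
  · exact Or.inr (Or.inl h)

variable (p : ℕ) [Fact p.Prime] [CharP K p]

theorem pow_mem_one {g : K[X]} (hg : g ∈ Sup K (Dig1 p)) : g ^ p ∈ Sup K (Dig1 p) := by
  have e : g ^ p = ∑ m ∈ g.support, C ((g.coeff m) ^ p) * X ^ (m * p) := by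
    conv_lhs => rw [g.as_sum_support_C_mul_X_pow]
    rw [sum_pow_char]
    refine Finset.sum_congr rfl fun m hm => ?_
    rw [mul_pow, ← C_pow, ← pow_mul]
  rw [e]
  refine sum_mem fun m hm => mono_mem ?_ _
  rcases hg m (mem_support_iff.1 hm) with h | ⟨i, h⟩
  · exact Or.inl (by rw [h, zero_mul])
  · exact Or.inr ⟨i + 1, by rw [h, pow_succ]⟩

theorem pow_pow_mem_one {g : K[X]} (hg : g ∈ Sup K (Dig1 p)) (i : ℕ) :
    g ^ p ^ i ∈ Sup K (Dig1 p) := by
  induction i with
  | zero => rwa [pow_zero, pow_one]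
  | succ i ih =>
    rw [pow_succ, pow_mul]
    exact pow_mem_one p ih

theorem mul_mem_two {g g' : K[X]} (hg : g ∈ Sup K (Dig1 p)) (hg' : g' ∈ Sup K (Dig1 p)) :
    g * g' ∈ Sup K (Dig p) := by
  rw [g.as_sum_support_C_mul_X_pow, g'.as_sum_support_C_mul_X_pow, Finset.sum_mul_sum]
  refine sum_mem fun m hm => sum_mem fun m' hm' => ?_
  have e : C (g.coeff m) * X ^ m * (C (g'.coeff m') * X ^ m') =
      C (g.coeff m * g'.coeff m') * X ^ (m + m') := by
    rw [C_mul, pow_add]
    ring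
  rw [e]
  refine mono_mem ?_ _
  rcases hg m (mem_support_iff.1 hm) with h | ⟨i, h⟩
  · rcases hg' m' (mem_support_iff.1 hm') with h' | ⟨j, h'⟩
    · exact Or.inl (by rw [h, h'])
    · exact Or.inr (Or.inl ⟨j, by rw [h, h', zero_add]⟩)
  · rcases hg' m' (mem_support_iff.1 hm') with h' | ⟨j, h'⟩
    · exact Or.inr (Or.inl ⟨i, by rw [h, h', add_zero]⟩)
    · exact Or.inr (Or.inr ⟨i, j, by rw [h, h']⟩)

theorem aeval_mem {f T : K[X]} (hf : f ∈ Sup K (Dig p)) (hT : T ∈ Sup K (Dig1 p)) :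
    aeval T f ∈ Sup K (Dig p) := by
  rw [aeval_eq_sum_range]
  refine sum_mem fun n _ => ?_
  rw [smul_eq_C_mul]
  by_cases hn : f.coeff n = 0
  · rw [hn, C_0, zero_mul]
    exact zero_mem _
  refine smul_mem ?_ _
  rcases hf n hn with h | ⟨i, h⟩ | ⟨i, j, h⟩
  · rw [h, pow_zero, ← C_1]
    exact C_mem (Or.inl rfl) _
  · rw [h]
    exact one_two p (pow_pow_mem_one p hT i)
  · rw [h, pow_add]
    exact mul_mem_two p (pow_pow_mem_one p hT i) (pow_pow_mem_one p hT j)

theorem pow_e_mem {A : K[X]} (hA : A ∈ Sup K (Dig1 p)) {e : ℕ}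
    (he : (3 ≤ p ∧ e = 2) ∨ (p = 2 ∧ e = 3)) : A ^ e ∈ Sup K (Dig p) := by
  rcases he with ⟨-, rfl⟩ | ⟨hp, rfl⟩
  · rw [pow_two]
    exact mul_mem_two p hA hA
  · have h := mul_mem_two p (pow_mem_one p hA) hA
    rw [hp] at h ⊢
    rwa [← pow_succ] at h

end supp

section crv

/-- the arcs -/
noncomputable def crv {R : Type u} [CommRing R] (p : ℕ) (c : R) (m : ℕ) (s : Fin m → R) : R[X] :=
  C c + ∑ i : Fin m, C (s i) * X ^ p ^ (i : ℕ)

variable {R : Type u} [CommRing R] (p : ℕ) [Fact p.Prime]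

theorem crv_map {R' : Type v} [CommRing R'] (φ : R →+* R') (c : R) (m : ℕ) (s : Fin m → R) :
    (crv p c m s).map φ = crv p (φ c) m (fun i => φ (s i)) := by
  unfold crv
  rw [Polynomial.map_add, map_C, Polynomial.map_sum]
  congr 1
  refine Finset.sum_congr rfl fun i _ => ?_
  rw [Polynomial.map_mul, map_C, Polynomial.map_pow, map_X]

theorem crv_zero (c : R) (m : ℕ) : crv p c m (fun _ => 0) = C c := by
  unfold crv
  rw [Finset.sum_eq_zero, add_zero]
  intro i _
  rw [C_0, zero_mul]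

theorem crv_mem (c : R) (m : ℕ) (s : Fin m → R) : crv p c m s ∈ Sup R (Dig1 p) :=
  add_mem (C_mem (Or.inl rfl) c) (sum_mem fun i _ => mono_mem (Or.inr ⟨i, rfl⟩) _)

theorem crv_coeff_zero (c : R) (m : ℕ) (s : Fin m → R) : (crv p c m s).coeff 0 = c := by
  unfold crv
  rw [coeff_add, coeff_C_zero, finset_sum_coeff, Finset.sum_eq_zero, add_zero]
  intro i _
  rw [coeff_C_mul, coeff_X_pow, if_neg, mul_zero]
  exact (pow_pos (Fact.out : p.Prime).pos _).ne

theorem crv_coeff (c : R) (m : ℕ) (s : Fin m → R) (i : Fin m) :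
    (crv p c m s).coeff (p ^ (i : ℕ)) = s i := by
  unfold crv
  rw [coeff_add, coeff_C, if_neg (pow_pos (Fact.out : p.Prime).pos _).ne', zero_add,
    finset_sum_coeff, Finset.sum_eq_single i]
  · rw [coeff_C_mul, coeff_X_pow, if_pos rfl, mul_one]
  · intro j _ hj
    rw [coeff_C_mul, coeff_X_pow, if_neg, mul_zero]
    intro h
    exact hj (Fin.ext (Nat.pow_right_injective (Fact.out : p.Prime).two_le h)).symm
  · intro h
    exact absurd (Finset.mem_univ i) h

theorem crv_natDegree (c : R) (m : ℕ) (s : Fin (m + 1) → R) :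
    (crv p c (m + 1) s).natDegree ≤ p ^ m := by
  unfold crv
  refine natDegree_add_le_of_degree_le ?_ ?_
  · rw [natDegree_C]
    exact Nat.zero_le _
  · refine natDegree_sum_le_of_forall_le _ _ fun i _ => ?_
    refine le_trans (natDegree_C_mul_X_pow_le _ _) ?_
    exact Nat.pow_le_pow_right (Fact.out : p.Prime).pos (Nat.lt_succ_iff.1 i.2)

end crv

theorem dig_mem {p : ℕ} (hp : p.Prime) {B n i : ℕ} (hn : ¬ p ∣ n) (hB : n * p ^ i ≤ 2 * p ^ B)
    (h : Dig p (n * p ^ i)) : n = 1 ∨ ∃ d, d ≤ B ∧ n = 1 + p ^ d := by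
  have hn0 : 0 < n := Nat.pos_of_ne_zero fun h => hn (h ▸ dvd_zero p)
  have key : ∀ m a b : ℕ, ¬ p ∣ m → ¬ p ∣ n → n * p ^ a = m * p ^ b → n = m := by
    intro m a b hm hn' hab
    have h1 : a = b := by
      have h0 : m ≠ 0 := fun h => hm (h ▸ dvd_zero p)
      haveI : Fact p.Prime := ⟨hp⟩
      have h2 := congrArg (padicValNat p) hab
      rw [padicValNat.mul hn0.ne' (pow_ne_zero _ hp.ne_zero), padicValNat.prime_pow,
        padicValNat.mul h0 (pow_ne_zero _ hp.ne_zero), padicValNat.prime_pow,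
        padicValNat.eq_zero_of_not_dvd hn', padicValNat.eq_zero_of_not_dvd hm, zero_add,
        zero_add] at h2
      exact h2
    rw [h1] at hab
    exact Nat.eq_of_mul_eq_mul_right (pow_pos hp.pos _) hab
  rcases h with h | ⟨a, h⟩ | ⟨a, b, h⟩
  · exact absurd h (Nat.mul_pos hn0 (pow_pos hp.pos _)).ne'
  · left
    refine key 1 i a ?_ hn (by rw [h, one_mul])
    intro h1
    exact hp.one_lt.ne' (Nat.dvd_one.1 h1)
  · have main : ∀ a b : ℕ, a ≤ b → n * p ^ i = p ^ a + p ^ b →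
        n = 1 ∨ ∃ d, d ≤ B ∧ n = 1 + p ^ d := by
      intro a b hab h
      obtain ⟨d, rfl⟩ := Nat.exists_eq_add_of_le hab
      have e : n * p ^ i = (1 + p ^ d) * p ^ a := by
        rw [h, pow_add]
        ring
      by_cases hd : p ∣ 1 + p ^ d
      · left
        have hd0 : d = 0 := by
          by_contra h0
          have h1 : p ∣ p ^ d := dvd_pow_self p h0
          have h2 : p ∣ 1 := (Nat.dvd_add_left h1).1 hd
          exact hp.one_lt.ne' (Nat.dvd_one.1 h2)
        rw [hd0, pow_zero] at hd e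
        have hp2 : p = 2 := (Nat.prime_dvd_prime_iff_eq hp Nat.prime_two).1 hd
        refine key 1 i (a + 1) ?_ hn ?_
        · intro h1
          exact hp.one_lt.ne' (Nat.dvd_one.1 h1)
        · rw [e, hp2, pow_succ]
          ring
      · right
        refine ⟨d, ?_, key _ i a hd hn e⟩
        have h1 : p ^ d < 2 * p ^ B := by
          calc p ^ d ≤ p ^ (a + d) := Nat.pow_le_pow_right hp.pos (by omega)
            _ < p ^ a + p ^ (a + d) := by
                have := pow_pos hp.pos a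
                omega
            _ ≤ 2 * p ^ B := h ▸ hB
        have h2 : p ^ d < p ^ (B + 1) := by
          refine lt_of_lt_of_le h1 ?_
          rw [pow_succ, mul_comm]
          exact Nat.mul_le_mul_left _ hp.two_le
        have := (Nat.pow_lt_pow_iff_right hp.one_lt).1 h2
        omega
    rcases le_total a b with hab | hab
    · exact main a b hab h
    · exact main b a hab (by rw [h, add_comm])

theorem arc_Q {κ : Type u} {K : Type v} [Field κ] [Field K] [Algebra κ K] [IsAlgClosed K]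
    (p : ℕ) [Fact p.Prime] [CharP K p] (e : ℕ) (he : (3 ≤ p ∧ e = 2) ∨ (p = 2 ∧ e = 3))
    (f : κ[X]) (hf : ∀ n ∈ f.support, Dig p n) (t₀ a₀ w₀ : K)
    (h : w₀ ^ p - w₀ + a₀ ^ e = aeval t₀ f) :
    ∃ T A W : K[X], T.eval 0 = t₀ ∧ A.eval 0 = a₀ ∧ W.eval 0 = w₀ ∧
      W ^ p - W + A ^ e = aeval T f ∧ (T.natDegree ≠ 0 ∨ A.natDegree ≠ 0) := by
  classical
  have hp := (Fact.out : p.Prime)
  obtain ⟨F, hF⟩ : ∃ F : K[X], F = f.map (algebraMap κ K) := ⟨_, rfl⟩
  have hFs : F ∈ Sup K (Dig p) := by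
    rw [mem_Sup]
    intro n hn
    refine hf n (mem_support_iff.2 fun h0 => hn ?_)
    rw [hF, coeff_map, h0, map_zero]
  have hFT : ∀ T : K[X], aeval T f = aeval T F := by
    intro T
    rw [hF, aeval_map_algebraMap]
  have hFt : aeval t₀ f = F.eval t₀ := by
    rw [hF, eval_map_algebraMap]
  obtain ⟨H, hH⟩ : ∃ H, H = F.natDegree := ⟨_, rfl⟩
  obtain ⟨r, hr⟩ : ∃ r, r = if e = 2 then H + 2 else H + 1 := ⟨_, rfl⟩
  obtain ⟨B, hB⟩ : ∃ B, B = H + 2 := ⟨_, rfl⟩
  obtain ⟨L, hL⟩ : ∃ L, L = B + 1 := ⟨_, rfl⟩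
  have hr' : B + 2 < 3 + (r + 1) := by
    rw [hr, hB]
    split_ifs <;> omega
  -- the universal family
  obtain ⟨R, hR⟩ : ∃ R, R = MvPolynomial (Fin 3 ⊕ Fin (r + 1)) K := ⟨_, rfl⟩
  obtain ⟨G, hG⟩ : ∃ G : (MvPolynomial (Fin 3 ⊕ Fin (r + 1)) K)[X],
      G = aeval (crv p (MvPolynomial.C t₀) 3 (fun i => MvPolynomial.X (Sum.inl i))) F -
        (crv p (MvPolynomial.C a₀) (r + 1) (fun i => MvPolynomial.X (Sum.inr i))) ^ e := ⟨_, rfl⟩
  obtain ⟨E, hE⟩ : ∃ E : ℕ → MvPolynomial (Fin 3 ⊕ Fin (r + 1)) K,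
      E = fun n => ∑ i ∈ Finset.range (L + 1), (G.coeff (n * p ^ i)) ^ p ^ (L - i) := ⟨_, rfl⟩
  have hGy : ∀ y : Fin 3 ⊕ Fin (r + 1) → K,
      G.map (MvPolynomial.aeval y : MvPolynomial (Fin 3 ⊕ Fin (r + 1)) K →ₐ[K] K).toRingHom =
      aeval (crv p t₀ 3 (fun i => y (Sum.inl i))) F -
        (crv p a₀ (r + 1) (fun i => y (Sum.inr i))) ^ e := by
    intro y
    have h1 : G.map (MvPolynomial.aeval y : MvPolynomial (Fin 3 ⊕ Fin (r + 1)) K →ₐ[K]
        K).toRingHom = Polynomial.mapAlgHom (MvPolynomial.aeval y) G := rfl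
    rw [h1, hG, map_sub, map_pow, ← aeval_algHom_apply]
    have h2 : ∀ (c : K) (m : ℕ) (s : Fin m → Fin 3 ⊕ Fin (r + 1)),
        Polynomial.mapAlgHom (MvPolynomial.aeval y : MvPolynomial (Fin 3 ⊕ Fin (r + 1)) K →ₐ[K] K)
          (crv p (MvPolynomial.C c) m (fun i => MvPolynomial.X (s i))) =
        crv p c m (fun i => y (s i)) := by
      intro c m s
      have h3 := crv_map p (MvPolynomial.aeval y : MvPolynomial (Fin 3 ⊕ Fin (r + 1)) K →ₐ[K]
        K).toRingHom (MvPolynomial.C c) m (fun i => MvPolynomial.X (s i))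
      refine h3.trans ?_
      have h4 : (MvPolynomial.aeval y : MvPolynomial (Fin 3 ⊕ Fin (r + 1)) K →ₐ[K]
          K).toRingHom (MvPolynomial.C c) = c := MvPolynomial.aeval_C y c
      have h5 : ∀ j, (MvPolynomial.aeval y : MvPolynomial (Fin 3 ⊕ Fin (r + 1)) K →ₐ[K]
          K).toRingHom (MvPolynomial.X j) = y j := fun j => MvPolynomial.aeval_X y j
      rw [h4]
      simp only [h5]
    rw [h2, h2]
  have hEy : ∀ (y : Fin 3 ⊕ Fin (r + 1) → K) (n : ℕ), MvPolynomial.aeval y (E n) =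
      ∑ i ∈ Finset.range (L + 1), ((aeval (crv p t₀ 3 (fun i => y (Sum.inl i))) F -
        (crv p a₀ (r + 1) (fun i => y (Sum.inr i))) ^ e).coeff (n * p ^ i)) ^ p ^ (L - i) := by
    intro y n
    rw [hE, map_sum]
    refine Finset.sum_congr rfl fun i _ => ?_
    rw [map_pow, ← hGy, coeff_map]
    rfl
  obtain ⟨N, hN⟩ : ∃ N : Finset ℕ,
      N = insert 1 ((Finset.range (B + 1)).image (fun d => 1 + p ^ d)) := ⟨_, rfl⟩
  have hNc : N.card ≤ B + 2 := by
    rw [hN]
    refine le_trans (Finset.card_insert_le _ _) ?_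
    have := Finset.card_image_le (s := Finset.range (B + 1)) (f := fun d => 1 + p ^ d)
    rw [Finset.card_range] at this
    omega
  obtain ⟨y, hy0, hy⟩ := UQ.exists_ne_zero (K := K) (ι := Fin 3 ⊕ Fin (r + 1)) (N.image E) (by
    refine lt_of_le_of_lt Finset.card_image_le (lt_of_le_of_lt hNc ?_)
    rw [Fintype.card_sum, Fintype.card_fin, Fintype.card_fin]
    exact hr') (by
    intro q hq
    obtain ⟨n, hn, rfl⟩ := Finset.mem_image.1 hq
    have hn0 : 0 < n := by
      rw [hN, Finset.mem_insert, Finset.mem_image] at hn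
      rcases hn with h1 | ⟨d, -, h1⟩ <;> omega
    have h1 := hEy (fun _ => 0) n
    rw [crv_zero, crv_zero] at h1
    have h2 : MvPolynomial.constantCoeff (E n) = MvPolynomial.aeval (fun _ => (0 : K)) (E n) := by
      have := MvPolynomial.aeval_zero (R := K) (S₁ := K) (E n)
      rw [Algebra.algebraMap_self, RingHom.id_apply] at this
      exact this.symm
    rw [h2, h1]
    refine Finset.sum_eq_zero fun i _ => ?_
    have h3 : aeval (C t₀ : K[X]) F = C (F.eval t₀) := by
      have := aeval_algebraMap_apply K[X] t₀ F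
      rw [algebraMap_eq, coe_aeval_eq_eval] at this
      exact this
    rw [h3, ← C_pow, ← C_sub, coeff_C, if_neg, zero_pow (pow_ne_zero _ hp.ne_zero)]
    exact (Nat.mul_pos hn0 (pow_pos hp.pos _)).ne')
  -- the arc
  obtain ⟨T, hT⟩ : ∃ T : K[X], T = crv p t₀ 3 (fun i => y (Sum.inl i)) := ⟨_, rfl⟩
  obtain ⟨A, hA⟩ : ∃ A : K[X], A = crv p a₀ (r + 1) (fun i => y (Sum.inr i)) := ⟨_, rfl⟩
  obtain ⟨g, hg⟩ : ∃ g : K[X], g = aeval T F - A ^ e := ⟨_, rfl⟩
  have hgs : g ∈ Sup K (Dig p) := by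
    rw [hg]
    refine sub_mem (aeval_mem p hFs ?_) (pow_e_mem p ?_ he)
    · rw [hT]
      exact crv_mem p _ _ _
    · rw [hA]
      exact crv_mem p _ _ _
  have hgd : g.natDegree ≤ 2 * p ^ B := by
    rw [hg]
    refine le_trans (natDegree_sub_le _ _) (max_le ?_ ?_)
    · have h1 : T.natDegree ≤ p ^ 2 := by
        rw [hT]
        exact crv_natDegree p _ 2 _
      have h2 : (aeval T F).natDegree ≤ F.natDegree * T.natDegree := by
        have : aeval T F = F.comp T := by
          rw [aeval_def, comp]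
          rfl
        rw [this]
        exact natDegree_comp_le
      calc (aeval T F).natDegree ≤ F.natDegree * T.natDegree := h2
        _ ≤ p ^ H * p ^ 2 := by
            rw [← hH]
            exact Nat.mul_le_mul (Nat.lt_pow_self hp.one_lt).le h1
        _ = p ^ B := by rw [hB, pow_add]
        _ ≤ 2 * p ^ B := by omega
    · have h1 : A.natDegree ≤ p ^ r := by
        rw [hA]
        exact crv_natDegree p _ r _
      have h2 : (A ^ e).natDegree ≤ e * A.natDegree := natDegree_pow_le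
      refine h2.trans ((Nat.mul_le_mul_left e h1).trans ?_)
      rcases he with ⟨-, he⟩ | ⟨hp2, he⟩
      · rw [hr, he, if_pos rfl, hB]
      · rw [hr, he, if_neg (by norm_num), hB, hp2, pow_succ 2 (H + 1)]
        omega
  have hgL : g.natDegree < p ^ (L + 1) := by
    refine lt_of_le_of_lt hgd ?_
    have h1 : 2 * p ^ B ≤ p ^ (B + 1) := by
      rw [pow_succ, mul_comm]
      exact Nat.mul_le_mul_left _ hp.two_le
    refine lt_of_le_of_lt h1 ?_
    exact (Nat.pow_lt_pow_iff_right hp.one_lt).2 (by omega)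
  obtain ⟨g₁, hg₁⟩ : ∃ g₁ : K[X], g₁ = g - C (g.coeff 0) := ⟨_, rfl⟩
  have hg₁c : ∀ n, n ≠ 0 → g₁.coeff n = g.coeff n := by
    intro n hn
    rw [hg₁, coeff_sub, coeff_C, if_neg hn, sub_zero]
  have hmem : g₁ ∈ Pol (K := K) p := by
    refine as_solve g₁ ?_ L ?_ ?_
    · rw [hg₁, coeff_sub, coeff_C_zero, sub_self]
    · refine lt_of_le_of_lt ?_ hgL
      rw [hg₁]
      exact natDegree_sub_C.le
    · intro n hn
      have hn0 : 0 < n := Nat.pos_of_ne_zero fun h => hn (h ▸ dvd_zero p)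
      have hc : ∀ i, g₁.coeff (n * p ^ i) = g.coeff (n * p ^ i) := fun i =>
        hg₁c _ (Nat.mul_pos hn0 (pow_pos hp.pos _)).ne'
      by_cases hnN : n ∈ N
      · have h1 := hy _ (Finset.mem_image_of_mem E hnN)
        rw [hEy, ← hT, ← hA, ← hg] at h1
        rw [← h1]
        exact Finset.sum_congr rfl fun i _ => by rw [hc]
      · refine Finset.sum_eq_zero fun i _ => ?_
        rw [hc]
        by_cases h0 : g.coeff (n * p ^ i) = 0
        · rw [h0, zero_pow (pow_ne_zero _ hp.ne_zero)]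
        · exfalso
          have h1 : n * p ^ i ≤ 2 * p ^ B := (le_natDegree_of_ne_zero h0).trans hgd
          rcases dig_mem hp hn h1 (hgs _ h0) with h2 | ⟨d, hd, h2⟩
          · apply hnN
            rw [hN, h2]
            exact Finset.mem_insert_self _ _
          · apply hnN
            rw [hN, h2]
            exact Finset.mem_insert_of_mem (Finset.mem_image_of_mem _
              (Finset.mem_range.2 (by omega)))
  obtain ⟨w, hw0, hw⟩ := mem_Pol.1 hmem
  have hT0 : T.eval 0 = t₀ := by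
    rw [← coeff_zero_eq_eval_zero, hT, crv_coeff_zero]
  have hA0 : A.eval 0 = a₀ := by
    rw [← coeff_zero_eq_eval_zero, hA, crv_coeff_zero]
  refine ⟨T, A, w + C w₀, hT0, hA0, ?_, ?_, ?_⟩
  · rw [eval_add, eval_C, ← coeff_zero_eq_eval_zero, hw0, zero_add]
  · have hg0 : g.coeff 0 = w₀ ^ p - w₀ := by
      rw [coeff_zero_eq_eval_zero, hg, eval_sub, eval_pow, hA0]
      have h1 : (aeval T F).eval 0 = F.eval t₀ := by
        have : aeval T F = F.comp T := by
          rw [aeval_def, comp]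
          rfl
        rw [this, eval_comp, hT0]
      rw [h1, ← hFt, ← h]
      ring
    rw [hFT, add_pow_char, ← C_pow]
    have h2 : w ^ p - w = g - (C (w₀ ^ p) - C w₀) := by
      rw [hw, hg₁, hg0, C_sub]
    have h3 : aeval T F = g + A ^ e := by
      rw [hg]
      ring
    rw [h3]
    linear_combination h2
  · by_contra hcon
    push Not at hcon
    apply hy0
    funext j
    have hz : ∀ (q : K[X]) (i : ℕ), q.natDegree = 0 → q.coeff (p ^ i) = 0 := by
      intro q i hq
      refine coeff_eq_zero_of_natDegree_lt ?_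
      rw [hq]
      exact pow_pos hp.pos _
    rcases j with j | j
    · have h1 := hz T j hcon.1
      rw [hT, crv_coeff] at h1
      exact h1
    · have h1 := hz A j hcon.2
      rw [hA, crv_coeff] at h1
      exact h1

end Pool.Agent.QD
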