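import Pool.Agent.QD.Defs
import Pool.Agent.QD.Arc

/-!
# Additive arcs
-/

set_option autoImplicit false

namespace Pool.Agent.QD

open Polynomial

/-- **Additive arcs.** Through every point of the surface `w ^ p - w + a ^ e = f(t)`, where the
exponents of `f` have digit sum at most two, there is a nonconstant polynomial arc. -/
theorem arc_low {K : Type*} [Field K] [IsAlgClosed K] (p : ℕ) [Fact p.Prime] [CharP K p]
    (f : K[X]) (hf : Low2 p f) (t a w : K) (h : w ^ p - w + a ^ ex p = f.eval t) :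
    ∃ 𝓉 𝒶 𝓌 : K[X], 𝓉.eval 0 = t ∧ 𝒶.eval 0 = a ∧ 𝓌.eval 0 = w ∧
      𝓌 ^ p - 𝓌 + 𝒶 ^ ex p = f.comp 𝓉 ∧ (𝓉.natDegree ≠ 0 ∨ 𝒶.natDegree ≠ 0) := by
  have hp := (Fact.out : p.Prime)
  have he : (3 ≤ p ∧ ex p = 2) ∨ (p = 2 ∧ ex p = 3) := by
    unfold ex
    by_cases h2 : p = 2
    · exact Or.inr ⟨h2, if_pos h2⟩
    · refine Or.inl ⟨?_, if_neg h2⟩
      have := hp.two_le
      omega
  obtain ⟨T, A, W, h0, h1, h2, h3, h4⟩ := arc_Q (κ := K) p (ex p) he f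
    (fun n hn => hf n (mem_support_iff.1 hn)) t a w (by rw [h, coe_aeval_eq_eval])
  exact ⟨T, A, W, h0, h1, h2, by rw [h3, comp_eq_aeval], h4⟩

end Pool.Agent.QD
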