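import Pool.Agent.QD.A
import Pool.Agent.UQ.Gen

/-!
# The surfaces `w ^ p - w + a ^ e = f(t)` are uniruled
-/

set_option autoImplicit false

namespace Pool.Agent.QD

open Polynomial Pool.Agent.UQ

universe u

/-- the equation of the surface -/
noncomputable def eqB {κ : Type u} [Field κ] (p : ℕ) (f : κ[X]) : MvPolynomial (Fin 3) κ :=
  MvPolynomial.X 2 ^ p - MvPolynomial.X 2 + MvPolynomial.X 1 ^ ex p -
    aeval (MvPolynomial.X 0 : MvPolynomial (Fin 3) κ) f

theorem aeval_eqB {κ A : Type u} [Field κ] [CommRing A] [Algebra κ A] (p : ℕ) (f : κ[X])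
    (ξ : Fin 3 → A) : MvPolynomial.aeval ξ (eqB p f) =
      ξ 2 ^ p - ξ 2 + ξ 1 ^ ex p - aeval (ξ 0) f := by
  unfold eqB
  rw [map_sub, map_add, map_sub, map_pow, map_pow, MvPolynomial.aeval_X, MvPolynomial.aeval_X,
    ← Polynomial.aeval_algHom_apply, MvPolynomial.aeval_X]

theorem ex_ne_zero (p : ℕ) : ex p ≠ 0 := by
  unfold ex
  split_ifs <;> norm_num

theorem eqB_ne_zero {κ : Type u} [Field κ] (p : ℕ) (hp : 1 < p) (f : κ[X]) : eqB p f ≠ 0 := by
  intro h
  have h1 := aeval_eqB (A := κ[X]) p f ![0, 0, X]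
  rw [h, map_zero] at h1
  have h2 : (![0, 0, X] : Fin 3 → κ[X]) 2 = X := rfl
  have h3 : (![0, 0, X] : Fin 3 → κ[X]) 1 = 0 := rfl
  have h4 : (![0, 0, X] : Fin 3 → κ[X]) 0 = 0 := rfl
  have h5 : aeval (0 : κ[X]) f = C (f.coeff 0) := by
    rw [← coeff_zero_eq_aeval_zero', Polynomial.algebraMap_apply, Algebra.algebraMap_self_apply]
  rw [h2, h3, h4, zero_pow (ex_ne_zero p), add_zero, h5] at h1
  have h6 := congrArg (fun q : κ[X] => q.coeff p) h1
  have hp0 : p ≠ 0 := by omega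
  have hp1 : 1 ≠ p := by omega
  simp [coeff_X, coeff_C, hp0, hp1] at h6

/-- **The surfaces `w ^ p - w + a ^ e = f(t)` over `κ` are uniruled.** -/
theorem uniruled_low {κ L : Type u} [Field κ] [Field L] [Algebra κ L] (p : ℕ) [Fact p.Prime]
    [CharP κ p] (f : κ[X]) (hf : Low2 p f) (t a w : L) (htr : Algebra.trdeg κ L = 2)
    (hgen : IntermediateField.adjoin κ {t, a, w} = ⊤)
    (h : w ^ p - w + a ^ ex p = aeval t f) : Uniruled κ L := by
  have hp : 1 < p := (Fact.out : p.Prime).one_lt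
  have hc : CharP (AlgebraicClosure L) p :=
    charP_of_injective_algebraMap (algebraMap κ (AlgebraicClosure L)).injective p
  have hr : Set.range (![t, a, w] : Fin 3 → L) = {t, a, w} := by
    ext z
    simp only [Set.mem_range, Set.mem_insert_iff, Set.mem_singleton_iff]
    constructor
    · rintro ⟨i, rfl⟩
      fin_cases i
      · exact Or.inl rfl
      · exact Or.inr (Or.inl rfl)
      · exact Or.inr (Or.inr rfl)
    · rintro (rfl | rfl | rfl)
      · exact ⟨0, rfl⟩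
      · exact ⟨1, rfl⟩
      · exact ⟨2, rfl⟩
  obtain ⟨𝓉, 𝒶, 𝓌, h0, h1, h2, h3, h4⟩ := arc_low (K := AlgebraicClosure L) p
    (f.map (algebraMap κ (AlgebraicClosure L))) (hf.map _) (algebraMap L _ t) (algebraMap L _ a)
    (algebraMap L _ w) (by
      rw [← map_pow, ← map_sub, ← map_pow, ← map_add, h, eval_map_algebraMap,
        aeval_algebraMap_apply])
  have hev : ∀ i, ((![𝓉, 𝒶, 𝓌] : Fin 3 → (AlgebraicClosure L)[X]) i).eval 0 =
      algebraMap L (AlgebraicClosure L) ((![t, a, w] : Fin 3 → L) i) := by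
    intro i
    fin_cases i
    · exact h0
    · exact h1
    · exact h2
  have h5 : MvPolynomial.aeval (![𝓉, 𝒶, 𝓌] : Fin 3 → (AlgebraicClosure L)[X]) (eqB p f) = 0 := by
    rw [aeval_eqB]
    change 𝓌 ^ p - 𝓌 + 𝒶 ^ ex p - aeval 𝓉 f = 0
    rw [h3, sub_eq_zero, comp_eq_aeval, aeval_map_algebraMap]
  have h6 : MvPolynomial.aeval (![t, a, w] : Fin 3 → L) (eqB p f) = 0 := by
    rw [aeval_eqB]
    change w ^ p - w + a ^ ex p - aeval t f = 0
    rw [h, sub_self]
  obtain ⟨i, hi⟩ : ∃ i, ((![𝓉, 𝒶, 𝓌] : Fin 3 → (AlgebraicClosure L)[X]) i).natDegree ≠ 0 := by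
    rcases h4 with h4 | h4
    · exact ⟨0, h4⟩
    · exact ⟨1, h4⟩
  refine uniruled_of_arc ![t, a, w] (by rw [hr, hgen]) (by rw [htr]; exact Cardinal.natCast_lt_aleph0 (n := 2))
    (by rw [htr]; norm_num) (eqB p f) (eqB_ne_zero p hp f) h6 ![𝓉, 𝒶, 𝓌] hev h5 i hi

end Pool.Agent.QD
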