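import Pool.Agent.QD.B
import Pool.Agent.ADT.C2

/-!
# The cyclic extensions `z ^ p - z = f(t)` of `E(t)`
-/

set_option autoImplicit false

namespace Pool.Agent.QD

open Polynomial Pool.Agent.TBR Pool.Agent.TUQ Pool.Agent.UQ Pool.Agent.WLD Pool.Agent.ADT

universe u

theorem c_ex_two (p : ℕ) : 2 ≤ ex p := by
  rw [ex]
  split_ifs <;> norm_num

theorem c_ex_ne (p : ℕ) [hp : Fact p.Prime] {k : Type*} [Field k] [CharP k p] :
    ((ex p : ℕ) : k) ≠ 0 := by
  intro h0
  have h1 := (CharP.cast_eq_zero_iff k p (ex p)).1 h0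
  rw [ex] at h1
  by_cases h2 : p = 2
  · rw [if_pos h2, h2] at h1
    norm_num at h1
  · rw [if_neg h2] at h1
    exact h2 ((Nat.prime_dvd_prime_iff_eq hp.out Nat.prime_two).1 h1)

/-- the transcendence degree of `K₀(a, w)`, `w` algebraic over `K₀(a)` -/
theorem c_trdeg {K₀ L : Type u} [Field K₀] [Field L] [Algebra K₀ L] (a w : L)
    (ha : Transcendental K₀ a) (hgen : IntermediateField.adjoin K₀ {a, w} = ⊤) (p e : ℕ)
    (hp : 2 ≤ p) (c : K₀) (hw : w ^ p - w + a ^ e = algebraMap K₀ L c) :
    Algebra.trdeg K₀ L = 1 := by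
  have hb : w ^ p - w = algebraMap K₀ L c - a ^ e := by rw [← hw]; ring
  have hwal : IsAlgebraic (IntermediateField.adjoin K₀ {a}) w := by
    have hmem : algebraMap K₀ L c - a ^ e ∈ IntermediateField.adjoin K₀ {a} :=
      sub_mem ((IntermediateField.adjoin K₀ {a}).algebraMap_mem c)
        (pow_mem (IntermediateField.mem_adjoin_simple_self K₀ a) e)
    refine ⟨X ^ p - X - C ⟨_, hmem⟩, ?_, ?_⟩
    · intro h0
      have h1 := congrArg (fun q => coeff q p) h0
      simp only [coeff_sub, coeff_X_pow_self, coeff_X, coeff_C, coeff_zero] at h1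
      rw [if_neg (by omega), if_neg (by omega), sub_zero, sub_zero] at h1
      exact one_ne_zero h1
    · rw [map_sub, map_sub, map_pow, aeval_X, aeval_C, hb]
      exact sub_self _
  have halg : Algebra.IsAlgebraic (IntermediateField.adjoin K₀ {a}) L := by
    have h1 : IntermediateField.adjoin (IntermediateField.adjoin K₀ {a}) {w} = ⊤ := by
      have h2 := IntermediateField.adjoin_simple_adjoin_simple K₀ a w
      rw [hgen] at h2
      exact IntermediateField.restrictScalars_injective K₀ (h2.trans
        (IntermediateField.restrictScalars_top ..).symm)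
    have h2 : Algebra.IsAlgebraic (IntermediateField.adjoin K₀ {a})
        (IntermediateField.adjoin (IntermediateField.adjoin K₀ {a}) {w}) :=
      IntermediateField.isAlgebraic_adjoin_simple hwal.isIntegral
    rw [h1] at h2
    exact (IntermediateField.topEquiv.isAlgebraic_iff).1 h2
  have halg' : Algebra.IsAlgebraic (Algebra.adjoin K₀ {a}) L := by
    rw [← IntermediateField.isAlgebraic_adjoin_iff_top]
    exact halg
  apply le_antisymm
  · have h1 := Algebra.IsAlgebraic.trdeg_le_cardinalMk K₀ ({a} : Set L)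
    rw [Cardinal.mk_singleton] at h1
    exact h1
  · rw [Cardinal.one_le_iff_ne_zero, trdeg_ne_zero_iff]
    exact ⟨a, ha⟩

section

variable {k M : Type u} [Field k] [Field M] [Algebra k M]

theorem c_simple (t : M) : Algebra.trdeg k (IntermediateField.adjoin k {t}) ≤ 1 := by
  obtain ⟨τ, hτ⟩ : ∃ τ : IntermediateField.adjoin k {t},
    τ = ⟨t, IntermediateField.mem_adjoin_simple_self k t⟩ := ⟨_, rfl⟩
  have h1 : IntermediateField.adjoin k {τ} = ⊤ := by
    apply IntermediateField.lift_injective
    rw [IntermediateField.lift_adjoin_simple, IntermediateField.lift_top, hτ]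
  have h2 : Algebra.IsAlgebraic (Algebra.adjoin k {τ}) (IntermediateField.adjoin k {t}) := by
    rw [← IntermediateField.isAlgebraic_adjoin_iff_top, h1]
    exact ⟨fun x => isAlgebraic_algebraMap (⟨x, IntermediateField.mem_top⟩ :
      (⊤ : IntermediateField k (IntermediateField.adjoin k {t})))⟩
  have h3 := Algebra.IsAlgebraic.trdeg_le_cardinalMk k
    ({τ} : Set (IntermediateField.adjoin k {t}))
  rwa [Cardinal.mk_singleton] at h3

theorem c_emt [IsAlgClosed M] (p : ℕ) [Fact p.Prime] [CharP k p]
    (htd : Algebra.trdeg k M = 2) (E : IntermediateField k M) (hE : E.FG)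
    (htE : Algebra.trdeg k E = 1) (t : M) (K₀ : IntermediateField k M)
    (hK₀ : K₀ = E ⊔ IntermediateField.adjoin k {t}) (hal : ∀ y : M, IsAlgebraic K₀ y)
    (f : E[X]) (hf : Low2 p f) (z : M) (hz : z ^ p - z = aeval t f) :
    Emt (K₀ ⊔ IntermediateField.adjoin k {z}) := by
  classical
  have hpp : p.Prime := Fact.out
  have hle : E ≤ K₀ := by
    rw [hK₀]
    exact le_sup_left
  have htK : t ∈ K₀ := by
    rw [hK₀]
    exact (le_sup_right : IntermediateField.adjoin k {t} ≤ _)
      (IntermediateField.mem_adjoin_simple_self k t)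
  have htfg : (IntermediateField.adjoin k {t} : IntermediateField k M).FG :=
    ⟨{t}, by rw [Finset.coe_singleton]⟩
  have hfg : K₀.FG := by
    rw [hK₀]
    exact IntermediateField.fg_sup hE htfg
  have hzK : z ^ p - z ∈ K₀ := by
    rw [hz, aeval_eq_sum_range]
    refine sum_mem fun i _ => ?_
    rw [Algebra.smul_def]
    exact mul_mem (hle (f.coeff i).2) (pow_mem htK _)
  have haev : ∀ {A : Type u} [CommRing A] [Algebra k A] (b : A),
      aeval b (X ^ p - X : k[X]) = b ^ p - b := fun b => by
    rw [map_sub, map_pow, aeval_X]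
  have zN : aeval z (X ^ p - X : k[X]) ∈ K₀ := by
    rw [haev]
    exact hzK
  -- the transcendence degrees
  have htd₀ : Algebra.trdeg k K₀ = 2 := by
    have h1 : Algebra.IsAlgebraic K₀ M := ⟨hal⟩
    have h3 := trdeg_add_eq k K₀ (A := M)
    rwa [trdeg_eq_zero_iff.2 h1, add_zero, htd] at h3
  have hsp : Emt K₀ := by
    refine emt_two ⟨E, IntermediateField.adjoin k {t}, hE, htfg, htE.le, ?_, hK₀⟩ hal
    exact c_simple t
  by_cases hzK₀ : z ∈ K₀
  · have h1 : K₀ ⊔ IntermediateField.adjoin k {z} = K₀ := by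
      refine sup_eq_left.2 ?_
      rw [IntermediateField.adjoin_le_iff]
      rintro y rfl
      exact hzK₀
    rw [h1]
    exact hsp
  have had := ad_artin (k := k) p (ex p) (c_ex_two p) (c_ex_ne p)
  obtain ⟨L, i1, i2, i3, i4, a, w, ha, hw, hgen⟩ := fam_exists (X ^ p - X : k[X]) (ex p) had
    (⟨aeval z (X ^ p - X : k[X]), zN⟩ : K₀)
  have hL : Uniruled k L := by
    have hEC : CharP E p := charP_of_injective_algebraMap (algebraMap k E).injective p
    let ι : E →ₐ[k] K₀ := IntermediateField.inclusion hle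
    let algE : Algebra E K₀ := ι.toRingHom.toAlgebra
    let algL : Algebra E L := ((algebraMap K₀ L).comp ι.toRingHom).toAlgebra
    have tow1 : IsScalarTower E K₀ L := IsScalarTower.of_algebraMap_eq (fun _ => rfl)
    have tow2 : IsScalarTower k E K₀ :=
      IsScalarTower.of_algebraMap_eq (fun b => (ι.commutes b).symm)
    have tow3 : IsScalarTower k E L := IsScalarTower.of_algebraMap_eq (fun b => by
      rw [IsScalarTower.algebraMap_apply k K₀ L, ← ι.commutes b]
      rfl)
    have tow4 : IsScalarTower E K₀ M := IsScalarTower.of_algebraMap_eq (fun _ => rfl)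
    obtain ⟨τ, hτ⟩ : ∃ τ : K₀, τ = ⟨t, htK⟩ := ⟨_, rfl⟩
    have hτM : (τ : M) = t := by rw [hτ]
    have hval : ∀ P : E[X], ((aeval τ P : K₀) : M) = aeval t P := fun P => by
      rw [← hτM]
      exact (Polynomial.aeval_algebraMap_apply (R := E) (A := K₀) M τ P).symm
    have hgen₀ : IntermediateField.adjoin E {τ} = ⊤ := by
      rw [eq_top_iff]
      intro b _
      let N' : IntermediateField k M :=
        ((IntermediateField.adjoin E {τ}).restrictScalars k).map K₀.val
      have hEN : E ≤ N' := fun c hc => ⟨⟨c, hle hc⟩,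
        (IntermediateField.adjoin E {τ}).algebraMap_mem ⟨c, hc⟩, rfl⟩
      have hx : IntermediateField.adjoin k {t} ≤ N' := by
        rw [IntermediateField.adjoin_le_iff]
        rintro _ rfl
        exact ⟨τ, IntermediateField.mem_adjoin_simple_self E τ, hτM⟩
      have hb : (b : M) ∈ E ⊔ IntermediateField.adjoin k {t} := by
        rw [← hK₀]
        exact b.2
      obtain ⟨c, hc, hcb⟩ := (sup_le hEN hx) hb
      have e : c = b := Subtype.ext hcb
      rw [← e]
      exact hc
    have hlt : (1 : Cardinal.{u}) < Cardinal.aleph0 := Cardinal.one_lt_aleph0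
    have h5 := trdeg_add_eq k E (A := K₀)
    rw [htd₀, htE] at h5
    have htdE : Algebra.trdeg E K₀ = 1 := by
      have h6 : (1 : Cardinal.{u}) + Algebra.trdeg E K₀ = 1 + 1 := by
        rw [h5]
        norm_num
      exact Cardinal.eq_of_add_eq_add_left h6 hlt
    have hEfg' : (⊤ : IntermediateField k E).FG := by
      rw [IntermediateField.fg_top_iff]
      exact IntermediateField.essFiniteType_iff.2 hE
    have hw' : w ^ p - w + a ^ ex p = algebraMap K₀ L (aeval τ f) := by
      rw [← haev w, hw]
      congr 1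
      apply Subtype.ext
      show aeval z (X ^ p - X : k[X]) = ((aeval τ f : K₀) : M)
      rw [hval, haev, hz]
    have htL : Algebra.trdeg E L = 2 := by
      have h7 := trdeg_add_eq E K₀ (A := L)
      rw [htdE, c_trdeg a w ha hgen p (ex p) hpp.two_le _ hw'] at h7
      rw [← h7]
      norm_num
    have hgen' : IntermediateField.adjoin E {algebraMap K₀ L τ, a, w} = ⊤ := by
      obtain ⟨F, hF⟩ : ∃ F, F = IntermediateField.adjoin E {algebraMap K₀ L τ, a, w} := ⟨_, rfl⟩
      rw [← hF]
      have hmem : ∀ b ∈ ({algebraMap K₀ L τ, a, w} : Set L), b ∈ F := fun b hb => by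
        rw [hF]
        exact IntermediateField.subset_adjoin E _ hb
      have hK : ∀ b : K₀, algebraMap K₀ L b ∈ F := by
        intro b
        have h1 : (⊤ : IntermediateField E K₀) ≤ F.comap (IsScalarTower.toAlgHom E K₀ L) := by
          rw [← hgen₀, IntermediateField.adjoin_le_iff]
          rintro _ rfl
          exact hmem _ (Or.inl rfl)
        exact h1 (IntermediateField.mem_top (x := b))
      let F' : IntermediateField K₀ L :=
        { F.toSubfield with
          algebraMap_mem' := hK }
      have h1 : (⊤ : IntermediateField K₀ L) ≤ F' := by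
        rw [← hgen, IntermediateField.adjoin_le_iff]
        rintro c (rfl | rfl)
        · exact hmem _ (Or.inr (Or.inl rfl))
        · exact hmem _ (Or.inr (Or.inr rfl))
      rw [eq_top_iff]
      intro b _
      exact h1 (IntermediateField.mem_top (x := b))
    refine Uniruled.tower (E := E) hEfg' (uniruled_low (κ := E) p f hf (algebraMap K₀ L τ) a w htL
      hgen' ?_)
    rw [hw']
    exact (Polynomial.aeval_algebraMap_apply (R := E) (A := K₀) L τ f).symm
  obtain ⟨n, L', h1, h2⟩ := finalW (fun Ω _ _ => blockR k Ω) (fun Ω _ _ => blockGW k Ω)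
    (fun A _ _ => invSt_aux k A) K₀ hfg htd hal (X ^ p - X) (ex p) had z zN
    (irr_of_notMem p K₀ z hzK₀ zN) L a w ha hw hgen hL
  refine emt_of_inj (K' := KZ K₀ z) (fun ℓ _ => ⟨MonoidHom.id _, Function.injective_id⟩) L' h2
    fun j => ?_
  rcases (h1 j).1 with h3 | h3
  · exact emt_two h3 (h1 j).2
  · rw [h3]
    exact hsp

/-- the cyclic case -/
theorem emt_cyclicQ [IsAlgClosed M] (p : ℕ) [Fact p.Prime] [CharP k p]
    (htd : Algebra.trdeg k M = 2) (E : IntermediateField k M) (hE : E.FG)
    (htE : Algebra.trdeg k E = 1) (t : M)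
    (hal : ∀ y : M, IsAlgebraic (E ⊔ IntermediateField.adjoin k {t} : IntermediateField k M) y)
    (f : E[X]) (hf : Low2 p f) (z : M) (hz : z ^ p - z = aeval t f) :
    Emt (E ⊔ IntermediateField.adjoin k {t} ⊔ IntermediateField.adjoin k {z}) :=
  c_emt p htd E hE htE t _ rfl hal f hf z hz

end

end Pool.Agent.QD
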