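import Pool.Agent.QD.D1

/-!
# Towers over `E(t)`
-/

set_option autoImplicit false

namespace Pool.Agent.QD

open Polynomial Pool.Agent.TBR Pool.Agent.TUQ Pool.Agent.UQ Pool.Agent.WLD Pool.Agent.ADT

universe u

variable {k M : Type u} [Field k] [Field M] [Algebra k M]

/-- the transcendence degree of an algebraic extension -/
private theorem d2_trdeg (E : IntermediateField k M) (C : Set M) (hC : ∀ c ∈ C, IsAlgebraic E c) :
    Algebra.trdeg k (E ⊔ IntermediateField.adjoin k C : IntermediateField k M) =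
      Algebra.trdeg k E := by
  have h1 : (E ⊔ IntermediateField.adjoin k C : IntermediateField k M) =
      (IntermediateField.adjoin E C).restrictScalars k := by
    rw [IntermediateField.restrictScalars_adjoin, IntermediateField.adjoin_union,
      IntermediateField.adjoin_self]
  rw [h1]
  have h2 := trdeg_add_eq k E (A := IntermediateField.adjoin E C)
  have h7 : Algebra.IsAlgebraic E (IntermediateField.adjoin E C) :=
    IntermediateField.isAlgebraic_adjoin fun c hc => (hC c hc).isIntegral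
  have h3 : Algebra.trdeg E (IntermediateField.adjoin E C) = 0 := trdeg_eq_zero_iff.2 h7
  calc Algebra.trdeg k ((IntermediateField.adjoin E C).restrictScalars k) =
      Algebra.trdeg k (IntermediateField.adjoin E C) := rfl
    _ = Algebra.trdeg k E + Algebra.trdeg E (IntermediateField.adjoin E C) := h2.symm
    _ = Algebra.trdeg k E := by rw [h3, add_zero]

/-- values of polynomials over `E` -/
private theorem d2_aeval_mem (E B : IntermediateField k M) (hEB : E ≤ B) (t : M) (ht : t ∈ B)
    (f : E[X]) : aeval t f ∈ B := by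
  rw [aeval_eq_sum_range]
  refine sum_mem fun i _ => ?_
  rw [Algebra.smul_def]
  exact mul_mem (hEB (f.coeff i).2) (pow_mem ht i)

/-- **Towers.** -/
theorem tower_Q [IsAlgClosed M] (p : ℕ) [Fact p.Prime] [CharP k p]
    (htd : Algebra.trdeg k M = 2) (E : IntermediateField k M) (hE : E.FG)
    (htE : Algebra.trdeg k E = 1) (t : M)
    (hal : ∀ y : M, IsAlgebraic (E ⊔ IntermediateField.adjoin k {t} : IntermediateField k M) y)
    (S : Finset M)
    (hS : ∀ z ∈ S, ∃ φ f : E[X], AddPoly φ ∧ derivative φ ≠ 0 ∧ Low2 p f ∧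
      aeval z φ = aeval t f)
    (F : IntermediateField k M)
    (hF : F ≤ E ⊔ IntermediateField.adjoin k {t} ⊔ IntermediateField.adjoin k (S : Set M))
    (hFal : ∀ y : M, IsAlgebraic F y) : Emt F := by
  classical
  have hCM : CharP M p := charP_of_injective_algebraMap (algebraMap k M).injective p
  obtain ⟨C₀, r, y, hC₀, hy, hz⟩ := exists_spanQ p E t S hS
  obtain ⟨E', hE'⟩ : ∃ E', E' = E ⊔ IntermediateField.adjoin k (C₀ : Set M) := ⟨_, rfl⟩
  have hEE' : E ≤ E' := by
    rw [hE']
    exact le_sup_left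
  have hE'fg : E'.FG := by
    rw [hE']
    exact IntermediateField.fg_sup hE ⟨C₀, rfl⟩
  have hE'td : Algebra.trdeg k E' = 1 := by
    rw [hE', d2_trdeg E _ hC₀, htE]
  rw [← hE'] at hy hz
  choose f hf hfy using hy
  obtain ⟨K₀, hK₀⟩ : ∃ K₀, K₀ = E' ⊔ IntermediateField.adjoin k {t} := ⟨_, rfl⟩
  have hle₀ : E ⊔ IntermediateField.adjoin k {t} ≤ K₀ := by
    rw [hK₀]
    exact sup_le_sup_right hEE' _
  have hE'K₀ : E' ≤ K₀ := by
    rw [hK₀]
    exact le_sup_left
  have htK₀ : t ∈ K₀ := by
    rw [hK₀]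
    exact (le_sup_right : IntermediateField.adjoin k {t} ≤ _)
      (IntermediateField.mem_adjoin_simple_self _ _)
  have hK₀fg : K₀.FG := by
    rw [hK₀]
    exact IntermediateField.fg_sup hE'fg ⟨{t}, by rw [Finset.coe_singleton]⟩
  have hK₀al : ∀ y : M, IsAlgebraic K₀ y := fun y => alg_le hle₀ (hal y)
  have hyfg : (IntermediateField.adjoin k (Set.range y) : IntermediateField k M).FG :=
    ⟨Finset.univ.image y, by rw [Finset.coe_image, Finset.coe_univ, Set.image_univ]⟩
  have hyK₀ : ∀ i, y i ^ p - y i ∈ K₀ := by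
    intro i
    rw [hfy i]
    exact d2_aeval_mem E' K₀ hE'K₀ t htK₀ (f i)
  -- the big field
  have hK'fg : (K₀ ⊔ IntermediateField.adjoin k (Set.range y) : IntermediateField k M).FG :=
    IntermediateField.fg_sup hK₀fg hyfg
  have hFK' : F ≤ K₀ ⊔ IntermediateField.adjoin k (Set.range y) := by
    refine hF.trans (sup_le (hle₀.trans le_sup_left) ?_)
    rw [IntermediateField.adjoin_le_iff]
    intro u hu
    exact sup_le_sup_right hE'K₀ _ (hz u hu)
  refine emt_of_inj (K' := K₀ ⊔ IntermediateField.adjoin k (Set.range y)) (ι := Fin r → ZMod p)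
    (fun ℓ hℓ => vl_res F _ hFK' hK'fg hFal hℓ) _
    (fun ℓ hℓ _ => ea_inj K₀ hK₀fg hK₀al p y hyK₀ hℓ) fun c => ?_
  -- the cyclic case
  show Emt (K₀ ⊔ IntermediateField.adjoin k {∑ i, ((c i).val : M) * y i})
  have hY := comb_eq p (fun i => (c i).val) y
  have hK₀al' := hK₀al
  rw [hK₀] at hK₀al' ⊢
  refine emt_cyclicQ p htd E' hE'fg hE'td t hK₀al' (∑ i, C ((c i).val : E') * f i)
    (low2_sum _ _ fun i _ => (hf i).C_mul _) _ ?_
  rw [hY, map_sum]
  refine Finset.sum_congr rfl fun i _ => ?_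
  rw [map_mul, aeval_C, map_natCast, hfy i]

/-- **Towers.** The exponents of `f(ρ(X))` have digit sum at most two, `ρ ∈ k[X]` is not constant. -/
theorem tower_Qr [IsAlgClosed M] (p : ℕ) [Fact p.Prime] [CharP k p] (ρ : k[X])
    (hρ : ρ.natDegree ≠ 0) (htd : Algebra.trdeg k M = 2) (E : IntermediateField k M) (hE : E.FG)
    (htE : Algebra.trdeg k E = 1) (t : M)
    (hal : ∀ y : M, IsAlgebraic (E ⊔ IntermediateField.adjoin k {t} : IntermediateField k M) y)
    (S : Finset M)
    (hS : ∀ z ∈ S, ∃ φ f : E[X], AddPoly φ ∧ derivative φ ≠ 0 ∧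
      Low2 p (f.comp (ρ.map (algebraMap k E))) ∧ aeval z φ = aeval t f)
    (F : IntermediateField k M)
    (hF : F ≤ E ⊔ IntermediateField.adjoin k {t} ⊔ IntermediateField.adjoin k (S : Set M))
    (hFal : ∀ y : M, IsAlgebraic F y) : Emt F := by
  obtain ⟨τ, hτ⟩ : ∃ τ : M, aeval τ ρ = t := by
    have h1 : (ρ.map (algebraMap k M) - C t).degree ≠ 0 := by
      intro h
      have h2 := natDegree_eq_of_degree_eq_some h
      rw [natDegree_sub_C, natDegree_map] at h2
      exact hρ h2
    obtain ⟨τ, h3⟩ := IsAlgClosed.exists_root _ h1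
    refine ⟨τ, ?_⟩
    rw [IsRoot, eval_sub, eval_C, eval_map_algebraMap, sub_eq_zero] at h3
    exact h3
  have hle : IntermediateField.adjoin k {t} ≤ IntermediateField.adjoin k {τ} := by
    rw [IntermediateField.adjoin_simple_le_iff, ← hτ]
    exact IntermediateField.algebra_adjoin_le_adjoin k {τ}
      (Polynomial.aeval_mem_adjoin_singleton k τ)
  refine tower_Q p htd E hE htE τ (fun y => alg_le (sup_le_sup_left hle E) (hal y)) S ?_ F
    (hF.trans (sup_le_sup_right (sup_le_sup_left hle E) _)) hFal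
  intro z hz
  obtain ⟨φ, f, a1, a2, a3, a4⟩ := hS z hz
  refine ⟨φ, f.comp (ρ.map (algebraMap k E)), a1, a2, a3, ?_⟩
  rw [a4, aeval_comp, aeval_map_algebraMap, hτ]

end Pool.Agent.QD
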