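import Pool.Agent.QD.C

/-!
# Towers over `E(t)`: the equations `y ^ p - y = f(t)`
-/

set_option autoImplicit false

namespace Pool.Agent.QD

open Polynomial Pool.Agent.TBR Pool.Agent.TUQ Pool.Agent.UQ Pool.Agent.WLD Pool.Agent.ADT

universe u

variable {k M : Type u} [Field k] [Field M] [Algebra k M]

theorem d1_low2_pow {R : Type u} [Field R] (p : ℕ) [Fact p.Prime] [CharP R p] (g : R[X])
    (hg : Low2 p g) : Low2 p (g ^ p) := by
  have hp0 : 0 < p := (Fact.out : p.Prime).pos
  intro n hn
  rw [← map_frobenius_expand, coeff_map, coeff_expand hp0] at hn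
  by_cases h : p ∣ n
  · rw [if_pos h] at hn
    obtain ⟨m, rfl⟩ := h
    rw [Nat.mul_div_cancel_left m hp0] at hn
    have h1 : g.coeff m ≠ 0 := fun h0 => hn (by rw [h0, map_zero])
    rcases hg m h1 with rfl | ⟨i, rfl⟩ | ⟨i, j, rfl⟩
    · left
      rw [mul_zero]
    · right; left
      exact ⟨i + 1, by rw [pow_succ, mul_comm]⟩
    · right; right
      exact ⟨i + 1, j + 1, by rw [mul_add, pow_succ, pow_succ, mul_comm, mul_comm (p ^ j)]⟩
  · rw [if_neg h, map_zero] at hn
    exact absurd rfl hn

/-- one function -/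
theorem d1_one [IsAlgClosed M] (p : ℕ) [Fact p.Prime] [CharP k p]
    (E : IntermediateField k M) (t z : M) (φ f : E[X]) (hadd : AddPoly φ)
    (hsep : derivative φ ≠ 0) (hf : Low2 p f) (hz : aeval z φ = aeval t f) :
    ∃ (C₀ : Finset M) (n : ℕ) (y : Fin n → M), (∀ c ∈ C₀, IsAlgebraic E c) ∧
      (∀ i, ∃ c ∈ C₀, ∃ g : E[X], Low2 p g ∧ y i ^ p - y i = c * aeval t g) ∧
      z ∈ IntermediateField.adjoin k (C₀ : Set M) ⊔ IntermediateField.adjoin k (Set.range y) := by
  classical
  have hEp : CharP E p := charP_of_injective_algebraMap (algebraMap k E).injective p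
  rcases lt_or_ge 1 φ.natDegree with hdeg | hdeg
  · let K : IntermediateField E M := algebraicClosure E M
    have hKc : IsAlgClosed K := (inferInstance : IsAlgClosure E (algebraicClosure E M)).isAlgClosed
    have hKp : CharP K p := charP_of_injective_algebraMap (algebraMap E K).injective p
    have hd' : (φ.map (algebraMap E K)).natDegree = φ.natDegree := natDegree_map _
    have hsep' : derivative (φ.map (algebraMap E K)) ≠ 0 := by
      rw [derivative_map]
      intro h0
      exact hsep ((Polynomial.map_eq_zero _).1 h0)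
    obtain ⟨n, w, c, P, hP, hw⟩ := exists_dual p (φ.map (algebraMap E K)) (addPoly_map hadd K)
      hsep' (by rw [hd']; exact hdeg) (IsAlgClosed.splits _)
    have hy : ∀ j, (aeval z (P j)) ^ p - aeval z (P j) = (c j : M) * aeval z φ := by
      intro j
      have h1 := congrArg (fun r => aeval z r) (hP j)
      simp only [map_sub, map_pow, map_mul, aeval_C, aeval_map_algebraMap] at h1
      exact h1
    have hzs : z = ∑ j, (w j : M) * aeval z (P j) := by
      have h1 := congrArg (fun r => aeval z r) hw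
      simp only [map_sum, map_mul, aeval_C, aeval_X] at h1
      exact h1.symm
    refine ⟨Finset.univ.image (fun j => (c j : M)) ∪ Finset.univ.image (fun j => (w j : M)), n,
      fun j => aeval z (P j), ?_, ?_, ?_⟩
    · intro a ha
      rcases Finset.mem_union.1 ha with h | h
      · obtain ⟨j, -, rfl⟩ := Finset.mem_image.1 h
        exact mem_algebraicClosure_iff.1 (c j).2
      · obtain ⟨j, -, rfl⟩ := Finset.mem_image.1 h
        exact mem_algebraicClosure_iff.1 (w j).2
    · intro j
      refine ⟨(c j : M), Finset.mem_union_left _ (Finset.mem_image_of_mem _ (Finset.mem_univ j)),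
        f, hf, ?_⟩
      rw [hy, hz]
    · rw [hzs]
      refine sum_mem fun j _ => mul_mem ?_ ?_
      · refine mem_sup_l' (IntermediateField.subset_adjoin k _ ?_)
        exact Finset.mem_coe.2 (Finset.mem_union_right _
          (Finset.mem_image_of_mem _ (Finset.mem_univ j)))
      · rw [← hzs]
        exact mem_sup_r' (IntermediateField.subset_adjoin k _ ⟨j, rfl⟩)
  · have h1 := eq_X_add_C_of_natDegree_le_one hdeg
    have h0 : aeval (0 : E) φ = 0 := add_zero' hadd
    have hb : φ.coeff 0 = 0 := by
      rw [← h0, coe_aeval_eq_eval, ← coeff_zero_eq_eval_zero]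
    rw [hb, C_0, add_zero] at h1
    have ha : φ.coeff 1 ≠ 0 := by
      intro h
      rw [h, C_0, zero_mul] at h1
      rw [h1, derivative_zero] at hsep
      exact hsep rfl
    have ha' : algebraMap E M (φ.coeff 1) ≠ 0 := (_root_.map_ne_zero _).2 ha
    rw [h1, map_mul, aeval_C, aeval_X] at hz
    obtain ⟨g, hg⟩ : ∃ g : E[X], g = C (φ.coeff 1)⁻¹ * f := ⟨_, rfl⟩
    have hgl : Low2 p g := by
      rw [hg]
      exact hf.C_mul _
    have hzg : z = aeval t g := by
      rw [hg, map_mul, aeval_C, map_inv₀, ← hz, ← mul_assoc, inv_mul_cancel₀ ha', one_mul]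
    refine ⟨{1}, 1, fun _ => z, ?_, fun i => ?_, ?_⟩
    · intro c hc
      rw [Finset.mem_singleton.1 hc]
      exact isAlgebraic_one
    · refine ⟨1, Finset.mem_singleton_self 1, g ^ p + C (-1) * g,
        (d1_low2_pow p g hgl).add (hgl.C_mul _), ?_⟩
      rw [one_mul, map_add, map_mul, map_pow, ← hzg, aeval_C, map_neg, map_one]
      ring
    · exact mem_sup_r' (IntermediateField.subset_adjoin k _ ⟨0, rfl⟩)

/-- finitely many functions: they are contained in the field generated by solutions of
`y ^ p - y = f(t)` over a finite extension of `E` -/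
theorem exists_spanQ [IsAlgClosed M] (p : ℕ) [Fact p.Prime] [CharP k p]
    (E : IntermediateField k M) (t : M) (S : Finset M)
    (hS : ∀ z ∈ S, ∃ φ f : E[X], AddPoly φ ∧ derivative φ ≠ 0 ∧ Low2 p f ∧
      aeval z φ = aeval t f) :
    ∃ (C₀ : Finset M) (r : ℕ) (y : Fin r → M), (∀ c ∈ C₀, IsAlgebraic E c) ∧
      (∀ i, ∃ f : (E ⊔ IntermediateField.adjoin k (C₀ : Set M) : IntermediateField k M)[X],
        Low2 p f ∧ y i ^ p - y i = aeval t f) ∧
      ∀ z ∈ S, z ∈ E ⊔ IntermediateField.adjoin k (C₀ : Set M) ⊔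
        IntermediateField.adjoin k (Set.range y) := by
  classical
  have key : ∃ (C₀ : Finset M) (r : ℕ) (y : Fin r → M), (∀ c ∈ C₀, IsAlgebraic E c) ∧
      (∀ i, ∃ c ∈ C₀, ∃ g : E[X], Low2 p g ∧ y i ^ p - y i = c * aeval t g) ∧
      ∀ z ∈ S, z ∈ IntermediateField.adjoin k (C₀ : Set M) ⊔
        IntermediateField.adjoin k (Set.range y) := by
    induction S using Finset.induction_on with
    | empty =>
      exact ⟨∅, 0, Fin.elim0, fun c hc => absurd hc (Finset.notMem_empty c), fun i => i.elim0,
        fun z hz => absurd hz (Finset.notMem_empty z)⟩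
    | insert z S _ ih =>
      obtain ⟨C₁, r₁, y₁, a₁, b₁, c₁⟩ := ih fun z hz => hS z (Finset.mem_insert_of_mem hz)
      obtain ⟨φ, f, h1, h2, h3, h4⟩ := hS z (Finset.mem_insert_self z S)
      obtain ⟨C₂, r₂, y₂, a₂, b₂, c₂⟩ := d1_one p E t z φ f h1 h2 h3 h4
      have hl1 : IntermediateField.adjoin k (C₁ : Set M) ⊔
          IntermediateField.adjoin k (Set.range y₁) ≤
          IntermediateField.adjoin k ((C₁ ∪ C₂ : Finset M) : Set M) ⊔
          IntermediateField.adjoin k (Set.range (Fin.append y₁ y₂)) := by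
        refine sup_le_sup (IntermediateField.adjoin.mono k _ _ ?_)
          (IntermediateField.adjoin.mono k _ _ ?_)
        · exact Finset.coe_subset.2 Finset.subset_union_left
        · rintro _ ⟨i, rfl⟩
          exact ⟨Fin.castAdd r₂ i, Fin.append_left _ _ _⟩
      have hl2 : IntermediateField.adjoin k (C₂ : Set M) ⊔
          IntermediateField.adjoin k (Set.range y₂) ≤
          IntermediateField.adjoin k ((C₁ ∪ C₂ : Finset M) : Set M) ⊔
          IntermediateField.adjoin k (Set.range (Fin.append y₁ y₂)) := by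
        refine sup_le_sup (IntermediateField.adjoin.mono k _ _ ?_)
          (IntermediateField.adjoin.mono k _ _ ?_)
        · exact Finset.coe_subset.2 Finset.subset_union_right
        · rintro _ ⟨i, rfl⟩
          exact ⟨Fin.natAdd r₁ i, Fin.append_right _ _ _⟩
      refine ⟨C₁ ∪ C₂, r₁ + r₂, Fin.append y₁ y₂, ?_, ?_, ?_⟩
      · intro c hc
        rcases Finset.mem_union.1 hc with h | h
        · exact a₁ c h
        · exact a₂ c h
      · intro i
        refine Fin.addCases (fun i => ?_) (fun i => ?_) i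
        · rw [Fin.append_left]
          obtain ⟨c, hc, f, h⟩ := b₁ i
          exact ⟨c, Finset.mem_union_left _ hc, f, h⟩
        · rw [Fin.append_right]
          obtain ⟨c, hc, f, h⟩ := b₂ i
          exact ⟨c, Finset.mem_union_right _ hc, f, h⟩
      · intro z' hz'
        rcases Finset.mem_insert.1 hz' with rfl | h
        · exact hl2 c₂
        · exact hl1 (c₁ z' h)
  obtain ⟨C₀, r, y, a, b, c⟩ := key
  refine ⟨C₀, r, y, a, fun i => ?_, fun z hz => ?_⟩
  · obtain ⟨d, hd, g, hg, hy⟩ := b i
    have hdE : d ∈ E ⊔ IntermediateField.adjoin k (C₀ : Set M) :=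
      mem_sup_r' (IntermediateField.subset_adjoin k _ (Finset.mem_coe.2 hd))
    let ι : E →+* (E ⊔ IntermediateField.adjoin k (C₀ : Set M) : IntermediateField k M) :=
      (IntermediateField.inclusion (le_sup_left : E ≤ E ⊔ IntermediateField.adjoin k
        (C₀ : Set M)) : E →ₐ[k] _)
    refine ⟨C ⟨d, hdE⟩ * g.map ι, (hg.map ι).C_mul _, ?_⟩
    have h1 : aeval t (g.map ι) = aeval t g := by
      rw [aeval_def, aeval_def, eval₂_map]
      rfl
    rw [hy, map_mul, aeval_C, h1]
    rfl
  · exact (sup_le_sup_right le_sup_right _ : IntermediateField.adjoin k (C₀ : Set M) ⊔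
      IntermediateField.adjoin k (Set.range y) ≤ _) (c z hz)

end Pool.Agent.QD
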