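import Mathlib

/-!
# Polynomials with exponents of small digit sum
-/

set_option autoImplicit false

namespace Pool.Agent.QD

open Polynomial

/-- the exponents of `f` are `0`, `p ^ i` -/
def Low1 (p : ℕ) {R : Type*} [Semiring R] (f : R[X]) : Prop :=
  ∀ n, f.coeff n ≠ 0 → n = 0 ∨ ∃ i, n = p ^ i

/-- the exponents of `f` are `0`, `p ^ i`, `p ^ i + p ^ j` -/
def Low2 (p : ℕ) {R : Type*} [Semiring R] (f : R[X]) : Prop :=
  ∀ n, f.coeff n ≠ 0 → n = 0 ∨ (∃ i, n = p ^ i) ∨ ∃ i j, n = p ^ i + p ^ j

/-- the exponent of the auxiliary variable -/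
def ex (p : ℕ) : ℕ := if p = 2 then 3 else 2

section

variable {p : ℕ} {R S : Type*} [Semiring R] [Semiring S]

theorem Low1.low2 {f : R[X]} (h : Low1 p f) : Low2 p f := fun n hn =>
  (h n hn).imp_right Or.inl

theorem low2_zero : Low2 p (0 : R[X]) := fun n hn => absurd (coeff_zero n) hn

theorem low2_C (a : R) : Low2 p (C a) := fun n hn => by
  rw [coeff_C] at hn
  left
  by_contra h
  rw [if_neg h] at hn
  exact hn rfl

theorem Low2.add {f g : R[X]} (hf : Low2 p f) (hg : Low2 p g) : Low2 p (f + g) := fun n hn => by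
  by_cases h : f.coeff n = 0
  · refine hg n fun h' => hn ?_
    rw [coeff_add, h, h', add_zero]
  · exact hf n h

theorem Low2.C_mul {f : R[X]} (hf : Low2 p f) (a : R) : Low2 p (C a * f) := fun n hn => by
  refine hf n fun h => hn ?_
  rw [coeff_C_mul, h, mul_zero]

theorem Low2.map {f : R[X]} (hf : Low2 p f) (σ : R →+* S) : Low2 p (f.map σ) := fun n hn => by
  refine hf n fun h => hn ?_
  rw [coeff_map, h, map_zero]

theorem Low1.map {f : R[X]} (hf : Low1 p f) (σ : R →+* S) : Low1 p (f.map σ) := fun n hn => by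
  refine hf n fun h => hn ?_
  rw [coeff_map, h, map_zero]

theorem low2_sum {ι : Type*} (s : Finset ι) (f : ι → R[X]) (h : ∀ i ∈ s, Low2 p (f i)) :
    Low2 p (∑ i ∈ s, f i) := by
  classical
  induction s using Finset.induction_on with
  | empty =>
    rw [Finset.sum_empty]
    exact low2_zero
  | insert i s hi ih =>
    rw [Finset.sum_insert hi]
    exact (h i (Finset.mem_insert_self i s)).add
      (ih fun j hj => h j (Finset.mem_insert_of_mem hj))

end

end Pool.Agent.QD
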