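import Pool.Agent.QD.D
import Pool.Agent.ADT.T3

/-!
# The surfaces `v ^ 2 = a s ^ (q + 1) + b s ^ q + c s + d` over a curve
-/

set_option autoImplicit false

namespace Pool.Agent.QD

open Polynomial Pool.Agent.TUQ Pool.Agent.WLD Pool.Agent.ADT Pool.Agent.UQ

open scoped Classical

/-- the algebraic extensions of `F₀` have the same transcendence degree -/
theorem j5_trdeg {k M : Type} [Field k] [Field M] [Algebra k M] (F₀ E : IntermediateField k M)
    (hle : F₀ ≤ E) (hEal : ∀ c ∈ E, IsAlgebraic F₀ c) (h0 : Algebra.trdeg k F₀ = 1) :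
    Algebra.trdeg k E = 1 := by
  let alg : Algebra F₀ E := (IntermediateField.inclusion hle).toRingHom.toAlgebra
  have tow1 : IsScalarTower k F₀ E := IsScalarTower.of_algebraMap_eq (fun _ => rfl)
  have tow2 : IsScalarTower F₀ E M := IsScalarTower.of_algebraMap_eq (fun _ => rfl)
  have h1 := _root_.trdeg_add_eq k F₀ (A := E)
  have h2 : Algebra.trdeg F₀ E = 0 := by
    rw [trdeg_eq_zero_iff]
    constructor
    intro b
    have h3 : IsAlgebraic F₀ (algebraMap E M b) := hEal b b.2
    exact (isAlgebraic_algebraMap_iff (FaithfulSMul.algebraMap_injective E M)).1 h3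
  rw [h2, add_zero, h0] at h1
  exact h1.symm

/-- the solutions of `φ(z) = f(t)` are algebraic over `E(t)` -/
theorem j5_alg {k M : Type} [Field k] [Field M] [Algebra k M] (E : IntermediateField k M) (s z : M)
    (φ f : E[X]) (h2 : derivative φ ≠ 0) (h4 : aeval z φ = aeval s f) :
    IsAlgebraic (E ⊔ IntermediateField.adjoin k {s} : IntermediateField k M) z := by
  obtain ⟨A, hA⟩ : ∃ A : IntermediateField k M, A = E ⊔ IntermediateField.adjoin k {s} := ⟨_, rfl⟩
  have hEA : E ≤ A := by
    rw [hA]
    exact le_sup_left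
  have hsA : s ∈ A := by
    rw [hA]
    exact (le_sup_right : IntermediateField.adjoin k {s} ≤ _)
      (IntermediateField.mem_adjoin_simple_self k s)
  rw [← hA]
  let ι : E →ₐ[k] A := IntermediateField.inclusion hEA
  have hι : ∀ q : E[X], ∀ a : A, ((aeval a (q.map ι.toRingHom) : A) : M) = aeval (a : M) q := by
    intro q a
    rw [← Polynomial.eval_map_algebraMap, Polynomial.map_map, Algebra.algebraMap_self]
    show algebraMap A M _ = _
    rw [← Polynomial.eval_map_algebraMap, ← Polynomial.eval₂_at_apply, Polynomial.eval₂_eq_eval_map,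
      Polynomial.map_map]
    rfl
  refine ⟨φ.map ι.toRingHom - C (aeval (⟨s, hsA⟩ : A) (f.map ι.toRingHom)), ?_, ?_⟩
  · intro h0
    apply h2
    have h6 : φ.natDegree = 0 := by
      rw [← natDegree_map_eq_of_injective (f := ι.toRingHom) ι.injective φ, sub_eq_zero.1 h0,
        natDegree_C]
    rw [eq_C_of_natDegree_eq_zero h6, derivative_C]
  · rw [map_sub, aeval_C, sub_eq_zero]
    have h7 : aeval z (φ.map ι.toRingHom) = aeval z φ := by
      rw [← Polynomial.eval_map_algebraMap, ← Polynomial.eval_map_algebraMap, Polynomial.map_map]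
      rfl
    rw [h7, h4]
    exact (hι f ⟨s, hsA⟩).symm

section

variable {k M : Type} [Field k] [Field M] [Algebra k M] [IsAlgClosed M] (p : ℕ)
    [Fact p.Prime] [CharP k p]

/-- the theorem on the towers in the form in which it is used below -/
theorem j5_apply (htd : Algebra.trdeg k M = 2) (F₀ : IntermediateField k M)
    (hF₀ : F₀.FG) (h₀ : Algebra.trdeg k F₀ = 1) (v s : M)
    (hal : ∀ y : M, IsAlgebraic
      (F₀ ⊔ IntermediateField.adjoin k ({v, s} : Set M) : IntermediateField k M) y)
    (F : IntermediateField k M) (hF : F ≤ F₀ ⊔ IntermediateField.adjoin k ({v, s} : Set M))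
    (hFal : ∀ y : M, IsAlgebraic F y) (C₀ : Finset M)
    (hC₀ : ∀ c ∈ C₀, IsAlgebraic F₀ c)
    (t : M) (S : Finset M) (hS : ∀ z ∈ S, ∃ φ f : k[X], AddPoly φ ∧ derivative φ ≠ 0 ∧
      Low2 p f ∧ aeval z φ = aeval t f)
    (hL : ∀ L : IntermediateField k M, F₀ ≤ L → (∀ c ∈ C₀, c ∈ L) → t ∈ L → (∀ z ∈ S, z ∈ L) →
      s ∈ L ∧ v ∈ L) : Emt F := by
  obtain ⟨E, hE⟩ : ∃ E, E = F₀ ⊔ IntermediateField.adjoin k (C₀ : Set M) := ⟨_, rfl⟩
  have hFE : F₀ ≤ E := by
    rw [hE]
    exact le_sup_left
  have hCE : ∀ c ∈ C₀, c ∈ E := fun c hc => by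
    rw [hE]
    exact (le_sup_right : IntermediateField.adjoin k (C₀ : Set M) ≤ _)
      (IntermediateField.subset_adjoin _ _ hc)
  have hEal : ∀ c ∈ E, IsAlgebraic F₀ c := by
    intro c hc
    have h1 : E ≤ (algebraicClosure F₀ M).restrictScalars k := by
      rw [hE]
      refine sup_le ?_ ?_
      · exact fun b hb => mem_algebraicClosure_iff.2 (isAlgebraic_algebraMap (⟨b, hb⟩ : F₀))
      · rw [IntermediateField.adjoin_le_iff]
        exact fun b hb => mem_algebraicClosure_iff.2 (hC₀ b hb)
    exact mem_algebraicClosure_iff.1 (h1 hc)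
  have htE := j5_trdeg F₀ E hFE hEal h₀
  have hEfg : E.FG := by
    rw [hE]
    exact IntermediateField.fg_sup hF₀ ⟨C₀, rfl⟩
  have hS' : ∀ z ∈ S, ∃ φ f : E[X], AddPoly φ ∧ derivative φ ≠ 0 ∧ Low2 p f ∧
      aeval z φ = aeval t f := by
    intro z hz
    obtain ⟨φ, f, h1, h2, h3, h4⟩ := hS z hz
    refine ⟨φ.map (algebraMap k E), f.map (algebraMap k E), addPoly_map h1 E, ?_, h3.map _, ?_⟩
    · rw [derivative_map]
      exact (Polynomial.map_ne_zero_iff (algebraMap k E).injective).2 h2
    · rw [aeval_map_algebraMap, aeval_map_algebraMap, h4]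
  obtain ⟨A, hA⟩ : ∃ A : IntermediateField k M, A = E ⊔ IntermediateField.adjoin k {t} := ⟨_, rfl⟩
  have hEA : E ≤ A := by
    rw [hA]
    exact le_sup_left
  have htA : t ∈ A := by
    rw [hA]
    exact (le_sup_right : IntermediateField.adjoin k {t} ≤ _)
      (IntermediateField.mem_adjoin_simple_self k t)
  obtain ⟨T, hT⟩ : ∃ T : IntermediateField k M,
    T = A ⊔ IntermediateField.adjoin k (S : Set M) := ⟨_, rfl⟩
  have hAT : A ≤ T := by
    rw [hT]
    exact le_sup_left
  have hST : ∀ z ∈ S, z ∈ T := fun z hz => by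
    rw [hT]
    exact (le_sup_right : IntermediateField.adjoin k (S : Set M) ≤ _)
      (IntermediateField.subset_adjoin _ _ hz)
  obtain ⟨hsT, hvT⟩ := hL T (hFE.trans (hEA.trans hAT)) (fun c hc => hAT (hEA (hCE c hc)))
    (hAT htA) hST
  have hTal : ∀ a ∈ T, IsAlgebraic A a := by
    intro a ha
    have h1 : T ≤ (algebraicClosure A M).restrictScalars k := by
      rw [hT]
      refine sup_le ?_ ?_
      · exact fun b hb => mem_algebraicClosure_iff.2 (isAlgebraic_algebraMap (⟨b, hb⟩ : A))
      · rw [IntermediateField.adjoin_le_iff]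
        intro b hb
        refine mem_algebraicClosure_iff.2 ?_
        obtain ⟨φ, f, -, h2, -, h4⟩ := hS' b hb
        rw [hA]
        exact j5_alg E t b φ f h2 h4
    exact mem_algebraicClosure_iff.1 (h1 ha)
  have hle : F₀ ⊔ IntermediateField.adjoin k ({v, s} : Set M) ≤ T := by
    refine sup_le (hFE.trans (hEA.trans hAT)) ?_
    rw [IntermediateField.adjoin_le_iff]
    rintro _ (rfl | rfl)
    · exact hvT
    · exact hsT
  have hal' : ∀ y : M, IsAlgebraic A y := fun y =>
    algTrans (K := (F₀ ⊔ IntermediateField.adjoin k ({v, s} : Set M) : IntermediateField k M)) A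
      (fun b => hTal _ (hle b.2)) y (hal y)
  rw [hA] at hal'
  refine tower_Q p htd E hEfg htE t hal' S hS' F ?_ hFal
  rw [← hA, ← hT]
  exact hF.trans hle

/-- `X - X ^ q` -/
theorem j5_addPoly (j : ℕ) : AddPoly (X - X ^ p ^ j : k[X]) := by
  intro L _ _ a b
  have hL : CharP L p := charP_of_injective_algebraMap (algebraMap k L).injective p
  simp only [map_sub, map_pow, aeval_X, add_pow_char_pow]
  ring

omit [Fact p.Prime] in
theorem j5_derivative (j : ℕ) (hj : j ≠ 0) : derivative (X - X ^ p ^ j : k[X]) ≠ 0 := by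
  have h1 : ((p ^ j : ℕ) : k) = 0 := by
    rw [Nat.cast_pow, CharP.cast_eq_zero, zero_pow hj]
  rw [derivative_sub, derivative_X, derivative_X_pow, h1, C_0, zero_mul, sub_zero]
  exact one_ne_zero

/-- the second step: `v₁ ^ 2 = b r ^ q + c r + a` -/
theorem j5_step2 (j : ℕ) (hj : j ≠ 0) (htd : Algebra.trdeg k M = 2) (F₀ : IntermediateField k M)
    (hF₀ : F₀.FG) (h₀ : Algebra.trdeg k F₀ = 1) (v s : M)
    (hal : ∀ y : M, IsAlgebraic
      (F₀ ⊔ IntermediateField.adjoin k ({v, s} : Set M) : IntermediateField k M) y)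
    (F : IntermediateField k M) (hF : F ≤ F₀ ⊔ IntermediateField.adjoin k ({v, s} : Set M))
    (hFal : ∀ y : M, IsAlgebraic F y) (C₀ : Finset M)
    (hC₀ : ∀ c ∈ C₀, IsAlgebraic F₀ c)
    (r v₁ : M) (b c a : algebraicClosure F₀ M)
    (h : v₁ ^ 2 = b * r ^ p ^ j + c * r + a)
    (hL : ∀ L : IntermediateField k M, F₀ ≤ L → (∀ c ∈ C₀, c ∈ L) → r ∈ L → v₁ ∈ L →
      s ∈ L ∧ v ∈ L) : Emt F := by
  have hB := algebraicClosure.isAlgClosure F₀ M
  have hBc : IsAlgClosed (algebraicClosure F₀ M) :=
    hB.isAlgClosed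
  have hBal : ∀ c : algebraicClosure F₀ M,
      IsAlgebraic F₀ (c : M) := fun c =>
    mem_algebraicClosure_iff.1 c.2
  have hCM : CharP M p := charP_of_injective_algebraMap (algebraMap k M).injective p
  have hp := (Fact.out : p.Prime)
  have hq1 : 1 < p ^ j := Nat.one_lt_pow hj hp.one_lt
  have hq0 : 0 < p ^ j := by omega
  by_cases hb : b = 0
  · by_cases hc : c = 0
    · -- `v₁` is algebraic over `k(u)`
      rw [hb, hc] at h
      obtain ⟨w, hw⟩ := IsAlgClosed.exists_pow_nat_eq a (n := 2) (by norm_num)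
      have h1 : v₁ ^ 2 = (w : M) ^ 2 := by
        rw [h, ← hw]
        push_cast
        ring
      refine j5_apply p htd F₀ hF₀ h₀ v s hal F hF hFal (insert (w : M) C₀) ?_ r ∅ ?_ ?_
      · intro c hc
        rcases Finset.mem_insert.1 hc with rfl | hc
        · exact hBal w
        · exact hC₀ c hc
      · intro z hz
        exact absurd hz (Finset.notMem_empty z)
      · intro L huL hCL hrL _
        have hwL : (w : M) ∈ L := hCL _ (Finset.mem_insert_self _ _)
        refine hL L huL (fun c hc => hCL c (Finset.mem_insert_of_mem hc)) hrL ?_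
        rcases sq_eq_sq_iff_eq_or_eq_neg.1 h1 with h2 | h2
        · rw [h2]
          exact hwL
        · rw [h2]
          exact neg_mem hwL
    · -- `r = (v₁ ^ 2 - a) / c`
      rw [hb] at h
      have hcM : (c : M) ≠ 0 := fun h => hc (Subtype.ext h)
      have h1 : r = (v₁ ^ 2 - a) / c := by
        rw [h]
        field_simp
        push_cast
        ring
      refine j5_apply p htd F₀ hF₀ h₀ v s hal F hF hFal (insert (c : M) (insert (a : M) C₀)) ?_ v₁ ∅ ?_ ?_
      · intro e he
        rcases Finset.mem_insert.1 he with rfl | he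
        · exact hBal c
        rcases Finset.mem_insert.1 he with rfl | he
        · exact hBal a
        · exact hC₀ e he
      · intro z hz
        exact absurd hz (Finset.notMem_empty z)
      · intro L huL hCL hvL _
        refine hL L huL (fun e he => hCL e (Finset.mem_insert_of_mem (Finset.mem_insert_of_mem he)))
          ?_ hvL
        rw [h1]
        exact div_mem (sub_mem (pow_mem hvL 2) (hCL _ (Finset.mem_insert_of_mem
          (Finset.mem_insert_self _ _)))) (hCL _ (Finset.mem_insert_self _ _))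
  · have hbM : (b : M) ≠ 0 := fun h => hb (Subtype.ext h)
    by_cases hc : c = 0
    · -- `v₁ ^ 2 = b r ^ q + a`
      rw [hc] at h
      obtain ⟨w, hw⟩ := IsAlgClosed.exists_pow_nat_eq v₁ hq0
      obtain ⟨α, hα⟩ := IsAlgClosed.exists_pow_nat_eq a hq0
      obtain ⟨β, hβ⟩ := IsAlgClosed.exists_pow_nat_eq b hq0
      have hβ0 : (β : M) ≠ 0 := by
        intro h1
        apply hbM
        rw [← hβ]
        push_cast
        rw [h1, zero_pow hq0.ne']
      have h1 : w ^ 2 = β * r + α := by
        have h2 : (w ^ 2) ^ p ^ j = (β * r + α) ^ p ^ j := by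
          rw [add_pow_char_pow, mul_pow, ← pow_mul, mul_comm 2, pow_mul, hw, h, ← hα, ← hβ]
          push_cast
          ring
        exact iterateFrobenius_inj M p j (by
          rw [iterateFrobenius_def, iterateFrobenius_def]
          exact h2)
      have h3 : r = (w ^ 2 - α) / β := by
        rw [h1]
        field_simp
        ring
      refine j5_apply p htd F₀ hF₀ h₀ v s hal F hF hFal (insert (β : M) (insert (α : M) C₀)) ?_ w ∅ ?_ ?_
      · intro e he
        rcases Finset.mem_insert.1 he with rfl | he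
        · exact hBal β
        rcases Finset.mem_insert.1 he with rfl | he
        · exact hBal α
        · exact hC₀ e he
      · intro z hz
        exact absurd hz (Finset.notMem_empty z)
      · intro L huL hCL hwL _
        refine hL L huL (fun e he => hCL e (Finset.mem_insert_of_mem (Finset.mem_insert_of_mem he)))
          ?_ ?_
        · rw [h3]
          exact div_mem (sub_mem (pow_mem hwL 2) (hCL _ (Finset.mem_insert_of_mem
            (Finset.mem_insert_self _ _)))) (hCL _ (Finset.mem_insert_self _ _))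
        · rw [← hw]
          exact pow_mem hwL _
    · -- the general case
      obtain ⟨μ, hμ⟩ : ∃ μ, b * μ ^ p ^ j + c * μ + a = 0 := by
        obtain ⟨P, hP⟩ : ∃ P : (algebraicClosure F₀ M)[X],
          P = C b * X ^ p ^ j + C c * X + C a := ⟨_, rfl⟩
        have h1 : P.coeff (p ^ j) = b := by
          rw [hP, coeff_add, coeff_add, coeff_C_mul, coeff_X_pow_self, coeff_C_mul, coeff_X,
            if_neg hq1.ne, coeff_C, if_neg hq0.ne']
          ring
        have h2 : P.degree ≠ 0 := by
          intro h0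
          apply hb
          rw [← h1]
          exact coeff_eq_zero_of_degree_lt (by rw [h0]; exact_mod_cast hq0)
        obtain ⟨μ, hμ⟩ := IsAlgClosed.exists_root P h2
        refine ⟨μ, ?_⟩
        rw [IsRoot, hP] at hμ
        simpa using hμ
      obtain ⟨lam, hlam⟩ := IsAlgClosed.exists_pow_nat_eq (-c / b) (n := p ^ j - 1) (by omega)
      obtain ⟨e, he⟩ := IsAlgClosed.exists_pow_nat_eq (c * lam) (n := 2) (by norm_num)
      have hlam0 : lam ≠ 0 := by
        intro h1
        rw [h1, zero_pow (by omega)] at hlam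
        have := div_ne_zero (neg_ne_zero.2 hc) hb
        exact this hlam.symm
      have he0 : e ≠ 0 := by
        intro h1
        rw [h1, zero_pow (by norm_num)] at he
        exact mul_ne_zero hc hlam0 he.symm
      have hlM : (lam : M) ≠ 0 := fun h => hlam0 (Subtype.ext h)
      have heM : (e : M) ≠ 0 := fun h => he0 (Subtype.ext h)
      have hbl : b * lam ^ p ^ j = -(c * lam) := by
        have h1 : lam ^ p ^ j = lam ^ (p ^ j - 1) * lam := by
          rw [← pow_succ, Nat.sub_add_cancel hq0]
        rw [h1, hlam]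
        field_simp
      have hblM : (b : M) * (lam : M) ^ p ^ j = -((c : M) * lam) := by
        have := congrArg (Subtype.val) hbl
        simpa using this
      have hμM : (b : M) * (μ : M) ^ p ^ j + c * μ + a = 0 := by
        have := congrArg (Subtype.val) hμ
        simpa using this
      have heM2 : (e : M) ^ 2 = c * lam := by
        have := congrArg (Subtype.val) he
        simpa using this
      obtain ⟨r', hr'⟩ : ∃ r' : M, r' = (r - μ) / lam := ⟨_, rfl⟩
      obtain ⟨v₂, hv₂⟩ : ∃ v₂ : M, v₂ = v₁ / e := ⟨_, rfl⟩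
      have h1 : r = lam * r' + μ := by
        rw [hr']
        field_simp
        ring
      have h2 : v₁ = e * v₂ := by
        rw [hv₂]
        field_simp
      have h3 : v₂ ^ 2 = r' - r' ^ p ^ j := by
        have h4 : (e : M) ^ 2 * v₂ ^ 2 = (e : M) ^ 2 * (r' - r' ^ p ^ j) := by
          have h5 : (e : M) ^ 2 * v₂ ^ 2 = v₁ ^ 2 := by
            rw [h2]
            ring
          rw [h5, h, h1, add_pow_char_pow, mul_pow, heM2]
          linear_combination r' ^ p ^ j * hblM + hμM
        exact mul_left_cancel₀ (pow_ne_zero 2 heM) h4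
      refine j5_apply p htd F₀ hF₀ h₀ v s hal F hF hFal
        (insert (μ : M) (insert (lam : M) (insert (e : M) C₀))) ?_ v₂ {r'} ?_ ?_
      · intro z hz
        rcases Finset.mem_insert.1 hz with rfl | hz
        · exact hBal μ
        rcases Finset.mem_insert.1 hz with rfl | hz
        · exact hBal lam
        rcases Finset.mem_insert.1 hz with rfl | hz
        · exact hBal e
        · exact hC₀ z hz
      · intro z hz
        rw [Finset.mem_singleton.1 hz]
        refine ⟨X - X ^ p ^ j, X ^ 2, j5_addPoly p j, j5_derivative p j hj, ?_, ?_⟩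
        · intro n hn
          rw [coeff_X_pow] at hn
          by_cases h2 : n = 2
          · right; right
            exact ⟨0, 0, by rw [h2, pow_zero]; norm_num⟩
          · rw [if_neg h2] at hn
            exact absurd rfl hn
        · rw [map_sub, map_pow, map_pow, aeval_X, aeval_X, h3]
      · intro L huL hCL hvL hzL
        have hr'L := hzL r' (Finset.mem_singleton_self r')
        have hμL : (μ : M) ∈ L := hCL _ (Finset.mem_insert_self _ _)
        have hlL : (lam : M) ∈ L := hCL _ (Finset.mem_insert_of_mem (Finset.mem_insert_self _ _))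
        have heL : (e : M) ∈ L := hCL _ (Finset.mem_insert_of_mem (Finset.mem_insert_of_mem
          (Finset.mem_insert_self _ _)))
        refine hL L huL (fun z hz => hCL z (Finset.mem_insert_of_mem (Finset.mem_insert_of_mem
          (Finset.mem_insert_of_mem hz)))) ?_ ?_
        · rw [h1]
          exact add_mem (mul_mem hlL hr'L) hμL
        · rw [h2]
          exact mul_mem heL hvL

/-- the first step: `v ^ 2 = a s ^ (q + 1) + b s ^ q + c s + d` -/
theorem j5_step1 (hp2 : p ≠ 2) (j : ℕ) (hj : j ≠ 0) (htd : Algebra.trdeg k M = 2) (F₀ : IntermediateField k M)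
    (hF₀ : F₀.FG) (h₀ : Algebra.trdeg k F₀ = 1) (v s : M)
    (hal : ∀ y : M, IsAlgebraic
      (F₀ ⊔ IntermediateField.adjoin k ({v, s} : Set M) : IntermediateField k M) y)
    (F : IntermediateField k M) (hF : F ≤ F₀ ⊔ IntermediateField.adjoin k ({v, s} : Set M))
    (hFal : ∀ y : M, IsAlgebraic F y)
    (a b c d : algebraicClosure F₀ M)
    (h : v ^ 2 = a * s ^ (p ^ j + 1) + b * s ^ p ^ j + c * s + d) : Emt F := by
  have hB := algebraicClosure.isAlgClosure F₀ M
  have hBc : IsAlgClosed (algebraicClosure F₀ M) :=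
    hB.isAlgClosed
  have hBal : ∀ c : algebraicClosure F₀ M,
      IsAlgebraic F₀ (c : M) := fun c =>
    mem_algebraicClosure_iff.1 c.2
  have hCM : CharP M p := charP_of_injective_algebraMap (algebraMap k M).injective p
  have hp := (Fact.out : p.Prime)
  have hq1 : 1 < p ^ j := Nat.one_lt_pow hj hp.one_lt
  have hq0 : 0 < p ^ j := by omega
  by_cases ha : a = 0
  · refine j5_step2 p j hj htd F₀ hF₀ h₀ v s hal F hF hFal ∅ ?_ s v b c d ?_ ?_
    · intro c hc
      exact absurd hc (Finset.notMem_empty c)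
    · rw [h, ha]
      push_cast
      ring
    · intro L _ _ hsL hvL
      exact ⟨hsL, hvL⟩
  · have haM : (a : M) ≠ 0 := fun h => ha (Subtype.ext h)
    obtain ⟨s₀, hs₀⟩ : ∃ s₀, a * s₀ ^ (p ^ j + 1) + b * s₀ ^ p ^ j + c * s₀ + d = 0 := by
      obtain ⟨P, hP⟩ : ∃ P : (algebraicClosure F₀ M)[X],
        P = C a * X ^ (p ^ j + 1) + C b * X ^ p ^ j + C c * X + C d := ⟨_, rfl⟩
      have h1 : P.coeff (p ^ j + 1) = a := by
        rw [hP, coeff_add, coeff_add, coeff_add, coeff_C_mul, coeff_X_pow_self, coeff_C_mul,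
          coeff_X_pow, if_neg (by omega), coeff_C_mul, coeff_X, if_neg (by omega), coeff_C,
          if_neg (by omega)]
        ring
      have h2 : P.degree ≠ 0 := by
        intro h0
        apply ha
        rw [← h1]
        exact coeff_eq_zero_of_degree_lt (by rw [h0]; exact_mod_cast Nat.succ_pos _)
      obtain ⟨μ, hμ⟩ := IsAlgClosed.exists_root P h2
      refine ⟨μ, ?_⟩
      rw [IsRoot, hP] at hμ
      simpa using hμ
    have hs₀M : (a : M) * (s₀ : M) ^ (p ^ j + 1) + b * (s₀ : M) ^ p ^ j + c * s₀ + d = 0 := by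
      have := congrArg (Subtype.val) hs₀
      simpa using this
    -- `s` is not algebraic over `k(u)`
    have hss : s - s₀ ≠ 0 := by
      intro h0
      have h1 : s = s₀ := sub_eq_zero.1 h0
      have h2 : v ^ 2 = 0 := by
        rw [h, h1, hs₀M]
      have hv0 : v = 0 := pow_eq_zero_iff (n := 2) (by norm_num) |>.1 h2
      have h3 : ∀ y : M, IsAlgebraic F₀ y := fun y => by
        refine algTrans (K := (F₀ ⊔ IntermediateField.adjoin k ({v, s} : Set M) :
          IntermediateField k M)) _ (fun b => ?_) y (hal y)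
        have h4 : F₀ ⊔ IntermediateField.adjoin k ({v, s} : Set M) ≤
            (algebraicClosure F₀ M).restrictScalars k := by
          refine sup_le ?_ ?_
          · exact fun b hb => mem_algebraicClosure_iff.2 (isAlgebraic_algebraMap (⟨b, hb⟩ : F₀))
          · rw [IntermediateField.adjoin_le_iff]
            rintro _ (rfl | rfl)
            · rw [hv0]
              exact zero_mem _
            · rw [h1]
              exact s₀.2
        exact mem_algebraicClosure_iff.1 (h4 b.2)
      have h5 := _root_.trdeg_add_eq k F₀ (A := M)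
      have h6 : Algebra.IsAlgebraic F₀ M := ⟨h3⟩
      rw [trdeg_eq_zero_iff.2 h6, add_zero, h₀, htd] at h5
      norm_num at h5
    obtain ⟨m, hm⟩ : ∃ m, p ^ j + 1 = 2 * m := by
      have h1 : Odd (p ^ j) := (hp.odd_of_ne_two hp2).pow
      obtain ⟨m, hm⟩ := h1
      exact ⟨m + 1, by omega⟩
    obtain ⟨r, hr⟩ : ∃ r : M, r = 1 / (s - s₀) := ⟨_, rfl⟩
    have hr0 : r ≠ 0 := by
      rw [hr]
      exact one_div_ne_zero hss
    have hs : s = s₀ + 1 / r := by
      rw [hr, one_div_one_div]
      ring
    have hrr : r * (1 / r) = 1 := by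
      field_simp
    refine j5_step2 p j hj htd F₀ hF₀ h₀ v s hal F hF hFal {(s₀ : M)} ?_ r (v * r ^ m)
      (a * s₀ ^ p ^ j + c) (a * s₀ + b) a ?_ ?_
    · intro c hc
      rw [Finset.mem_singleton.1 hc]
      exact hBal s₀
    · have h1 : (v * r ^ m) ^ 2 = v ^ 2 * r ^ (p ^ j + 1) := by
        rw [hm]
        ring
      have h2 : r ^ p ^ j * (1 / r) ^ p ^ j = 1 := by
        rw [← mul_pow, hrr, one_pow]
      rw [h1, h, hs, pow_succ (s₀ + 1 / r : M), add_pow_char_pow, pow_succ r]
      push_cast
      rw [pow_succ (s₀ : M)] at hs₀M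
      linear_combination (r ^ p ^ j * r) * hs₀M +
        (a * (s₀ : M) ^ p ^ j * r ^ p ^ j + c * r ^ p ^ j + a) * hrr +
        (a * s₀ * r + b * r + a * r * (1 / r)) * h2
    · intro L _ hCL hrL hvL
      have h0L : (s₀ : M) ∈ L := hCL _ (Finset.mem_singleton_self _)
      constructor
      · rw [hs]
        exact add_mem h0L (div_mem (one_mem _) hrL)
      · have h1 : v = v * r ^ m / r ^ m := by
          field_simp
        rw [h1]
        exact div_mem hvL (pow_mem hrL m)

/-- the surfaces `v ^ 2 = a s ^ (q + 1) + b s ^ q + c s + d`, where `a`, `b`, `c`, `d` are functions on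
a curve -/
theorem emt_J5 (hp2 : p ≠ 2) (j : ℕ) (hj : j ≠ 0) (htd : Algebra.trdeg k M = 2)
    (F₀ : IntermediateField k M) (hF₀ : F₀.FG) (h₀ : Algebra.trdeg k F₀ = 1) (v s : M)
    (hal : ∀ y : M, IsAlgebraic
      (F₀ ⊔ IntermediateField.adjoin k ({v, s} : Set M) : IntermediateField k M) y)
    (F : IntermediateField k M) (hF : F ≤ F₀ ⊔ IntermediateField.adjoin k ({v, s} : Set M))
    (hFal : ∀ y : M, IsAlgebraic F y) (a b c d : F₀)
    (h : v ^ 2 = a * s ^ (p ^ j + 1) + b * s ^ p ^ j + c * s + d) : Emt F := by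
  have hk : ∀ e : F₀, ∃ E : algebraicClosure F₀ M, (E : M) = e := fun e =>
    ⟨⟨e, mem_algebraicClosure_iff.2 (isAlgebraic_algebraMap e)⟩, rfl⟩
  choose ι hι using hk
  refine j5_step1 p hp2 j hj htd F₀ hF₀ h₀ v s hal F hF hFal (ι a) (ι b) (ι c) (ι d) ?_
  rw [hι, hι, hι, hι, h]

end

end Pool.Agent.QD
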