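import Pool.Agent.QD.K2
import Pool.Agent.QD.G
import Pool.Agent.QD.Crit

/-!
# The second class of polynomials: the criterion and the curves of characteristic three
-/

set_option autoImplicit false

namespace Pool.Agent.QD

open Polynomial Pool.Agent.WLD Pool.Agent.ADT Pool.Agent.UQ WeierstrassCurve
  WeierstrassCurve.Affine Pool.Agent.EFF

open scoped Classical

/-- **The second class**: the exponents of `f` are `p ^ i n`, `(p - 2) n ≤ 2 p`. For `p = 3` these
are the exponents `3 ^ i n`, `n ≤ 5`; for `p = 5` they are `5 ^ i n`, `n ≤ 3`. -/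
def LowR (p : ℕ) {R : Type*} [Semiring R] (f : R[X]) : Prop :=
  ∀ n, f.coeff n ≠ 0 → ∃ i m, (p - 2) * m ≤ 2 * p ∧ n = p ^ i * m

theorem LowR.lowD {p : ℕ} (hp : 2 < p) {R : Type*} [Semiring R] {f : R[X]} (hf : LowR p f) :
    LowD p (2 * p / (p - 2)) f := by
  intro n hn
  obtain ⟨i, m, h1, h2⟩ := hf n hn
  exact ⟨i, m, (Nat.le_div_iff_mul_le (by omega)).2 (by rwa [mul_comm]), h2⟩

theorem lowR_zero {p : ℕ} {R : Type*} [Semiring R] : LowR p (0 : R[X]) :=
  fun n hn => absurd (coeff_zero n) hn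

theorem lowR_C {p : ℕ} {R : Type*} [Semiring R] (a : R) : LowR p (C a) := fun n hn => by
  refine ⟨0, 0, by omega, ?_⟩
  rw [coeff_C] at hn
  by_contra h
  rw [if_neg (by omega)] at hn
  exact hn rfl

theorem LowR.add {p : ℕ} {R : Type*} [Semiring R] {f g : R[X]} (hf : LowR p f) (hg : LowR p g) :
    LowR p (f + g) := fun n hn => by
  by_cases h : f.coeff n = 0
  · refine hg n fun h' => hn ?_
    rw [coeff_add, h, h', add_zero]
  · exact hf n h

theorem LowR.C_mul {p : ℕ} {R : Type*} [Semiring R] {f : R[X]} (hf : LowR p f) (a : R) :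
    LowR p (C a * f) := fun n hn => by
  refine hf n fun h => hn ?_
  rw [coeff_C_mul, h, mul_zero]

theorem LowR.map {p : ℕ} {R S : Type*} [Semiring R] [Semiring S] {f : R[X]} (hf : LowR p f)
    (σ : R →+* S) : LowR p (f.map σ) := fun n hn => by
  refine hf n fun h => hn ?_
  rw [coeff_map, h, map_zero]

theorem two_lt_of_ne {p : ℕ} [Fact p.Prime] (h : p ≠ 2) : 2 < p :=
  lt_of_le_of_ne (Fact.out : p.Prime).two_le (Ne.symm h)

/-- **Towers.** -/
theorem tower_R {k M : Type} [Field k] [Field M] [Algebra k M] [IsAlgClosed M] (p : ℕ)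
    [Fact p.Prime] [CharP k p] (hp2 : p ≠ 2)
    (htd : Algebra.trdeg k M = 2) (E : IntermediateField k M) (hE : E.FG)
    (htE : Algebra.trdeg k E = 1) (t : M)
    (hal : ∀ y : M, IsAlgebraic (E ⊔ IntermediateField.adjoin k {t} : IntermediateField k M) y)
    (S : Finset M)
    (hS : ∀ z ∈ S, ∃ φ f : E[X], AddPoly φ ∧ derivative φ ≠ 0 ∧ LowR p f ∧
      aeval z φ = aeval t f)
    (F : IntermediateField k M)
    (hF : F ≤ E ⊔ IntermediateField.adjoin k {t} ⊔ IntermediateField.adjoin k (S : Set M))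
    (hFal : ∀ y : M, IsAlgebraic F y) : Emt F := by
  refine tower_D p (2 * p / (p - 2)) hp2 (Nat.mul_div_le _ _) htd E hE htE t hal S ?_ F hF hFal
  intro z hz
  obtain ⟨φ, f, h1, h2, h3, h4⟩ := hS z hz
  exact ⟨φ, f, h1, h2, h3.lowD (two_lt_of_ne hp2), h4⟩

/-- **Towers.** `f(ρ(X))` is in the second class, `ρ ∈ k[X]` is not constant. -/
theorem tower_Rr {k M : Type} [Field k] [Field M] [Algebra k M] [IsAlgClosed M] (p : ℕ)
    [Fact p.Prime] [CharP k p] (hp2 : p ≠ 2) (ρ : k[X])
    (hρ : ρ.natDegree ≠ 0) (htd : Algebra.trdeg k M = 2) (E : IntermediateField k M) (hE : E.FG)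
    (htE : Algebra.trdeg k E = 1) (t : M)
    (hal : ∀ y : M, IsAlgebraic (E ⊔ IntermediateField.adjoin k {t} : IntermediateField k M) y)
    (S : Finset M)
    (hS : ∀ z ∈ S, ∃ φ f : E[X], AddPoly φ ∧ derivative φ ≠ 0 ∧
      LowR p (f.comp (ρ.map (algebraMap k E))) ∧ aeval z φ = aeval t f)
    (F : IntermediateField k M)
    (hF : F ≤ E ⊔ IntermediateField.adjoin k {t} ⊔ IntermediateField.adjoin k (S : Set M))
    (hFal : ∀ y : M, IsAlgebraic F y) : Emt F := by
  obtain ⟨τ, hτ⟩ : ∃ τ : M, aeval τ ρ = t := by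
    have h1 : (ρ.map (algebraMap k M) - C t).degree ≠ 0 := by
      intro h
      have h2 := natDegree_eq_of_degree_eq_some h
      rw [natDegree_sub_C, natDegree_map] at h2
      exact hρ h2
    obtain ⟨τ, h3⟩ := IsAlgClosed.exists_root _ h1
    refine ⟨τ, ?_⟩
    rw [IsRoot, eval_sub, eval_C, eval_map_algebraMap, sub_eq_zero] at h3
    exact h3
  have hle : IntermediateField.adjoin k {t} ≤ IntermediateField.adjoin k {τ} := by
    rw [IntermediateField.adjoin_simple_le_iff, ← hτ]
    exact IntermediateField.algebra_adjoin_le_adjoin k {τ}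
      (Polynomial.aeval_mem_adjoin_singleton k τ)
  refine tower_R p hp2 htd E hE htE τ (fun y => alg_le (sup_le_sup_left hle E) (hal y)) S ?_ F
    (hF.trans (sup_le_sup_right (sup_le_sup_left hle E) _)) hFal
  intro z hz
  obtain ⟨φ, f, a1, a2, a3, a4⟩ := hS z hz
  refine ⟨φ, f.comp (ρ.map (algebraMap k E)), a1, a2, a3, ?_⟩
  rw [a4, aeval_comp, aeval_map_algebraMap, hτ]

/-- **The criterion.** `K` is a finite extension of `k(s)`, the field of functions `K(x, y)` of the
elliptic curve `W` over `K` is contained in `F(t)(S)`, where `F / k` is finitely generated of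
transcendence degree one, `t` is transcendental over `F`, and `φ(z) = f(t)` for `z` in `S`, with an
additive separable polynomial `φ` and a polynomial `f` over `F` of the second class; `M` is an algebraic closure of `F(t)`. -/
theorem sha_critR {k K Kb : Type} [Field k] [Finite k] [Field K] [Field Kb] [Algebra k K]
    [Algebra k Kb] [Algebra K Kb] [IsScalarTower k K Kb] [IsAlgClosed Kb]
    [Algebra.IsAlgebraic K Kb] (p : ℕ) [Fact p.Prime] [CharP k p] (hp2 : p ≠ 2) (s : K)
    (hs : Transcendental k s) (hKs : FiniteDimensional (IntermediateField.adjoin k {s}) K)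
    (W : WeierstrassCurve K) (hΔ : W.Δ ≠ 0)
    {M : Type} [Field M] [Algebra k M] [Algebra K M] [IsScalarTower k K M] [IsAlgClosed M]
    (F : IntermediateField k M) (t x y : M) (S : Finset M) (hF : F.FG)
    (htF : Algebra.trdeg k F = 1) (ht : Transcendental F t)
    (hal : ∀ b : M, IsAlgebraic (F ⊔ IntermediateField.adjoin k {t} : IntermediateField k M) b)
    (hx : Transcendental K x) (hy : (W.baseChange M).toAffine.Equation x y)
    (hS : ∀ z ∈ S, ∃ φ f : F[X], AddPoly φ ∧ derivative φ ≠ 0 ∧ LowR p f ∧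
      aeval z φ = aeval t f)
    (hK : ∀ a : K, algebraMap K M a ∈ F ⊔ IntermediateField.adjoin k {t} ⊔
      IntermediateField.adjoin k (S : Set M))
    (hxS : x ∈ F ⊔ IntermediateField.adjoin k {t} ⊔ IntermediateField.adjoin k (S : Set M))
    (hyS : y ∈ F ⊔ IntermediateField.adjoin k {t} ⊔ IntermediateField.adjoin k (S : Set M))
    (ℓ : ℕ) (hℓ : ℓ.Prime) (hℓk : (ℓ : k) ≠ 0)
    (c : ℕ → (Kb ≃ₐ[K] Kb) → Pts W Kb) (hc : ShaSys W k ℓ c) (n : ℕ) :
    Principal W (T1B.geo k K Kb) (c n) := by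
  have htd : Algebra.trdeg k M = 2 := cr_trdeg F htF t ht hal
  obtain ⟨B, hB⟩ : ∃ B, B = F ⊔ IntermediateField.adjoin k {t} ⊔
    IntermediateField.adjoin k (S : Set M) := ⟨_, rfl⟩
  rw [← hB] at hK hxS hyS
  obtain ⟨L, hL⟩ : ∃ L : IntermediateField K M, L = IntermediateField.adjoin K {x, y} := ⟨_, rfl⟩
  have hLal : ∀ b : M, IsAlgebraic (L.restrictScalars k) b := by
    intro b
    have h1 := cr_alg htd s hs x hx b
    have h2 : IntermediateField.adjoin K ({x} : Set M) ≤ L := by
      rw [hL, IntermediateField.adjoin_le_iff, Set.singleton_subset_iff]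
      exact IntermediateField.subset_adjoin _ _ (by simp)
    exact alg_le h2 h1
  have hle : L.restrictScalars k ≤ B := by
    let B' : IntermediateField K M := B.toSubfield.toIntermediateField hK
    have hLB : L ≤ B' := by
      rw [hL, IntermediateField.adjoin_le_iff]
      rintro b (rfl | hb)
      · exact hxS
      · rw [Set.mem_singleton_iff.1 hb]
        exact hyS
    exact fun b hb => hLB hb
  have hemt : Emt (L.restrictScalars k) :=
    tower_R p hp2 htd F hF htF t hal S hS (L.restrictScalars k) (hle.trans hB.le) hLal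
  have hT1 : T1B.T1 k L ℓ := t1_of_emt (L.restrictScalars k) hLal hemt ℓ hℓ hℓk
  have hxL : x ∈ L := by
    rw [hL]
    exact IntermediateField.subset_adjoin _ _ (by simp)
  have hyL : y ∈ L := by
    rw [hL]
    exact IntermediateField.subset_adjoin _ _ (by simp)
  have hell : W.IsElliptic := by
    rw [WeierstrassCurve.isElliptic_iff, isUnit_iff_ne_zero]
    exact hΔ
  have hxy : (W.baseChange L).toAffine.Equation (⟨x, hxL⟩ : L) ⟨y, hyL⟩ := by
    have h1 := (equation_iff _ _).1 hy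
    refine (equation_iff _ _).2 ?_
    simp only [map_a₁, map_a₂, map_a₃, map_a₄, map_a₆, WeierstrassCurve.baseChange] at h1 ⊢
    apply Subtype.ext
    exact h1
  refine sha_geo (F := L) W hell ⟨x, hxL⟩ ⟨y, hyL⟩ hxy ?_ ?_ s
    (fun a => Algebra.IsAlgebraic.isAlgebraic a) ℓ hℓ hℓk hT1 c hc n
  · intro h
    exact hx (h.algebraMap (A := M))
  · intro f
    have a1 : (IntermediateField.adjoin K ({⟨x, hxL⟩, ⟨y, hyL⟩} : Set L)).map L.val =
        IntermediateField.adjoin K {x, y} := by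
      rw [IntermediateField.adjoin_map, Set.image_pair]
      rfl
    have a2 : (f : M) ∈ (IntermediateField.adjoin K
        ({⟨x, hxL⟩, ⟨y, hyL⟩} : Set L)).map L.val := by
      rw [a1, ← hL]
      exact f.2
    obtain ⟨g, hg, hgf⟩ := a2
    have a3 : g = f := Subtype.ext hgf
    rw [← a3]
    exact hg

/-- the generic point of the curve `W` and the surface with the functions `U`, `s`: `x`, `y` are
rational functions of `U`, `s` and finitely many functions `z`, `φ(z) = f(s)`, where `φ` is additive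
and separable, the coefficients of `φ`, `f` are in `k(U)` and `f(ρ(X))` is of the
second class -/
def GeoR (p : ℕ) {k : Type} [Field k] (ρ : k[X]) (W : WeierstrassCurve k[X]) : Prop :=
  ∀ (M : Type) (_ : Field M) (_ : Algebra k M) (_ : IsAlgClosed M) (x y s : M),
    Transcendental k s → (∀ F : k[X], x ≠ aeval s F) →
    MvPolynomial.aeval ![x, y, s] (wpoly W) = 0 →
      ∃ (U : M) (S : Finset M), (∀ z ∈ S,
        ∃ φ f : (IntermediateField.adjoin k {U} : IntermediateField k M)[X],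
          AddPoly φ ∧ derivative φ ≠ 0 ∧ LowR p (f.comp (ρ.map (algebraMap k _))) ∧
            aeval z φ = aeval s f) ∧
        x ∈ IntermediateField.adjoin k {U} ⊔ IntermediateField.adjoin k {s} ⊔
          IntermediateField.adjoin k (S : Set M) ∧
        y ∈ IntermediateField.adjoin k {U} ⊔ IntermediateField.adjoin k {s} ⊔
          IntermediateField.adjoin k (S : Set M)

/-- characteristic three: `x = c (t ^ 2 - 1)`, `y + d x t = d ^ 3 q₁ U`, `d ^ 2 = c`,
`t ^ 3 - t = - q₁ U + c⁻³ q₂ / U` -/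
theorem geoR3 {k : Type} [Field k] [CharP k 3] (W : WeierstrassCurve k[X]) (hΔ : W.Δ ≠ 0)
    (w1 : W.a₁ = 0) (w3 : W.a₃ = 0) (w4 : W.a₄ = 0) (c : k) (hc : c ≠ 0) (w2 : W.a₂ = C c)
    (q₁ q₂ : k[X]) (w6 : W.a₆ = q₁ * q₂) (ρ : k[X]) (h₁ : LowR 3 (q₁.comp ρ))
    (h₂ : LowR 3 (q₂.comp ρ)) : GeoR 3 ρ W := by
  intro M _ _ _ x y s hs _ hxy
  have hCM : CharP M 3 := charP_of_injective_algebraMap (algebraMap k M).injective 3
  have h3 : (3 : M) = 0 := by exact_mod_cast CharP.cast_eq_zero M 3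
  have hcM : algebraMap k M c ≠ 0 := (_root_.map_ne_zero _).2 hc
  have hinj : ∀ F : k[X], F ≠ 0 → aeval s F ≠ 0 := fun F hF h =>
    hF (transcendental_iff_injective.1 hs (h.trans (map_zero _).symm))
  have ha6 : q₁ * q₂ ≠ 0 := by
    intro h
    apply hΔ
    rw [WeierstrassCurve.Δ, WeierstrassCurve.b₂, WeierstrassCurve.b₄, WeierstrassCurve.b₆,
      WeierstrassCurve.b₈, w1, w3, w4, w2, w6, h]
    ring
  obtain ⟨Q₁, hQ₁⟩ : ∃ Q₁, Q₁ = aeval s q₁ := ⟨_, rfl⟩
  obtain ⟨Q₂, hQ₂⟩ : ∃ Q₂, Q₂ = aeval s q₂ := ⟨_, rfl⟩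
  obtain ⟨e, he⟩ : ∃ e, e = algebraMap k M c := ⟨_, rfl⟩
  rw [← he] at hcM
  have hQ₁0 : Q₁ ≠ 0 := by
    rw [hQ₁]
    exact hinj q₁ (left_ne_zero_of_mul ha6)
  have hQ₂0 : Q₂ ≠ 0 := by
    rw [hQ₂]
    exact hinj q₂ (right_ne_zero_of_mul ha6)
  have heq : y ^ 2 = x ^ 3 + e * x ^ 2 + Q₁ * Q₂ := by
    rw [aeval_wpoly, w1, w3, w4, w2, w6] at hxy
    simp only [Matrix.cons_val_zero, Matrix.cons_val_one, Matrix.cons_val, map_zero, aeval_C,
      map_mul, ← hQ₁, ← hQ₂, ← he] at hxy
    linear_combination hxy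
  obtain ⟨d, hd⟩ := IsAlgClosed.exists_pow_nat_eq e (n := 2) two_pos
  have hd0 : d ≠ 0 := by
    rintro rfl
    apply hcM
    rw [← hd]
    ring
  obtain ⟨t, ht⟩ := IsAlgClosed.exists_pow_nat_eq (x / e + 1) (n := 2) two_pos
  have hxt : x = e * (t ^ 2 - 1) := by
    rw [ht]
    field_simp
    ring
  obtain ⟨v, hv⟩ : ∃ v, v = y + d * x * t := ⟨_, rfl⟩
  have hvv : v * (y - d * x * t) = Q₁ * Q₂ := by
    rw [hv]
    linear_combination heq - x ^ 2 * t ^ 2 * hd + x ^ 2 * hxt
  have hv0 : v ≠ 0 := by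
    rintro h0
    apply mul_ne_zero hQ₁0 hQ₂0
    rw [← hvv, h0, zero_mul]
  obtain ⟨U, hU⟩ : ∃ U, U = v / (d ^ 3 * Q₁) := ⟨_, rfl⟩
  have hvU : v = d ^ 3 * Q₁ * U := by
    rw [hU, mul_div_cancel₀ _ (mul_ne_zero (pow_ne_zero 3 hd0) hQ₁0)]
  have hU0 : U ≠ 0 := by
    rintro h
    apply hv0
    rw [hvU, h, mul_zero]
  have hv2 : (y - d * x * t) * (d ^ 3 * U) = Q₂ := by
    apply mul_left_cancel₀ hQ₁0
    rw [hvU] at hvv
    linear_combination hvv
  have key1 : (t ^ 3 - t) * (e ^ 3 * U) = (-U * Q₁ + (e ^ 3 * U)⁻¹ * Q₂) * (e ^ 3 * U) := by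
    have h5 : (-U * Q₁ + (e ^ 3 * U)⁻¹ * Q₂) * (e ^ 3 * U) = -U * Q₁ * (e ^ 3 * U) + Q₂ := by
      field_simp
    rw [h5, ← hv2]
    have h6 : y + d * x * t = d ^ 3 * Q₁ * U := by rw [← hv, hvU]
    have h7 : y = d ^ 3 * Q₁ * U - d * x * t := by linear_combination h6
    rw [h7, hxt, ← hd]
    linear_combination (d ^ 6 * U * (t ^ 3 - t)) * h3
  have hcU : e ^ 3 * U ≠ 0 := mul_ne_zero (pow_ne_zero 3 hcM) hU0
  have key : t ^ 3 - t = -U * Q₁ + (e ^ 3 * U)⁻¹ * Q₂ := mul_right_cancel₀ hcU key1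
  obtain ⟨E, hE⟩ : ∃ E : IntermediateField k M, E = IntermediateField.adjoin k {U} ⊔
    IntermediateField.adjoin k {s} ⊔
    IntermediateField.adjoin k ((({t, d} : Finset M)) : Set M) := ⟨_, rfl⟩
  have hUE : U ∈ E := by
    rw [hE]
    exact (le_sup_left.trans le_sup_left : IntermediateField.adjoin k {U} ≤ _)
      (IntermediateField.mem_adjoin_simple_self k U)
  have hsE : s ∈ E := by
    rw [hE]
    exact (le_sup_right.trans le_sup_left : IntermediateField.adjoin k {s} ≤ _)
      (IntermediateField.mem_adjoin_simple_self k s)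
  have htE : t ∈ E := by
    rw [hE]
    exact (le_sup_right : IntermediateField.adjoin k ((({t, d} : Finset M)) : Set M) ≤ _)
      (IntermediateField.subset_adjoin _ _ (by simp))
  have hdE : d ∈ E := by
    rw [hE]
    exact (le_sup_right : IntermediateField.adjoin k ((({t, d} : Finset M)) : Set M) ≤ _)
      (IntermediateField.subset_adjoin _ _ (by simp))
  have hQ₁E : Q₁ ∈ E := by
    rw [hQ₁]
    exact ADH.aeval_mem' E s hsE _
  have hxE : x ∈ E := by
    rw [hxt, he]
    exact mul_mem (E.algebraMap_mem c) (sub_mem (pow_mem htE 2) (one_mem _))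
  refine ⟨U, {t, d}, ?_, ?_, ?_⟩
  · intro z hz
    obtain ⟨E₀, hE₀⟩ : ∃ E₀ : IntermediateField k M, E₀ = IntermediateField.adjoin k {U} :=
      ⟨_, rfl⟩
    rw [← hE₀]
    have hc0 : CharP E₀ 3 := charP_of_injective_algebraMap (algebraMap k E₀).injective 3
    have hUE₀ : U ∈ E₀ := by
      rw [hE₀]
      exact IntermediateField.mem_adjoin_simple_self k U
    have hcE₀ : algebraMap k E₀ c ≠ 0 := (_root_.map_ne_zero _).2 hc
    have e3 : algebraMap E₀ M (algebraMap k E₀ c) = e := by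
      rw [he]
      rfl
    rw [Finset.mem_insert, Finset.mem_singleton] at hz
    rcases hz with rfl | rfl
    · refine ⟨X ^ 3 - C 1 * X, C (-⟨U, hUE₀⟩ : E₀) * q₁.map (algebraMap k E₀) +
        C ((algebraMap k E₀ c ^ 3 * ⟨U, hUE₀⟩ : E₀)⁻¹) * q₂.map (algebraMap k E₀),
        ADH.addPoly_three 1, ADH.derivative_three 1 one_ne_zero, ?_, ?_⟩
      · rw [add_comp, mul_comp, mul_comp, C_comp, C_comp, ← Polynomial.map_comp,
          ← Polynomial.map_comp]
        exact ((h₁.map _).C_mul _).add ((h₂.map _).C_mul _)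
      · have e1 : aeval z (X ^ 3 - C 1 * X : E₀[X]) = z ^ 3 - z := by
          rw [map_sub, map_pow, map_mul, aeval_X, aeval_C, map_one, one_mul]
        have e2 : algebraMap E₀ M (⟨U, hUE₀⟩ : E₀) = U := rfl
        rw [e1, key, map_add, map_mul, map_mul, aeval_C, aeval_C, map_inv₀, map_mul,
          map_pow, map_neg, e2, e3, aeval_map_algebraMap, aeval_map_algebraMap, ← hQ₁, ← hQ₂]
    · refine ⟨X ^ 3 - C (algebraMap k E₀ c) * X, 0, ADH.addPoly_three _,
        ADH.derivative_three _ hcE₀, by rw [zero_comp]; exact lowR_zero, ?_⟩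
      rw [map_zero, map_sub, map_pow, map_mul, aeval_X, aeval_C, e3, ← hd]
      ring
  · rw [← hE]
    exact hxE
  · rw [← hE]
    have h6 : y + d * x * t = d ^ 3 * Q₁ * U := by rw [← hv, hvU]
    have h7 : y = d ^ 3 * Q₁ * U - d * x * t := by linear_combination h6
    rw [h7]
    exact sub_mem (mul_mem (mul_mem (pow_mem hdE _) hQ₁E) hUE)
      (mul_mem (mul_mem hdE hxE) htE)

/-- the towers -/
theorem sha_GR {k K Kb : Type} [Field k] [Finite k] [Field K] [Field Kb] [Algebra k K]
    [Algebra k Kb] [Algebra K Kb] [IsScalarTower k K Kb] [IsAlgClosed Kb]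
    [Algebra.IsAlgebraic K Kb] (p : ℕ) [Fact p.Prime] [CharP k p] (hp2 : p ≠ 2) (s : K)
    (hs : Transcendental k s) (W : WeierstrassCurve k[X]) (hΔ : W.Δ ≠ 0) (ρ : k[X])
    (hρ : ρ.natDegree ≠ 0) (hgeo : GeoR p ρ W) (S : Finset Kb)
    (hS : ∀ z ∈ S, ∃ φ F : k[X], AddPoly φ ∧ derivative φ ≠ 0 ∧ LowR p (F.comp ρ) ∧
      aeval z φ = aeval (algebraMap K Kb s) F)
    (hK : ∀ a : K, algebraMap K Kb a ∈
      IntermediateField.adjoin k (insert (algebraMap K Kb s) (S : Set Kb)))
    (ℓ : ℕ) (hℓ : ℓ.Prime) (hℓk : (ℓ : k) ≠ 0)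
    (c : ℕ → (Kb ≃ₐ[K] Kb) → Pts (Ws W s) Kb) (hc : ShaSys (Ws W s) k ℓ c) (n : ℕ) :
    Principal (Ws W s) (T1B.geo k K Kb) (c n) := by
  have hS' : ∀ z ∈ S, ∃ φ F : k[X], φ.natDegree ≠ 0 ∧
      aeval z φ = aeval (algebraMap K Kb s) F := fun z hz => by
    obtain ⟨φ, F, -, a2, -, a4⟩ := hS z hz
    refine ⟨φ, F, fun h => a2 ?_, a4⟩
    rw [eq_C_of_natDegree_eq_zero h, derivative_C]
  obtain ⟨M, _, _, _, _, x, y, t1, t2, t3, hM, htd, hx, hy, hal⟩ := setup s hs S hS' hK W
  have hsM : Transcendental k (algebraMap K M s) :=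
    (transcendental_algebraMap_iff (algebraMap K M).injective).2 hs
  obtain ⟨U, S₁, hS₁, hx₁, hy₁⟩ := hgeo M _ _ hM x y (algebraMap K M s) hsM
    (fun G h => hx (h ▸ (Polynomial.aeval_algebraMap_apply M s G).symm ▸ isAlgebraic_algebraMap _)) hy
  obtain ⟨F, hF⟩ : ∃ F : IntermediateField K M, F = IntermediateField.adjoin K {x, y} := ⟨_, rfl⟩
  have hxF : x ∈ F := by
    rw [hF]
    exact IntermediateField.subset_adjoin _ _ (by simp)
  have hyF : y ∈ F := by
    rw [hF]
    exact IntermediateField.subset_adjoin _ _ (by simp)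
  have hsub : IntermediateField.adjoin k (Set.range ![x, y, algebraMap K M s]) ≤
      F.restrictScalars k := by
    rw [IntermediateField.adjoin_le_iff]
    rintro _ ⟨i, rfl⟩
    fin_cases i
    · exact hxF
    · exact hyF
    · exact F.algebraMap_mem s
  have hFal : ∀ b : M, IsAlgebraic (F.restrictScalars k) b := fun b => by
    refine algTrans (K := IntermediateField.adjoin k (Set.range ![x, y, algebraMap K M s])) _
      (fun a => ?_) b (hal b)
    exact isAlgebraic_algebraMap (⟨a, hsub a.2⟩ : F.restrictScalars k)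
  obtain ⟨E, hE⟩ : ∃ E : IntermediateField k M, E = IntermediateField.adjoin k {U} := ⟨_, rfl⟩
  -- the elements of `M` are algebraic over `k(U, s)`
  have hUal : ∀ b : M, IsAlgebraic (E ⊔ IntermediateField.adjoin k {algebraMap K M s} :
      IntermediateField k M) b := by
    obtain ⟨A, hA⟩ : ∃ A : IntermediateField k M,
      A = E ⊔ IntermediateField.adjoin k {algebraMap K M s} := ⟨_, rfl⟩
    have hmemA : ∀ a ∈ A, IsAlgebraic A a := fun a ha => isAlgebraic_algebraMap (⟨a, ha⟩ : A)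
    have hxy : ∀ a ∈ E ⊔ IntermediateField.adjoin k {algebraMap K M s} ⊔
        IntermediateField.adjoin k (S₁ : Set M), IsAlgebraic A a := by
      intro a ha
      have h1 : E ⊔ IntermediateField.adjoin k {algebraMap K M s} ⊔
          IntermediateField.adjoin k (S₁ : Set M) ≤
            (algebraicClosure A M).restrictScalars k := by
        refine sup_le ?_ ?_
        · rw [← hA]
          exact fun b hb => mem_algebraicClosure_iff.2 (hmemA b hb)
        · rw [IntermediateField.adjoin_le_iff]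
          intro b hb
          refine mem_algebraicClosure_iff.2 ?_
          subst hE
          obtain ⟨φ, f, -, a2, -, a4⟩ := hS₁ b hb
          rw [hA]
          exact gq_alg _ _ b φ f a2 a4
      exact mem_algebraicClosure_iff.1 (h1 ha)
    rw [← hA]
    intro b
    refine algTrans (K := IntermediateField.adjoin k (Set.range ![x, y, algebraMap K M s])) A
      (fun a => ?_) b (hal b)
    refine alg_adjoin A _ ?_ (a : M) a.2
    rintro _ ⟨i, rfl⟩
    rw [← hE] at hx₁ hy₁
    fin_cases i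
    · exact hxy x hx₁
    · exact hxy y hy₁
    · refine hmemA _ ?_
      rw [hA]
      exact (le_sup_right : IntermediateField.adjoin k {algebraMap K M s} ≤ _)
        (IntermediateField.mem_adjoin_simple_self k _)
  -- the field is contained in the tower
  let ι : Kb →ₐ[k] M := IsScalarTower.toAlgHom k Kb M
  obtain ⟨T, hT⟩ : ∃ T : Finset M, T = S₁ ∪ S.image ι := ⟨_, rfl⟩
  obtain ⟨B, hB⟩ : ∃ B : IntermediateField k M, B =
    E ⊔ IntermediateField.adjoin k {algebraMap K M s} ⊔ IntermediateField.adjoin k (T : Set M) :=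
      ⟨_, rfl⟩
  have hB₁ : E ⊔ IntermediateField.adjoin k {algebraMap K M s} ⊔
      IntermediateField.adjoin k (S₁ : Set M) ≤ B := by
    rw [hB]
    refine sup_le_sup le_rfl (IntermediateField.adjoin.mono _ _ _ ?_)
    rw [hT, Finset.coe_union]
    exact Set.subset_union_left
  have hKM : ∀ a : K, algebraMap K M a ∈ B := by
    refine ADH.mem_of_gen s S hK B ?_ fun z hz => ?_
    · rw [hB]
      exact (le_sup_left : _ ≤ E ⊔ IntermediateField.adjoin k {algebraMap K M s} ⊔
        IntermediateField.adjoin k (T : Set M))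
        ((le_sup_right : IntermediateField.adjoin k {algebraMap K M s} ≤ _)
          (IntermediateField.mem_adjoin_simple_self k _))
    · rw [hB]
      refine (le_sup_right : IntermediateField.adjoin k (T : Set M) ≤ _)
        (IntermediateField.subset_adjoin _ _ ?_)
      rw [hT, Finset.coe_union, Finset.coe_image]
      exact Or.inr ⟨z, hz, rfl⟩
  have hle : F.restrictScalars k ≤ B := by
    let B' : IntermediateField K M := B.toSubfield.toIntermediateField hKM
    have hFB : F ≤ B' := by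
      rw [hF, IntermediateField.adjoin_le_iff]
      rw [← hE] at hx₁ hy₁
      rintro b (rfl | hb)
      · exact hB₁ hx₁
      · rw [Set.mem_singleton_iff.1 hb]
        exact hB₁ hy₁
    exact fun b hb => hFB hb
  -- the theorem on the towers
  have hEfg : E.FG := ⟨{U}, by rw [hE, Finset.coe_singleton]⟩
  have htE : Algebra.trdeg k E = 1 := by
    rw [hE] at hUal ⊢
    exact gq_trdeg htd U _ hUal
  have hemt : Emt (F.restrictScalars k) := by
    refine tower_Rr p hp2 ρ hρ htd E hEfg htE (algebraMap K M s) hUal T ?_ _ (hle.trans hB.le) hFal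
    intro z hz
    rw [hT, Finset.mem_union] at hz
    rcases hz with hz | hz
    · subst hE
      exact hS₁ z hz
    · obtain ⟨z', hz', rfl⟩ := Finset.mem_image.1 hz
      obtain ⟨φ, G, a1, a2, a3, a4⟩ := hS z' hz'
      refine ⟨φ.map (algebraMap k E), G.map (algebraMap k E), addPoly_map a1 E, ?_,
        by rw [← Polynomial.map_comp]; exact a3.map _, ?_⟩
      · rw [derivative_map]
        exact (Polynomial.map_ne_zero_iff (algebraMap k E).injective).2 a2
      · rw [aeval_map_algebraMap, aeval_map_algebraMap, Polynomial.aeval_algHom_apply, a4]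
        show algebraMap Kb M (aeval (algebraMap K Kb s) G) = aeval (algebraMap K M s) G
        rw [← Polynomial.aeval_algebraMap_apply, ← IsScalarTower.algebraMap_apply K Kb M]
  have hT1 : T1B.T1 k F ℓ := t1_of_emt (F.restrictScalars k) hFal hemt ℓ hℓ hℓk
  exact bridge s hs (alg_K' s S hS' hK) W hΔ x y hx hy F hF ℓ hℓ hℓk hT1 c hc n

end Pool.Agent.QD
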