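import Pool.Agent.QD.K3
import Pool.Agent.QD.H

/-!
# The surfaces `∑ B_i(s) u ^ i = G(u, t)`
-/

set_option autoImplicit false

namespace Pool.Agent.QD

open Polynomial Pool.Agent.TUQ Pool.Agent.WLD Pool.Agent.ADT Pool.Agent.UQ WeierstrassCurve
  WeierstrassCurve.Affine Pool.Agent.EFF

open scoped Classical

/-- one of the two classes -/
def Cls (p : ℕ) {R : Type*} [Semiring R] (f : R[X]) : Prop :=
  Low2 p f ∨ (p ≠ 2 ∧ LowR p f)

theorem Cls.map {p : ℕ} {R S : Type*} [Semiring R] [Semiring S] {f : R[X]} (hf : Cls p f)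
    (σ : R →+* S) : Cls p (f.map σ) :=
  hf.imp (fun h => h.map σ) fun h => ⟨h.1, h.2.map σ⟩

theorem Cls.add_C {p : ℕ} {R : Type*} [Semiring R] {f : R[X]} (hf : Cls p f) (a : R) :
    Cls p (f + C a) :=
  hf.imp (fun h => h.add (low2_C a)) fun h => ⟨h.1, h.2.add (lowR_C a)⟩

/-- the separable case -/
theorem emt_Gsep {k M : Type} [Field k] [Field M] [Algebra k M] [IsAlgClosed M] (p : ℕ)
    [Fact p.Prime] [CharP k p] (htd : Algebra.trdeg k M = 2) (u t s : M)
    (hu : Transcendental k u) {m : ℕ} (B : Fin m → k[X]) (hB : ∀ i, Low1 p (B i))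
    (hsep : ∃ i, (B i).coeff 1 ≠ 0) (G : k[X][X]) (hG : Cls p G)
    (hv : ∑ i : Fin m, aeval s (B i) * u ^ (i : ℕ) =
      G.eval₂ (aeval u : k[X] →ₐ[k] M).toRingHom t)
    (hal : ∀ y : M, IsAlgebraic (IntermediateField.adjoin k ({u, t, s} : Set M)) y)
    (F : IntermediateField k M) (hF : F ≤ IntermediateField.adjoin k ({u, t, s} : Set M))
    (hFal : ∀ y : M, IsAlgebraic F y) : Emt F := by
  obtain ⟨E, hE⟩ : ∃ E, E = IntermediateField.adjoin k ({u} : Set M) := ⟨_, rfl⟩
  have huE : u ∈ E := by
    rw [hE]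
    exact IntermediateField.mem_adjoin_simple_self k u
  have hCE : CharP E p := charP_of_injective_algebraMap (algebraMap k E).injective p
  obtain ⟨U, hU⟩ : ∃ U : E, U = ⟨u, huE⟩ := ⟨_, rfl⟩
  have hUu : algebraMap E M U = u := by rw [hU]; rfl
  have hUt : Transcendental k U := by
    intro h
    exact hu (hUu ▸ h.algebraMap (A := M))
  obtain ⟨D, hD⟩ : ∃ D : Fin m → k[X], D = fun i => B i - C ((B i).coeff 0) := ⟨_, rfl⟩
  have hD0 : ∀ i, (D i).coeff 0 = 0 := fun i => by
    rw [hD]
    simp
  have hDn : ∀ i n, n ≠ 0 → (D i).coeff n = (B i).coeff n := fun i n hn => by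
    rw [hD]
    simp only [coeff_sub, coeff_C, if_neg hn, sub_zero]
  have hDl : ∀ i, Low1 p (D i) := by
    intro i n hn
    rcases eq_or_ne n 0 with rfl | h0
    · exact Or.inl rfl
    · rw [hDn i n h0] at hn
      exact hB i n hn
  obtain ⟨φ, hφ⟩ : ∃ φ : E[X], φ = ∑ i : Fin m, C (U ^ (i : ℕ)) * (D i).map (algebraMap k E) :=
    ⟨_, rfl⟩
  have hφl : Low1 p φ := by
    rw [hφ]
    refine low1_sum _ _ fun i _ n hn => ?_
    refine (hDl i).map (algebraMap k E) n fun h => hn ?_
    rw [coeff_C_mul, h, mul_zero]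
  have hφ0 : φ.coeff 0 = 0 := by
    rw [hφ, finsetSum_coeff]
    refine Finset.sum_eq_zero fun i _ => ?_
    rw [coeff_C_mul, coeff_map, hD0, map_zero, mul_zero]
  have hφ1 : φ.coeff 1 ≠ 0 := by
    have h1 : φ.coeff 1 = aeval U (∑ i : Fin m, C ((B i).coeff 1) * X ^ (i : ℕ)) := by
      rw [hφ, finsetSum_coeff, map_sum]
      refine Finset.sum_congr rfl fun i _ => ?_
      rw [coeff_C_mul, coeff_map, hDn i 1 one_ne_zero, map_mul, map_pow, aeval_X, aeval_C, mul_comm]
    rw [h1]
    intro h2
    have h3 := transcendental_iff_injective.1 hUt (h2.trans (map_zero _).symm)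
    obtain ⟨i, hi⟩ := hsep
    apply hi
    have h4 := congrArg (fun q : k[X] => q.coeff i) h3
    simp only [finsetSum_coeff, coeff_C_mul, coeff_X_pow, coeff_zero] at h4
    rw [Finset.sum_eq_single i] at h4
    · simpa using h4
    · intro j _ hj
      rw [if_neg (fun h => hj (Fin.ext h.symm)), mul_zero]
    · intro h
      exact absurd (Finset.mem_univ i) h
  have hφadd : AddPoly φ := h_addPoly p φ hφl hφ0
  have hφd : derivative φ ≠ 0 := by
    intro h
    apply hφ1
    have h1 := congrArg (fun q : E[X] => q.coeff 0) h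
    simp only [coeff_derivative, coeff_zero] at h1
    simpa using h1
  obtain ⟨f, hf⟩ : ∃ f : E[X], f = G.map (aeval U : k[X] →ₐ[k] E).toRingHom +
      C (-∑ i : Fin m, U ^ (i : ℕ) * algebraMap k E ((B i).coeff 0)) := ⟨_, rfl⟩
  have hfl : Cls p f := by
    rw [hf]
    exact (hG.map _).add_C _
  have hat : ∀ q : k[X], aeval s (q.map (algebraMap k E)) = aeval s q := fun q =>
    aeval_map_algebraMap E s q
  have hGt : aeval t (G.map (aeval U : k[X] →ₐ[k] E).toRingHom) =
      G.eval₂ (aeval u : k[X] →ₐ[k] M).toRingHom t := by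
    rw [aeval_def, eval₂_map]
    congr 1
    refine Polynomial.ringHom_ext (fun q => ?_) ?_
    · show algebraMap E M (aeval U (C q)) = aeval u (C q)
      rw [aeval_C, aeval_C, ← IsScalarTower.algebraMap_apply k E M]
    · show algebraMap E M (aeval U X) = aeval u X
      rw [aeval_X, aeval_X, hUu]
  have heq : aeval s φ = aeval t f := by
    have h1 : aeval s φ = ∑ i : Fin m, u ^ (i : ℕ) * (aeval s (B i) -
        algebraMap k M ((B i).coeff 0)) := by
      rw [hφ, map_sum]
      refine Finset.sum_congr rfl fun i _ => ?_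
      rw [map_mul, aeval_C, map_pow, hUu, hat, hD, map_sub, aeval_C]
    have h2 : aeval t f = G.eval₂ (aeval u : k[X] →ₐ[k] M).toRingHom t -
        ∑ i : Fin m, u ^ (i : ℕ) * algebraMap k M ((B i).coeff 0) := by
      rw [hf, map_add, hGt, aeval_C, map_neg, map_sum, sub_eq_add_neg]
      congr 2
      refine Finset.sum_congr rfl fun i _ => ?_
      rw [map_mul, map_pow, hUu, ← IsScalarTower.algebraMap_apply k E M]
    rw [h1, h2, ← hv, ← Finset.sum_sub_distrib]
    refine Finset.sum_congr rfl fun i _ => ?_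
    ring
  obtain ⟨A, hA⟩ : ∃ A : IntermediateField k M, A = E ⊔ IntermediateField.adjoin k {t} := ⟨_, rfl⟩
  have huA : u ∈ A := by
    rw [hA]
    exact (le_sup_left : E ≤ _) huE
  have htA : t ∈ A := by
    rw [hA]
    exact (le_sup_right : IntermediateField.adjoin k {t} ≤ _)
      (IntermediateField.mem_adjoin_simple_self k t)
  have hEA : E ≤ A := by
    rw [hA]
    exact le_sup_left
  have hsA : IsAlgebraic A s := by
    let ι : E →+* A := (IntermediateField.inclusion hEA : E →ₐ[k] A)
    have hfm : aeval t f ∈ A := by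
      rw [aeval_eq_sum_range]
      refine sum_mem fun i _ => ?_
      rw [Algebra.smul_def]
      exact mul_mem (hEA (f.coeff i).2) (pow_mem htA i)
    have hφm : aeval s (φ.map ι) = aeval s φ := by
      rw [aeval_def, aeval_def, eval₂_map]
      rfl
    refine ⟨φ.map ι - C (⟨aeval t f, hfm⟩ : A), ?_, ?_⟩
    · intro h
      have h1 := congrArg (fun q : A[X] => q.coeff 1) h
      simp only [coeff_sub, coeff_map, coeff_C, coeff_zero, if_neg one_ne_zero, sub_zero] at h1
      exact hφ1 ((map_eq_zero_iff ι ι.injective).1 h1)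
    · rw [map_sub, hφm, aeval_C, heq]
      exact sub_self _
  have hal' : ∀ y : M, IsAlgebraic A y := by
    intro y
    refine algTrans (K := IntermediateField.adjoin k ({u, t, s} : Set M)) A (fun b => ?_) y (hal y)
    refine alg_adjoin A _ ?_ (b : M) b.2
    rintro _ (rfl | rfl | rfl)
    · exact isAlgebraic_algebraMap (⟨_, huA⟩ : A)
    · exact isAlgebraic_algebraMap (⟨_, htA⟩ : A)
    · exact hsA
  rw [hA] at hal'
  have hFle : F ≤ E ⊔ IntermediateField.adjoin k {t} ⊔
      IntermediateField.adjoin k (({s} : Finset M) : Set M) := by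
    refine hF.trans ?_
    rw [IntermediateField.adjoin_le_iff]
    rintro _ (rfl | rfl | rfl)
    · exact (le_sup_left.trans le_sup_left : E ≤ _) huE
    · exact (le_sup_right.trans le_sup_left : IntermediateField.adjoin k {_} ≤ _)
        (IntermediateField.mem_adjoin_simple_self k _)
    · refine (le_sup_right : IntermediateField.adjoin k (({_} : Finset M) : Set M) ≤ _) ?_
      exact IntermediateField.subset_adjoin _ _ (by simp)
  have hEfg : E.FG := by
    rw [hE]
    exact ⟨{u}, by rw [Finset.coe_singleton]⟩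
  have hEtd : Algebra.trdeg k E = 1 := by
    rw [hE]
    exact h_trdeg u hu
  rcases hfl with hfl | ⟨hp2, hfl⟩
  · refine tower_Q p htd E hEfg hEtd t hal' {s} ?_ F hFle hFal
    intro z hz
    rw [Finset.mem_singleton.1 hz]
    exact ⟨φ, f, hφadd, hφd, hfl, heq⟩
  · refine tower_R p hp2 htd E hEfg hEtd t hal' {s} ?_ F hFle hFal
    intro z hz
    rw [Finset.mem_singleton.1 hz]
    exact ⟨φ, f, hφadd, hφd, hfl, heq⟩

/-- **The second fibration**: the surface `∑ B_i(s) u ^ i = G(u, t)`, where the exponents of the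
`B_i` are `0`, `p ^ j`, not all `B_i` are constant, and the exponents of `t` in `G` are in one of the
two classes. -/
theorem emt_G {k M : Type} [Field k] [Finite k] [Field M] [Algebra k M] [IsAlgClosed M] (p : ℕ)
    [Fact p.Prime] [CharP k p] (htd : Algebra.trdeg k M = 2) (s : M) {m : ℕ} (i₀ : Fin m)
    (N : ℕ) :
    ∀ (u t : M), Transcendental k u → ∀ B : Fin m → k[X], (∀ i, Low1 p (B i)) →
      (B i₀).natDegree ≠ 0 → (B i₀).natDegree ≤ N → ∀ G : k[X][X], Cls p G →
      ∑ i : Fin m, aeval s (B i) * u ^ (i : ℕ) =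
        G.eval₂ (aeval u : k[X] →ₐ[k] M).toRingHom t →
      (∀ y : M, IsAlgebraic (IntermediateField.adjoin k ({u, t, s} : Set M)) y) →
      ∀ F : IntermediateField k M, F ≤ IntermediateField.adjoin k ({u, t, s} : Set M) →
      (∀ y : M, IsAlgebraic F y) → Emt F := by
  have hp0 : 0 < p := (Fact.out : p.Prime).pos
  have hCM : CharP M p := charP_of_injective_algebraMap (algebraMap k M).injective p
  induction N with
  | zero =>
    intro u t _ B _ h1 h2
    exact absurd (Nat.le_zero.1 h2) h1
  | succ N ih =>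
    intro u t hu B hB h1 h2 G hG hv hal F hF hFal
    by_cases hsep : ∃ i, (B i).coeff 1 ≠ 0
    · exact emt_Gsep p htd u t s hu B hB hsep G hG hv hal F hF hFal
    · push Not at hsep
      choose b hb hbB using fun i => h_root p (B i) (hB i) (hsep i)
      obtain ⟨u', hu'⟩ := IsAlgClosed.exists_pow_nat_eq u hp0
      obtain ⟨t', ht'⟩ := IsAlgClosed.exists_pow_nat_eq t hp0
      have hut : Transcendental k u' := by
        intro h
        apply hu
        rw [← hu']
        exact h.pow p
      have hle : IntermediateField.adjoin k ({u, t, s} : Set M) ≤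
          IntermediateField.adjoin k ({u', t', s} : Set M) := by
        rw [IntermediateField.adjoin_le_iff]
        rintro _ (rfl | rfl | rfl)
        · rw [← hu']
          exact pow_mem (IntermediateField.subset_adjoin _ _ (by simp)) _
        · rw [← ht']
          exact pow_mem (IntermediateField.subset_adjoin _ _ (by simp)) _
        · exact IntermediateField.subset_adjoin _ _ (by simp)
      have hdeg : p * (b i₀).natDegree = (B i₀).natDegree := by
        rw [← hbB i₀, natDegree_pow]
      have hp2 : 2 ≤ p := (Fact.out : p.Prime).two_le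
      have hbij : Function.Bijective (frobenius k p) :=
        (Finite.injective_iff_bijective (f := frobenius k p)).1 (RingHom.injective _)
      let σ : k ≃+* k := RingEquiv.ofBijective (frobenius k p) hbij
      have hσ : (frobenius k p).comp σ.symm.toRingHom = RingHom.id k := by
        ext a
        exact σ.apply_symm_apply a
      refine ih u' t' hut b hb ?_ ?_ (G.map (mapRingHom σ.symm.toRingHom)) (hG.map _) ?_
        (fun y => alg_le hle (hal y)) F (hF.trans hle) hFal
      · intro h
        rw [h, mul_zero] at hdeg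
        exact h1 hdeg.symm
      · have h3 : (b i₀).natDegree ≠ 0 := by
          intro h
          rw [h, mul_zero] at hdeg
          exact h1 hdeg.symm
        have h4 : 2 * (b i₀).natDegree ≤ p * (b i₀).natDegree := Nat.mul_le_mul_right _ hp2
        omega
      · apply frobenius_inj M p
        have e1 : frobenius M p (∑ i : Fin m, aeval s (b i) * u' ^ (i : ℕ)) =
            ∑ i : Fin m, aeval s (B i) * u ^ (i : ℕ) := by
          rw [map_sum]
          refine Finset.sum_congr rfl fun i _ => ?_
          rw [frobenius_def, mul_pow, ← pow_mul, mul_comm (i : ℕ) p, pow_mul, hu', ← map_pow, hbB]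
        rw [e1, hv, eval₂_map, hom_eval₂, frobenius_def, ht']
        congr 1
        refine Polynomial.ringHom_ext (fun a => ?_) ?_
        · show aeval u (C a) = frobenius M p (aeval u' (mapRingHom σ.symm.toRingHom (C a)))
          rw [aeval_C, coe_mapRingHom, map_C, aeval_C, frobenius_def, ← map_pow]
          congr 1
          exact (RingHom.congr_fun hσ a).symm
        · show aeval u X = frobenius M p (aeval u' (mapRingHom σ.symm.toRingHom X))
          rw [aeval_X, coe_mapRingHom, map_X, aeval_X, frobenius_def, hu']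

end Pool.Agent.QD
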