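import Pool.Agent.QD.K4
import Pool.Agent.QD.K5

/-!
# Pencils of plane cubic curves
-/

set_option autoImplicit false

namespace Pool.Agent.QD

open Polynomial Pool.Agent.TUQ Pool.Agent.WLD Pool.Agent.ADT Pool.Agent.UQ WeierstrassCurve
  WeierstrassCurve.Affine Pool.Agent.EFF

open scoped Classical

theorem Low1.neg {p : ℕ} {R : Type*} [Ring R] {f : R[X]} (hf : Low1 p f) : Low1 p (-f) :=
  fun n hn => hf n fun h => hn (by rw [coeff_neg, h, neg_zero])

/-- a polynomial of degree at most three is in one of the classes if `p ≤ 5` -/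
theorem cls_three {p : ℕ} [hp : Fact p.Prime] (hp5 : p ≤ 5) {R : Type*} [Semiring R] {f : R[X]}
    (hf : f.natDegree ≤ 3) : Cls p f := by
  have hp' : p = 2 ∨ p = 3 ∨ p = 5 := by
    have h1 := hp.out
    have h2 := h1.two_le
    interval_cases p
    · exact Or.inl rfl
    · exact Or.inr (Or.inl rfl)
    · exact absurd h1 (by norm_num)
    · exact Or.inr (Or.inr rfl)
  have hn3 : ∀ n, f.coeff n ≠ 0 → n ≤ 3 := fun n hn => (le_natDegree_of_ne_zero hn).trans hf
  rcases hp' with rfl | rfl | rfl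
  · left
    intro n hn
    have h1 := hn3 n hn
    interval_cases n
    · exact Or.inl rfl
    · exact Or.inr (Or.inl ⟨0, rfl⟩)
    · exact Or.inr (Or.inl ⟨1, rfl⟩)
    · exact Or.inr (Or.inr ⟨0, 1, rfl⟩)
  · left
    intro n hn
    have h1 := hn3 n hn
    interval_cases n
    · exact Or.inl rfl
    · exact Or.inr (Or.inl ⟨0, rfl⟩)
    · exact Or.inr (Or.inr ⟨0, 0, rfl⟩)
    · exact Or.inr (Or.inl ⟨1, rfl⟩)
  · right
    refine ⟨by norm_num, fun n hn => ⟨0, n, ?_, by rw [pow_zero, one_mul]⟩⟩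
    have h1 := hn3 n hn
    omega

/-- the transcendence degree of an algebraic extension -/
theorem k6_trdeg {k M : Type} [Field k] [Field M] [Algebra k M] (E : IntermediateField k M)
    (C : Set M) (hC : ∀ c ∈ C, IsAlgebraic E c) :
    Algebra.trdeg k (E ⊔ IntermediateField.adjoin k C : IntermediateField k M) =
      Algebra.trdeg k E := by
  have h1 : (E ⊔ IntermediateField.adjoin k C : IntermediateField k M) =
      (IntermediateField.adjoin E C).restrictScalars k := by
    rw [IntermediateField.restrictScalars_adjoin, IntermediateField.adjoin_union,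
      IntermediateField.adjoin_self]
  rw [h1]
  have h2 := _root_.trdeg_add_eq k E (A := IntermediateField.adjoin E C)
  have h7 : Algebra.IsAlgebraic E (IntermediateField.adjoin E C) :=
    IntermediateField.isAlgebraic_adjoin fun c hc => (hC c hc).isIntegral
  have h3 : Algebra.trdeg E (IntermediateField.adjoin E C) = 0 := trdeg_eq_zero_iff.2 h7
  calc Algebra.trdeg k ((IntermediateField.adjoin E C).restrictScalars k) =
      Algebra.trdeg k (IntermediateField.adjoin E C) := rfl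
    _ = Algebra.trdeg k E + Algebra.trdeg E (IntermediateField.adjoin E C) := h2.symm
    _ = Algebra.trdeg k E := by rw [h3, add_zero]

/-- products of a curve and a line -/
theorem emt_line {k M : Type} [Field k] [Field M] [Algebra k M] [IsAlgClosed M] (p : ℕ)
    [Fact p.Prime] [CharP k p] (htd : Algebra.trdeg k M = 2) (u t s : M)
    (hu : Transcendental k u) (ht : IsAlgebraic (IntermediateField.adjoin k {u}) t)
    (hal : ∀ y : M, IsAlgebraic (IntermediateField.adjoin k ({u, t, s} : Set M)) y)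
    (F : IntermediateField k M) (hF : F ≤ IntermediateField.adjoin k ({u, t, s} : Set M))
    (hFal : ∀ y : M, IsAlgebraic F y) : Emt F := by
  obtain ⟨E, hE⟩ : ∃ E, E = IntermediateField.adjoin k {u} ⊔ IntermediateField.adjoin k {t} :=
    ⟨_, rfl⟩
  have hEfg : E.FG := by
    rw [hE]
    exact IntermediateField.fg_sup ⟨{u}, by rw [Finset.coe_singleton]⟩
      ⟨{t}, by rw [Finset.coe_singleton]⟩
  have hEtd : Algebra.trdeg k E = 1 := by
    rw [hE, k6_trdeg _ {t} (by rintro _ rfl; exact ht), h_trdeg u hu]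
  have hle : IntermediateField.adjoin k ({u, t, s} : Set M) ≤
      E ⊔ IntermediateField.adjoin k {s} := by
    rw [IntermediateField.adjoin_le_iff, hE]
    rintro _ (rfl | rfl | rfl)
    · exact (le_sup_left.trans le_sup_left : IntermediateField.adjoin k {_} ≤ _)
        (IntermediateField.mem_adjoin_simple_self k _)
    · exact (le_sup_right.trans le_sup_left : IntermediateField.adjoin k {_} ≤ _)
        (IntermediateField.mem_adjoin_simple_self k _)
    · exact (le_sup_right : IntermediateField.adjoin k {_} ≤ _)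
        (IntermediateField.mem_adjoin_simple_self k _)
  exact tower_Q p htd E hEfg hEtd s (fun y => alg_le hle (hal y)) ∅
    (fun z hz => absurd hz (Finset.notMem_empty z)) F ((hF.trans hle).trans le_sup_left) hFal

/-- `B₂(s) u ^ 2 + B₁(s) u - B₀(s) = t ^ 3 + b t ^ 2 + (c - a u) t`, `p ≤ 5` -/
theorem pemt {k : Type} [Field k] [Finite k] (p : ℕ) [Fact p.Prime] [CharP k p] (hp5 : p ≤ 5)
    (a b c : k) (B : Fin 3 → k[X]) (hB : ∀ i, Low1 p (B i)) : PEmt k a b c B := by
  intro M _ _ _ htd s u t hu h hal F hF hFal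
  by_cases hB0 : ∃ i, (B i).natDegree ≠ 0
  swap
  · push Not at hB0
    refine emt_line p htd u t s hu ?_ hal F hF hFal
    obtain ⟨E, hE⟩ : ∃ E, E = IntermediateField.adjoin k {u} := ⟨_, rfl⟩
    have huE : u ∈ E := by
      rw [hE]
      exact IntermediateField.mem_adjoin_simple_self k u
    have hBc : ∀ i, aeval s (B i) = algebraMap k M ((B i).coeff 0) := fun i => by
      rw [eq_C_of_natDegree_eq_zero (hB0 i), aeval_C, coeff_C_zero]
    rw [hBc, hBc, hBc] at h
    rw [← hE]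
    obtain ⟨U, hU⟩ : ∃ U : E, U = ⟨u, huE⟩ := ⟨_, rfl⟩
    have hUu : algebraMap E M U = u := by rw [hU]; rfl
    have hk : ∀ r : k, algebraMap E M (algebraMap k E r) = algebraMap k M r := fun r =>
      (IsScalarTower.algebraMap_apply k E M r).symm
    obtain ⟨e₂, he₂⟩ : ∃ e₂ : E, e₂ = algebraMap k E b := ⟨_, rfl⟩
    obtain ⟨e₁, he₁⟩ : ∃ e₁ : E, e₁ = algebraMap k E c - algebraMap k E a * U := ⟨_, rfl⟩
    obtain ⟨e₀, he₀⟩ : ∃ e₀ : E, e₀ = algebraMap k E ((B 2).coeff 0) * U ^ 2 +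
      algebraMap k E ((B 1).coeff 0) * U - algebraMap k E ((B 0).coeff 0) := ⟨_, rfl⟩
    refine ⟨X ^ 3 + C e₂ * X ^ 2 + C e₁ * X - C e₀, ?_, ?_⟩
    · have hdeg : (X ^ 3 + C e₂ * X ^ 2 + C e₁ * X - C e₀ : E[X]).natDegree = 3 := by
        compute_degree!
      intro h0
      rw [h0, natDegree_zero] at hdeg
      exact absurd hdeg (by norm_num)
    · rw [map_sub, map_add, map_add, map_mul, map_mul, map_pow, map_pow, aeval_X, aeval_C, aeval_C,
        aeval_C, he₂, he₁, he₀]
      simp only [map_sub, map_add, map_mul, map_pow, hk, hUu]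
      linear_combination -h
  obtain ⟨D, hD⟩ : ∃ D : Fin 3 → k[X], D = ![-B 0, B 1, B 2] := ⟨_, rfl⟩
  obtain ⟨G, hG⟩ : ∃ G : k[X][X], G = X ^ 3 + C (C b) * X ^ 2 + C (C c - C a * X) * X := ⟨_, rfl⟩
  have hGd : G.natDegree ≤ 3 := by
    rw [hG]
    compute_degree!
  have hDl : ∀ i, Low1 p (D i) := by
    intro i
    rw [hD]
    fin_cases i
    · exact (hB 0).neg
    · exact hB 1
    · exact hB 2
  obtain ⟨i₀, hi₀⟩ := hB0
  have hD0 : (D i₀).natDegree ≠ 0 := by
    rw [hD]
    fin_cases i₀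
    · show (-B 0).natDegree ≠ 0
      rw [natDegree_neg]
      exact hi₀
    · exact hi₀
    · exact hi₀
  refine emt_G p htd s i₀ (D i₀).natDegree u t hu D hDl hD0 le_rfl G (cls_three hp5 hGd) ?_ hal F
    hF hFal
  have e1 : (aeval u : k[X] →ₐ[k] M).toRingHom (C b) = algebraMap k M b := aeval_C u b
  have e2 : (aeval u : k[X] →ₐ[k] M).toRingHom (C c - C a * X) =
      algebraMap k M c - algebraMap k M a * u := by
    show aeval u (C c - C a * X) = _
    rw [map_sub, map_mul, aeval_C, aeval_C, aeval_X]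
  rw [Fin.sum_univ_three, hD, hG, eval₂_add, eval₂_add, eval₂_mul, eval₂_mul, eval₂_pow, eval₂_pow,
    eval₂_X, eval₂_C, eval₂_C, e1, e2]
  show aeval s (-B 0) * u ^ 0 + aeval s (B 1) * u ^ 1 + aeval s (B 2) * u ^ 2 = _
  rw [map_neg]
  linear_combination h

/-- `p ≤ 5`, `K = k(s)`, and `E` is the curve with the coefficients `a₁ = a`, `a₂ = b B₂`,
`a₃ = B₁ B₂`, `a₄ = c B₂ ^ 2`, `a₆ = B₀ B₂ ^ 3`, where `a`, `b`, `c` are in `k` and the `B_i` are sums of
an additive polynomial in `s` and a constant -/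
theorem sha_P {k K Kb : Type} [Field k] [Finite k] [Field K] [Field Kb] [Algebra k K]
    [Algebra k Kb] [Algebra K Kb] [IsScalarTower k K Kb] [IsAlgClosed Kb]
    [Algebra.IsAlgebraic K Kb] (p : ℕ) [Fact p.Prime] [CharP k p] (hp5 : p ≤ 5) (s : K)
    (hs : Transcendental k s) (W : WeierstrassCurve k[X]) (hΔ : W.Δ ≠ 0) (α β γ : k)
    (B : Fin 3 → k[X]) (hB : ∀ i, Low1 p (B i)) (w1 : W.a₁ = C α)
    (w2 : W.a₂ = C β * B 2) (w3 : W.a₃ = B 1 * B 2) (w4 : W.a₄ = C γ * B 2 ^ 2) (w6 : W.a₆ = B 0 * B 2 ^ 3)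
    (hK : IntermediateField.adjoin k {s} = ⊤)
    (ℓ : ℕ) (hℓ : ℓ.Prime) (hℓk : (ℓ : k) ≠ 0)
    (c : ℕ → (Kb ≃ₐ[K] Kb) → Pts (Ws W s) Kb) (hc : ShaSys (Ws W s) k ℓ c) (n : ℕ) :
    Principal (Ws W s) (T1B.geo k K Kb) (c n) :=
  sha_of_pemt p s hs W hΔ α β γ B (pemt p hp5 α β γ B hB) w1 w2 w3 w4 w6 hK ℓ hℓ hℓk c hc n

end Pool.Agent.QD
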