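import Pool.Agent.QD.N1
import Pool.Agent.QD.Crit

/-!
# The criterion for an arbitrary set of exponents
-/

set_option autoImplicit false

namespace Pool.Agent.QD

open Polynomial Pool.Agent.WLD Pool.Agent.ADT Pool.Agent.UQ WeierstrassCurve
  WeierstrassCurve.Affine Pool.Agent.EFF

open scoped Classical

/-- from the field of functions of the curve to the curve -/
theorem sha_emtK {k K Kb : Type} [Field k] [Finite k] [Field K] [Field Kb] [Algebra k K]
    [Algebra k Kb] [Algebra K Kb] [IsScalarTower k K Kb] [IsAlgClosed Kb]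
    [Algebra.IsAlgebraic K Kb] (s : K)
    (hKs : FiniteDimensional (IntermediateField.adjoin k {s}) K)
    (W : WeierstrassCurve K) (hΔ : W.Δ ≠ 0)
    {M : Type} [Field M] [Algebra k M] [Algebra K M] [IsScalarTower k K M] [IsAlgClosed M]
    (x y : M) (hx : Transcendental K x) (hy : (W.baseChange M).toAffine.Equation x y)
    (hal : ∀ b : M, IsAlgebraic (IntermediateField.adjoin K ({x} : Set M)) b)
    (hemt : Emt ((IntermediateField.adjoin K {x, y} : IntermediateField K M).restrictScalars k))
    (ℓ : ℕ) (hℓ : ℓ.Prime) (hℓk : (ℓ : k) ≠ 0)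
    (c : ℕ → (Kb ≃ₐ[K] Kb) → Pts W Kb) (hc : ShaSys W k ℓ c) (n : ℕ) :
    Principal W (T1B.geo k K Kb) (c n) := by
  obtain ⟨L, hL⟩ : ∃ L : IntermediateField K M, L = IntermediateField.adjoin K {x, y} := ⟨_, rfl⟩
  rw [← hL] at hemt
  have hLal : ∀ b : M, IsAlgebraic (L.restrictScalars k) b := by
    intro b
    have h2 : IntermediateField.adjoin K ({x} : Set M) ≤ L := by
      rw [hL, IntermediateField.adjoin_le_iff, Set.singleton_subset_iff]
      exact IntermediateField.subset_adjoin _ _ (by simp)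
    exact alg_le h2 (hal b)
  have hT1 : T1B.T1 k L ℓ := t1_of_emt (L.restrictScalars k) hLal hemt ℓ hℓ hℓk
  have hxL : x ∈ L := by
    rw [hL]
    exact IntermediateField.subset_adjoin _ _ (by simp)
  have hyL : y ∈ L := by
    rw [hL]
    exact IntermediateField.subset_adjoin _ _ (by simp)
  have hell : W.IsElliptic := by
    rw [WeierstrassCurve.isElliptic_iff, isUnit_iff_ne_zero]
    exact hΔ
  have hxy : (W.baseChange L).toAffine.Equation (⟨x, hxL⟩ : L) ⟨y, hyL⟩ := by
    have h1 := (equation_iff _ _).1 hy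
    refine (equation_iff _ _).2 ?_
    simp only [map_a₁, map_a₂, map_a₃, map_a₄, map_a₆, WeierstrassCurve.baseChange] at h1 ⊢
    apply Subtype.ext
    exact h1
  refine sha_geo (F := L) W hell ⟨x, hxL⟩ ⟨y, hyL⟩ hxy ?_ ?_ s
    (fun a => Algebra.IsAlgebraic.isAlgebraic a) ℓ hℓ hℓk hT1 c hc n
  · intro h
    exact hx (h.algebraMap (A := M))
  · intro f
    have a1 : (IntermediateField.adjoin K ({⟨x, hxL⟩, ⟨y, hyL⟩} : Set L)).map L.val =
        IntermediateField.adjoin K {x, y} := by
      rw [IntermediateField.adjoin_map, Set.image_pair]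
      rfl
    have a2 : (f : M) ∈ (IntermediateField.adjoin K
        ({⟨x, hxL⟩, ⟨y, hyL⟩} : Set L)).map L.val := by
      rw [a1, ← hL]
      exact f.2
    obtain ⟨g, hg, hgf⟩ := a2
    have a3 : g = f := Subtype.ext hgf
    rw [← a3]
    exact hg

/-- **The criterion** for a set `N` of exponents such that `p N ⊆ N`; the cyclic case is a
hypothesis. -/
theorem sha_critN {k K Kb : Type} [Field k] [Finite k] [Field K] [Field Kb] [Algebra k K]
    [Algebra k Kb] [Algebra K Kb] [IsScalarTower k K Kb] [IsAlgClosed Kb]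
    [Algebra.IsAlgebraic K Kb] (p : ℕ) [Fact p.Prime] [CharP k p] {N : Set ℕ}
    (hN : ∀ n ∈ N, p * n ∈ N) (s : K) (hs : Transcendental k s)
    (hKs : FiniteDimensional (IntermediateField.adjoin k {s}) K)
    (W : WeierstrassCurve K) (hΔ : W.Δ ≠ 0)
    {M : Type} [Field M] [Algebra k M] [Algebra K M] [IsScalarTower k K M] [IsAlgClosed M]
    (F : IntermediateField k M) (t x y : M) (S : Finset M) (hF : F.FG)
    (htF : Algebra.trdeg k F = 1) (ht : Transcendental F t)
    (hal : ∀ b : M, IsAlgebraic (F ⊔ IntermediateField.adjoin k {t} : IntermediateField k M) b)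
    (hcyc : Algebra.trdeg k M = 2 → ∀ E : IntermediateField k M, E.FG → Algebra.trdeg k E = 1 →
      (∀ y : M, IsAlgebraic (E ⊔ IntermediateField.adjoin k {t} : IntermediateField k M) y) →
      ∀ f : E[X], Exps N f → ∀ Y : M, Y ^ p - Y = aeval t f →
        Emt (E ⊔ IntermediateField.adjoin k {t} ⊔ IntermediateField.adjoin k {Y}))
    (hx : Transcendental K x) (hy : (W.baseChange M).toAffine.Equation x y)
    (hS : ∀ z ∈ S, ∃ φ f : F[X], AddPoly φ ∧ derivative φ ≠ 0 ∧ Exps N f ∧
      aeval z φ = aeval t f)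
    (hK : ∀ a : K, algebraMap K M a ∈ F ⊔ IntermediateField.adjoin k {t} ⊔
      IntermediateField.adjoin k (S : Set M))
    (hxS : x ∈ F ⊔ IntermediateField.adjoin k {t} ⊔ IntermediateField.adjoin k (S : Set M))
    (hyS : y ∈ F ⊔ IntermediateField.adjoin k {t} ⊔ IntermediateField.adjoin k (S : Set M))
    (ℓ : ℕ) (hℓ : ℓ.Prime) (hℓk : (ℓ : k) ≠ 0)
    (c : ℕ → (Kb ≃ₐ[K] Kb) → Pts W Kb) (hc : ShaSys W k ℓ c) (n : ℕ) :
    Principal W (T1B.geo k K Kb) (c n) := by
  have htd : Algebra.trdeg k M = 2 := cr_trdeg F htF t ht hal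
  obtain ⟨B, hB⟩ : ∃ B, B = F ⊔ IntermediateField.adjoin k {t} ⊔
    IntermediateField.adjoin k (S : Set M) := ⟨_, rfl⟩
  rw [← hB] at hK hxS hyS
  have hxal := cr_alg htd s hs x hx
  refine sha_emtK s hKs W hΔ x y hx hy hxal ?_ ℓ hℓ hℓk c hc n
  have hle : (IntermediateField.adjoin K {x, y} : IntermediateField K M).restrictScalars k ≤ B := by
    let B' : IntermediateField K M := B.toSubfield.toIntermediateField hK
    have hLB : IntermediateField.adjoin K {x, y} ≤ B' := by
      rw [IntermediateField.adjoin_le_iff]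
      rintro b (rfl | hb)
      · exact hxS
      · rw [Set.mem_singleton_iff.1 hb]
        exact hyS
    exact fun b hb => hLB hb
  refine tower_N p hN F hF htF t (hcyc htd) hal S hS _ (hle.trans hB.le) fun b => ?_
  have h2 : IntermediateField.adjoin K ({x} : Set M) ≤ IntermediateField.adjoin K {x, y} := by
    rw [IntermediateField.adjoin_le_iff, Set.singleton_subset_iff]
    exact IntermediateField.subset_adjoin _ _ (by simp)
  exact alg_le h2 (hxal b)

end Pool.Agent.QD
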