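import Pool.Agent.QD.P1
import Pool.Agent.QD.G
import Pool.Agent.QD.N2

/-!
# Characteristic two and three: `y ^ 2 + x y = x ^ 3 + a₂ x ^ 2 + q₁ q₂`,
`y ^ 2 = x ^ 3 + c x ^ 2 + q₁ q₂`; an arbitrary set of exponents
-/

set_option autoImplicit false

namespace Pool.Agent.QD

open Polynomial Pool.Agent.WLD Pool.Agent.ADT Pool.Agent.UQ WeierstrassCurve
  WeierstrassCurve.Affine Pool.Agent.EFF

open scoped Classical

/-- the cyclic case for the set `N` of exponents -/
def CycN (p : ℕ) (N : Set ℕ) (k : Type) [Field k] : Prop :=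
  ∀ (M : Type) (_ : Field M) (_ : Algebra k M) (_ : IsAlgClosed M), Algebra.trdeg k M = 2 →
    ∀ (t : M) (E : IntermediateField k M), E.FG → Algebra.trdeg k E = 1 →
      (∀ y : M, IsAlgebraic (E ⊔ IntermediateField.adjoin k {t} : IntermediateField k M) y) →
      ∀ f : E[X], Exps N f → ∀ Y : M, Y ^ p - Y = aeval t f →
        Emt (E ⊔ IntermediateField.adjoin k {t} ⊔ IntermediateField.adjoin k {Y})

theorem cycN_P {k : Type} [Field k] (p : ℕ) [Fact p.Prime] [CharP k p] (m : ℕ) (hm : m ≠ 0) :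
    CycN p (PExp p m) k := by
  intro M _ _ _ _ t E hE htE hal f hf Y hY
  exact emt_cyclicP p m hm E hE htE t hal f hf Y hY

/-- **Towers.** The exponents of `f(ρ(X))` are in `N`, `ρ ∈ k[X]` is not constant. -/
theorem tower_Nr {k M : Type} [Field k] [Field M] [Algebra k M] [IsAlgClosed M] (p : ℕ)
    [Fact p.Prime] [CharP k p] {N : Set ℕ} (hN : ∀ n ∈ N, p * n ∈ N) (hcyc : CycN p N k) (ρ : k[X])
    (hρ : ρ.natDegree ≠ 0) (htd : Algebra.trdeg k M = 2) (E : IntermediateField k M) (hE : E.FG)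
    (htE : Algebra.trdeg k E = 1) (t : M)
    (hal : ∀ y : M, IsAlgebraic (E ⊔ IntermediateField.adjoin k {t} : IntermediateField k M) y)
    (S : Finset M)
    (hS : ∀ z ∈ S, ∃ φ f : E[X], AddPoly φ ∧ derivative φ ≠ 0 ∧
      Exps N (f.comp (ρ.map (algebraMap k E))) ∧ aeval z φ = aeval t f)
    (F : IntermediateField k M)
    (hF : F ≤ E ⊔ IntermediateField.adjoin k {t} ⊔ IntermediateField.adjoin k (S : Set M))
    (hFal : ∀ y : M, IsAlgebraic F y) : Emt F := by
  obtain ⟨τ, hτ⟩ : ∃ τ : M, aeval τ ρ = t := by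
    have h1 : (ρ.map (algebraMap k M) - C t).degree ≠ 0 := by
      intro h
      have h2 := natDegree_eq_of_degree_eq_some h
      rw [natDegree_sub_C, natDegree_map] at h2
      exact hρ h2
    obtain ⟨τ, h3⟩ := IsAlgClosed.exists_root _ h1
    refine ⟨τ, ?_⟩
    rw [IsRoot, eval_sub, eval_C, eval_map_algebraMap, sub_eq_zero] at h3
    exact h3
  have hle : IntermediateField.adjoin k {t} ≤ IntermediateField.adjoin k {τ} := by
    rw [IntermediateField.adjoin_simple_le_iff, ← hτ]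
    exact IntermediateField.algebra_adjoin_le_adjoin k {τ}
      (Polynomial.aeval_mem_adjoin_singleton k τ)
  refine tower_N p hN E hE htE τ (hcyc M _ _ inferInstance htd τ)
    (fun y => alg_le (sup_le_sup_left hle E) (hal y)) S ?_ F
    (hF.trans (sup_le_sup_right (sup_le_sup_left hle E) _)) hFal
  intro z hz
  obtain ⟨φ, f, a1, a2, a3, a4⟩ := hS z hz
  refine ⟨φ, f.comp (ρ.map (algebraMap k E)), a1, a2, a3, ?_⟩
  rw [a4, aeval_comp, aeval_map_algebraMap, hτ]

/-- the generic point of the curve `W` and the surface with the functions `U`, `s`: `x`, `y` are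
rational functions of `U`, `s` and finitely many functions `z`, `φ(z) = f(s)`, where `φ` is additive
and separable, the coefficients of `φ`, `f` are in `k(U)` and the exponents of `f(ρ(X))` are in
`N` -/
def GeoN (N : Set ℕ) {k : Type} [Field k] (ρ : k[X]) (W : WeierstrassCurve k[X]) : Prop :=
  ∀ (M : Type) (_ : Field M) (_ : Algebra k M) (_ : IsAlgClosed M) (x y s : M),
    Transcendental k s → (∀ F : k[X], x ≠ aeval s F) →
    MvPolynomial.aeval ![x, y, s] (wpoly W) = 0 →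
      ∃ (U : M) (S : Finset M), (∀ z ∈ S,
        ∃ φ f : (IntermediateField.adjoin k {U} : IntermediateField k M)[X],
          AddPoly φ ∧ derivative φ ≠ 0 ∧ Exps N (f.comp (ρ.map (algebraMap k _))) ∧
            aeval z φ = aeval s f) ∧
        x ∈ IntermediateField.adjoin k {U} ⊔ IntermediateField.adjoin k {s} ⊔
          IntermediateField.adjoin k (S : Set M) ∧
        y ∈ IntermediateField.adjoin k {U} ⊔ IntermediateField.adjoin k {s} ⊔
          IntermediateField.adjoin k (S : Set M)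

/-- characteristic two: `x = q₁ U + q₂ / U`, `w = y / x + q₂ / (x U)`,
`w ^ 2 + w = q₁ U + q₂ / U + a₂` -/
theorem geoN2 {N : Set ℕ} {k : Type} [Field k] [CharP k 2] (W : WeierstrassCurve k[X]) (hΔ : W.Δ ≠ 0)
    (w1 : W.a₁ = 1) (w3 : W.a₃ = 0) (w4 : W.a₄ = 0) (q₁ q₂ : k[X]) (w6 : W.a₆ = q₁ * q₂)
    (ρ : k[X]) (h2 : Exps N (W.a₂.comp ρ)) (h₁ : Exps N (q₁.comp ρ)) (h₂ : Exps N (q₂.comp ρ)) :
    GeoN N ρ W := by
  intro M _ _ _ x y s hs hx hy
  have hM2 : CharP M 2 := charP_of_injective_algebraMap (algebraMap k M).injective 2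
  have h2' : (2 : M) = 0 := CharTwo.two_eq_zero
  have h2X : (2 : k[X]) = 0 := CharTwo.two_eq_zero
  have hinj : ∀ F : k[X], F ≠ 0 → aeval s F ≠ 0 := fun F hF h =>
    hF (transcendental_iff_injective.1 hs (h.trans (map_zero _).symm))
  have ha6 : q₁ * q₂ ≠ 0 := by
    intro h
    apply hΔ
    rw [WeierstrassCurve.Δ, WeierstrassCurve.b₂, WeierstrassCurve.b₄, WeierstrassCurve.b₆,
      WeierstrassCurve.b₈, w1, w3, w4, w6, h]
    ring
  obtain ⟨Q₁, hQ₁⟩ : ∃ Q₁, Q₁ = aeval s q₁ := ⟨_, rfl⟩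
  obtain ⟨Q₂, hQ₂⟩ : ∃ Q₂, Q₂ = aeval s q₂ := ⟨_, rfl⟩
  obtain ⟨A, hA⟩ : ∃ A, A = aeval s W.a₂ := ⟨_, rfl⟩
  have hQ₁0 : Q₁ ≠ 0 := by
    rw [hQ₁]
    exact hinj q₁ (left_ne_zero_of_mul ha6)
  have hQ₂0 : Q₂ ≠ 0 := by
    rw [hQ₂]
    exact hinj q₂ (right_ne_zero_of_mul ha6)
  have hx0 : x ≠ 0 := by
    intro h
    apply hx 0
    rw [map_zero, h]
  have heq : y ^ 2 + x * y = x ^ 3 + A * x ^ 2 + Q₁ * Q₂ := by
    rw [aeval_wpoly] at hy
    simp only [Matrix.cons_val_zero, Matrix.cons_val_one, Matrix.cons_val, w1, w3, w4, w6,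
      map_one, map_zero, map_mul] at hy
    rw [hA, hQ₁, hQ₂]
    linear_combination hy
  -- the function `T = q₁(s) U`
  obtain ⟨T, hT⟩ : ∃ T : M, T ^ 2 + x * T + Q₁ * Q₂ = 0 := by
    have hd : (X ^ 2 + C x * X + C (Q₁ * Q₂) : M[X]).degree ≠ 0 := by
      have : (X ^ 2 + C x * X + C (Q₁ * Q₂) : M[X]).degree = 2 := by compute_degree!
      rw [this]
      decide
    obtain ⟨T, hT⟩ := IsAlgClosed.exists_root _ hd
    exact ⟨T, by simpa [IsRoot] using hT⟩
  obtain ⟨U, hUU⟩ : ∃ U, U = T / Q₁ := ⟨_, rfl⟩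
  have hTU : T = Q₁ * U := by
    rw [hUU, mul_div_cancel₀ _ hQ₁0]
  have hU0 : U ≠ 0 := by
    rintro h
    rw [h, mul_zero] at hTU
    rw [hTU] at hT
    apply mul_ne_zero hQ₁0 hQ₂0
    linear_combination hT
  have hxU : x * U = Q₁ * U ^ 2 + Q₂ := by
    apply mul_left_cancel₀ hQ₁0
    rw [hTU] at hT
    linear_combination hT - (Q₁ ^ 2 * U ^ 2 + Q₁ * Q₂) * h2'
  obtain ⟨w, hw⟩ : ∃ w, w = y / x + Q₂ / (x * U) := ⟨_, rfl⟩
  have hwx : w * (x * U) = y * U + Q₂ := by
    rw [hw]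
    field_simp
  have key1 : (w ^ 2 + w) * (x * U) ^ 2 = (x + A) * (x * U) ^ 2 := by
    have h4 : (w ^ 2 + w) * (x * U) ^ 2 = (w * (x * U)) ^ 2 + (w * (x * U)) * (x * U) := by ring
    rw [h4, hwx]
    linear_combination U ^ 2 * heq + Q₂ * hxU + (y * U * Q₂ + Q₂ ^ 2 + Q₁ * Q₂ * U ^ 2) * h2'
  have hxU0 : (x * U) ^ 2 ≠ 0 := pow_ne_zero 2 (mul_ne_zero hx0 hU0)
  have hxeq : x = U * Q₁ + U⁻¹ * Q₂ := by
    apply mul_right_cancel₀ hU0
    rw [hxU]
    field_simp
  have key : w ^ 2 + w = U * Q₁ + U⁻¹ * Q₂ + A := by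
    rw [mul_right_cancel₀ hxU0 key1, ← hxeq]
  obtain ⟨E, hE⟩ : ∃ E : IntermediateField k M, E = IntermediateField.adjoin k {U} ⊔
    IntermediateField.adjoin k {s} ⊔ IntermediateField.adjoin k ((({w} : Finset M)) : Set M) :=
    ⟨_, rfl⟩
  have hUE : U ∈ E := by
    rw [hE]
    exact (le_sup_left.trans le_sup_left : IntermediateField.adjoin k {U} ≤ _)
      (IntermediateField.mem_adjoin_simple_self k U)
  have hsE : s ∈ E := by
    rw [hE]
    exact (le_sup_right.trans le_sup_left : IntermediateField.adjoin k {s} ≤ _)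
      (IntermediateField.mem_adjoin_simple_self k s)
  have hwE : w ∈ E := by
    rw [hE]
    exact (le_sup_right : IntermediateField.adjoin k ((({w} : Finset M)) : Set M) ≤ _)
      (IntermediateField.subset_adjoin _ _ (by simp))
  have hQ₁E : Q₁ ∈ E := by
    rw [hQ₁]
    exact ADH.aeval_mem' E s hsE _
  have hQ₂E : Q₂ ∈ E := by
    rw [hQ₂]
    exact ADH.aeval_mem' E s hsE _
  have hxE : x ∈ E := by
    rw [hxeq]
    exact add_mem (mul_mem hUE hQ₁E) (mul_mem (inv_mem hUE) hQ₂E)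
  refine ⟨U, {w}, ?_, ?_, ?_⟩
  · intro z hz
    rw [Finset.mem_singleton.1 hz]
    obtain ⟨E₀, hE₀⟩ : ∃ E₀ : IntermediateField k M, E₀ = IntermediateField.adjoin k {U} :=
      ⟨_, rfl⟩
    rw [← hE₀]
    have hc0 : CharP E₀ 2 := charP_of_injective_algebraMap (algebraMap k E₀).injective 2
    have hUE₀ : U ∈ E₀ := by
      rw [hE₀]
      exact IntermediateField.mem_adjoin_simple_self k U
    refine ⟨X ^ 2 + X, C (⟨U, hUE₀⟩ : E₀) * q₁.map (algebraMap k E₀) +
      C ((⟨U, hUE₀⟩ : E₀)⁻¹) * q₂.map (algebraMap k E₀) + W.a₂.map (algebraMap k E₀),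
      ADH.addPoly_two, ADH.derivative_two, ?_, ?_⟩
    · rw [add_comp, add_comp, mul_comp, mul_comp, C_comp, C_comp, ← Polynomial.map_comp,
        ← Polynomial.map_comp, ← Polynomial.map_comp]
      exact (((h₁.map _).C_mul _).add ((h₂.map _).C_mul _)).add (h2.map _)
    · have e1 : aeval w (X ^ 2 + X : E₀[X]) = w ^ 2 + w := by
        rw [map_add, map_pow, aeval_X]
      have e2 : algebraMap E₀ M (⟨U, hUE₀⟩ : E₀) = U := rfl
      rw [e1, key, map_add, map_add, map_mul, map_mul, aeval_C, aeval_C, map_inv₀, e2,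
        aeval_map_algebraMap, aeval_map_algebraMap, aeval_map_algebraMap, ← hQ₁, ← hA, ← hQ₂]
  · rw [← hE]
    exact hxE
  · rw [← hE]
    have h3 : y = w * x - Q₂ / U := by
      apply mul_right_cancel₀ hU0
      rw [sub_mul, div_mul_cancel₀ _ hU0]
      linear_combination -hwx
    rw [h3]
    exact sub_mem (mul_mem hwE hxE) (div_mem hQ₂E hUE)

/-- characteristic three: `x = c (t ^ 2 - 1)`, `y + d x t = d ^ 3 q₁ U`, `d ^ 2 = c`,
`t ^ 3 - t = - q₁ U + c⁻³ q₂ / U` -/
theorem geoN3 {N : Set ℕ} {k : Type} [Field k] [CharP k 3] (W : WeierstrassCurve k[X]) (hΔ : W.Δ ≠ 0)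
    (w1 : W.a₁ = 0) (w3 : W.a₃ = 0) (w4 : W.a₄ = 0) (c : k) (hc : c ≠ 0) (w2 : W.a₂ = C c)
    (q₁ q₂ : k[X]) (w6 : W.a₆ = q₁ * q₂) (ρ : k[X]) (h₁ : Exps N (q₁.comp ρ))
    (h₂ : Exps N (q₂.comp ρ)) : GeoN N ρ W := by
  intro M _ _ _ x y s hs _ hxy
  have hCM : CharP M 3 := charP_of_injective_algebraMap (algebraMap k M).injective 3
  have h3 : (3 : M) = 0 := by exact_mod_cast CharP.cast_eq_zero M 3
  have hcM : algebraMap k M c ≠ 0 := (_root_.map_ne_zero _).2 hc
  have hinj : ∀ F : k[X], F ≠ 0 → aeval s F ≠ 0 := fun F hF h =>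
    hF (transcendental_iff_injective.1 hs (h.trans (map_zero _).symm))
  have ha6 : q₁ * q₂ ≠ 0 := by
    intro h
    apply hΔ
    rw [WeierstrassCurve.Δ, WeierstrassCurve.b₂, WeierstrassCurve.b₄, WeierstrassCurve.b₆,
      WeierstrassCurve.b₈, w1, w3, w4, w2, w6, h]
    ring
  obtain ⟨Q₁, hQ₁⟩ : ∃ Q₁, Q₁ = aeval s q₁ := ⟨_, rfl⟩
  obtain ⟨Q₂, hQ₂⟩ : ∃ Q₂, Q₂ = aeval s q₂ := ⟨_, rfl⟩
  obtain ⟨e, he⟩ : ∃ e, e = algebraMap k M c := ⟨_, rfl⟩
  rw [← he] at hcM
  have hQ₁0 : Q₁ ≠ 0 := by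
    rw [hQ₁]
    exact hinj q₁ (left_ne_zero_of_mul ha6)
  have hQ₂0 : Q₂ ≠ 0 := by
    rw [hQ₂]
    exact hinj q₂ (right_ne_zero_of_mul ha6)
  have heq : y ^ 2 = x ^ 3 + e * x ^ 2 + Q₁ * Q₂ := by
    rw [aeval_wpoly, w1, w3, w4, w2, w6] at hxy
    simp only [Matrix.cons_val_zero, Matrix.cons_val_one, Matrix.cons_val, map_zero, aeval_C,
      map_mul, ← hQ₁, ← hQ₂, ← he] at hxy
    linear_combination hxy
  obtain ⟨d, hd⟩ := IsAlgClosed.exists_pow_nat_eq e (n := 2) two_pos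
  have hd0 : d ≠ 0 := by
    rintro rfl
    apply hcM
    rw [← hd]
    ring
  obtain ⟨t, ht⟩ := IsAlgClosed.exists_pow_nat_eq (x / e + 1) (n := 2) two_pos
  have hxt : x = e * (t ^ 2 - 1) := by
    rw [ht]
    field_simp
    ring
  obtain ⟨v, hv⟩ : ∃ v, v = y + d * x * t := ⟨_, rfl⟩
  have hvv : v * (y - d * x * t) = Q₁ * Q₂ := by
    rw [hv]
    linear_combination heq - x ^ 2 * t ^ 2 * hd + x ^ 2 * hxt
  have hv0 : v ≠ 0 := by
    rintro h0
    apply mul_ne_zero hQ₁0 hQ₂0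
    rw [← hvv, h0, zero_mul]
  obtain ⟨U, hU⟩ : ∃ U, U = v / (d ^ 3 * Q₁) := ⟨_, rfl⟩
  have hvU : v = d ^ 3 * Q₁ * U := by
    rw [hU, mul_div_cancel₀ _ (mul_ne_zero (pow_ne_zero 3 hd0) hQ₁0)]
  have hU0 : U ≠ 0 := by
    rintro h
    apply hv0
    rw [hvU, h, mul_zero]
  have hv2 : (y - d * x * t) * (d ^ 3 * U) = Q₂ := by
    apply mul_left_cancel₀ hQ₁0
    rw [hvU] at hvv
    linear_combination hvv
  have key1 : (t ^ 3 - t) * (e ^ 3 * U) = (-U * Q₁ + (e ^ 3 * U)⁻¹ * Q₂) * (e ^ 3 * U) := by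
    have h5 : (-U * Q₁ + (e ^ 3 * U)⁻¹ * Q₂) * (e ^ 3 * U) = -U * Q₁ * (e ^ 3 * U) + Q₂ := by
      field_simp
    rw [h5, ← hv2]
    have h6 : y + d * x * t = d ^ 3 * Q₁ * U := by rw [← hv, hvU]
    have h7 : y = d ^ 3 * Q₁ * U - d * x * t := by linear_combination h6
    rw [h7, hxt, ← hd]
    linear_combination (d ^ 6 * U * (t ^ 3 - t)) * h3
  have hcU : e ^ 3 * U ≠ 0 := mul_ne_zero (pow_ne_zero 3 hcM) hU0
  have key : t ^ 3 - t = -U * Q₁ + (e ^ 3 * U)⁻¹ * Q₂ := mul_right_cancel₀ hcU key1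
  obtain ⟨E, hE⟩ : ∃ E : IntermediateField k M, E = IntermediateField.adjoin k {U} ⊔
    IntermediateField.adjoin k {s} ⊔
    IntermediateField.adjoin k ((({t, d} : Finset M)) : Set M) := ⟨_, rfl⟩
  have hUE : U ∈ E := by
    rw [hE]
    exact (le_sup_left.trans le_sup_left : IntermediateField.adjoin k {U} ≤ _)
      (IntermediateField.mem_adjoin_simple_self k U)
  have hsE : s ∈ E := by
    rw [hE]
    exact (le_sup_right.trans le_sup_left : IntermediateField.adjoin k {s} ≤ _)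
      (IntermediateField.mem_adjoin_simple_self k s)
  have htE : t ∈ E := by
    rw [hE]
    exact (le_sup_right : IntermediateField.adjoin k ((({t, d} : Finset M)) : Set M) ≤ _)
      (IntermediateField.subset_adjoin _ _ (by simp))
  have hdE : d ∈ E := by
    rw [hE]
    exact (le_sup_right : IntermediateField.adjoin k ((({t, d} : Finset M)) : Set M) ≤ _)
      (IntermediateField.subset_adjoin _ _ (by simp))
  have hQ₁E : Q₁ ∈ E := by
    rw [hQ₁]
    exact ADH.aeval_mem' E s hsE _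
  have hxE : x ∈ E := by
    rw [hxt, he]
    exact mul_mem (E.algebraMap_mem c) (sub_mem (pow_mem htE 2) (one_mem _))
  refine ⟨U, {t, d}, ?_, ?_, ?_⟩
  · intro z hz
    obtain ⟨E₀, hE₀⟩ : ∃ E₀ : IntermediateField k M, E₀ = IntermediateField.adjoin k {U} :=
      ⟨_, rfl⟩
    rw [← hE₀]
    have hc0 : CharP E₀ 3 := charP_of_injective_algebraMap (algebraMap k E₀).injective 3
    have hUE₀ : U ∈ E₀ := by
      rw [hE₀]
      exact IntermediateField.mem_adjoin_simple_self k U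
    have hcE₀ : algebraMap k E₀ c ≠ 0 := (_root_.map_ne_zero _).2 hc
    have e3 : algebraMap E₀ M (algebraMap k E₀ c) = e := by
      rw [he]
      rfl
    rw [Finset.mem_insert, Finset.mem_singleton] at hz
    rcases hz with rfl | rfl
    · refine ⟨X ^ 3 - C 1 * X, C (-⟨U, hUE₀⟩ : E₀) * q₁.map (algebraMap k E₀) +
        C ((algebraMap k E₀ c ^ 3 * ⟨U, hUE₀⟩ : E₀)⁻¹) * q₂.map (algebraMap k E₀),
        ADH.addPoly_three 1, ADH.derivative_three 1 one_ne_zero, ?_, ?_⟩
      · rw [add_comp, mul_comp, mul_comp, C_comp, C_comp, ← Polynomial.map_comp,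
          ← Polynomial.map_comp]
        exact ((h₁.map _).C_mul _).add ((h₂.map _).C_mul _)
      · have e1 : aeval z (X ^ 3 - C 1 * X : E₀[X]) = z ^ 3 - z := by
          rw [map_sub, map_pow, map_mul, aeval_X, aeval_C, map_one, one_mul]
        have e2 : algebraMap E₀ M (⟨U, hUE₀⟩ : E₀) = U := rfl
        rw [e1, key, map_add, map_mul, map_mul, aeval_C, aeval_C, map_inv₀, map_mul,
          map_pow, map_neg, e2, e3, aeval_map_algebraMap, aeval_map_algebraMap, ← hQ₁, ← hQ₂]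
    · refine ⟨X ^ 3 - C (algebraMap k E₀ c) * X, 0, ADH.addPoly_three _,
        ADH.derivative_three _ hcE₀, by rw [zero_comp]; exact exps_zero, ?_⟩
      rw [map_zero, map_sub, map_pow, map_mul, aeval_X, aeval_C, e3, ← hd]
      ring
  · rw [← hE]
    exact hxE
  · rw [← hE]
    have h6 : y + d * x * t = d ^ 3 * Q₁ * U := by rw [← hv, hvU]
    have h7 : y = d ^ 3 * Q₁ * U - d * x * t := by linear_combination h6
    rw [h7]
    exact sub_mem (mul_mem (mul_mem (pow_mem hdE _) hQ₁E) hUE)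
      (mul_mem (mul_mem hdE hxE) htE)

/-- the towers -/
theorem sha_GN {k K Kb : Type} [Field k] [Finite k] [Field K] [Field Kb] [Algebra k K]
    [Algebra k Kb] [Algebra K Kb] [IsScalarTower k K Kb] [IsAlgClosed Kb]
    [Algebra.IsAlgebraic K Kb] (p : ℕ) [Fact p.Prime] [CharP k p] {N : Set ℕ}
    (hN : ∀ n ∈ N, p * n ∈ N) (hcyc : CycN p N k) (s : K)
    (hs : Transcendental k s) (W : WeierstrassCurve k[X]) (hΔ : W.Δ ≠ 0) (ρ : k[X])
    (hρ : ρ.natDegree ≠ 0) (hgeo : GeoN N ρ W) (S : Finset Kb)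
    (hS : ∀ z ∈ S, ∃ φ F : k[X], AddPoly φ ∧ derivative φ ≠ 0 ∧ Exps N (F.comp ρ) ∧
      aeval z φ = aeval (algebraMap K Kb s) F)
    (hK : ∀ a : K, algebraMap K Kb a ∈
      IntermediateField.adjoin k (insert (algebraMap K Kb s) (S : Set Kb)))
    (ℓ : ℕ) (hℓ : ℓ.Prime) (hℓk : (ℓ : k) ≠ 0)
    (c : ℕ → (Kb ≃ₐ[K] Kb) → Pts (Ws W s) Kb) (hc : ShaSys (Ws W s) k ℓ c) (n : ℕ) :
    Principal (Ws W s) (T1B.geo k K Kb) (c n) := by
  have hS' : ∀ z ∈ S, ∃ φ F : k[X], φ.natDegree ≠ 0 ∧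
      aeval z φ = aeval (algebraMap K Kb s) F := fun z hz => by
    obtain ⟨φ, F, -, a2, -, a4⟩ := hS z hz
    refine ⟨φ, F, fun h => a2 ?_, a4⟩
    rw [eq_C_of_natDegree_eq_zero h, derivative_C]
  obtain ⟨M, _, _, _, _, x, y, t1, t2, t3, hM, htd, hx, hy, hal⟩ := setup s hs S hS' hK W
  have hsM : Transcendental k (algebraMap K M s) :=
    (transcendental_algebraMap_iff (algebraMap K M).injective).2 hs
  obtain ⟨U, S₁, hS₁, hx₁, hy₁⟩ := hgeo M _ _ hM x y (algebraMap K M s) hsM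
    (fun G h => hx (h ▸ (Polynomial.aeval_algebraMap_apply M s G).symm ▸ isAlgebraic_algebraMap _)) hy
  obtain ⟨F, hF⟩ : ∃ F : IntermediateField K M, F = IntermediateField.adjoin K {x, y} := ⟨_, rfl⟩
  have hxF : x ∈ F := by
    rw [hF]
    exact IntermediateField.subset_adjoin _ _ (by simp)
  have hyF : y ∈ F := by
    rw [hF]
    exact IntermediateField.subset_adjoin _ _ (by simp)
  have hsub : IntermediateField.adjoin k (Set.range ![x, y, algebraMap K M s]) ≤
      F.restrictScalars k := by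
    rw [IntermediateField.adjoin_le_iff]
    rintro _ ⟨i, rfl⟩
    fin_cases i
    · exact hxF
    · exact hyF
    · exact F.algebraMap_mem s
  have hFal : ∀ b : M, IsAlgebraic (F.restrictScalars k) b := fun b => by
    refine algTrans (K := IntermediateField.adjoin k (Set.range ![x, y, algebraMap K M s])) _
      (fun a => ?_) b (hal b)
    exact isAlgebraic_algebraMap (⟨a, hsub a.2⟩ : F.restrictScalars k)
  obtain ⟨E, hE⟩ : ∃ E : IntermediateField k M, E = IntermediateField.adjoin k {U} := ⟨_, rfl⟩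
  -- the elements of `M` are algebraic over `k(U, s)`
  have hUal : ∀ b : M, IsAlgebraic (E ⊔ IntermediateField.adjoin k {algebraMap K M s} :
      IntermediateField k M) b := by
    obtain ⟨A, hA⟩ : ∃ A : IntermediateField k M,
      A = E ⊔ IntermediateField.adjoin k {algebraMap K M s} := ⟨_, rfl⟩
    have hmemA : ∀ a ∈ A, IsAlgebraic A a := fun a ha => isAlgebraic_algebraMap (⟨a, ha⟩ : A)
    have hxy : ∀ a ∈ E ⊔ IntermediateField.adjoin k {algebraMap K M s} ⊔
        IntermediateField.adjoin k (S₁ : Set M), IsAlgebraic A a := by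
      intro a ha
      have h1 : E ⊔ IntermediateField.adjoin k {algebraMap K M s} ⊔
          IntermediateField.adjoin k (S₁ : Set M) ≤
            (algebraicClosure A M).restrictScalars k := by
        refine sup_le ?_ ?_
        · rw [← hA]
          exact fun b hb => mem_algebraicClosure_iff.2 (hmemA b hb)
        · rw [IntermediateField.adjoin_le_iff]
          intro b hb
          refine mem_algebraicClosure_iff.2 ?_
          subst hE
          obtain ⟨φ, f, -, a2, -, a4⟩ := hS₁ b hb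
          rw [hA]
          exact gq_alg _ _ b φ f a2 a4
      exact mem_algebraicClosure_iff.1 (h1 ha)
    rw [← hA]
    intro b
    refine algTrans (K := IntermediateField.adjoin k (Set.range ![x, y, algebraMap K M s])) A
      (fun a => ?_) b (hal b)
    refine alg_adjoin A _ ?_ (a : M) a.2
    rintro _ ⟨i, rfl⟩
    rw [← hE] at hx₁ hy₁
    fin_cases i
    · exact hxy x hx₁
    · exact hxy y hy₁
    · refine hmemA _ ?_
      rw [hA]
      exact (le_sup_right : IntermediateField.adjoin k {algebraMap K M s} ≤ _)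
        (IntermediateField.mem_adjoin_simple_self k _)
  -- the field is contained in the tower
  let ι : Kb →ₐ[k] M := IsScalarTower.toAlgHom k Kb M
  obtain ⟨T, hT⟩ : ∃ T : Finset M, T = S₁ ∪ S.image ι := ⟨_, rfl⟩
  obtain ⟨B, hB⟩ : ∃ B : IntermediateField k M, B =
    E ⊔ IntermediateField.adjoin k {algebraMap K M s} ⊔ IntermediateField.adjoin k (T : Set M) :=
      ⟨_, rfl⟩
  have hB₁ : E ⊔ IntermediateField.adjoin k {algebraMap K M s} ⊔
      IntermediateField.adjoin k (S₁ : Set M) ≤ B := by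
    rw [hB]
    refine sup_le_sup le_rfl (IntermediateField.adjoin.mono _ _ _ ?_)
    rw [hT, Finset.coe_union]
    exact Set.subset_union_left
  have hKM : ∀ a : K, algebraMap K M a ∈ B := by
    refine ADH.mem_of_gen s S hK B ?_ fun z hz => ?_
    · rw [hB]
      exact (le_sup_left : _ ≤ E ⊔ IntermediateField.adjoin k {algebraMap K M s} ⊔
        IntermediateField.adjoin k (T : Set M))
        ((le_sup_right : IntermediateField.adjoin k {algebraMap K M s} ≤ _)
          (IntermediateField.mem_adjoin_simple_self k _))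
    · rw [hB]
      refine (le_sup_right : IntermediateField.adjoin k (T : Set M) ≤ _)
        (IntermediateField.subset_adjoin _ _ ?_)
      rw [hT, Finset.coe_union, Finset.coe_image]
      exact Or.inr ⟨z, hz, rfl⟩
  have hle : F.restrictScalars k ≤ B := by
    let B' : IntermediateField K M := B.toSubfield.toIntermediateField hKM
    have hFB : F ≤ B' := by
      rw [hF, IntermediateField.adjoin_le_iff]
      rw [← hE] at hx₁ hy₁
      rintro b (rfl | hb)
      · exact hB₁ hx₁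
      · rw [Set.mem_singleton_iff.1 hb]
        exact hB₁ hy₁
    exact fun b hb => hFB hb
  -- the theorem on the towers
  have hEfg : E.FG := ⟨{U}, by rw [hE, Finset.coe_singleton]⟩
  have htE : Algebra.trdeg k E = 1 := by
    rw [hE] at hUal ⊢
    exact gq_trdeg htd U _ hUal
  have hemt : Emt (F.restrictScalars k) := by
    refine tower_Nr p hN hcyc ρ hρ htd E hEfg htE (algebraMap K M s) hUal T ?_ _ (hle.trans hB.le) hFal
    intro z hz
    rw [hT, Finset.mem_union] at hz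
    rcases hz with hz | hz
    · subst hE
      exact hS₁ z hz
    · obtain ⟨z', hz', rfl⟩ := Finset.mem_image.1 hz
      obtain ⟨φ, G, a1, a2, a3, a4⟩ := hS z' hz'
      refine ⟨φ.map (algebraMap k E), G.map (algebraMap k E), addPoly_map a1 E, ?_,
        by rw [← Polynomial.map_comp]; exact a3.map _, ?_⟩
      · rw [derivative_map]
        exact (Polynomial.map_ne_zero_iff (algebraMap k E).injective).2 a2
      · rw [aeval_map_algebraMap, aeval_map_algebraMap, Polynomial.aeval_algHom_apply, a4]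
        show algebraMap Kb M (aeval (algebraMap K Kb s) G) = aeval (algebraMap K M s) G
        rw [← Polynomial.aeval_algebraMap_apply, ← IsScalarTower.algebraMap_apply K Kb M]
  have hT1 : T1B.T1 k F ℓ := t1_of_emt (F.restrictScalars k) hFal hemt ℓ hℓ hℓk
  exact bridge s hs (alg_K' s S hS' hK) W hΔ x y hx hy F hF ℓ hℓ hℓk hT1 c hc n

/-- the criterion for the set `N` of exponents -/
theorem sha_critNK {k K Kb : Type} [Field k] [Finite k] [Field K] [Field Kb] [Algebra k K]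
    [Algebra k Kb] [Algebra K Kb] [IsScalarTower k K Kb] [IsAlgClosed Kb]
    [Algebra.IsAlgebraic K Kb] (p : ℕ) [Fact p.Prime] [CharP k p] {N : Set ℕ}
    (hN : ∀ n ∈ N, p * n ∈ N) (hcyc : CycN p N k) (s : K) (hs : Transcendental k s)
    (hKs : FiniteDimensional (IntermediateField.adjoin k {s}) K)
    (W : WeierstrassCurve K) (hΔ : W.Δ ≠ 0)
    {M : Type} [Field M] [Algebra k M] [Algebra K M] [IsScalarTower k K M] [IsAlgClosed M]
    (F : IntermediateField k M) (t x y : M) (S : Finset M) (hF : F.FG)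
    (htF : Algebra.trdeg k F = 1) (ht : Transcendental F t)
    (hal : ∀ b : M, IsAlgebraic (F ⊔ IntermediateField.adjoin k {t} : IntermediateField k M) b)
    (hx : Transcendental K x) (hy : (W.baseChange M).toAffine.Equation x y)
    (hS : ∀ z ∈ S, ∃ φ f : F[X], AddPoly φ ∧ derivative φ ≠ 0 ∧ Exps N f ∧
      aeval z φ = aeval t f)
    (hK : ∀ a : K, algebraMap K M a ∈ F ⊔ IntermediateField.adjoin k {t} ⊔
      IntermediateField.adjoin k (S : Set M))
    (hxS : x ∈ F ⊔ IntermediateField.adjoin k {t} ⊔ IntermediateField.adjoin k (S : Set M))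
    (hyS : y ∈ F ⊔ IntermediateField.adjoin k {t} ⊔ IntermediateField.adjoin k (S : Set M))
    (ℓ : ℕ) (hℓ : ℓ.Prime) (hℓk : (ℓ : k) ≠ 0)
    (c : ℕ → (Kb ≃ₐ[K] Kb) → Pts W Kb) (hc : ShaSys W k ℓ c) (n : ℕ) :
    Principal W (T1B.geo k K Kb) (c n) :=
  sha_critN p hN s hs hKs W hΔ F t x y S hF htF ht hal (fun htd => hcyc M _ _ inferInstance htd t) hx hy hS hK
    hxS hyS ℓ hℓ hℓk c hc n

end Pool.Agent.QD
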