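import Pool.Agent.QD.P2

/-!
# The two kinds of sets of exponents
-/

set_option autoImplicit false

namespace Pool.Agent.QD

open Polynomial Pool.Agent.WLD Pool.Agent.ADT Pool.Agent.UQ WeierstrassCurve
  WeierstrassCurve.Affine Pool.Agent.EFF

open scoped Classical

/-- `C` is the set of the numbers `0`, `p ^ i`, `p ^ i + p ^ j`, or the set of the numbers `0`,
`N p ^ i` for a fixed `N ≠ 0`. -/
def IsC (p : ℕ) (C : Set ℕ) : Prop :=
  C = {n | n = 0 ∨ (∃ i, n = p ^ i) ∨ ∃ i j, n = p ^ i + p ^ j} ∨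
    ∃ N, N ≠ 0 ∧ C = {n | n = 0 ∨ ∃ i, n = N * p ^ i}

theorem isC_mul {p : ℕ} {C : Set ℕ} (hC : IsC p C) : ∀ n ∈ C, p * n ∈ C := by
  rcases hC with rfl | ⟨m, -, rfl⟩
  · rintro n (rfl | ⟨i, rfl⟩ | ⟨i, j, rfl⟩)
    · exact Or.inl (mul_zero p)
    · exact Or.inr (Or.inl ⟨i + 1, by rw [pow_succ, mul_comm]⟩)
    · exact Or.inr (Or.inr ⟨i + 1, j + 1, by
        rw [mul_add, pow_succ, pow_succ, mul_comm, mul_comm (p ^ j)]⟩)
  · exact pExp_mul p m

theorem isC_cyc {k : Type} [Field k] {p : ℕ} [Fact p.Prime] [CharP k p] {C : Set ℕ}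
    (hC : IsC p C) : CycN p C k := by
  rcases hC with rfl | ⟨m, hm, rfl⟩
  · intro M _ _ _ htd t E hE htE hal f hf Y hY
    exact emt_cyclicQ p htd E hE htE t hal f hf Y hY
  · exact cycN_P p m hm

/-- the criterion -/
theorem sha_critC {k K Kb : Type} [Field k] [Finite k] [Field K] [Field Kb] [Algebra k K]
    [Algebra k Kb] [Algebra K Kb] [IsScalarTower k K Kb] [IsAlgClosed Kb]
    [Algebra.IsAlgebraic K Kb] (p : ℕ) [Fact p.Prime] [CharP k p] {C : Set ℕ} (hC : IsC p C)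
    (s : K) (hs : Transcendental k s)
    (hKs : FiniteDimensional (IntermediateField.adjoin k {s}) K)
    (W : WeierstrassCurve K) (hΔ : W.Δ ≠ 0)
    {M : Type} [Field M] [Algebra k M] [Algebra K M] [IsScalarTower k K M] [IsAlgClosed M]
    (F : IntermediateField k M) (t x y : M) (S : Finset M) (hF : F.FG)
    (htF : Algebra.trdeg k F = 1) (ht : Transcendental F t)
    (hal : ∀ b : M, IsAlgebraic (F ⊔ IntermediateField.adjoin k {t} : IntermediateField k M) b)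
    (hx : Transcendental K x) (hy : (W.baseChange M).toAffine.Equation x y)
    (hS : ∀ z ∈ S, ∃ φ f : F[X], AddPoly φ ∧ derivative φ ≠ 0 ∧ Exps C f ∧
      aeval z φ = aeval t f)
    (hK : ∀ a : K, algebraMap K M a ∈ F ⊔ IntermediateField.adjoin k {t} ⊔
      IntermediateField.adjoin k (S : Set M))
    (hxS : x ∈ F ⊔ IntermediateField.adjoin k {t} ⊔ IntermediateField.adjoin k (S : Set M))
    (hyS : y ∈ F ⊔ IntermediateField.adjoin k {t} ⊔ IntermediateField.adjoin k (S : Set M))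
    (ℓ : ℕ) (hℓ : ℓ.Prime) (hℓk : (ℓ : k) ≠ 0)
    (c : ℕ → (Kb ≃ₐ[K] Kb) → Pts W Kb) (hc : ShaSys W k ℓ c) (n : ℕ) :
    Principal W (T1B.geo k K Kb) (c n) :=
  sha_critNK p (isC_mul hC) (isC_cyc hC) s hs hKs W hΔ F t x y S hF htF ht hal hx hy hS hK
    hxS hyS ℓ hℓ hℓk c hc n

/-- the towers -/
theorem sha_GC {k K Kb : Type} [Field k] [Finite k] [Field K] [Field Kb] [Algebra k K]
    [Algebra k Kb] [Algebra K Kb] [IsScalarTower k K Kb] [IsAlgClosed Kb]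
    [Algebra.IsAlgebraic K Kb] (p : ℕ) [Fact p.Prime] [CharP k p] {C : Set ℕ} (hC : IsC p C)
    (s : K) (hs : Transcendental k s) (W : WeierstrassCurve k[X]) (hΔ : W.Δ ≠ 0) (ρ : k[X])
    (hρ : ρ.natDegree ≠ 0) (hgeo : GeoN C ρ W) (S : Finset Kb)
    (hS : ∀ z ∈ S, ∃ φ F : k[X], AddPoly φ ∧ derivative φ ≠ 0 ∧ Exps C (F.comp ρ) ∧
      aeval z φ = aeval (algebraMap K Kb s) F)
    (hK : ∀ a : K, algebraMap K Kb a ∈
      IntermediateField.adjoin k (insert (algebraMap K Kb s) (S : Set Kb)))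
    (ℓ : ℕ) (hℓ : ℓ.Prime) (hℓk : (ℓ : k) ≠ 0)
    (c : ℕ → (Kb ≃ₐ[K] Kb) → Pts (Ws W s) Kb) (hc : ShaSys (Ws W s) k ℓ c) (n : ℕ) :
    Principal (Ws W s) (T1B.geo k K Kb) (c n) :=
  sha_GN p (isC_mul hC) (isC_cyc hC) s hs W hΔ ρ hρ hgeo S hS hK ℓ hℓ hℓk c hc n

end Pool.Agent.QD
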