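import Pool.Agent.QD.H
import Pool.Agent.NOC.Aut

/-!
# The tangent lines of a plane cubic curve
-/

set_option autoImplicit false

namespace Pool.Agent.QD

open Polynomial Pool.Agent.WLD Pool.Agent.UQ

open scoped Classical

section ring

variable {R : Type*} [CommRing R]

/-- the discriminant of a binary cubic form -/
def t_disc (r₀ r₁ r₂ r₃ : R) : R :=
  r₁ ^ 2 * r₂ ^ 2 - 4 * r₀ * r₂ ^ 3 - 4 * r₁ ^ 3 * r₃ + 18 * r₀ * r₁ * r₂ * r₃ - 27 * r₀ ^ 2 * r₃ ^ 2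

/-- the value of the ternary cubic form -/
def t_C (c : Fin 9 → R) (x g h : R) : R :=
  x ^ 3 + (c 0 * g + c 1 * h) * x ^ 2 + (c 2 * g ^ 2 + c 3 * g * h + c 4 * h ^ 2) * x +
    (c 5 * g ^ 3 + c 6 * g ^ 2 * h + c 7 * g * h ^ 2 + c 8 * h ^ 3)

/-- the coefficient of `g³` in `C(a g + b h, g, h)` -/
def t_0 (c : Fin 9 → R) (a : R) : R := a ^ 3 + c 0 * a ^ 2 + c 2 * a + c 5

/-- the coefficient of `g² h` in `C(a g + b h, g, h)` -/
def t_1 (c : Fin 9 → R) (a b : R) : R :=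
  3 * a ^ 2 * b + 2 * c 0 * a * b + c 1 * a ^ 2 + c 2 * b + c 3 * a + c 6

/-- the coefficient of `g h²` in `C(a g + b h, g, h)` -/
def t_2 (c : Fin 9 → R) (a b : R) : R :=
  3 * a * b ^ 2 + c 0 * b ^ 2 + 2 * c 1 * a * b + c 3 * b + c 4 * a + c 7

/-- the coefficient of `h³` in `C(a g + b h, g, h)` -/
def t_3 (c : Fin 9 → R) (b : R) : R := b ^ 3 + c 1 * b ^ 2 + c 4 * b + c 8

/-- the discriminant of `C(a g + b h, g, h)` -/
def t_D (c : Fin 9 → R) (a b : R) : R := t_disc (t_0 c a) (t_1 c a b) (t_2 c a b) (t_3 c b)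

theorem t_expand (c : Fin 9 → R) (a b g h : R) : t_C c (a * g + b * h) g h =
    t_0 c a * g ^ 3 + t_1 c a b * g ^ 2 * h + t_2 c a b * g * h ^ 2 + t_3 c b * h ^ 3 := by
  unfold t_C t_0 t_1 t_2 t_3
  ring

/-- the derivative with respect to the first variable -/
def t_x (c : Fin 9 → R) (x g h : R) : R :=
  3 * x ^ 2 + 2 * (c 0 * g + c 1 * h) * x + (c 2 * g ^ 2 + c 3 * g * h + c 4 * h ^ 2)

/-- the derivative with respect to the third variable -/
def t_h (c : Fin 9 → R) (x g h : R) : R :=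
  c 1 * x ^ 2 + (c 3 * g + 2 * c 4 * h) * x + (c 6 * g ^ 2 + 2 * c 7 * g * h + 3 * c 8 * h ^ 2)

/-- half of the second derivative with respect to the first variable -/
def t_xx (c : Fin 9 → R) (x g h : R) : R := 3 * x + (c 0 * g + c 1 * h)

/-- the mixed derivative -/
def t_xh (c : Fin 9 → R) (x g h : R) : R := 2 * c 1 * x + (c 3 * g + 2 * c 4 * h)

/-- half of the second derivative with respect to the third variable -/
def t_hh (c : Fin 9 → R) (x g h : R) : R := c 4 * x + (c 7 * g + 3 * c 8 * h)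

theorem t_change (c : Fin 9 → R) (a b x g h : R) (hx : x = a * g + b * h) :
    t_disc (t_C c x g h) (t_x c x g h * b + t_h c x g h)
      (t_xx c x g h * b ^ 2 + t_xh c x g h * b + t_hh c x g h) (t_3 c b) =
      g ^ 6 * t_D c a b := by
  have h0 : t_C c x g h = t_0 c a * g ^ 3 + t_1 c a b * g ^ 2 * h + t_2 c a b * g * h ^ 2 +
      t_3 c b * h ^ 3 := by
    rw [hx, t_expand]
  have h1 : t_x c x g h * b + t_h c x g h = t_1 c a b * g ^ 2 + 2 * t_2 c a b * g * h +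
      3 * t_3 c b * h ^ 2 := by
    rw [hx]
    unfold t_x t_h t_1 t_2 t_3
    ring
  have h2 : t_xx c x g h * b ^ 2 + t_xh c x g h * b + t_hh c x g h =
      t_2 c a b * g + 3 * t_3 c b * h := by
    rw [hx]
    unfold t_xx t_xh t_hh t_2 t_3
    ring
  rw [h0, h1, h2, t_D]
  unfold t_disc
  ring

/-- the discriminant of the polynomial `C(X, g, h)` -/
theorem t_lead (c : Fin 9 → R) (x g h : R) :
    t_disc (t_C c x g h) (t_x c x g h) (t_xx c x g h) 1 =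
      t_disc (c 5 * g ^ 3 + c 6 * g ^ 2 * h + c 7 * g * h ^ 2 + c 8 * h ^ 3)
        (c 2 * g ^ 2 + c 3 * g * h + c 4 * h ^ 2) (c 0 * g + c 1 * h) 1 := by
  unfold t_disc t_C t_x t_xx
  ring

end ring

/-- a binary cubic form with discriminant zero -/
theorem t_fac {L : Type*} [Field L] [IsAlgClosed L] (h2 : (2 : L) ≠ 0) (t₀ t₁ t₂ t₃ : L)
    (h : t_disc t₀ t₁ t₂ t₃ = 0) : ∃ l m n r : L, t₀ = l * n ^ 2 ∧
      t₁ = 2 * l * n * r + m * n ^ 2 ∧ t₂ = l * r ^ 2 + 2 * m * n * r ∧ t₃ = m * r ^ 2 := by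
  by_cases h0 : t₀ = 0
  · subst h0
    by_cases h1 : t₁ = 0
    · subst h1
      exact ⟨t₂, t₃, 0, 1, by ring, by ring, by ring, by ring⟩
    · have h3 : t₂ ^ 2 = 4 * t₁ * t₃ := by
        have h4 : t₁ ^ 2 * (t₂ ^ 2 - 4 * t₁ * t₃) = 0 := by
          rw [← h]
          unfold t_disc
          ring
        rcases mul_eq_zero.1 h4 with h5 | h5
        · exact absurd (pow_eq_zero_iff (two_ne_zero)|>.1 h5) h1
        · linear_combination h5
      refine ⟨0, t₁, 1, t₂ / (2 * t₁), by ring, by ring, ?_, ?_⟩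
      · field_simp
        ring
      · field_simp
        linear_combination -h3
  · -- the roots
    obtain ⟨a, ha⟩ : ∃ a : L, t₀ * a ^ 3 + t₁ * a ^ 2 + t₂ * a + t₃ = 0 := by
      have hd : (C t₀ * X ^ 3 + C t₁ * X ^ 2 + C t₂ * X + C t₃ : L[X]).degree ≠ 0 := by
        have : (C t₀ * X ^ 3 + C t₁ * X ^ 2 + C t₂ * X + C t₃ : L[X]).degree = 3 := by
          compute_degree!
        rw [this]
        decide
      obtain ⟨a, ha⟩ := IsAlgClosed.exists_root _ hd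
      exact ⟨a, by simpa [IsRoot] using ha⟩
    obtain ⟨u, hu⟩ : ∃ u, u = t₁ + t₀ * a := ⟨_, rfl⟩
    obtain ⟨v, hv⟩ : ∃ v, v = t₂ + u * a := ⟨_, rfl⟩
    obtain ⟨b, hb⟩ : ∃ b : L, t₀ * b ^ 2 + u * b + v = 0 := by
      have hd : (C t₀ * X ^ 2 + C u * X + C v : L[X]).degree ≠ 0 := by
        have : (C t₀ * X ^ 2 + C u * X + C v : L[X]).degree = 2 := by
          compute_degree!
        rw [this]
        decide
      obtain ⟨b, hb⟩ := IsAlgClosed.exists_root _ hd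
      exact ⟨b, by simpa [IsRoot] using hb⟩
    obtain ⟨e, he⟩ : ∃ e, e = -u / t₀ - b := ⟨_, rfl⟩
    have e1 : t₁ = -t₀ * (a + b + e) := by
      rw [he]
      field_simp
      linear_combination -hu
    have hu' : u = -t₀ * (b + e) := by
      rw [he]
      field_simp
      ring
    have hv' : v = t₀ * (b * e) := by
      rw [hu'] at hb
      linear_combination hb
    have e2 : t₂ = t₀ * (a * b + b * e + e * a) := by
      have : t₂ = v - u * a := by rw [hv]; ring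
      rw [this, hu', hv']
      ring
    have e3 : t₃ = -t₀ * (a * b * e) := by
      have : t₃ = -(t₀ * a ^ 3 + t₁ * a ^ 2 + t₂ * a) := by linear_combination ha
      rw [this, e1, e2]
      ring
    have h4 : t₀ ^ 4 * ((a - b) * (b - e) * (e - a)) ^ 2 = 0 := by
      rw [← h, e1, e2, e3]
      unfold t_disc
      ring
    have h5 : (a - b) * (b - e) * (e - a) = 0 := by
      rcases mul_eq_zero.1 h4 with h5 | h5
      · exact absurd (pow_eq_zero_iff (by norm_num)|>.1 h5) h0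
      · exact pow_eq_zero_iff two_ne_zero |>.1 h5
    rcases mul_eq_zero.1 h5 with h6 | h6
    · rcases mul_eq_zero.1 h6 with h7 | h7
      · have h8 : a = b := sub_eq_zero.1 h7
        subst h8
        exact ⟨t₀, -t₀ * e, 1, -a, by ring, by rw [e1]; ring, by rw [e2]; ring, by rw [e3]; ring⟩
      · have h8 : b = e := sub_eq_zero.1 h7
        rw [← h8] at e1 e2 e3
        exact ⟨t₀, -t₀ * a, 1, -b, by ring, by rw [e1]; ring, by rw [e2]; ring, by rw [e3]; ring⟩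
    · have h8 : e = a := sub_eq_zero.1 h6
      rw [h8] at e1 e2 e3
      exact ⟨t₀, -t₀ * b, 1, -a, by ring, by rw [e1]; ring, by rw [e2]; ring, by rw [e3]; ring⟩

/-- the discriminant as a polynomial in the slope -/
theorem t_poly {M : Type*} [Field M] (r₀ p₁ q₁ p₂ q₂ s₂ q₃ s₃ u₃ : M) :
    (t_disc (C r₀) (C p₁ * X + C q₁) (C p₂ * X ^ 2 + C q₂ * X + C s₂)
      (X ^ 3 + C q₃ * X ^ 2 + C s₃ * X + C u₃) : M[X]).coeff 6 = t_disc r₀ p₁ p₂ 1 := by
  obtain ⟨R₁, hR₁⟩ : ∃ R₁ : M[X], R₁ = C p₁ * X + C q₁ := ⟨_, rfl⟩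
  obtain ⟨R₂, hR₂⟩ : ∃ R₂ : M[X], R₂ = C p₂ * X ^ 2 + C q₂ * X + C s₂ := ⟨_, rfl⟩
  obtain ⟨R₃, hR₃⟩ : ∃ R₃ : M[X], R₃ = X ^ 3 + C q₃ * X ^ 2 + C s₃ * X + C u₃ := ⟨_, rfl⟩
  rw [← hR₁, ← hR₂, ← hR₃]
  have d1 : R₁.natDegree ≤ 1 := by rw [hR₁]; compute_degree
  have d2 : R₂.natDegree ≤ 2 := by rw [hR₂]; compute_degree
  have d3 : R₃.natDegree ≤ 3 := by rw [hR₃]; compute_degree
  have c1 : R₁.coeff 1 = p₁ := by rw [hR₁]; simp
  have c2 : R₂.coeff 2 = p₂ := by rw [hR₂]; simp [coeff_X, coeff_C]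
  have c3 : R₃.coeff 3 = 1 := by rw [hR₃]; simp [coeff_X, coeff_C, coeff_X_pow]
  have e1 : (R₁ ^ 2).coeff 2 = p₁ ^ 2 := by
    rw [← c1]; exact coeff_pow_of_natDegree_le (m := 2) d1
  have e1' : (R₁ ^ 3).coeff 3 = p₁ ^ 3 := by
    rw [← c1]; exact coeff_pow_of_natDegree_le (m := 3) d1
  have e2 : (R₂ ^ 2).coeff 4 = p₂ ^ 2 := by
    rw [← c2]; exact coeff_pow_of_natDegree_le (m := 2) d2
  have e2' : (R₂ ^ 3).coeff 6 = p₂ ^ 3 := by
    rw [← c2]; exact coeff_pow_of_natDegree_le (m := 3) d2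
  have e3 : (R₃ ^ 2).coeff 6 = 1 := by
    have := coeff_pow_of_natDegree_le (m := 2) d3
    rw [c3, one_pow] at this
    exact this
  have n1 : (R₁ ^ 2).natDegree ≤ 2 := natDegree_pow_le_of_le 2 d1
  have n1' : (R₁ ^ 3).natDegree ≤ 3 := natDegree_pow_le_of_le 3 d1
  have n2 : (R₂ ^ 2).natDegree ≤ 4 := natDegree_pow_le_of_le 2 d2
  have f1 : (R₁ ^ 2 * R₂ ^ 2).coeff 6 = p₁ ^ 2 * p₂ ^ 2 := by
    rw [← e1, ← e2]; exact coeff_mul_add_eq_of_natDegree_le n1 n2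
  have f2 : (R₁ ^ 3 * R₃).coeff 6 = p₁ ^ 3 := by
    have := coeff_mul_add_eq_of_natDegree_le n1' d3
    rw [e1', c3, mul_one] at this
    exact this
  have f3 : (R₁ * R₂).coeff 3 = p₁ * p₂ := by
    rw [← c1, ← c2]; exact coeff_mul_add_eq_of_natDegree_le d1 d2
  have n3 : (R₁ * R₂).natDegree ≤ 3 := natDegree_mul_le_of_le d1 d2
  have f4 : (R₁ * R₂ * R₃).coeff 6 = p₁ * p₂ := by
    have := coeff_mul_add_eq_of_natDegree_le n3 d3
    rw [f3, c3, mul_one] at this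
    exact this
  have key : (t_disc (C r₀) R₁ R₂ R₃ : M[X]) = R₁ ^ 2 * R₂ ^ 2 - C (4 * r₀) * R₂ ^ 3 -
      C 4 * (R₁ ^ 3 * R₃) + C (18 * r₀) * (R₁ * R₂ * R₃) - C (27 * r₀ ^ 2) * R₃ ^ 2 := by
    unfold t_disc
    have k4 : (C 4 : M[X]) = 4 := rfl
    have k18 : (C 18 : M[X]) = 18 := rfl
    have k27 : (C 27 : M[X]) = 27 := rfl
    rw [C_mul, C_mul, C_mul, C_pow, k4, k18, k27]
    ring
  rw [key, coeff_sub, coeff_add, coeff_sub, coeff_sub, coeff_C_mul, coeff_C_mul, coeff_C_mul,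
    coeff_C_mul, f1, f2, f4, e2', e3]
  unfold t_disc
  ring

end Pool.Agent.QD
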