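import Pool.Agent.QD.T1

/-!
# The second fibration of the surface `y² = C(x, g(s), h(s))`, `C` a ternary cubic form
-/

set_option autoImplicit false

namespace Pool.Agent.QD

open Polynomial Pool.Agent.TUQ Pool.Agent.WLD Pool.Agent.ADT Pool.Agent.UQ Pool.Agent.EFF

open scoped Classical

section

variable {k M : Type} [Field k] [Field M] [Algebra k M]

/-- the transcendence degree of an algebraic extension -/
private theorem t_trdeg (E : IntermediateField k M) (C : Set M) (hC : ∀ c ∈ C, IsAlgebraic E c) :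
    Algebra.trdeg k (E ⊔ IntermediateField.adjoin k C : IntermediateField k M) =
      Algebra.trdeg k E := by
  have h1 : (E ⊔ IntermediateField.adjoin k C : IntermediateField k M) =
      (IntermediateField.adjoin E C).restrictScalars k := by
    rw [IntermediateField.restrictScalars_adjoin, IntermediateField.adjoin_union,
      IntermediateField.adjoin_self]
  rw [h1]
  have h2 := trdeg_add_eq k E (A := IntermediateField.adjoin E C)
  have h7 : Algebra.IsAlgebraic E (IntermediateField.adjoin E C) :=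
    IntermediateField.isAlgebraic_adjoin fun c hc => (hC c hc).isIntegral
  have h3 : Algebra.trdeg E (IntermediateField.adjoin E C) = 0 := trdeg_eq_zero_iff.2 h7
  calc Algebra.trdeg k ((IntermediateField.adjoin E C).restrictScalars k) =
      Algebra.trdeg k (IntermediateField.adjoin E C) := rfl
    _ = Algebra.trdeg k E + Algebra.trdeg E (IntermediateField.adjoin E C) := h2.symm
    _ = Algebra.trdeg k E := by rw [h3, add_zero]

/-- the plane is not algebraic over a line -/
private theorem t_ne (htd : Algebra.trdeg k M = 2) (E : IntermediateField k M) (z : M)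
    (h : ∀ b : M, IsAlgebraic (E ⊔ IntermediateField.adjoin k {z} : IntermediateField k M) b) :
    Algebra.trdeg k E ≠ 0 := by
  intro h0
  have h1 := KTW.indep_plane htd E h0 ![z, z] (fun b => by
    refine alg_mono (sup_le_sup_left ?_ _) (h b)
    rw [IntermediateField.adjoin_le_iff, Set.singleton_subset_iff]
    exact IntermediateField.subset_adjoin _ _ ⟨0, rfl⟩)
  have h2 : (![z, z] : Fin 2 → M) 0 = ![z, z] 1 := rfl
  exact absurd (h1.injective h2) (by decide)

/-- the tangent lines through a point of the plane -/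
theorem t_slope [IsAlgClosed M] (c : Fin 9 → k) (x G H : M) (hG : G ≠ 0)
    (hD : t_disc (algebraMap k M (c 5) * G ^ 3 + algebraMap k M (c 6) * G ^ 2 * H +
        algebraMap k M (c 7) * G * H ^ 2 + algebraMap k M (c 8) * H ^ 3)
      (algebraMap k M (c 2) * G ^ 2 + algebraMap k M (c 3) * G * H + algebraMap k M (c 4) * H ^ 2)
      (algebraMap k M (c 0) * G + algebraMap k M (c 1) * H) 1 ≠ 0) :
    ∃ a b : M, x = a * G + b * H ∧ t_D (fun i => algebraMap k M (c i)) a b = 0 ∧
      ¬ AlgebraicIndependent k ![a, b] := by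
  obtain ⟨c', hc'⟩ : ∃ c' : Fin 9 → M, c' = fun i => algebraMap k M (c i) := ⟨_, rfl⟩
  have hci : ∀ i, c' i = algebraMap k M (c i) := fun i => by rw [hc']
  rw [← hc']
  obtain ⟨D, hDd⟩ : ∃ D : M[X], D = t_disc (C (t_C c' x G H)) (C (t_x c' x G H) * X + C (t_h c' x G H))
    (C (t_xx c' x G H) * X ^ 2 + C (t_xh c' x G H) * X + C (t_hh c' x G H))
    (X ^ 3 + C (c' 1) * X ^ 2 + C (c' 4) * X + C (c' 8)) := ⟨_, rfl⟩
  have h6 : D.coeff 6 ≠ 0 := by
    rw [hDd, t_poly, t_lead]
    simp only [hci]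
    exact hD
  have hev : ∀ b, D.eval b = G ^ 6 * t_D c' ((x - b * H) / G) b := by
    intro b
    rw [← t_change c' _ b x G H (by field_simp; ring), hDd]
    simp only [t_disc, t_3, eval_sub, eval_add, eval_mul, eval_pow, eval_C, eval_X, eval_ofNat]
  have hD0 : D ≠ 0 := fun h => h6 (by rw [h, coeff_zero])
  have hdeg : D.degree ≠ 0 := by
    intro h
    have h1 := natDegree_eq_of_degree_eq_some h
    exact h6 (coeff_eq_zero_of_natDegree_lt (by rw [h1]; norm_num))
  obtain ⟨b, hb⟩ := IsAlgClosed.exists_root D hdeg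
  have hG6 : G ^ 6 ≠ 0 := pow_ne_zero 6 hG
  refine ⟨(x - b * H) / G, b, by field_simp; ring, ?_, ?_⟩
  · have h1 := hev b
    rw [hb] at h1
    exact (mul_eq_zero.1 h1.symm).resolve_left hG6
  · obtain ⟨P, hP⟩ : ∃ P : MvPolynomial (Fin 2) k,
      P = t_D (fun i => MvPolynomial.C (c i)) (MvPolynomial.X 0) (MvPolynomial.X 1) := ⟨_, rfl⟩
    have hPe : ∀ u v : M, MvPolynomial.aeval ![u, v] P = t_D c' u v := by
      intro u v
      rw [hP, hc']
      simp only [t_D, t_disc, t_0, t_1, t_2, t_3, map_sub, map_add, map_mul, map_pow, map_ofNat,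
        MvPolynomial.aeval_X, MvPolynomial.aeval_C, Matrix.cons_val_zero, Matrix.cons_val_one]
    intro hind
    have h1 : MvPolynomial.aeval ![(x - b * H) / G, b] P = 0 := by
      rw [hPe]
      have h1 := hev b
      rw [hb] at h1
      exact (mul_eq_zero.1 h1.symm).resolve_left hG6
    have h2 : P = 0 := hind.eq_zero_of_aeval_eq_zero _ h1
    apply hD0
    refine Polynomial.funext fun b' => ?_
    rw [hev b', ← hPe, h2, map_zero, mul_zero, eval_zero]

/-- the second fibration, first case -/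
private theorem t_point' [IsAlgClosed M] (h2 : (2 : M) ≠ 0) (htd : Algebra.trdeg k M = 2)
    (c : Fin 9 → k) (z x y G H : M) (hGz : G ∈ IntermediateField.adjoin k {z})
    (hHz : H ∈ IntermediateField.adjoin k {z}) (hG : G ≠ 0)
    (hD : t_disc (algebraMap k M (c 5) * G ^ 3 + algebraMap k M (c 6) * G ^ 2 * H +
        algebraMap k M (c 7) * G * H ^ 2 + algebraMap k M (c 8) * H ^ 3)
      (algebraMap k M (c 2) * G ^ 2 + algebraMap k M (c 3) * G * H + algebraMap k M (c 4) * H ^ 2)
      (algebraMap k M (c 0) * G + algebraMap k M (c 1) * H) 1 ≠ 0)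
    (heq : y ^ 2 = t_C (fun i => algebraMap k M (c i)) x G H)
    (hal : ∀ b : M, IsAlgebraic (IntermediateField.adjoin k ({z, x, y} : Set M)) b) :
    ∃ (F₀ : IntermediateField k M) (l m : F₀) (w : M), F₀.FG ∧ Algebra.trdeg k F₀ = 1 ∧
      w ^ 2 = l * G + m * H ∧ x ∈ F₀ ⊔ IntermediateField.adjoin k ({w, z} : Set M) ∧
      y ∈ F₀ ⊔ IntermediateField.adjoin k ({w, z} : Set M) := by
  obtain ⟨a, b, hx, ht, hind⟩ := t_slope c x G H hG hD
  obtain ⟨F₁, hF₁⟩ : ∃ F₁, F₁ = IntermediateField.adjoin k ({a, b} : Set M) := ⟨_, rfl⟩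
  have hF₁td : Algebra.trdeg k F₁ ≤ 1 := by
    rw [hF₁]
    exact NOC.trdeg_pair hind
  have hF₁fg : F₁.FG := by
    rw [hF₁]
    exact ⟨{a, b}, by simp⟩
  have haF : a ∈ F₁ := by
    rw [hF₁]
    exact IntermediateField.subset_adjoin _ _ (by simp)
  have hbF : b ∈ F₁ := by
    rw [hF₁]
    exact IntermediateField.subset_adjoin _ _ (by simp)
  have hcl : IsAlgClosed (algebraicClosure F₁ M) := (inferInstance :
    IsAlgClosure F₁ (algebraicClosure F₁ M)).isAlgClosed
  have h2' : (2 : algebraicClosure F₁ M) ≠ 0 := by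
    intro h
    apply h2
    have h3 := congrArg (algebraMap (algebraicClosure F₁ M) M) h
    rwa [map_zero, map_ofNat] at h3
  obtain ⟨A, hA⟩ : ∃ A : algebraicClosure F₁ M, A = algebraMap F₁ _ ⟨a, haF⟩ := ⟨_, rfl⟩
  obtain ⟨B, hB⟩ : ∃ B : algebraicClosure F₁ M, B = algebraMap F₁ _ ⟨b, hbF⟩ := ⟨_, rfl⟩
  obtain ⟨ι, hι⟩ : ∃ ι : algebraicClosure F₁ M →+* M, ι = algebraMap _ M := ⟨_, rfl⟩
  have hιA : ι A = a := by rw [hι, hA]; rfl
  have hιB : ι B = b := by rw [hι, hB]; rfl
  obtain ⟨cc, hcc⟩ : ∃ cc : Fin 9 → algebraicClosure F₁ M, cc = fun i =>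
    algebraMap F₁ _ (algebraMap k F₁ (c i)) := ⟨_, rfl⟩
  have hιc : ∀ i, ι (cc i) = algebraMap k M (c i) := by
    intro i
    rw [hι, hcc]
    rfl
  have hιinj : Function.Injective ι := ι.injective
  have htz : t_disc (t_0 cc A) (t_1 cc A B) (t_2 cc A B) (t_3 cc B) = 0 := by
    apply hιinj
    rw [map_zero, ← ht]
    simp only [t_D, t_disc, t_0, t_1, t_2, t_3, map_sub, map_add, map_mul, map_pow, map_ofNat,
      hιA, hιB, hιc]
  obtain ⟨l, m, n, r, e0, e1, e2, e3⟩ := t_fac h2' _ _ _ _ htz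
  -- the form
  have f0 : t_0 (fun i => algebraMap k M (c i)) a = ι l * ι n ^ 2 := by
    rw [← map_pow, ← map_mul, ← e0]
    simp only [t_0, map_add, map_mul, map_pow, hιA, hιc]
  have f1 : t_1 (fun i => algebraMap k M (c i)) a b = 2 * ι l * ι n * ι r + ι m * ι n ^ 2 := by
    have := congrArg ι e1
    simp only [t_1, map_add, map_mul, map_pow, map_ofNat, hιA, hιB, hιc] at this
    rw [t_1, this]
  have f2 : t_2 (fun i => algebraMap k M (c i)) a b = ι l * ι r ^ 2 + 2 * ι m * ι n * ι r := by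
    have := congrArg ι e2
    simp only [t_2, map_add, map_mul, map_pow, map_ofNat, hιA, hιB, hιc] at this
    rw [t_2, this]
  have f3 : t_3 (fun i => algebraMap k M (c i)) b = ι m * ι r ^ 2 := by
    have := congrArg ι e3
    simp only [t_3, map_add, map_mul, map_pow, hιB, hιc] at this
    rw [t_3, this]
  have hy2 : y ^ 2 = (ι l * G + ι m * H) * (ι n * G + ι r * H) ^ 2 := by
    rw [heq, hx, t_expand, f0, f1, f2, f3]
    ring
  obtain ⟨F₀, hF₀⟩ : ∃ F₀, F₀ = F₁ ⊔ IntermediateField.adjoin k ({ι l, ι m, ι n, ι r} : Set M) :=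
    ⟨_, rfl⟩
  have hsub : ∀ u ∈ ({ι l, ι m, ι n, ι r} : Set M), u ∈ F₀ := fun u hu => by
    rw [hF₀]
    exact (le_sup_right : IntermediateField.adjoin k ({ι l, ι m, ι n, ι r} : Set M) ≤ _)
      (IntermediateField.subset_adjoin _ _ hu)
  have hlF : ι l ∈ F₀ := hsub _ (by simp)
  have hmF : ι m ∈ F₀ := hsub _ (by simp)
  have hnF : ι n ∈ F₀ := hsub _ (by simp)
  have hrF : ι r ∈ F₀ := hsub _ (by simp)
  have hF₁F₀ : F₁ ≤ F₀ := by
    rw [hF₀]
    exact le_sup_left
  have hialg : ∀ u : algebraicClosure F₁ M, IsAlgebraic F₁ (ι u) := by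
    intro u
    rw [hι]
    exact mem_algebraicClosure_iff.1 u.2
  have htd0 : Algebra.trdeg k F₀ = Algebra.trdeg k F₁ := by
    rw [hF₀]
    refine t_trdeg F₁ _ ?_
    rintro u (rfl | rfl | rfl | rfl)
    · exact hialg l
    · exact hialg m
    · exact hialg n
    · exact hialg r
  -- the double covering
  obtain ⟨w, hw⟩ : ∃ w : M, w ^ 2 = ι l * G + ι m * H ∧ y = w * (ι n * G + ι r * H) := by
    by_cases h0 : ι n * G + ι r * H = 0
    · obtain ⟨w, hw⟩ := IsAlgClosed.exists_pow_nat_eq (ι l * G + ι m * H) (n := 2) (by norm_num)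
      refine ⟨w, hw, ?_⟩
      rw [h0, mul_zero]
      rw [h0] at hy2
      exact pow_eq_zero_iff two_ne_zero |>.1 (by rw [hy2]; ring)
    · refine ⟨y / (ι n * G + ι r * H), ?_, by field_simp⟩
      rw [div_pow, hy2, mul_div_cancel_right₀ _ (pow_ne_zero 2 h0)]
  obtain ⟨B₀, hB₀⟩ : ∃ B₀, B₀ = F₀ ⊔ IntermediateField.adjoin k ({w, z} : Set M) := ⟨_, rfl⟩
  have hF₀B : F₀ ≤ B₀ := by
    rw [hB₀]
    exact le_sup_left
  have hadB : IntermediateField.adjoin k ({w, z} : Set M) ≤ B₀ := by
    rw [hB₀]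
    exact le_sup_right
  have hwB : w ∈ B₀ := hadB (IntermediateField.subset_adjoin _ _ (by simp))
  have hzB : z ∈ B₀ := hadB (IntermediateField.subset_adjoin _ _ (by simp))
  have hzle : IntermediateField.adjoin k {z} ≤ B₀ := by
    rw [IntermediateField.adjoin_simple_le_iff]
    exact hzB
  have hGB : G ∈ B₀ := hzle hGz
  have hHB : H ∈ B₀ := hzle hHz
  have hxB : x ∈ B₀ := by
    rw [hx]
    exact add_mem (mul_mem (hF₀B (hF₁F₀ haF)) hGB) (mul_mem (hF₀B (hF₁F₀ hbF)) hHB)
  have hyB : y ∈ B₀ := by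
    rw [hw.2]
    exact mul_mem hwB (add_mem (mul_mem (hF₀B hnF) hGB) (mul_mem (hF₀B hrF) hHB))
  -- the transcendence degree
  have hne : Algebra.trdeg k F₀ ≠ 0 := by
    refine t_ne htd F₀ z fun u => ?_
    obtain ⟨B₁, hB₁⟩ : ∃ B₁, B₁ = F₀ ⊔ IntermediateField.adjoin k ({z} : Set M) := ⟨_, rfl⟩
    rw [← hB₁]
    have h3 : ∀ v ∈ B₁, IsAlgebraic B₁ v := fun v hv => isAlgebraic_algebraMap (⟨v, hv⟩ : B₁)
    have hFB₁ : F₀ ≤ B₁ := by
      rw [hB₁]
      exact le_sup_left
    have hzB₁ : IntermediateField.adjoin k ({z} : Set M) ≤ B₁ := by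
      rw [hB₁]
      exact le_sup_right
    have h4 : IsAlgebraic B₁ w := by
      refine IsAlgebraic.of_pow (n := 2) (by norm_num) ?_
      rw [hw.1]
      exact h3 _ (add_mem (mul_mem (hFB₁ hlF) (hzB₁ hGz)) (mul_mem (hFB₁ hmF) (hzB₁ hHz)))
    have h5 : ∀ v ∈ B₀, IsAlgebraic B₁ v := by
      intro v hv
      have h6 : B₀ ≤ (algebraicClosure B₁ M).restrictScalars k := by
        rw [hB₀]
        refine sup_le (fun v hv => mem_algebraicClosure_iff.2 (h3 v (hFB₁ hv))) ?_
        rw [IntermediateField.adjoin_le_iff]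
        rintro v (rfl | hv)
        · exact mem_algebraicClosure_iff.2 h4
        · rw [Set.mem_singleton_iff.1 hv]
          exact mem_algebraicClosure_iff.2 (h3 z (hzB₁ (IntermediateField.mem_adjoin_simple_self k z)))
      exact mem_algebraicClosure_iff.1 (h6 hv)
    have h7 : IntermediateField.adjoin k ({z, x, y} : Set M) ≤ B₀ := by
      rw [IntermediateField.adjoin_le_iff]
      rintro v (rfl | rfl | hv)
      · exact hzB
      · exact hxB
      · rw [Set.mem_singleton_iff.1 hv]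
        exact hyB
    refine algTrans (K := B₀) _ (fun v => h5 v v.2) u (alg_le h7 (hal u))
  refine ⟨F₀, ⟨ι l, hlF⟩, ⟨ι m, hmF⟩, w, ?_, ?_, hw.1, ?_, ?_⟩
  · rw [hF₀]
    exact IntermediateField.fg_sup hF₁fg ⟨{ι l, ι m, ι n, ι r}, by simp⟩
  · exact le_antisymm (htd0 ▸ hF₁td) (Cardinal.one_le_iff_ne_zero.2 hne)
  · rw [← hB₀]
    exact hxB
  · rw [← hB₀]
    exact hyB

/-- **The second fibration** of the surface `y² = C(x, g, h)`: the function field is contained in
`F₀(w, z)`, `w² = l g + m h`, where `F₀` has transcendence degree one. -/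
theorem t_point [IsAlgClosed M] (h2 : (2 : M) ≠ 0) (htd : Algebra.trdeg k M = 2)
    (c : Fin 9 → k) (z x y G H : M) (hGz : G ∈ IntermediateField.adjoin k {z})
    (hHz : H ∈ IntermediateField.adjoin k {z})
    (hD : t_disc (algebraMap k M (c 5) * G ^ 3 + algebraMap k M (c 6) * G ^ 2 * H +
        algebraMap k M (c 7) * G * H ^ 2 + algebraMap k M (c 8) * H ^ 3)
      (algebraMap k M (c 2) * G ^ 2 + algebraMap k M (c 3) * G * H + algebraMap k M (c 4) * H ^ 2)
      (algebraMap k M (c 0) * G + algebraMap k M (c 1) * H) 1 ≠ 0)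
    (heq : y ^ 2 = t_C (fun i => algebraMap k M (c i)) x G H)
    (hal : ∀ b : M, IsAlgebraic (IntermediateField.adjoin k ({z, x, y} : Set M)) b) :
    ∃ (F₀ : IntermediateField k M) (l m : F₀) (w : M), F₀.FG ∧ Algebra.trdeg k F₀ = 1 ∧
      w ^ 2 = l * G + m * H ∧ x ∈ F₀ ⊔ IntermediateField.adjoin k ({w, z} : Set M) ∧
      y ∈ F₀ ⊔ IntermediateField.adjoin k ({w, z} : Set M) := by
  by_cases hG : G = 0
  · have hH : H ≠ 0 := by
      rintro rfl
      apply hD
      rw [hG]
      unfold t_disc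
      ring
    obtain ⟨F₀, l, m, w, h3, h4, h5, h6, h7⟩ := t_point' h2 htd
      ![c 1, c 0, c 4, c 3, c 2, c 8, c 7, c 6, c 5] z x y H G hHz hGz hH (by
        intro h
        apply hD
        rw [← h]
        show _ = t_disc (algebraMap k M (c 8) * H ^ 3 + algebraMap k M (c 7) * H ^ 2 * G +
          algebraMap k M (c 6) * H * G ^ 2 + algebraMap k M (c 5) * G ^ 3)
          (algebraMap k M (c 4) * H ^ 2 + algebraMap k M (c 3) * H * G +
            algebraMap k M (c 2) * G ^ 2)
          (algebraMap k M (c 1) * H + algebraMap k M (c 0) * G) 1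
        unfold t_disc
        ring) (by
        rw [heq]
        show t_C _ x G H = x ^ 3 + (algebraMap k M (c 1) * H + algebraMap k M (c 0) * G) * x ^ 2 +
          (algebraMap k M (c 4) * H ^ 2 + algebraMap k M (c 3) * H * G +
            algebraMap k M (c 2) * G ^ 2) * x +
          (algebraMap k M (c 8) * H ^ 3 + algebraMap k M (c 7) * H ^ 2 * G +
            algebraMap k M (c 6) * H * G ^ 2 + algebraMap k M (c 5) * G ^ 3)
        unfold t_C
        ring) hal
    exact ⟨F₀, m, l, w, h3, h4, by rw [h5]; ring, h6, h7⟩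
  · exact t_point' h2 htd c z x y G H hGz hHz hG hD heq hal

end

end Pool.Agent.QD
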