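import Pool.Agent.QD.T2

/-!
# The curves `y² = C(x, g(s), h(s))`, `C` a ternary cubic form
-/

set_option autoImplicit false

namespace Pool.Agent.QD

open Polynomial Pool.Agent.TUQ Pool.Agent.WLD Pool.Agent.ADT Pool.Agent.UQ WeierstrassCurve
  WeierstrassCurve.Affine Pool.Agent.EFF

open scoped Classical

/-- the property of `g`, `h` that is used: the fields between `F₀(v, s)`, `v ^ 2 = a g(s) + b h(s)`,
where `F₀` has transcendence degree one and `a`, `b` are elements of `F₀` -/
def TEmt (k : Type) [Field k] (g h : k[X]) : Prop :=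
  ∀ (M : Type) [Field M] [Algebra k M] [IsAlgClosed M], Algebra.trdeg k M = 2 →
    ∀ (F₀ : IntermediateField k M) (v s : M), F₀.FG → Algebra.trdeg k F₀ = 1 →
      (∀ y : M, IsAlgebraic
        (F₀ ⊔ IntermediateField.adjoin k ({v, s} : Set M) : IntermediateField k M) y) →
      ∀ F : IntermediateField k M, F ≤ F₀ ⊔ IntermediateField.adjoin k ({v, s} : Set M) →
        (∀ y : M, IsAlgebraic F y) → ∀ a b : F₀,
          v ^ 2 = a * aeval s g + b * aeval s h → Emt F

/-- `p` is odd, `K = k(s)`, and `E : y² = C(x, g(s), h(s))`, where `C` is a cubic form -/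
theorem sha_T {k K Kb : Type} [Field k] [Finite k] [Field K] [Field Kb] [Algebra k K]
    [Algebra k Kb] [Algebra K Kb] [IsScalarTower k K Kb] [IsAlgClosed Kb]
    [Algebra.IsAlgebraic K Kb] (p : ℕ) [Fact p.Prime] [CharP k p] (hp2 : p ≠ 2) (s : K)
    (hs : Transcendental k s) (W : WeierstrassCurve k[X]) (hΔ : W.Δ ≠ 0)
    (c : Fin 9 → k) (g h : k[X]) (hgh : TEmt k g h) (w1 : W.a₁ = 0) (w3 : W.a₃ = 0)
    (w2 : W.a₂ = C (c 0) * g + C (c 1) * h)
    (w4 : W.a₄ = C (c 2) * g ^ 2 + C (c 3) * g * h + C (c 4) * h ^ 2)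
    (w6 : W.a₆ = C (c 5) * g ^ 3 + C (c 6) * g ^ 2 * h + C (c 7) * g * h ^ 2 + C (c 8) * h ^ 3)
    (hK : IntermediateField.adjoin k {s} = ⊤)
    (ℓ : ℕ) (hℓ : ℓ.Prime) (hℓk : (ℓ : k) ≠ 0)
    (d : ℕ → (Kb ≃ₐ[K] Kb) → Pts (Ws W s) Kb) (hd : ShaSys (Ws W s) k ℓ d) (n : ℕ) :
    Principal (Ws W s) (T1B.geo k K Kb) (d n) := by
  have hS : ∀ z ∈ (∅ : Finset Kb), ∃ φ F : k[X], φ.natDegree ≠ 0 ∧
      aeval z φ = aeval (algebraMap K Kb s) F := fun z hz => absurd hz (Finset.notMem_empty z)
  have hK' : ∀ b : K, algebraMap K Kb b ∈ IntermediateField.adjoin k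
      (insert (algebraMap K Kb s) ((∅ : Finset Kb) : Set Kb)) := by
    intro b
    let ι : K →ₐ[k] Kb := IsScalarTower.toAlgHom k K Kb
    have h1 : (IntermediateField.adjoin k {s}).map ι ≤ IntermediateField.adjoin k
        (insert (algebraMap K Kb s) ((∅ : Finset Kb) : Set Kb)) := by
      rw [IntermediateField.adjoin_map, Set.image_singleton, IntermediateField.adjoin_le_iff,
        Set.singleton_subset_iff]
      exact IntermediateField.subset_adjoin _ _ (Or.inl rfl)
    exact h1 ⟨b, by rw [hK]; exact IntermediateField.mem_top, rfl⟩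
  obtain ⟨M, _, _, _, _, x, y, t1, t2, t3, hM, htd, hx, hy, hal⟩ := setup s hs ∅ hS hK' W
  have hsM : Transcendental k (algebraMap K M s) :=
    (transcendental_algebraMap_iff (algebraMap K M).injective).2 hs
  obtain ⟨z, hz⟩ : ∃ z, z = algebraMap K M s := ⟨_, rfl⟩
  rw [← hz] at hsM
  have hCM : CharP M p := charP_of_injective_algebraMap (algebraMap k M).injective p
  have hM2 : (2 : M) ≠ 0 := by
    intro h2
    have h3 : ((2 : ℕ) : M) = 0 := by exact_mod_cast h2
    rw [CharP.cast_eq_zero_iff M p] at h3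
    exact hp2 ((Nat.prime_dvd_prime_iff_eq Fact.out Nat.prime_two).1 h3)
  obtain ⟨G, hG⟩ : ∃ G, G = aeval z g := ⟨_, rfl⟩
  obtain ⟨H, hH⟩ : ∃ H, H = aeval z h := ⟨_, rfl⟩
  have hmem : ∀ q : k[X], aeval z q ∈ IntermediateField.adjoin k {z} := fun q =>
    IntermediateField.algebra_adjoin_le_adjoin k {z} (Polynomial.aeval_mem_adjoin_singleton k z)
  have hGz : G ∈ IntermediateField.adjoin k {z} := by
    rw [hG]
    exact hmem g
  have hHz : H ∈ IntermediateField.adjoin k {z} := by
    rw [hH]
    exact hmem h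
  have hD : t_disc (algebraMap k M (c 5) * G ^ 3 + algebraMap k M (c 6) * G ^ 2 * H +
        algebraMap k M (c 7) * G * H ^ 2 + algebraMap k M (c 8) * H ^ 3)
      (algebraMap k M (c 2) * G ^ 2 + algebraMap k M (c 3) * G * H + algebraMap k M (c 4) * H ^ 2)
      (algebraMap k M (c 0) * G + algebraMap k M (c 1) * H) 1 ≠ 0 := by
    have h1 : W.Δ = 16 * t_disc W.a₆ W.a₄ W.a₂ 1 := by
      rw [WeierstrassCurve.Δ, WeierstrassCurve.b₂, WeierstrassCurve.b₄, WeierstrassCurve.b₆,
        WeierstrassCurve.b₈, w1, w3, t_disc]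
      ring
    intro h2
    apply hΔ
    apply transcendental_iff_injective.1 hsM
    rw [map_zero, h1, w2, w4, w6]
    simp only [t_disc, map_mul, map_add, map_sub, map_pow, map_ofNat, map_one, aeval_C, ← hG, ← hH]
    rw [t_disc] at h2
    linear_combination 16 * h2
  have heq : y ^ 2 = t_C (fun i => algebraMap k M (c i)) x G H := by
    have h1 := hy
    rw [aeval_wpoly, w1, w3, w4, w2, w6] at h1
    simp only [Matrix.cons_val_zero, Matrix.cons_val_one, Matrix.cons_val, map_zero,
      map_mul, map_pow, map_add, aeval_C, ← hz, ← hG, ← hH] at h1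
    rw [t_C]
    linear_combination h1
  have hal0 : ∀ w : M, IsAlgebraic (IntermediateField.adjoin k ({z, x, y} : Set M)) w := by
    have h1 : IntermediateField.adjoin k (Set.range ![x, y, algebraMap K M s]) ≤
        IntermediateField.adjoin k ({z, x, y} : Set M) := by
      rw [IntermediateField.adjoin_le_iff]
      rintro _ ⟨i, rfl⟩
      fin_cases i
      · exact IntermediateField.subset_adjoin _ _ (by simp)
      · exact IntermediateField.subset_adjoin _ _ (by simp)
      · show algebraMap K M s ∈ _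
        rw [← hz]
        exact IntermediateField.subset_adjoin _ _ (by simp)
    exact fun w => alg_le h1 (hal w)
  obtain ⟨F₀, l, m, w, hF₀, hF₀td, hw, hxw, hyw⟩ := t_point hM2 htd c z x y G H hGz hHz hD heq hal0
  obtain ⟨A, hA⟩ : ∃ A, A = F₀ ⊔ IntermediateField.adjoin k ({w, z} : Set M) := ⟨_, rfl⟩
  have hzA : z ∈ A := by
    rw [hA]
    exact (le_sup_right : IntermediateField.adjoin k ({w, z} : Set M) ≤ _)
      (IntermediateField.subset_adjoin _ _ (by simp))
  have hxA : x ∈ A := by
    rw [hA]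
    exact hxw
  have hyA : y ∈ A := by
    rw [hA]
    exact hyw
  have hle3 : IntermediateField.adjoin k (Set.range ![x, y, algebraMap K M s]) ≤ A := by
    rw [IntermediateField.adjoin_le_iff]
    rintro _ ⟨i, rfl⟩
    fin_cases i
    · exact hxA
    · exact hyA
    · show algebraMap K M s ∈ A
      rw [← hz]
      exact hzA
  have hal' : ∀ b : M, IsAlgebraic A b := fun b => alg_le hle3 (hal b)
  obtain ⟨F, hF⟩ : ∃ F : IntermediateField K M, F = IntermediateField.adjoin K {x, y} := ⟨_, rfl⟩
  have hxF : x ∈ F := by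
    rw [hF]
    exact IntermediateField.subset_adjoin _ _ (by simp)
  have hyF : y ∈ F := by
    rw [hF]
    exact IntermediateField.subset_adjoin _ _ (by simp)
  have hsub : IntermediateField.adjoin k (Set.range ![x, y, algebraMap K M s]) ≤
      F.restrictScalars k := by
    rw [IntermediateField.adjoin_le_iff]
    rintro _ ⟨i, rfl⟩
    fin_cases i
    · exact hxF
    · exact hyF
    · exact F.algebraMap_mem s
  have hFal : ∀ b : M, IsAlgebraic (F.restrictScalars k) b := fun b => alg_le hsub (hal b)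
  have hKM : ∀ b : K, algebraMap K M b ∈ A := by
    intro b
    let ι : K →ₐ[k] M := IsScalarTower.toAlgHom k K M
    have h1 : (IntermediateField.adjoin k {s}).map ι ≤ A := by
      rw [IntermediateField.adjoin_map, Set.image_singleton, IntermediateField.adjoin_le_iff,
        Set.singleton_subset_iff]
      show algebraMap K M s ∈ A
      rw [← hz]
      exact hzA
    exact h1 ⟨b, by rw [hK]; exact IntermediateField.mem_top, rfl⟩
  have hle : F.restrictScalars k ≤ A := by
    let A' : IntermediateField K M := A.toSubfield.toIntermediateField hKM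
    have hFA : F ≤ A' := by
      rw [hF, IntermediateField.adjoin_le_iff]
      rintro b (rfl | hb)
      · exact hxA
      · rw [Set.mem_singleton_iff.1 hb]
        exact hyA
    exact fun b hb => hFA hb
  rw [hA] at hal' hle
  have hemt : Emt (F.restrictScalars k) := hgh M htd F₀ w z hF₀ hF₀td hal' _ hle hFal l m (by
    rw [hw, hG, hH])
  have hT1 : T1B.T1 k F ℓ := t1_of_emt (F.restrictScalars k) hFal hemt ℓ hℓ hℓk
  exact bridge s hs (alg_K' s ∅ hS hK') W hΔ x y hx hy F hF ℓ hℓ hℓk hT1 d hd n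

end Pool.Agent.QD
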